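import Pool.Agent.H4R2.LO.Fm
import Pool.Agent.H4R2.LO.Ct
import Pool.Agent.H4R2.LO.Em

/-! Initial scale estimate from many independent annuli (helper663). -/

set_option autoImplicit false
set_option linter.unusedSectionVars false

open scoped BigOperators ENNReal
open MeasureTheory

namespace Pool.Agent.Y663.D2.An

open Pool.Agent.H4R2.LO
open Pool.Agent.H4R2.LO.Fm

variable {ι : Type*} [Fintype ι] [DecidableEq ι]

/-- second resolvent expansion, general starting point -/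
theorem exp2' {A : Matrix ι ι ℝ} {lam : ℝ} {V : ι → ℝ} {E : ℝ} {δ : ι → ι → ℕ}
    (hδt : ∀ i j k, δ i k ≤ δ i j + δ j k) (hδ1 : ∀ i j, A i j ≠ 0 → δ i j ≤ 1) (R : ℕ)
    (Ω : Finset ι) (x y u' : ι) (hy : y ∈ Ω) (hxy : R + 1 ≤ δ x y)
    (hu'2 : δ x u' ≤ R)
    (hdet : IsUnit (Hm (cut A Ω) lam V E).det)
    (hdet2 : IsUnit (Hm (cut A (Ω.filter fun z => R + 1 ≤ δ x z)) lam V E).det) :
    Gr (cut A Ω) lam V E u' y = -∑ v ∈ Ω.filter (fun z => δ x z = R),
      ∑ v' ∈ Ω.filter (fun z => δ x z = R + 1),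
        Gr (cut A Ω) lam V E u' v * A v v' *
          Gr (cut A (Ω.filter fun z => R + 1 ≤ δ x z)) lam V E v' y := by
  set O2 := Ω.filter fun z => R + 1 ≤ δ x z with hO2
  have hy2 : y ∈ O2 := by
    rw [hO2, Finset.mem_filter]
    exact ⟨hy, hxy⟩
  have hu2 : u' ∉ O2 := by
    rw [hO2, Finset.mem_filter]
    exact fun h => absurd h.2 (by omega)
  have e1 : Gr (cut A Ω) lam V E = Gr (cut A O2) lam V E - Gr (cut A Ω) lam V E *
      (Hm (cut A Ω) lam V E - Hm (cut A O2) lam V E) * Gr (cut A O2) lam V E := by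
    rw [Matrix.mul_sub, Matrix.sub_mul]
    have h1 : Hm (cut A O2) lam V E * Gr (cut A O2) lam V E = 1 := by
      unfold Gr
      exact Matrix.mul_nonsing_inv _ hdet2
    have h2 : Gr (cut A Ω) lam V E * Hm (cut A Ω) lam V E = 1 := by
      unfold Gr
      exact Matrix.nonsing_inv_mul _ hdet
    rw [h2, Matrix.mul_assoc (Gr (cut A Ω) lam V E), h1, Matrix.mul_one, Matrix.one_mul]
    abel
  have e2 : Gr (cut A Ω) lam V E u' y = Gr (cut A O2) lam V E u' y - ∑ v, ∑ v',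
      Gr (cut A Ω) lam V E u' v * (cut A Ω v v' - cut A O2 v v') *
        Gr (cut A O2) lam V E v' y := by
    have := congrFun (congrFun e1 u') y
    rw [Matrix.sub_apply, Matrix.mul_apply] at this
    rw [this]
    congr 1
    rw [Finset.sum_comm]
    apply Finset.sum_congr rfl
    intro v' _
    rw [Matrix.mul_apply, Finset.sum_mul]
    apply Finset.sum_congr rfl
    intro v _
    rw [diff_apply]
  rw [e2, Gr_off' hdet2 hu2 hy2, zero_sub]
  congr 1
  apply sum2
  · intro v hv v' hv'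
    rw [Finset.mem_filter] at hv hv'
    have a1 : cut A Ω v v' = A v v' := by
      unfold cut
      exact if_pos ⟨hv.1, hv'.1⟩
    have a2 : cut A O2 v v' = 0 := by
      unfold cut
      apply if_neg
      rintro ⟨h, _⟩
      rw [hO2, Finset.mem_filter, hv.2] at h
      omega
    rw [a1, a2, sub_zero]
  · intro v v' hn
    by_cases hv' : v' ∈ O2
    · by_cases hv : v ∈ O2
      · have a1 : cut A Ω v v' = A v v' := by
          unfold cut
          exact if_pos ⟨(Finset.mem_filter.1 hv).1, (Finset.mem_filter.1 hv').1⟩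
        have a2 : cut A O2 v v' = A v v' := by
          unfold cut
          exact if_pos ⟨hv, hv'⟩
        rw [a1, a2, sub_self, mul_zero, zero_mul]
      · have a2 : cut A O2 v v' = 0 := by
          unfold cut
          exact if_neg fun h => hv h.1
        by_cases hΩ : v ∈ Ω
        · have a0 : A v v' = 0 := by
            by_contra hne
            have b1 := hδ1 v v' hne
            rw [hO2, Finset.mem_filter] at hv hv'
            have b2 := hδt x v v'
            have b3 : δ x v < R + 1 := by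
              by_contra hcon
              exact hv ⟨hΩ, by omega⟩
            apply hn
            rw [Finset.mem_filter, Finset.mem_filter]
            exact ⟨⟨hΩ, by omega⟩, hv'.1, by omega⟩
          have a1 : cut A Ω v v' = 0 := by
            unfold cut
            rw [a0, ite_self]
          rw [a1, a2, sub_self, mul_zero, zero_mul]
        · have a1 : cut A Ω v v' = 0 := by
            unfold cut
            exact if_neg fun h => hΩ h.1
          rw [a1, a2, sub_self, mul_zero, zero_mul]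
    · rw [Gr_off' hdet2 hv' hy2, mul_zero]

/-- the `k`-th annulus -/
def ann (δ : ι → ι → ℕ) (W : ℕ) (Ω : Finset ι) (x : ι) (k : ℕ) : Finset ι :=
  Ω.filter fun z => k * W + 1 ≤ δ x z ∧ δ x z ≤ (k + 1) * W

/-- on the event that the `k`-th annulus is good -/
theorem good_k {A : Matrix ι ι ℝ} (hA : A.IsSymm) (h1 : ∀ i j, |A i j| ≤ 1) (Dg : ℝ) (hDg : 1 ≤ Dg)
    (hrow : ∀ i, ∑ j, |A i j| ≤ Dg) {lam : ℝ} {V : ι → ℝ} {E κ : ℝ} (hκ : 0 < κ) (hκ' : κ ≤ 1)
    {δ : ι → ι → ℕ} (hδ0 : ∀ i, δ i i = 0) (hδs : ∀ i j, δ i j = δ j i)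
    (hδt : ∀ i j k, δ i k ≤ δ i j + δ j k) (hδ1 : ∀ i j, A i j ≠ 0 → δ i j ≤ 1) (W k : ℕ)
    (hW : 1 ≤ W) (Ω : Finset ι) (x u : ι) (hx : x ∈ Ω) (hu : u ∈ Ω) (hxu : (k + 1) * W < δ x u)
    (hdet : IsUnit (Hm (cut A Ω) lam V E).det)
    (hdet1 : IsUnit (Hm (cut A (Ω.filter fun z => δ x z ≤ (k + 1) * W)) lam V E).det)
    (hdet2 : IsUnit (Hm (cut A (ann δ W Ω x k)) lam V E).det)
    (hFB : FB A (ann δ W Ω x k) lam V (E + κ)) :
    ‖Gr (cut A Ω) lam V E x u‖ₑ ^ (1 / 4 : ℝ) ≤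
      ∑ p ∈ (Ω.filter fun z => δ x z = (k + 1) * W) ×ˢ
          (Ω.filter fun z => δ x z = (k + 1) * W + 1) ×ˢ
          (Ω.filter fun z => δ x z = k * W) ×ˢ (Ω.filter fun z => δ x z = k * W + 1),
        ENNReal.ofReal (2 / κ * Real.exp (-(Real.sqrt (κ / (4 * Dg)) * (W - 1) / 4))) *
          (‖Gr (cut A (Ω.filter fun z => δ x z ≤ (k + 1) * W)) lam V E x p.2.2.1‖ₑ ^ (1 / 4 : ℝ) *
          ‖Gr (cut A Ω) lam V E p.2.1 u‖ₑ ^ (1 / 4 : ℝ)) := by
  set O1 := Ω.filter fun z => δ x z ≤ (k + 1) * W with hO1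
  have hkW : k * W + 1 ≤ (k + 1) * W := by nlinarith
  have hann : ann δ W Ω x k = O1.filter fun z => k * W + 1 ≤ δ x z := by
    unfold ann
    rw [hO1, Finset.filter_filter]
    congr 1
    funext z
    rw [and_comm]
  have e1 := exp1 hδt hδ1 ((k + 1) * W) Ω x u hx (hδ0 x) hu hxu hdet hdet1
  rw [← hO1] at e1
  have e2 : ∀ a ∈ Ω.filter (fun z => δ x z = (k + 1) * W),
      Gr (cut A O1) lam V E x a = -∑ b ∈ Ω.filter (fun z => δ x z = k * W),
      ∑ b' ∈ Ω.filter (fun z => δ x z = k * W + 1),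
        Gr (cut A O1) lam V E x b * A b b' *
          Gr (cut A (ann δ W Ω x k)) lam V E b' a := by
    intro a ha
    rw [Finset.mem_filter] at ha
    have haO : a ∈ O1 := by
      rw [hO1, Finset.mem_filter]
      exact ⟨ha.1, ha.2.le⟩
    have h := exp2' hδt hδ1 (k * W) O1 x a x haO (by rw [ha.2]; exact hkW) (by rw [hδ0]; omega)
      hdet1 (by rw [← hann]; exact hdet2)
    rw [← hann] at h
    have f1 : O1.filter (fun z => δ x z = k * W) = Ω.filter (fun z => δ x z = k * W) := by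
      rw [hO1, Finset.filter_filter]
      congr 1
      funext z
      apply propext
      constructor
      · exact fun h => h.2
      · exact fun h => ⟨by omega, h⟩
    have f2 : O1.filter (fun z => δ x z = k * W + 1) = Ω.filter (fun z => δ x z = k * W + 1) := by
      rw [hO1, Finset.filter_filter]
      congr 1
      funext z
      apply propext
      constructor
      · exact fun h => h.2
      · exact fun h => ⟨by omega, h⟩
    rw [f1, f2] at h
    exact h
  have e3 : Gr (cut A Ω) lam V E x u =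
      ∑ p ∈ (Ω.filter fun z => δ x z = (k + 1) * W) ×ˢ
          (Ω.filter fun z => δ x z = (k + 1) * W + 1) ×ˢ
          (Ω.filter fun z => δ x z = k * W) ×ˢ (Ω.filter fun z => δ x z = k * W + 1),
        Gr (cut A O1) lam V E x p.2.2.1 * A p.2.2.1 p.2.2.2 *
          Gr (cut A (ann δ W Ω x k)) lam V E p.2.2.2 p.1 * A p.1 p.2.1 *
            Gr (cut A Ω) lam V E p.2.1 u := by
    rw [e1, Finset.sum_product, ← Finset.sum_neg_distrib]
    refine Finset.sum_congr rfl fun a ha => ?_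
    rw [Finset.sum_product, ← Finset.sum_neg_distrib]
    refine Finset.sum_congr rfl fun a' _ => ?_
    rw [e2 a ha, Finset.sum_product]
    simp only [neg_mul, neg_neg, Finset.sum_mul]
  rw [e3]
  refine (enorm_rpow_sum _ _).trans (Finset.sum_le_sum fun p hp => ?_)
  rw [Finset.mem_product, Finset.mem_product, Finset.mem_product] at hp
  simp only [Finset.mem_filter] at hp
  obtain ⟨⟨ha, ha2⟩, _, ⟨hb, hb2⟩, hb', hb'2⟩ := hp
  have hA1 : ∀ i j, ‖A i j‖ₑ ^ (1 / 4 : ℝ) ≤ 1 := by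
    intro i j
    apply ENNReal.rpow_le_one _ (by norm_num)
    rw [← ofReal_norm, Real.norm_eq_abs]
    exact ENNReal.ofReal_le_one.2 (h1 i j)
  have hct : ‖Gr (cut A (ann δ W Ω x k)) lam V E p.2.2.2 p.1‖ₑ ^ (1 / 4 : ℝ) ≤
      ENNReal.ofReal (2 / κ * Real.exp (-(Real.sqrt (κ / (4 * Dg)) * (W - 1) / 4))) := by
    have h2 := Ct.ct A hA Dg hDg hrow δ hδ0 hδs hδt hδ1 (ann δ W Ω x k) lam V E κ hκ hκ' hFB
      p.2.2.2 p.1 (by
        unfold ann
        rw [Finset.mem_filter, hb'2]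
        exact ⟨hb', le_rfl, hkW⟩) (by
        unfold ann
        rw [Finset.mem_filter, ha2]
        exact ⟨ha, hkW, le_rfl⟩)
    have h3 : (W : ℝ) - 1 ≤ δ p.2.2.2 p.1 := by
      have h4 := hδt x p.2.2.2 p.1
      rw [ha2, hb'2] at h4
      have h5 : W ≤ 1 + δ p.2.2.2 p.1 := by nlinarith
      have h6 : (W : ℝ) ≤ 1 + δ p.2.2.2 p.1 := by exact_mod_cast h5
      linarith
    rw [Real.enorm_eq_ofReal_abs, ENNReal.ofReal_rpow_of_nonneg (abs_nonneg _) (by norm_num)]
    apply ENNReal.ofReal_le_ofReal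
    have h4 : 1 ≤ 2 / κ := by
      rw [le_div_iff₀ hκ]
      linarith
    calc |Gr (cut A (ann δ W Ω x k)) lam V E p.2.2.2 p.1| ^ (1 / 4 : ℝ)
        ≤ (2 / κ * Real.exp (-(Real.sqrt (κ / (4 * Dg)) * (W - 1)))) ^ (1 / 4 : ℝ) := by
          refine Real.rpow_le_rpow (abs_nonneg _) (h2.trans ?_) (by norm_num)
          refine mul_le_mul_of_nonneg_left (Real.exp_le_exp.2 ?_) (by positivity)
          exact neg_le_neg (mul_le_mul_of_nonneg_left h3 (Real.sqrt_nonneg _))
      _ = (2 / κ) ^ (1 / 4 : ℝ) *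
          Real.exp (-(Real.sqrt (κ / (4 * Dg)) * (W - 1))) ^ (1 / 4 : ℝ) :=
          Real.mul_rpow (by positivity) (Real.exp_pos _).le
      _ = (2 / κ) ^ (1 / 4 : ℝ) * Real.exp (-(Real.sqrt (κ / (4 * Dg)) * (W - 1) / 4)) := by
          rw [← Real.exp_mul]
          congr 2
          ring
      _ ≤ (2 / κ) ^ (1 : ℝ) * Real.exp (-(Real.sqrt (κ / (4 * Dg)) * (W - 1) / 4)) :=
          mul_le_mul_of_nonneg_right (Real.rpow_le_rpow_of_exponent_le h4 (by norm_num))
            (Real.exp_pos _).le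
      _ = _ := by rw [Real.rpow_one]
  rw [enorm_mul, enorm_mul, enorm_mul, enorm_mul,
    ENNReal.mul_rpow_of_nonneg _ _ (by norm_num : (0 : ℝ) ≤ 1 / 4),
    ENNReal.mul_rpow_of_nonneg _ _ (by norm_num : (0 : ℝ) ≤ 1 / 4),
    ENNReal.mul_rpow_of_nonneg _ _ (by norm_num : (0 : ℝ) ≤ 1 / 4),
    ENNReal.mul_rpow_of_nonneg _ _ (by norm_num : (0 : ℝ) ≤ 1 / 4)]
  calc _ ≤ ‖Gr (cut A O1) lam V E x p.2.2.1‖ₑ ^ (1 / 4 : ℝ) * 1 *
        ENNReal.ofReal (2 / κ * Real.exp (-(Real.sqrt (κ / (4 * Dg)) * (W - 1) / 4))) * 1 *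
          ‖Gr (cut A Ω) lam V E p.2.1 u‖ₑ ^ (1 / 4 : ℝ) := by
        gcongr
        · exact hA1 _ _
        · exact hA1 _ _
    _ = _ := by ring

theorem sq_quarter (a : ℝ≥0∞) : (a ^ (1 / 4 : ℝ)) ^ 2 = a ^ (1 / 2 : ℝ) := by
  rw [← ENNReal.rpow_natCast, ← ENNReal.rpow_mul]
  norm_num

theorem mul_le_sq (a b : ℝ≥0∞) : a * b ≤ a ^ 2 + b ^ 2 := by
  rcases le_total a b with h | h
  · calc a * b ≤ b * b := mul_le_mul_left h b
      _ = b ^ 2 := (sq b).symm
      _ ≤ a ^ 2 + b ^ 2 := le_add_self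
  · calc a * b ≤ a * a := mul_le_mul_right h a
      _ = a ^ 2 := (sq a).symm
      _ ≤ a ^ 2 + b ^ 2 := le_self_add

/-- independence of events depending on disjoint sets of sites -/
theorem prod_bad (μ : Measure ℝ) [IsProbabilityMeasure μ] (S : ℕ → Finset ι)
    (hdis : ∀ j k, j < k → Disjoint (S j) (S k)) (C : ∀ k, Set (S k → ℝ))
    (hC : ∀ k, MeasurableSet (C k)) (p : ℝ≥0∞) (M : ℕ)
    (hp : ∀ k < M, (Measure.pi fun _ : ι => μ) {V | (fun i : S k => V i) ∈ C k} ≤ p) :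
    (Measure.pi fun _ : ι => μ) {V | ∀ k < M, (fun i : S k => V i) ∈ C k} ≤ p ^ M := by
  induction M with
  | zero =>
    rw [pow_zero]
    exact prob_le_one
  | succ M ih =>
    have ih' := ih fun k hk => hp k (Nat.lt_succ_of_lt hk)
    set U : Finset ι := (Finset.range M).biUnion S with hU
    have hsub : ∀ k, k < M → S k ⊆ U := fun k hk =>
      Finset.subset_biUnion_of_mem S (Finset.mem_range.2 hk)
    have hdisU : Disjoint U (S M) := by
      rw [hU, Finset.disjoint_biUnion_left]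
      intro k hk
      exact hdis k M (Finset.mem_range.1 hk)
    set D : Set (U → ℝ) := ⋂ k : Fin M, {v : U → ℝ |
      (fun i : S k => v ⟨i.1, hsub k k.2 i.2⟩) ∈ C k} with hD
    have hDm : MeasurableSet D := by
      refine MeasurableSet.iInter fun k => ?_
      have hm : Measurable fun (v : U → ℝ) (i : S k) => v ⟨i.1, hsub k k.2 i.2⟩ :=
        measurable_pi_iff.2 fun i => measurable_pi_apply _
      exact hm (hC k)
    have h0 : ProbabilityTheory.iIndepFun (fun (i : ι) (V : ι → ℝ) => V i)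
        (Measure.pi fun _ : ι => μ) :=
      ProbabilityTheory.iIndepFun_pi (μ := fun _ : ι => μ) (X := fun _ (t : ℝ) => t)
        (fun _ => aemeasurable_id)
    have hind := h0.indepFun_finset U (S M) hdisU (fun i => measurable_pi_apply i)
    have hmul := hind.measure_inter_preimage_eq_mul D (C M) hDm (hC M)
    have e1 : {V : ι → ℝ | ∀ k < M + 1, (fun i : S k => V i) ∈ C k} =
        (fun (a : ι → ℝ) (i : U) => a i) ⁻¹' D ∩ (fun (a : ι → ℝ) (i : S M) => a i) ⁻¹' C M := by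
      ext V
      rw [Set.mem_inter_iff, Set.mem_preimage, Set.mem_preimage, hD, Set.mem_iInter]
      constructor
      · intro h
        exact ⟨fun k => h k (Nat.lt_succ_of_lt k.2), h M (Nat.lt_succ_self M)⟩
      · rintro ⟨h2, h3⟩ k hk
        rcases Nat.lt_succ_iff_lt_or_eq.1 hk with h | rfl
        · exact h2 ⟨k, h⟩
        · exact h3
    have e2 : (fun (a : ι → ℝ) (i : U) => a i) ⁻¹' D =
        {V : ι → ℝ | ∀ k < M, (fun i : S k => V i) ∈ C k} := by
      ext V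
      rw [Set.mem_preimage, hD, Set.mem_iInter]
      exact ⟨fun h k hk => h ⟨k, hk⟩, fun h k => h k k.2⟩
    rw [e1, hmul, e2, pow_succ]
    exact mul_le_mul' ih' (hp M (Nat.lt_succ_self M))

/-- the form bound event as a condition on the potential in `Ω` -/
def FC (A : Matrix ι ι ℝ) (Ω : Finset ι) (lam E : ℝ) : Set (Ω → ℝ) :=
  {W | ¬ ∀ f : ι → ℝ, (∀ i, i ∉ Ω → f i = 0) → E * ∑ z ∈ Ω, f z ^ 2 ≤
        ∑ z ∈ Ω, f z * ∑ z' ∈ Ω, A z z' * f z' + lam * ∑ z : Ω, W z * f z ^ 2}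

theorem FC_meas (A : Matrix ι ι ℝ) (Ω : Finset ι) (lam E : ℝ) : MeasurableSet (FC A Ω lam E) := by
  unfold FC
  rw [← Set.compl_ofPred]
  refine (IsClosed.measurableSet ?_).compl
  rw [Set.ofPred_forall]
  refine isClosed_iInter fun f => ?_
  rw [Set.ofPred_forall]
  refine isClosed_iInter fun hf => ?_
  refine isClosed_le continuous_const ?_
  refine continuous_const.add (continuous_const.mul ?_)
  exact continuous_finsetSum _ fun z _ => (continuous_apply z).mul continuous_const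

theorem FC_iff (A : Matrix ι ι ℝ) (Ω : Finset ι) (lam E : ℝ) (V : ι → ℝ) :
    ¬ FB A Ω lam V E ↔ (fun z : Ω => V z.1) ∈ FC A Ω lam E := by
  unfold FC
  rw [Set.mem_ofPred_eq, Em.em_FB_iff]
  have h1 : ∀ f : ι → ℝ, ∑ z : Ω, V z.1 * f z.1 ^ 2 = ∑ z ∈ Ω, V z * f z ^ 2 := fun f =>
    Finset.sum_coe_sort Ω (fun z => V z * f z ^ 2)
  simp only [h1]

/-- initial scale estimate from many annuli -/
theorem init2 (μ : Measure ℝ) [IsProbabilityMeasure μ] (B : ℝ) (hμ : Reg B μ) (A : Matrix ι ι ℝ)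
    (hA : A.IsSymm) (hd : ∀ i, A i i = 0) (h1 : ∀ i j, |A i j| ≤ 1) (Dg : ℝ) (hDg : 1 ≤ Dg)
    (hrow : ∀ i, ∑ j, |A i j| ≤ Dg) (lam : ℝ) (hlam : 0 < lam) (E κ : ℝ)
    (hκ : 0 < κ) (hκ' : κ ≤ 1) (δ : ι → ι → ℕ) (hδ0 : ∀ i, δ i i = 0)
    (hδs : ∀ i j, δ i j = δ j i) (hδt : ∀ i j k, δ i k ≤ δ i j + δ j k)
    (hδ1 : ∀ i j, A i j ≠ 0 → δ i j ≤ 1) (W M N : ℕ) (hW : 1 ≤ W) (p : ℝ) (hp0 : 0 ≤ p)
    (Ω : Finset ι) (x u : ι) (hx : x ∈ Ω) (hu : u ∈ Ω) (hxu : M * W < δ x u)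
    (hN : (Finset.univ.filter fun j => δ x j ≤ M * W + 1).card ≤ N)
    (hbad : ∀ k < M, (Measure.pi fun _ : ι => μ) {V | ¬ FB A (ann δ W Ω x k) lam V (E + κ)} ≤
      ENNReal.ofReal p) :
    ∫⁻ V, ‖Gr (cut A Ω) lam V E x u‖ₑ ^ (1 / 4 : ℝ) ∂(Measure.pi fun _ : ι => μ) ≤
      ENNReal.ofReal (M * ((N : ℝ) ^ 4 *
        (2 / κ * Real.exp (-(Real.sqrt (κ / (4 * Dg)) * (W - 1) / 4)) *
          (8 * Real.sqrt (B / lam)))) +
        Real.sqrt (p ^ M) * (2 * Real.sqrt (Real.sqrt (B / lam)))) := by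
  obtain ⟨ν, hν⟩ : ∃ ν : Measure (ι → ℝ), ν = Measure.pi fun _ : ι => μ := ⟨_, rfl⟩
  have hνp : IsProbabilityMeasure ν := by rw [hν]; infer_instance
  have hae : ∀ S : Finset ι, ∀ᵐ V ∂ν, IsUnit (Hm (cut A S) lam V E).det := fun S => by
    rw [hν]
    exact Wg.inv_ae μ B hμ.1 hμ.2.1 (cut A S) (cut_symm hA S) (cut_diag hd S) lam hlam E
  rw [← hν]
  rw [← hν] at hbad
  set f : (ι → ℝ) → ℝ≥0∞ := fun V => ‖Gr (cut A Ω) lam V E x u‖ₑ ^ (1 / 4 : ℝ) with hf
  have hfm : Measurable f := meas_fr _ _ _ _ _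
  set c : ℝ≥0∞ := ENNReal.ofReal (2 / κ * Real.exp (-(Real.sqrt (κ / (4 * Dg)) * (W - 1) / 4)))
    with hc
  set P : ℕ → Finset (ι × ι × ι × ι) := fun k => (Ω.filter fun z => δ x z = (k + 1) * W) ×ˢ
          (Ω.filter fun z => δ x z = (k + 1) * W + 1) ×ˢ
          (Ω.filter fun z => δ x z = k * W) ×ˢ (Ω.filter fun z => δ x z = k * W + 1) with hP
  set g : ℕ → (ι → ℝ) → ℝ≥0∞ := fun k V => ∑ q ∈ P k, c *
      (‖Gr (cut A (Ω.filter fun z => δ x z ≤ (k + 1) * W)) lam V E x q.2.2.1‖ₑ ^ (1 / 4 : ℝ) *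
        ‖Gr (cut A Ω) lam V E q.2.1 u‖ₑ ^ (1 / 4 : ℝ)) with hg
  have hgm : ∀ k, Measurable (g k) := fun k => by
    refine Finset.measurable_sum _ fun q _ => ?_
    exact measurable_const.mul ((meas_fr _ _ _ _ _).mul (meas_fr _ _ _ _ _))
  set S : Set (ι → ℝ) := {V | ∀ k < M, (fun i : ann δ W Ω x k => V i) ∈
    FC A (ann δ W Ω x k) lam (E + κ)} with hS
  have hSm : MeasurableSet S := by
    have : S = ⋂ k : ℕ, ⋂ _ : k < M, {V : ι → ℝ | (fun i : ann δ W Ω x k => V i) ∈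
        FC A (ann δ W Ω x k) lam (E + κ)} := by
      ext V
      simp only [hS, Set.mem_ofPred_eq, Set.mem_iInter]
    rw [this]
    refine MeasurableSet.iInter fun k => MeasurableSet.iInter fun _ => ?_
    have hm : Measurable fun (v : ι → ℝ) (i : ann δ W Ω x k) => v i :=
      measurable_pi_iff.2 fun i => measurable_pi_apply _
    exact hm (FC_meas _ _ _ _)
  have hSν : ν S ≤ ENNReal.ofReal (p ^ M) := by
    rw [ENNReal.ofReal_pow hp0, hν]
    refine prod_bad μ (ann δ W Ω x) ?_ (fun k => FC A (ann δ W Ω x k) lam (E + κ))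
      (fun k => FC_meas _ _ _ _) (ENNReal.ofReal p) M ?_
    · intro j k hjk
      rw [Finset.disjoint_left]
      intro z hz hz'
      unfold ann at hz hz'
      rw [Finset.mem_filter] at hz hz'
      have h2 : (j + 1) * W ≤ k * W := Nat.mul_le_mul_right W hjk
      omega
    · intro k hk
      have h2 := hbad k hk
      rw [hν] at h2
      refine le_trans (le_of_eq ?_) h2
      congr 1
      ext V
      exact (FC_iff A (ann δ W Ω x k) lam (E + κ) V).symm
  -- pointwise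
  have hpt : ∀ᵐ V ∂ν, f V ≤ ∑ k ∈ Finset.range M, g k V + S.indicator f V := by
    have hall : ∀ᵐ V ∂ν, ∀ T : Finset ι, IsUnit (Hm (cut A T) lam V E).det :=
      ae_all_iff.2 fun T => hae T
    filter_upwards [hall] with V hV
    by_cases hVS : V ∈ S
    · rw [Set.indicator_of_mem hVS]
      exact le_add_self
    · have hex : ∃ k < M, FB A (ann δ W Ω x k) lam V (E + κ) := by
        by_contra hcon
        push Not at hcon
        exact hVS fun k hk => (FC_iff A (ann δ W Ω x k) lam (E + κ) V).1 (hcon k hk)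
      obtain ⟨k, hk, hFB⟩ := hex
      have h2 : (k + 1) * W < δ x u :=
        lt_of_le_of_lt (Nat.mul_le_mul_right W hk) hxu
      have h3 := good_k hA h1 Dg hDg hrow hκ hκ' hδ0 hδs hδt hδ1 W k hW Ω x u hx hu h2 (hV Ω)
        (hV _) (hV _) hFB
      have h4 : g k V ≤ ∑ k ∈ Finset.range M, g k V :=
        Finset.single_le_sum (f := fun k => g k V) (fun _ _ => zero_le) (Finset.mem_range.2 hk)
      exact h3.trans (h4.trans le_self_add)
  -- moments
  have hmom : ∀ (T : Finset ι) (a b : ι),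
      ∫⁻ V, (‖Gr (cut A T) lam V E a b‖ₑ ^ (1 / 4 : ℝ)) ^ 2 ∂ν ≤
        ENNReal.ofReal (4 * Real.sqrt (B / lam)) := by
    intro T a b
    have h4 := Ap.ap_pi μ B hμ (cut A T) (cut_symm hA T) lam hlam E a b
    rw [← hν] at h4
    refine le_trans (le_of_eq ?_) h4
    exact lintegral_congr fun V => sq_quarter _
  have hgk : ∀ k < M, ∫⁻ V, g k V ∂ν ≤
      (N : ℝ≥0∞) ^ 4 * (c * ENNReal.ofReal (8 * Real.sqrt (B / lam))) := by
    intro k hk
    have hPc : (P k).card ≤ N ^ 4 := by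
      have hcardf : ∀ m, m ≤ M * W + 1 → (Ω.filter fun z => δ x z = m).card ≤ N := by
        intro m hm
        refine le_trans (Finset.card_le_card ?_) hN
        intro z hz
        rw [Finset.mem_filter] at hz ⊢
        exact ⟨Finset.mem_univ _, by omega⟩
      have hkM : (k + 1) * W ≤ M * W := Nat.mul_le_mul_right W hk
      have hkM' : k * W ≤ (k + 1) * W := Nat.mul_le_mul_right W (Nat.le_succ k)
      simp only [hP]
      rw [Finset.card_product, Finset.card_product, Finset.card_product]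
      calc _ ≤ N * (N * (N * N)) := by
            gcongr
            · exact hcardf _ (by omega)
            · exact hcardf _ (by omega)
            · exact hcardf _ (by omega)
            · exact hcardf _ (by omega)
        _ = N ^ 4 := by ring
    calc ∫⁻ V, g k V ∂ν = ∑ q ∈ P k, ∫⁻ V, c *
          (‖Gr (cut A (Ω.filter fun z => δ x z ≤ (k + 1) * W)) lam V E x q.2.2.1‖ₑ ^ (1 / 4 : ℝ) *
          ‖Gr (cut A Ω) lam V E q.2.1 u‖ₑ ^ (1 / 4 : ℝ)) ∂ν := by
          apply lintegral_finsetSum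
          intro q _
          exact measurable_const.mul ((meas_fr _ _ _ _ _).mul (meas_fr _ _ _ _ _))
      _ ≤ ∑ q ∈ P k, c * ENNReal.ofReal (8 * Real.sqrt (B / lam)) := by
          refine Finset.sum_le_sum fun q _ => ?_
          have hm2 : Measurable fun V : ι → ℝ => ‖Gr (cut A (Ω.filter fun z =>
              δ x z ≤ (k + 1) * W)) lam V E x q.2.2.1‖ₑ ^ (1 / 4 : ℝ) *
              ‖Gr (cut A Ω) lam V E q.2.1 u‖ₑ ^ (1 / 4 : ℝ) :=
            (meas_fr _ _ _ _ _).mul (meas_fr _ _ _ _ _)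
          rw [lintegral_const_mul _ hm2]
          refine mul_le_mul' le_rfl ?_
          calc ∫⁻ V, ‖Gr (cut A (Ω.filter fun z => δ x z ≤ (k + 1) * W)) lam V E x
                q.2.2.1‖ₑ ^ (1 / 4 : ℝ) * ‖Gr (cut A Ω) lam V E q.2.1 u‖ₑ ^ (1 / 4 : ℝ) ∂ν
              ≤ ∫⁻ V, ((‖Gr (cut A (Ω.filter fun z => δ x z ≤ (k + 1) * W)) lam V E x
                q.2.2.1‖ₑ ^ (1 / 4 : ℝ)) ^ 2 +
                (‖Gr (cut A Ω) lam V E q.2.1 u‖ₑ ^ (1 / 4 : ℝ)) ^ 2) ∂ν :=
                lintegral_mono fun V => mul_le_sq _ _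
            _ = ∫⁻ V, (‖Gr (cut A (Ω.filter fun z => δ x z ≤ (k + 1) * W)) lam V E x
                q.2.2.1‖ₑ ^ (1 / 4 : ℝ)) ^ 2 ∂ν +
                ∫⁻ V, (‖Gr (cut A Ω) lam V E q.2.1 u‖ₑ ^ (1 / 4 : ℝ)) ^ 2 ∂ν :=
                lintegral_add_left ((meas_fr _ _ _ _ _).pow_const 2) _
            _ ≤ ENNReal.ofReal (4 * Real.sqrt (B / lam)) +
                ENNReal.ofReal (4 * Real.sqrt (B / lam)) := add_le_add (hmom _ _ _) (hmom _ _ _)
            _ = ENNReal.ofReal (8 * Real.sqrt (B / lam)) := by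
                rw [← ENNReal.ofReal_add (by positivity) (by positivity)]
                congr 1
                ring
      _ = ((P k).card : ℝ≥0∞) * (c * ENNReal.ofReal (8 * Real.sqrt (B / lam))) := by
          rw [Finset.sum_const, nsmul_eq_mul]
      _ ≤ _ := by
          gcongr
          exact_mod_cast hPc
  -- bad part
  have hbadp : ∫⁻ V, S.indicator f V ∂ν ≤
      ENNReal.ofReal (Real.sqrt (p ^ M) * (2 * Real.sqrt (Real.sqrt (B / lam)))) := by
    rw [lintegral_indicator hSm]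
    have hsq : ∫⁻ V, f V ^ (2 : ℝ) ∂ν ≤ ENNReal.ofReal (4 * Real.sqrt (B / lam)) := by
      refine le_trans (le_of_eq ?_) (hmom Ω x u)
      refine lintegral_congr fun V => ?_
      rw [hf, ENNReal.rpow_ofNat]
    have h6 := ENNReal.lintegral_mul_le_Lp_mul_Lq (ν.restrict S) Real.HolderConjugate.two_two
      hfm.aemeasurable (g := fun _ => 1) aemeasurable_const
    have h7 : ∫⁻ V in S, f V ∂ν = ∫⁻ V in S, (f * (fun _ => 1 : (ι → ℝ) → ℝ≥0∞)) V ∂ν := by
      apply lintegral_congr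
      intro V
      rw [Pi.mul_apply, mul_one]
    rw [h7]
    refine h6.trans ?_
    have h8 : ∫⁻ _ in S, (1 : ℝ≥0∞) ^ (2 : ℝ) ∂ν = ν S := by
      rw [ENNReal.one_rpow, setLIntegral_const, one_mul]
    rw [h8]
    have h9 : (∫⁻ V in S, f V ^ (2 : ℝ) ∂ν) ^ (1 / 2 : ℝ) ≤
        ENNReal.ofReal (2 * Real.sqrt (Real.sqrt (B / lam))) := by
      calc (∫⁻ V in S, f V ^ (2 : ℝ) ∂ν) ^ (1 / 2 : ℝ)
          ≤ (ENNReal.ofReal (4 * Real.sqrt (B / lam))) ^ (1 / 2 : ℝ) :=
            ENNReal.rpow_le_rpow ((setLIntegral_le_lintegral _ _).trans hsq) (by norm_num)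
        _ = ENNReal.ofReal (2 * Real.sqrt (Real.sqrt (B / lam))) := by
            rw [ENNReal.ofReal_rpow_of_nonneg (by positivity) (by norm_num), ← Real.sqrt_eq_rpow,
              Real.sqrt_mul (by norm_num)]
            congr 2
            rw [show (4 : ℝ) = 2 ^ 2 by norm_num]
            exact Real.sqrt_sq (by norm_num)
    have h10 : (ν S) ^ (1 / 2 : ℝ) ≤ ENNReal.ofReal (Real.sqrt (p ^ M)) := by
      calc (ν S) ^ (1 / 2 : ℝ) ≤ (ENNReal.ofReal (p ^ M)) ^ (1 / 2 : ℝ) :=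
            ENNReal.rpow_le_rpow hSν (by norm_num)
        _ = _ := by
            rw [ENNReal.ofReal_rpow_of_nonneg (by positivity) (by norm_num), ← Real.sqrt_eq_rpow]
    rw [ENNReal.ofReal_mul (Real.sqrt_nonneg _), mul_comm]
    exact mul_le_mul' h10 h9
  calc ∫⁻ V, f V ∂ν ≤ ∫⁻ V, (∑ k ∈ Finset.range M, g k V + S.indicator f V) ∂ν :=
        lintegral_mono_ae hpt
    _ = ∑ k ∈ Finset.range M, ∫⁻ V, g k V ∂ν + ∫⁻ V, S.indicator f V ∂ν := by
        rw [lintegral_add_left (Finset.measurable_sum _ fun k _ => hgm k),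
          lintegral_finsetSum _ fun k _ => hgm k]
    _ ≤ ∑ _k ∈ Finset.range M, (N : ℝ≥0∞) ^ 4 * (c * ENNReal.ofReal (8 * Real.sqrt (B / lam))) +
        ENNReal.ofReal (Real.sqrt (p ^ M) * (2 * Real.sqrt (Real.sqrt (B / lam)))) :=
        add_le_add (Finset.sum_le_sum fun k hk => hgk k (Finset.mem_range.1 hk)) hbadp
    _ = _ := by
        rw [Finset.sum_const, Finset.card_range, nsmul_eq_mul, hc,
          ← ENNReal.ofReal_mul (by positivity), ← ENNReal.ofReal_natCast N,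
          ← ENNReal.ofReal_pow (by positivity), ← ENNReal.ofReal_mul (by positivity),
          ← ENNReal.ofReal_natCast M, ← ENNReal.ofReal_mul (by positivity),
          ← ENNReal.ofReal_add (by positivity) (by positivity)]

end Pool.Agent.Y663.D2.An
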