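import Mathlib

/-! Arithmetic for the two-dimensional edge theorem (helper663). -/

set_option autoImplicit false

open scoped BigOperators

namespace Pool.Agent.Y663.D2.Ar

theorem big (n : ℕ) (C a : ℝ) (ha : 0 < a) : ∃ Y : ℝ, 1 ≤ Y ∧ ∀ y : ℝ, Y ≤ y →
    C * y ^ n ≤ Real.exp (a * y) := by
  refine ⟨max 1 (C * ((n + 1).factorial : ℝ) / a ^ (n + 1)), le_max_left _ _, fun y hy => ?_⟩
  have h1 : 1 ≤ y := (le_max_left _ _).trans hy
  have h2 : C * ((n + 1).factorial : ℝ) / a ^ (n + 1) ≤ y := (le_max_right _ _).trans hy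
  have hy0 : 0 < y := by linarith
  have h3 := Real.pow_div_factorial_le_exp (a * y) (by positivity) (n + 1)
  refine le_trans ?_ h3
  have hf : (0 : ℝ) < ((n + 1).factorial : ℝ) := by exact_mod_cast Nat.factorial_pos _
  rw [le_div_iff₀ hf, mul_pow, pow_succ y n]
  rw [div_le_iff₀ (by positivity)] at h2
  have h4 : 0 < y ^ n := by positivity
  nlinarith

/-- the standing assumptions -/
structure Std (lam l η y : ℝ) : Prop where
  hη : 0 < η
  hη1 : η ≤ 1
  hl : 0 < l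
  hlam : lam = Real.exp (-l)
  hy : y = η ^ 4 * l
  h5 : 1 ≤ η ^ 5 * l
  b1 : 10 ^ 29 ≤ y
  b2 : 2 * 10 ^ 75 * y ^ 22 ≤ Real.exp (3 / 10 ^ 24 * y)
  b3 : 10 ^ 31 * y ^ 8 ≤ Real.exp (1 * y)

section

variable {lam l η y : ℝ}

theorem Std.y1 (h : Std lam l η y) : 1 ≤ y := by
  have := h.b1
  norm_num at this ⊢
  linarith

theorem Std.yl (h : Std lam l η y) : y ≤ l := by
  rw [h.hy]
  have h1 : η ^ 4 ≤ 1 := pow_le_one₀ h.hη.le h.hη1
  have := h.hl
  nlinarith

theorem Std.yηl (h : Std lam l η y) : y ≤ η * l := by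
  rw [h.hy]
  have h1 : η ^ 4 ≤ η := by
    have := pow_le_pow_of_le_one h.hη.le h.hη1 (by norm_num : 1 ≤ 4)
    rwa [pow_one] at this
  exact mul_le_mul_of_nonneg_right h1 h.hl.le

theorem Std.ly (h : Std lam l η y) : l ≤ y ^ 5 := by
  have h1 : y ^ 5 = (η ^ 5 * l) ^ 4 * l := by
    rw [h.hy]; ring
  rw [h1]
  have h2 : 1 ≤ (η ^ 5 * l) ^ 4 := one_le_pow₀ h.h5
  have := h.hl
  nlinarith

theorem Std.ηy (h : Std lam l η y) : 1 / η ≤ y := by
  rw [div_le_iff₀ h.hη, h.hy]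
  have := h.h5
  have h2 : η ^ 4 * l * η = η ^ 5 * l := by ring
  linarith

theorem Std.lam0 (h : Std lam l η y) : 0 < lam := by
  rw [h.hlam]
  exact Real.exp_pos _

theorem Std.l1 (h : Std lam l η y) : 10 ^ 29 ≤ l := h.b1.trans h.yl

theorem Std.laml (h : Std lam l η y) : lam * Real.exp l = 1 := by
  rw [h.hlam, ← Real.exp_add]
  simp

/-- the number of annuli -/
noncomputable def MM (η : ℝ) : ℕ := ⌈80 * 10 ^ 24 / η ^ 4⌉₊

/-- the margin -/
noncomputable def kp (lam l η : ℝ) : ℝ := η * lam ^ 2 * l / 100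

/-- the width of the annuli -/
noncomputable def WW (lam l η : ℝ) : ℕ := ⌈640 * l / Real.sqrt (kp lam l η)⌉₊ + 1

theorem Std.kp0 (h : Std lam l η y) : 0 < kp lam l η := by
  have := h.lam0
  have := h.hη
  have := h.hl
  unfold kp
  positivity

theorem Std.sqrt_kp (h : Std lam l η y) :
    Real.sqrt (kp lam l η) = lam * Real.sqrt η * Real.sqrt l / 10 := by
  have := h.lam0
  have := h.hη
  have := h.hl
  have e : kp lam l η = (lam * Real.sqrt η * Real.sqrt l / 10) ^ 2 := by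
    unfold kp
    rw [div_pow, mul_pow, mul_pow, Real.sq_sqrt (by positivity), Real.sq_sqrt (by positivity)]
    ring
  rw [e]
  exact Real.sqrt_sq (by positivity)

theorem Std.M_le (h : Std lam l η y) : (MM η : ℝ) ≤ 81 * 10 ^ 24 / η ^ 4 := by
  have := h.hη
  have h1 : (MM η : ℝ) < 80 * 10 ^ 24 / η ^ 4 + 1 := Nat.ceil_lt_add_one (by positivity)
  have h2 : (1 : ℝ) ≤ 10 ^ 24 / η ^ 4 := by
    rw [le_div_iff₀ (by positivity), one_mul]
    have h3 : η ^ 4 ≤ 1 := pow_le_one₀ h.hη.le h.hη1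
    exact h3.trans (by norm_num)
  have h3 : 81 * 10 ^ 24 / η ^ 4 = 80 * 10 ^ 24 / η ^ 4 + 10 ^ 24 / η ^ 4 := by ring
  linarith

theorem Std.M_ge (_h : Std lam l η y) : 80 * 10 ^ 24 / η ^ 4 ≤ (MM η : ℝ) := Nat.le_ceil _

theorem Std.M1 (h : Std lam l η y) : (1 : ℝ) ≤ (MM η : ℝ) := by
  refine le_trans ?_ h.M_ge
  rw [le_div_iff₀ (by have := h.hη; positivity), one_mul]
  have h3 : η ^ 4 ≤ 1 := pow_le_one₀ h.hη.le h.hη1
  exact h3.trans (by norm_num)

theorem Std.M_y (h : Std lam l η y) : (MM η : ℝ) ≤ 10 ^ 26 * y ^ 4 := by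
  refine h.M_le.trans ?_
  have h1 : (1 / η) ^ 4 ≤ y ^ 4 := pow_le_pow_left₀ (by have := h.hη; positivity) h.ηy 4
  have h2 : 81 * 10 ^ 24 / η ^ 4 = 81 * 10 ^ 24 * (1 / η) ^ 4 := by
    have := h.hη
    field_simp
  rw [h2]
  have h3 : 0 ≤ y ^ 4 := by positivity
  nlinarith

/-- abbreviation `sqrt l / (lam sqrt η)` -/
noncomputable def uu (lam l η : ℝ) : ℝ := Real.sqrt l / (lam * Real.sqrt η)

theorem Std.lam_le (h : Std lam l η y) : lam ≤ 1 := by
  rw [h.hlam]
  exact Real.exp_le_one_iff.2 (by have := h.hl; linarith)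

theorem Std.sl1 (h : Std lam l η y) : 1 ≤ Real.sqrt l := by
  rw [Real.one_le_sqrt]
  exact h.y1.trans h.yl

theorem Std.sη1 (h : Std lam l η y) : Real.sqrt η ≤ 1 := Real.sqrt_le_one.2 h.hη1

theorem Std.sη0 (h : Std lam l η y) : 0 < Real.sqrt η := Real.sqrt_pos.2 h.hη

theorem Std.uu1 (h : Std lam l η y) : 1 ≤ uu lam l η := by
  unfold uu
  have h1 := h.sη0
  have h2 := h.lam0
  have h3 := h.lam_le
  have h4 := h.sη1
  have h5 := h.sl1
  rw [le_div_iff₀ (by positivity)]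
  nlinarith

theorem Std.W_ge (h : Std lam l η y) : 640 * l ≤ Real.sqrt (kp lam l η) * ((WW lam l η : ℝ) - 1) := by
  have h0 : 0 < Real.sqrt (kp lam l η) := Real.sqrt_pos.2 h.kp0
  have h1 : 640 * l / Real.sqrt (kp lam l η) ≤ ((WW lam l η : ℝ) - 1) := by
    unfold WW
    push_cast
    have := Nat.le_ceil (640 * l / Real.sqrt (kp lam l η))
    linarith
  rw [div_le_iff₀ h0] at h1
  linarith

theorem Std.W_le (h : Std lam l η y) : (WW lam l η : ℝ) ≤ 6402 * uu lam l η := by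
  have h0 : 0 < Real.sqrt (kp lam l η) := Real.sqrt_pos.2 h.kp0
  have hl := h.hl
  have h1 := Nat.ceil_lt_add_one (show 0 ≤ 640 * l / Real.sqrt (kp lam l η) by positivity)
  have h2 : 640 * l / Real.sqrt (kp lam l η) = 6400 * uu lam l η := by
    rw [h.sqrt_kp]
    unfold uu
    have a1 := h.sη0
    have a2 := h.lam0
    have a3 : 0 < Real.sqrt l := Real.sqrt_pos.2 hl
    have a4 : l = Real.sqrt l * Real.sqrt l := (Real.mul_self_sqrt hl.le).symm
    field_simp
    rw [sq, ← a4]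
    ring
  have h3 : (WW lam l η : ℝ) = (⌈640 * l / Real.sqrt (kp lam l η)⌉₊ : ℝ) + 1 := by
    unfold WW
    push_cast
    rfl
  have h4 := h.uu1
  rw [h3]
  rw [h2] at h1 ⊢
  linarith

theorem Std.W1 (_h : Std lam l η y) : 1 ≤ WW lam l η := by
  unfold WW
  omega

theorem Std.W1' (h : Std lam l η y) : (1 : ℝ) ≤ (WW lam l η : ℝ) := by exact_mod_cast h.W1

/-- the product `M W` -/
theorem Std.MW (h : Std lam l η y) : (MM η : ℝ) * WW lam l η ≤
    81 * 10 ^ 24 * 6402 / η ^ 4 * uu lam l η := by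
  have h1 := h.M_le
  have h2 := h.W_le
  have h3 := h.W1'
  have h4 := h.hη
  calc (MM η : ℝ) * WW lam l η ≤ (81 * 10 ^ 24 / η ^ 4) * (6402 * uu lam l η) :=
        mul_le_mul h1 h2 (by linarith) (by positivity)
    _ = _ := by ring

theorem Std.MW1 (h : Std lam l η y) : 1 ≤ (MM η : ℝ) * WW lam l η := by
  have h1 := h.M1
  have h2 := h.W1'
  nlinarith

/-- `uu ≤ y ^ 4 / lam` -/
theorem Std.uu_le (h : Std lam l η y) : uu lam l η ≤ y ^ 4 * Real.exp l := by
  unfold uu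
  have a1 := h.sη0
  have a2 := h.lam0
  have a3 := h.laml
  have hl := h.hl
  rw [div_le_iff₀ (by positivity)]
  have h1 : Real.sqrt l ≤ y ^ 3 := by
    rw [Real.sqrt_le_iff]
    refine ⟨by have := h.y1; positivity, h.ly.trans ?_⟩
    rw [← pow_mul]
    exact pow_le_pow_right₀ h.y1 (by norm_num)
  have h2 : 1 ≤ y * Real.sqrt η := by
    have h3 : 1 ≤ y * η := by
      have := h.ηy
      rw [div_le_iff₀ h.hη] at this
      exact this
    have h4 : η ≤ Real.sqrt η := by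
      apply Real.le_sqrt_of_sq_le
      have := h.hη1
      have := h.hη
      nlinarith
    have h5 := h.y1
    nlinarith
  have h3 : y ^ 4 * Real.exp l * (lam * Real.sqrt η) =
      y ^ 3 * (y * Real.sqrt η) * (lam * Real.exp l) := by ring
  rw [h3, a3, mul_one]
  have h4 : 0 ≤ y ^ 3 := by have := h.y1; positivity
  nlinarith

/-- the total radius is at most `exp (2 l)` -/
theorem Std.L_le (h : Std lam l η y) :
    2 * ((MM η : ℝ) * WW lam l η + 3) + 1 ≤ Real.exp (2 * l) := by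
  have h1 := h.MW1
  have h2 : 2 * ((MM η : ℝ) * WW lam l η + 3) + 1 ≤ 9 * ((MM η : ℝ) * WW lam l η) := by linarith
  refine h2.trans ?_
  have h3 : (MM η : ℝ) * WW lam l η ≤ 10 ^ 26 * y ^ 4 * (6402 * (y ^ 4 * Real.exp l)) := by
    refine mul_le_mul h.M_y (h.W_le.trans ?_) (by positivity) (by positivity)
    exact mul_le_mul_of_nonneg_left h.uu_le (by norm_num)
  have h4 : 9 * ((MM η : ℝ) * WW lam l η) ≤ 10 ^ 31 * y ^ 8 * Real.exp l := by
    have h5 : 0 ≤ y ^ 8 * Real.exp l := by positivity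
    nlinarith
  refine h4.trans ?_
  rw [two_mul, Real.exp_add]
  refine mul_le_mul_of_nonneg_right (h.b3.trans (Real.exp_le_exp.2 ?_)) (Real.exp_pos _).le
  rw [one_mul]
  exact h.yl

end

end Pool.Agent.Y663.D2.Ar
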