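import Pool.Agent.Y663.D2.Ar

/-! Arithmetic for the two-dimensional edge theorem, second part (helper663). -/

set_option autoImplicit false

open scoped BigOperators

namespace Pool.Agent.Y663.D2.Ar

/-- the mass -/
noncomputable def kk (lam l η : ℝ) : ℝ := 10 ^ 14 / η ^ 2 * lam ^ 2 * l

variable {lam l η y : ℝ}

theorem Std.kk0 (h : Std lam l η y) : 0 < kk lam l η := by
  have := h.lam0
  have := h.hη
  have := h.hl
  unfold kk
  positivity

theorem Std.sqrt_kk (h : Std lam l η y) :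
    Real.sqrt (kk lam l η) = 10 ^ 7 / η * lam * Real.sqrt l := by
  have := h.lam0
  have := h.hη
  have := h.hl
  have e : kk lam l η = (10 ^ 7 / η * lam * Real.sqrt l) ^ 2 := by
    unfold kk
    rw [mul_pow, mul_pow, Real.sq_sqrt (by positivity)]
    ring
  rw [e]
  exact Real.sqrt_sq (by positivity)

theorem Std.exp1 (h : Std lam l η y) :
    43 * l ≤ (η / 100) ^ 2 * kk lam l η / (230400000 * lam ^ 2) := by
  have h1 := h.lam0
  have h2 := h.hη
  have h3 := h.hl
  rw [le_div_iff₀ (by positivity)]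
  have e : (η / 100) ^ 2 * kk lam l η = 10 ^ 10 * l * lam ^ 2 := by
    unfold kk
    field_simp
    ring
  rw [e]
  have h4 : 0 < l * lam ^ 2 := by positivity
  nlinarith

theorem Std.exp2 (h : Std lam l η y) :
    4 / 10 ^ 24 * y ≤ (η ^ 3 / 10 ^ 17) ^ 2 * kk lam l η / (2304 * lam ^ 2) := by
  have h1 := h.lam0
  have h2 := h.hη
  have h3 := h.hl
  rw [le_div_iff₀ (by positivity)]
  have e : (η ^ 3 / 10 ^ 17) ^ 2 * kk lam l η = y / 10 ^ 20 * lam ^ 2 := by
    unfold kk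
    rw [h.hy]
    field_simp
  rw [e]
  have h4 : 0 < y * lam ^ 2 := by
    have := h.y1
    positivity
  have h5 : 4 / 10 ^ 24 * y * (2304 * lam ^ 2) = 9216 / 10 ^ 24 * (y * lam ^ 2) := by ring
  have h6 : y / 10 ^ 20 * lam ^ 2 = 10000 / 10 ^ 24 * (y * lam ^ 2) := by ring
  rw [h5, h6]
  apply mul_le_mul_of_nonneg_right _ h4.le
  norm_num

theorem Std.tk (h : Std lam l η y) :
    921600000 * lam ^ 2 ≤ (η ^ 3 / 10 ^ 17) ^ 2 * kk lam l η := by
  have h1 := h.lam0
  have h2 := h.hη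
  have e : (η ^ 3 / 10 ^ 17) ^ 2 * kk lam l η = y / 10 ^ 20 * lam ^ 2 := by
    unfold kk
    rw [h.hy]
    field_simp
  rw [e]
  apply mul_le_mul_of_nonneg_right _ (by positivity)
  rw [le_div_iff₀ (by norm_num)]
  have := h.b1
  norm_num at this ⊢
  linarith

theorem Std.kk_le (h : Std lam l η y) : kk lam l η ≤ 1 := by
  have h1 := h.lam0
  have h2 := h.hη
  have h3 := h.hl
  have h4 := h.y1
  have e1 : kk lam l η = 10 ^ 14 * (1 / η) ^ 2 * l * lam ^ 2 := by
    unfold kk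
    field_simp
  have e2 : 10 ^ 14 * (1 / η) ^ 2 * l ≤ 10 ^ 31 * y ^ 8 := by
    calc 10 ^ 14 * (1 / η) ^ 2 * l ≤ 10 ^ 14 * y ^ 2 * y ^ 5 := by
          have := h.ηy
          have := h.ly
          gcongr
      _ = 10 ^ 14 * y ^ 7 := by ring
      _ ≤ 10 ^ 31 * y ^ 8 := by
          have : y ^ 7 ≤ y ^ 8 := pow_le_pow_right₀ h4 (by norm_num)
          have h0 : 0 ≤ y ^ 7 := by positivity
          nlinarith
  have e3 : 10 ^ 31 * y ^ 8 ≤ Real.exp l := h.b3.trans (Real.exp_le_exp.2 (by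
    rw [one_mul]; exact h.yl))
  have e4 := h.laml
  have e5 := h.lam_le
  rw [e1]
  have hel := Real.exp_pos l
  calc 10 ^ 14 * (1 / η) ^ 2 * l * lam ^ 2 ≤ Real.exp l * lam ^ 2 :=
        mul_le_mul_of_nonneg_right (e2.trans e3) (by positivity)
    _ = (lam * Real.exp l) * lam := by ring
    _ ≤ 1 := by rw [e4, one_mul]; exact e5

theorem Std.kp_le (h : Std lam l η y) : kp lam l η ≤ 1 := by
  refine le_trans ?_ h.kk_le
  unfold kp kk
  have h1 := h.lam0
  have h2 := h.hη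
  have h3 := h.hl
  have h4 := h.hη1
  have e : η / 100 ≤ 10 ^ 14 / η ^ 2 := by
    rw [div_le_div_iff₀ (by norm_num) (by positivity)]
    have : η * η ^ 2 ≤ 1 := by
      have := pow_le_one₀ h2.le h4 (n := 3)
      calc η * η ^ 2 = η ^ 3 := by ring
        _ ≤ 1 := this
    linarith
  have e2 : η * lam ^ 2 * l / 100 = η / 100 * (lam ^ 2 * l) := by ring
  have e3 : 10 ^ 14 / η ^ 2 * lam ^ 2 * l = 10 ^ 14 / η ^ 2 * (lam ^ 2 * l) := by ring
  rw [e2, e3]
  exact mul_le_mul_of_nonneg_right e (by positivity)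

/-- the local failure probability -/
theorem Std.prob (h : Std lam l η y) :
    (2 * ((MM η * WW lam l η + 1 : ℕ) : ℝ) + 1) ^ 2 *
        (2 * Real.exp (-((η / 100) ^ 2 * kk lam l η / (230400000 * lam ^ 2)))) +
      (2 * ((MM η * WW lam l η + 1 : ℕ) : ℝ) * Real.sqrt (kk lam l η) + 1) ^ 2 *
        Real.exp (-((η ^ 3 / 10 ^ 17) ^ 2 * kk lam l η / (2304 * lam ^ 2))) ≤
      Real.exp (-(y / 10 ^ 24)) := by
  have h1 := h.lam0
  have h2 := h.hη
  have h3 := h.hl
  have h4 := h.y1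
  have hMW := h.MW1
  push_cast
  set Q : ℝ := (MM η : ℝ) * WW lam l η with hQ
  have hL := h.L_le
  rw [← hQ] at hL
  have A : (2 * (Q + 1) + 1) ^ 2 *
        (2 * Real.exp (-((η / 100) ^ 2 * kk lam l η / (230400000 * lam ^ 2)))) ≤
        1 / 2 * Real.exp (-(y / 10 ^ 24)) := by
    have a1 : (2 * (Q + 1) + 1) ^ 2 ≤ Real.exp (2 * l) ^ 2 :=
      pow_le_pow_left₀ (by positivity) (by linarith) 2
    have a2 : Real.exp (-((η / 100) ^ 2 * kk lam l η / (230400000 * lam ^ 2))) ≤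
        Real.exp (-(43 * l)) := Real.exp_le_exp.2 (neg_le_neg h.exp1)
    have a3 : Real.exp (-l) ≤ Real.exp (-(y / 10 ^ 24)) := by
      apply Real.exp_le_exp.2
      have := h.yl
      have : y / 10 ^ 24 ≤ y := div_le_self (by linarith) (by norm_num)
      linarith
    have a4 : Real.exp (2 * l) ^ 2 * (2 * Real.exp (-(43 * l))) = 2 * Real.exp (-(38 * l)) *
        Real.exp (-l) := by
      rw [← Real.exp_nat_mul, mul_assoc, ← Real.exp_add, mul_left_comm, ← Real.exp_add]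
      congr 2
      push_cast
      ring
    have a5 : Real.exp (-(38 * l)) ≤ 1 / 4 := by
      rw [Real.exp_neg, inv_le_comm₀ (Real.exp_pos _) (by norm_num)]
      have h5 := Real.add_one_le_exp (38 * l)
      have h6 := h.l1
      norm_num at h6 ⊢
      linarith
    calc _ ≤ Real.exp (2 * l) ^ 2 * (2 * Real.exp (-(43 * l))) := by gcongr
      _ = 2 * Real.exp (-(38 * l)) * Real.exp (-l) := a4
      _ ≤ 2 * (1 / 4) * Real.exp (-(y / 10 ^ 24)) := by gcongr
      _ = _ := by ring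
  have Bd : (2 * (Q + 1) * Real.sqrt (kk lam l η) + 1) ^ 2 *
        Real.exp (-((η ^ 3 / 10 ^ 17) ^ 2 * kk lam l η / (2304 * lam ^ 2))) ≤
        1 / 2 * Real.exp (-(y / 10 ^ 24)) := by
    have a1 : Q ≤ 10 ^ 26 * y ^ 4 * (6402 * uu lam l η) := by
      rw [hQ]
      exact mul_le_mul h.M_y h.W_le (by positivity) (by positivity)
    have a2 : uu lam l η * Real.sqrt (kk lam l η) ≤ 10 ^ 7 * y ^ 7 := by
      rw [h.sqrt_kk]
      unfold uu
      have s1 := h.sη0
      have s2 : 0 < Real.sqrt l := Real.sqrt_pos.2 h3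
      have e1 : Real.sqrt l / (lam * Real.sqrt η) * (10 ^ 7 / η * lam * Real.sqrt l) =
          10 ^ 7 * (Real.sqrt l * Real.sqrt l) * (1 / (η * Real.sqrt η)) := by
        field_simp
      rw [e1, Real.mul_self_sqrt h3.le]
      have e2 : 1 / (η * Real.sqrt η) ≤ y ^ 2 := by
        have e3 : 1 / (η * Real.sqrt η) ≤ (1 / η) ^ 2 := by
          rw [one_div_pow]
          apply one_div_le_one_div_of_le (by positivity)
          rw [sq]
          apply mul_le_mul_of_nonneg_left _ h2.le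
          apply Real.le_sqrt_of_sq_le
          have := h.hη1
          nlinarith
        exact e3.trans (pow_le_pow_left₀ (by positivity) h.ηy 2)
      calc 10 ^ 7 * l * (1 / (η * Real.sqrt η)) ≤ 10 ^ 7 * y ^ 5 * y ^ 2 := by
            have := h.ly
            gcongr
        _ = _ := by ring
    have a3 : 2 * (Q + 1) * Real.sqrt (kk lam l η) + 1 ≤ 3 * 10 ^ 37 * y ^ 11 := by
      have b1 : 2 * (Q + 1) ≤ 4 * Q := by linarith
      have b2 : 0 ≤ Real.sqrt (kk lam l η) := Real.sqrt_nonneg _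
      have b3 : 4 * Q * Real.sqrt (kk lam l η) ≤
          4 * (10 ^ 26 * y ^ 4 * (6402 * uu lam l η)) * Real.sqrt (kk lam l η) := by gcongr
      have b4 : 4 * (10 ^ 26 * y ^ 4 * (6402 * uu lam l η)) * Real.sqrt (kk lam l η) =
          4 * 10 ^ 26 * 6402 * y ^ 4 * (uu lam l η * Real.sqrt (kk lam l η)) := by ring
      have b5 : 4 * 10 ^ 26 * 6402 * y ^ 4 * (uu lam l η * Real.sqrt (kk lam l η)) ≤
          4 * 10 ^ 26 * 6402 * y ^ 4 * (10 ^ 7 * y ^ 7) :=
        mul_le_mul_of_nonneg_left a2 (by positivity)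
      have b6 : 4 * 10 ^ 26 * 6402 * y ^ 4 * (10 ^ 7 * y ^ 7) =
          4 * 10 ^ 33 * 6402 * y ^ 11 := by ring
      have b7 : 1 ≤ y ^ 11 := one_le_pow₀ h4
      have b8 : 2 * (Q + 1) * Real.sqrt (kk lam l η) ≤ 4 * Q * Real.sqrt (kk lam l η) :=
        mul_le_mul_of_nonneg_right b1 b2
      nlinarith
    have a4 : (2 * (Q + 1) * Real.sqrt (kk lam l η) + 1) ^ 2 ≤
        1 / 2 * Real.exp (3 / 10 ^ 24 * y) := by
      have b1 : (2 * (Q + 1) * Real.sqrt (kk lam l η) + 1) ^ 2 ≤ (3 * 10 ^ 37 * y ^ 11) ^ 2 :=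
        pow_le_pow_left₀ (by positivity) a3 2
      have b2 := h.b2
      have b3 : (3 * 10 ^ 37 * y ^ 11) ^ 2 = 9 * 10 ^ 74 * y ^ 22 := by ring
      have b4 : 0 ≤ y ^ 22 := by positivity
      nlinarith
    have a5 : Real.exp (-((η ^ 3 / 10 ^ 17) ^ 2 * kk lam l η / (2304 * lam ^ 2))) ≤
        Real.exp (-(4 / 10 ^ 24 * y)) := Real.exp_le_exp.2 (neg_le_neg h.exp2)
    calc _ ≤ 1 / 2 * Real.exp (3 / 10 ^ 24 * y) * Real.exp (-(4 / 10 ^ 24 * y)) := by gcongr
      _ = 1 / 2 * Real.exp (-(y / 10 ^ 24)) := by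
          rw [mul_assoc, ← Real.exp_add]
          congr 2
          ring
  linarith

/-- the smallness condition of the iteration -/
theorem Std.small (h : Std lam l η y) (N : ℝ)
    (hN : N = (2 * ((MM η * WW lam l η + 1 + 2 : ℕ) : ℝ) + 1) ^ 2) :
    N ^ 4 * (2 * Real.sqrt (Real.sqrt ((1 + 4 * 1 ^ 2) / lam))) *
      (MM η * (N ^ 4 * (2 / kp lam l η *
        Real.exp (-(Real.sqrt (kp lam l η / (4 * (2 * (2 : ℕ)))) * (WW lam l η - 1) / 4)) *
          (8 * Real.sqrt ((1 + 4 * 1 ^ 2) / lam)))) +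
        Real.sqrt (Real.exp (-(y / 10 ^ 24)) ^ (MM η)) *
          (2 * Real.sqrt (Real.sqrt ((1 + 4 * 1 ^ 2) / lam)))) ≤ 1 / 2 := by
  have h1 := h.lam0
  have h2 := h.hη
  have h3 := h.hl
  have h4 := h.y1
  have h5 := h.l1
  set x := Real.exp l with hx
  have hx0 : 0 < x := Real.exp_pos l
  have hx1 : 100 ≤ x := by
    have := Real.add_one_le_exp l
    norm_num at h5
    rw [← hx] at this
    linarith
  have hlx : 1 / lam = x := by
    rw [div_eq_iff h1.ne', mul_comm]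
    exact h.laml.symm
  have hN0 : 0 ≤ N := by rw [hN]; positivity
  have hNx : N ≤ x ^ 4 := by
    have e1 := h.L_le
    have e2 : N = (2 * ((MM η : ℝ) * WW lam l η + 3) + 1) ^ 2 := by
      rw [hN]
      push_cast
      ring
    have e3 : Real.exp (2 * l) = x ^ 2 := by
      rw [hx, ← Real.exp_nat_mul]
      push_cast
      rfl
    rw [e3] at e1
    rw [e2]
    calc (2 * ((MM η : ℝ) * WW lam l η + 3) + 1) ^ 2 ≤ (x ^ 2) ^ 2 :=
          pow_le_pow_left₀ (by positivity) e1 2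
      _ = x ^ 4 := by ring
  have hMx : (MM η : ℝ) ≤ x := by
    refine h.M_y.trans ?_
    have e1 : 10 ^ 26 * y ^ 4 ≤ 10 ^ 31 * y ^ 8 := by
      have : y ^ 4 ≤ y ^ 8 := pow_le_pow_right₀ h4 (by norm_num)
      have h0 : 0 ≤ y ^ 4 := by positivity
      nlinarith
    refine e1.trans (h.b3.trans (Real.exp_le_exp.2 ?_))
    rw [one_mul]
    exact h.yl
  have hS1 : Real.sqrt ((1 + 4 * 1 ^ 2) / lam) ≤ x := by
    rw [Real.sqrt_le_left hx0.le]
    have : (1 + 4 * 1 ^ 2) / lam = 5 * x := by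
      rw [← hlx]
      ring
    rw [this]
    nlinarith
  have hS2 : Real.sqrt (Real.sqrt ((1 + 4 * 1 ^ 2) / lam)) ≤ x := by
    rw [Real.sqrt_le_left hx0.le]
    nlinarith
  have hK : 2 / kp lam l η ≤ x ^ 3 := by
    have e1 : 2 / kp lam l η = 200 / (η * l) * (1 / lam) ^ 2 := by
      unfold kp
      field_simp
      ring
    rw [e1, hlx]
    have e2 : 200 / (η * l) ≤ x := by
      rw [div_le_iff₀ (by positivity)]
      have e3 := h.yηl
      have e4 := h.b1
      norm_num at e4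
      nlinarith
    calc 200 / (η * l) * x ^ 2 ≤ x * x ^ 2 := mul_le_mul_of_nonneg_right e2 (by positivity)
      _ = x ^ 3 := by ring
  have hexp40 : Real.exp (-(40 * l)) = (x ^ 40)⁻¹ := by
    rw [Real.exp_neg, hx, ← Real.exp_nat_mul]
    push_cast
    rfl
  have hD : Real.exp (-(Real.sqrt (kp lam l η / (4 * (2 * (2 : ℕ)))) * (WW lam l η - 1) / 4)) ≤
      (x ^ 40)⁻¹ := by
    rw [← hexp40]
    apply Real.exp_le_exp.2
    apply neg_le_neg
    have e1 : Real.sqrt (kp lam l η / (4 * (2 * (2 : ℕ)))) = Real.sqrt (kp lam l η) / 4 := by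
      have : kp lam l η / (4 * (2 * (2 : ℕ))) = kp lam l η / 4 ^ 2 := by
        push_cast
        ring
      rw [this, Real.sqrt_div h.kp0.le, Real.sqrt_sq (by norm_num)]
    rw [e1]
    have := h.W_ge
    linarith
  have hP : Real.sqrt (Real.exp (-(y / 10 ^ 24)) ^ (MM η)) ≤ (x ^ 40)⁻¹ := by
    rw [← hexp40, Real.sqrt_le_left (Real.exp_pos _).le, ← Real.exp_nat_mul, ← Real.exp_nat_mul]
    apply Real.exp_le_exp.2
    push_cast
    have e1 : 80 * l ≤ (MM η : ℝ) * (y / 10 ^ 24) := by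
      have e2 := mul_le_mul_of_nonneg_right h.M_ge (by positivity : 0 ≤ y / 10 ^ 24)
      have e3 : 80 * 10 ^ 24 / η ^ 4 * (y / 10 ^ 24) = 80 * l := by
        rw [h.hy]
        field_simp
      linarith
    linarith
  have hfin : N ^ 4 * (2 * Real.sqrt (Real.sqrt ((1 + 4 * 1 ^ 2) / lam))) *
      (MM η * (N ^ 4 * (2 / kp lam l η *
        Real.exp (-(Real.sqrt (kp lam l η / (4 * (2 * (2 : ℕ)))) * (WW lam l η - 1) / 4)) *
          (8 * Real.sqrt ((1 + 4 * 1 ^ 2) / lam)))) +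
        Real.sqrt (Real.exp (-(y / 10 ^ 24)) ^ (MM η)) *
          (2 * Real.sqrt (Real.sqrt ((1 + 4 * 1 ^ 2) / lam)))) ≤
      (x ^ 4) ^ 4 * (2 * x) * (x * ((x ^ 4) ^ 4 * (x ^ 3 * (x ^ 40)⁻¹ * (8 * x))) +
        (x ^ 40)⁻¹ * (2 * x)) := by
    have hk := h.kp0
    gcongr
  refine hfin.trans ?_
  have e1 : (x ^ 4) ^ 4 * (2 * x) * (x * ((x ^ 4) ^ 4 * (x ^ 3 * (x ^ 40)⁻¹ * (8 * x))) +
        (x ^ 40)⁻¹ * (2 * x)) = 16 / x ^ 2 + 4 / x ^ 22 := by
    field_simp
    ring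
  rw [e1]
  have e2 : 16 / x ^ 2 ≤ 16 / 100 ^ 2 := by gcongr
  have e3 : 4 / x ^ 22 ≤ 4 / 100 ^ 22 := by gcongr
  norm_num at e2 e3 ⊢
  linarith

/-- the energy -/
theorem Std.energy (h : Std lam l η y) (E : ℝ)
    (hE : (1 - 3 * (η / 100)) * (-E - 2 * lam * (2 * Real.exp (-((η / 100) ^ 2 * kk lam l η /
        (230400000 * lam ^ 2))))) ≤
        lam ^ 2 * (1 / 3) * Real.exp (12 * (η / 100)) *
          (1 / (4 * Real.pi) * Real.log (1 / kk lam l η) + 6)) :
    -((1 + η) * (lam ^ 2 / (6 * Real.pi)) * l) ≤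
      E - 9 * kk lam l η * (η ^ 3 / 10 ^ 17) - kp lam l η := by
  have h1 := h.lam0
  have h2 := h.hη
  have h3 := h.hl
  have h4 := h.y1
  have h5 := h.l1
  have hη1 := h.hη1
  have hpi := Real.pi_pos
  have hpi3 := Real.pi_gt_three
  have hpi4 := Real.pi_lt_d2
  set δ := η / 100 with hδ
  have hδ0 : 0 < δ := by positivity
  have hδ1 : δ ≤ 1 / 100 := by rw [hδ]; linarith
  set G := lam ^ 2 * l with hG
  have hG0 : 0 < G := by positivity
  -- logarithm
  have hlog : Real.log (1 / kk lam l η) ≤ 2 * l := by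
    have e1 : 1 / kk lam l η ≤ Real.exp (2 * l) := by
      rw [div_le_iff₀ h.kk0]
      have e2 : Real.exp (2 * l) * kk lam l η = 10 ^ 14 / η ^ 2 * l * (lam * Real.exp l) ^ 2 := by
        unfold kk
        rw [two_mul, Real.exp_add]
        ring
      rw [e2, h.laml, one_pow, mul_one]
      have e3 : 10 ^ 14 ≤ 10 ^ 14 / η ^ 2 := by
        rw [le_div_iff₀ (by positivity)]
        have : η ^ 2 ≤ 1 := pow_le_one₀ h2.le hη1
        linarith
      norm_num at h5
      nlinarith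
    calc Real.log (1 / kk lam l η) ≤ Real.log (Real.exp (2 * l)) :=
          Real.log_le_log (by have := h.kk0; positivity) e1
      _ = 2 * l := Real.log_exp _
  -- small term
  have hsm : 2 * lam * (2 * Real.exp (-(δ ^ 2 * kk lam l η / (230400000 * lam ^ 2)))) ≤
      4 / 10 * lam ^ 2 := by
    have e1 : Real.exp (-(δ ^ 2 * kk lam l η / (230400000 * lam ^ 2))) ≤ Real.exp (-(43 * l)) :=
      Real.exp_le_exp.2 (neg_le_neg h.exp1)
    have e2 : Real.exp (-(43 * l)) = lam * Real.exp (-(42 * l)) := by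
      rw [h.hlam, ← Real.exp_add]
      congr 1
      ring
    have e3 : Real.exp (-(42 * l)) ≤ 1 / 10 := by
      rw [Real.exp_neg, inv_le_comm₀ (Real.exp_pos _) (by norm_num)]
      have h6 := Real.add_one_le_exp (42 * l)
      norm_num at h5 ⊢
      linarith
    have e4 : Real.exp (-(δ ^ 2 * kk lam l η / (230400000 * lam ^ 2))) ≤ lam * (1 / 10) := by
      rw [e2] at e1
      exact e1.trans (mul_le_mul_of_nonneg_left e3 h1.le)
    calc 2 * lam * (2 * Real.exp (-(δ ^ 2 * kk lam l η / (230400000 * lam ^ 2)))) ≤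
        2 * lam * (2 * (lam * (1 / 10))) := by gcongr
      _ = _ := by ring
  -- exponential
  have hex : Real.exp (12 * δ) * (1 - 12 * δ) ≤ 1 := by
    have e1 := Real.add_one_le_exp (-(12 * δ))
    have e2 : Real.exp (12 * δ) * Real.exp (-(12 * δ)) = 1 := by
      rw [← Real.exp_add]; simp
    have e3 := Real.exp_pos (12 * δ)
    nlinarith
  have hexp2 : Real.exp (12 * δ) ≤ (1 + η / 5) * (1 - 3 * δ) := by
    have e0 : 0 < 1 - 12 * δ := by linarith
    have e1 : Real.exp (12 * δ) ≤ 1 / (1 - 12 * δ) := by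
      rw [le_div_iff₀ e0]
      exact hex
    refine e1.trans ?_
    rw [div_le_iff₀ e0]
    have e2 : η / 5 = 20 * δ := by rw [hδ]; ring
    rw [e2]
    nlinarith [mul_nonneg hδ0.le hδ0.le, mul_nonneg hδ0.le (mul_nonneg hδ0.le hδ0.le),
      mul_nonneg hδ0.le (sub_nonneg.2 hδ1)]
  have h3δ : 0 < 1 - 3 * δ := by linarith
  -- main bound on `-E`
  have hmain : -E ≤ 4 / 10 * lam ^ 2 + (1 + η / 5) * (G / (6 * Real.pi) + 2 * lam ^ 2) := by
    have e1 : lam ^ 2 * (1 / 3) * Real.exp (12 * δ) *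
          (1 / (4 * Real.pi) * Real.log (1 / kk lam l η) + 6) ≤
        (1 - 3 * δ) * ((1 + η / 5) * (G / (6 * Real.pi) + 2 * lam ^ 2)) := by
      have e2 : 1 / (4 * Real.pi) * Real.log (1 / kk lam l η) + 6 ≤ l / (2 * Real.pi) + 6 := by
        have e3 := mul_le_mul_of_nonneg_left hlog (by positivity : 0 ≤ 1 / (4 * Real.pi))
        have e4 : 1 / (4 * Real.pi) * (2 * l) = l / (2 * Real.pi) := by
          field_simp
          ring
        linarith
      calc lam ^ 2 * (1 / 3) * Real.exp (12 * δ) *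
          (1 / (4 * Real.pi) * Real.log (1 / kk lam l η) + 6)
          ≤ lam ^ 2 * (1 / 3) * Real.exp (12 * δ) * (l / (2 * Real.pi) + 6) :=
            mul_le_mul_of_nonneg_left e2 (by positivity)
        _ ≤ lam ^ 2 * (1 / 3) * ((1 + η / 5) * (1 - 3 * δ)) * (l / (2 * Real.pi) + 6) := by
            gcongr
        _ = _ := by
            rw [hG]
            field_simp
            ring
    have e3 := le_of_mul_le_mul_left (hE.trans e1) h3δ
    linarith
  have hkt : 9 * kk lam l η * (η ^ 3 / 10 ^ 17) ≤ η * G / 100 := by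
    have e1 : 9 * kk lam l η * (η ^ 3 / 10 ^ 17) = 9 / 1000 * (η * G) := by
      unfold kk
      rw [hG]
      field_simp
      ring
    rw [e1]
    have : 0 < η * G := by positivity
    linarith
  have hkp : kp lam l η = η * G / 100 := by
    unfold kp
    rw [hG]
    ring
  have hηl : 300 ≤ η * l := by
    have e1 := h.yηl
    have e2 := h.b1
    norm_num at e2
    linarith
  have hl2 : 3 * lam ^ 2 ≤ η * G / 100 := by
    have e1 : η * G / 100 = lam ^ 2 * (η * l / 100) := by rw [hG]; ring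
    rw [e1]
    have : 0 < lam ^ 2 := by positivity
    nlinarith
  have hfin : (1 + η) * (lam ^ 2 / (6 * Real.pi)) * l = (1 + η) * (G / (6 * Real.pi)) := by
    rw [hG]
    ring
  rw [hfin, hkp]
  have hgp : η * G / 100 ≤ η / 5 * (G / (6 * Real.pi)) := by
    have e1 : η * G / 100 = η / 5 * (G / 20) := by ring
    rw [e1]
    apply mul_le_mul_of_nonneg_left _ (by positivity)
    apply div_le_div_of_nonneg_left hG0.le (by positivity)
    linarith
  have hη2 : (1 + η / 5) * (2 * lam ^ 2) ≤ 2.4 * lam ^ 2 := by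
    have : 0 < lam ^ 2 := by positivity
    nlinarith
  have hexpand : (1 + η / 5) * (G / (6 * Real.pi) + 2 * lam ^ 2) =
      G / (6 * Real.pi) + η / 5 * (G / (6 * Real.pi)) + (1 + η / 5) * (2 * lam ^ 2) := by ring
  have hexpand2 : (1 + η) * (G / (6 * Real.pi)) = G / (6 * Real.pi) + 5 * (η / 5 * (G /
      (6 * Real.pi))) := by ring
  have hpos : 0 ≤ η / 5 * (G / (6 * Real.pi)) := by positivity
  have hl0 : 0 < lam ^ 2 := by positivity
  linarith

/-- the rate -/
theorem Std.rate (h : Std lam l η y) :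
    1 / 10 ^ 33 * η ^ 5 * lam / Real.sqrt l ≤
      Real.log 2 / ((MM η * WW lam l η + 1 + 2 : ℕ) : ℝ) / 50 := by
  have h1 := h.lam0
  have h2 := h.hη
  have h3 := h.hl
  have hη1 := h.hη1
  have hMW := h.MW1
  have hs := h.sη0
  have hsl : 0 < Real.sqrt l := Real.sqrt_pos.2 h3
  have hlog := Real.log_two_gt_d9
  have e1 : ((MM η * WW lam l η + 1 + 2 : ℕ) : ℝ) ≤ 4 * ((MM η : ℝ) * WW lam l η) := by
    push_cast
    linarith
  have e2 : ((MM η * WW lam l η + 1 + 2 : ℕ) : ℝ) ≤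
      4 * (81 * 10 ^ 24 * 6402 / η ^ 4 * uu lam l η) :=
    e1.trans (mul_le_mul_of_nonneg_left h.MW (by norm_num))
  have e3 : (0 : ℝ) < ((MM η * WW lam l η + 1 + 2 : ℕ) : ℝ) := by positivity
  have hu : 0 < uu lam l η := by
    have := h.uu1
    linarith
  have e4 : Real.log 2 / (4 * (81 * 10 ^ 24 * 6402 / η ^ 4 * uu lam l η)) / 50 ≤
      Real.log 2 / ((MM η * WW lam l η + 1 + 2 : ℕ) : ℝ) / 50 := by
    apply div_le_div_of_nonneg_right _ (by norm_num)
    exact div_le_div_of_nonneg_left (by linarith) e3 e2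
  refine le_trans ?_ e4
  have e5 : Real.log 2 / (4 * (81 * 10 ^ 24 * 6402 / η ^ 4 * uu lam l η)) / 50 =
      Real.log 2 / (200 * 81 * 10 ^ 24 * 6402) * (η ^ 4 * Real.sqrt η * lam / Real.sqrt l) := by
    unfold uu
    field_simp
    ring
  rw [e5]
  have e6 : 1 / 10 ^ 33 * η ^ 5 * lam / Real.sqrt l = 1 / 10 ^ 33 * (η ^ 4 * η * lam /
      Real.sqrt l) := by ring
  rw [e6]
  have e7 : η ≤ Real.sqrt η := by
    apply Real.le_sqrt_of_sq_le
    nlinarith
  have e8 : 1 / 10 ^ 33 ≤ Real.log 2 / (200 * 81 * 10 ^ 24 * 6402) := by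
    rw [div_le_div_iff₀ (by norm_num) (by norm_num)]
    norm_num
    linarith
  have e9 : η ^ 4 * η * lam / Real.sqrt l ≤ η ^ 4 * Real.sqrt η * lam / Real.sqrt l := by
    gcongr
  exact mul_le_mul e8 e9 (by positivity) (by positivity)

end Pool.Agent.Y663.D2.Ar
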