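import Mathlib

/-! Parameters for the sharp two-dimensional edge (helper663). -/

set_option autoImplicit false

namespace Pool.Agent.Y663.D2.Ar3

theorem sm (Λ N M q x z s1 s2 : ℝ) (hΛ : 1000 ≤ Λ) (hN0 : 0 ≤ N) (hN : N ≤ Λ ^ 3) (hM0 : 0 ≤ M)
    (hM : M ≤ Λ) (hq0 : 0 ≤ q) (hq : q ≤ 4 * Λ ^ 2) (hx0 : 0 ≤ x) (hx : x ≤ 1 / Λ ^ 50)
    (hz0 : 0 ≤ z) (hz : z ≤ 1 / Λ ^ 50) (h10 : 0 ≤ s1) (h1 : s1 ≤ Λ) (h20 : 0 ≤ s2) (h2 : s2 ≤ Λ) :
    N ^ 4 * (2 * s2) * (M * (N ^ 4 * (q * x * (8 * s1))) + z * (2 * s2)) ≤ 1 / 2 := by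
  have hΛ0 : 0 < Λ := by linarith
  calc N ^ 4 * (2 * s2) * (M * (N ^ 4 * (q * x * (8 * s1))) + z * (2 * s2))
      ≤ (Λ ^ 3) ^ 4 * (2 * Λ) * (Λ * ((Λ ^ 3) ^ 4 * (4 * Λ ^ 2 * (1 / Λ ^ 50) * (8 * Λ))) +
          1 / Λ ^ 50 * (2 * Λ)) := by
        gcongr
    _ = 64 / Λ ^ 21 + 4 / Λ ^ 36 := by
        field_simp
        ring
    _ ≤ 64 / Λ + 4 / Λ := by
        have e1 : Λ ≤ Λ ^ 21 := by
          calc Λ = Λ ^ 1 := (pow_one Λ).symm
            _ ≤ Λ ^ 21 := pow_le_pow_right₀ (by linarith) (by norm_num)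
        have e2 : Λ ≤ Λ ^ 36 := by
          calc Λ = Λ ^ 1 := (pow_one Λ).symm
            _ ≤ Λ ^ 36 := pow_le_pow_right₀ (by linarith) (by norm_num)
        gcongr
    _ = 68 / Λ := by ring
    _ ≤ 1 / 2 := by
        rw [div_le_div_iff₀ hΛ0 (by norm_num)]
        linarith

/-- the standing assumptions: `Λ = 1 / lam`, `l = log Λ`, `t = log l` -/
structure St (B lam Λ l t : ℝ) : Prop where
  lam0 : 0 < lam
  hΛ : lam = 1 / Λ
  hl : Λ = Real.exp l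
  ht : l = Real.exp t
  l6 : 10 ^ 6 ≤ l
  t1 : 1 ≤ t
  big : 10 ^ 13 * l ^ 4 ≤ Λ
  hB0 : 0 < B
  hB : B ≤ Λ

theorem st_ev (B : ℝ) (hB : 0 < B) : ∃ k : ℝ, 0 < k ∧ k ≤ 1 ∧ ∀ lam : ℝ, 0 < lam → lam ≤ k →
    St B lam (1 / lam) (Real.log (1 / lam)) (Real.log (Real.log (1 / lam))) := by
  have h := tendsto_rpow_mul_exp_neg_mul_atTop_nhds_zero (4 : ℝ) 1 one_pos
  have h2 := h.eventually (ge_mem_nhds (show (0 : ℝ) < 1 / 10 ^ 13 by positivity))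
  obtain ⟨l0, hl0⟩ := Filter.eventually_atTop.1 h2
  obtain ⟨l1, hl1⟩ : ∃ l1 : ℝ, l1 = max (max l0 (10 ^ 6)) (max 1 (Real.log B)) := ⟨_, rfl⟩
  have a1 : l0 ≤ l1 := by rw [hl1]; exact (le_max_left _ _).trans (le_max_left _ _)
  have a2 : 10 ^ 6 ≤ l1 := by rw [hl1]; exact (le_max_right _ _).trans (le_max_left _ _)
  have a3 : Real.log B ≤ l1 := by rw [hl1]; exact (le_max_right _ _).trans (le_max_right _ _)
  refine ⟨Real.exp (-l1), Real.exp_pos _, ?_, ?_⟩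
  · rw [← Real.exp_zero]
    apply Real.exp_le_exp.2
    linarith
  intro lam hlam hlam1
  have hΛ0 : 0 < 1 / lam := by positivity
  have hll : l1 ≤ Real.log (1 / lam) := by
    rw [one_div, Real.log_inv]
    have := Real.log_le_log hlam hlam1
    rw [Real.log_exp] at this
    linarith
  have hl6 : 10 ^ 6 ≤ Real.log (1 / lam) := a2.trans hll
  have hl0' : 0 < Real.log (1 / lam) := by linarith
  refine ⟨hlam, ?_, ?_, ?_, hl6, ?_, ?_, hB, ?_⟩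
  · rw [one_div_one_div]
  · rw [Real.exp_log hΛ0]
  · rw [Real.exp_log hl0']
  · rw [Real.le_log_iff_exp_le hl0']
    have := Real.exp_one_lt_d9
    linarith
  · have h3 := hl0 _ (a1.trans hll)
    have e1 : Real.log (1 / lam) ^ (4 : ℝ) = Real.log (1 / lam) ^ 4 := by
      have : (4 : ℝ) = ((4 : ℕ) : ℝ) := by norm_num
      rw [this, Real.rpow_natCast]
    rw [e1] at h3
    have e2 : Real.exp (-1 * Real.log (1 / lam)) = lam := by
      rw [neg_one_mul, Real.exp_neg, Real.exp_log hΛ0, one_div, inv_inv]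
    rw [e2] at h3
    rw [le_div_iff₀ hlam]
    have h4 : Real.log (1 / lam) ^ 4 * lam * 10 ^ 13 ≤ 1 / 10 ^ 13 * 10 ^ 13 := by gcongr
    have e3 : (1 : ℝ) / 10 ^ 13 * 10 ^ 13 = 1 := by norm_num
    rw [e3] at h4
    linarith
  · have h5 := Real.exp_le_exp.2 (a3.trans hll)
    rw [Real.exp_log hB, Real.exp_log hΛ0] at h5
    exact h5

namespace St

variable {B lam Λ l t : ℝ} (h : St B lam Λ l t)
include h

theorem l0 : 0 < l := by linarith [h.l6]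

theorem t0 : 0 < t := by linarith [h.t1]

theorem Λ0 : 0 < Λ := by rw [h.hl]; exact Real.exp_pos _

theorem lΛ : lam * Λ = 1 := by
  rw [h.hΛ]
  have := h.Λ0
  field_simp

theorem tl : t ≤ l := by
  have h1 := Real.add_one_le_exp t
  rw [← h.ht] at h1
  linarith

theorem Λ_big : 10 ^ 37 ≤ Λ := by
  have h1 := h.big
  have h2 := h.l6
  have h3 : ((10 : ℝ) ^ 6) ^ 4 ≤ l ^ 4 := pow_le_pow_left₀ (by norm_num) h2 4
  have h4 : (10 : ℝ) ^ 37 = 10 ^ 13 * ((10 : ℝ) ^ 6) ^ 4 := by norm_num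
  rw [h4]
  linarith

theorem lam_small : lam ≤ 1 / 10 ^ 37 := by
  rw [h.hΛ]
  exact one_div_le_one_div_of_le (by positivity) h.Λ_big

/-- the mass -/
theorem kk : 0 < 2304000000 * lam ^ 2 * l ^ 3 ∧ 2304000000 * lam ^ 2 * l ^ 3 ≤ 1 ∧
    lam ^ 2 ≤ 2304000000 * lam ^ 2 * l ^ 3 := by
  have hl := h.l0
  have h0 := h.lam0
  refine ⟨by positivity, ?_, ?_⟩
  · have h1 : lam ^ 2 * l ^ 3 * (2304000000 * Λ ^ 2) ≤ Λ ^ 2 := by
      have e : lam ^ 2 * l ^ 3 * (2304000000 * Λ ^ 2) = 2304000000 * l ^ 3 * (lam * Λ) ^ 2 := by ring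
      rw [e, h.lΛ]
      have h2 := h.big
      have h3 : l ^ 3 ≤ l ^ 4 := pow_le_pow_right₀ (by linarith [h.l6]) (by norm_num)
      have h4 := h.Λ_big
      have h5 : Λ ≤ Λ ^ 2 := by nlinarith
      linarith
    have hΛ2 : 0 < Λ ^ 2 := by have := h.Λ0; positivity
    have e2 : lam ^ 2 * l ^ 3 * (2304000000 * Λ ^ 2) = (2304000000 * lam ^ 2 * l ^ 3) * Λ ^ 2 := by
      ring
    rw [e2] at h1
    by_contra hcon
    push Not at hcon
    have := mul_lt_mul_of_pos_right hcon hΛ2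
    linarith
  · have h1 : 1 ≤ l ^ 3 := one_le_pow₀ (by linarith [h.l6])
    nlinarith [sq_nonneg lam]

/-- failure probability of a single site -/
theorem p1 : Real.exp (-((1 / l) ^ 2 * (2304000000 * lam ^ 2 * l ^ 3) / (230400000 * lam ^ 2))) =
    1 / Λ ^ 10 := by
  have hl := h.l0
  have h0 := h.lam0
  have e : (1 / l) ^ 2 * (2304000000 * lam ^ 2 * l ^ 3) / (230400000 * lam ^ 2) = (10 : ℕ) * l := by
    field_simp
    norm_num
  rw [e, Real.exp_neg, Real.exp_nat_mul, ← h.hl, one_div]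

theorem p2 : Real.exp (-((288 * lam * Real.sqrt t) ^ 2 / (5184 * lam ^ 2))) = 1 / l ^ 16 := by
  have ht := h.t0
  have h0 := h.lam0
  have e : (288 * lam * Real.sqrt t) ^ 2 / (5184 * lam ^ 2) = (16 : ℕ) * t := by
    rw [mul_pow, Real.sq_sqrt ht.le]
    field_simp
    norm_num
  rw [e, Real.exp_neg, Real.exp_nat_mul, ← h.ht, one_div]

/-- the base block -/
theorem rr : ∃ r : ℕ, 1 ≤ r ∧ (r : ℝ) * (2304000000 * l ^ 2) ≤ Λ ∧
    Λ ≤ 2 * (r * (2304000000 * l ^ 2)) := by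
  have hl := h.l0
  obtain ⟨x, hx⟩ : ∃ x : ℝ, x = Λ / (2304000000 * l ^ 2) := ⟨_, rfl⟩
  have hx1 : 1 ≤ x := by
    rw [hx, le_div_iff₀ (by positivity), one_mul]
    have h3 : l ^ 2 ≤ l ^ 4 := pow_le_pow_right₀ (by linarith [h.l6]) (by norm_num)
    have h2 := h.big
    have : 0 < l ^ 4 := by positivity
    linarith
  have hxe : x * (2304000000 * l ^ 2) = Λ := by
    rw [hx]
    field_simp
  have h1 : (⌊x⌋₊ : ℝ) ≤ x := Nat.floor_le (by linarith)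
  have h2 : x < ⌊x⌋₊ + 1 := Nat.lt_floor_add_one x
  have h3 : 1 ≤ ⌊x⌋₊ := Nat.one_le_floor_iff x |>.2 hx1
  have h3' : (1 : ℝ) ≤ ⌊x⌋₊ := by exact_mod_cast h3
  refine ⟨⌊x⌋₊, h3, ?_, ?_⟩
  · rw [← hxe]
    gcongr
  · rw [← hxe]
    have h4 : x ≤ 2 * ⌊x⌋₊ := by linarith
    have h5 : x * (2304000000 * l ^ 2) ≤ 2 * ⌊x⌋₊ * (2304000000 * l ^ 2) := by gcongr
    linarith

/-- the number of scales -/
theorem nn : ∃ n : ℕ, (n : ℝ) ≤ 38 * t ∧ 2 * (2304000000 * l ^ 2) ≤ (2 : ℝ) ^ n := by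
  have ht := h.t0
  have h1 := (Nat.ceil_lt_add_one (show 0 ≤ 4 * t by positivity)).le
  have h2 := Nat.le_ceil (4 * t)
  refine ⟨⌈4 * t⌉₊ + 33, ?_, ?_⟩
  · push_cast
    linarith [h.t1]
  · rw [pow_add]
    have h3 : l ^ 2 ≤ (2 : ℝ) ^ ⌈4 * t⌉₊ := by
      have h4 : (2 : ℝ) ^ ⌈4 * t⌉₊ = Real.exp ((⌈4 * t⌉₊ : ℝ) * Real.log 2) := by
        rw [Real.exp_nat_mul, Real.exp_log (by norm_num)]
      rw [h4, h.ht, ← Real.exp_nat_mul]
      apply Real.exp_le_exp.2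
      have h5 := Real.log_two_gt_d9
      push_cast
      nlinarith
    have h6 : 0 < l ^ 2 := by have := h.l0; positivity
    have h7 : (2 : ℝ) ^ 33 = 8589934592 := by norm_num
    rw [h7]
    nlinarith

/-- the energy -/
theorem energy (v E : ℝ) (hv0 : 0 ≤ v) (hv1 : v ≤ 1)
    (hE : (1 - 3 * (1 / l)) * (-E - 2 * lam * (2 * Real.exp (-((1 / l) ^ 2 *
      (2304000000 * lam ^ 2 * l ^ 3) / (230400000 * lam ^ 2))))) ≤
      lam ^ 2 * v * Real.exp (12 * (1 / l)) *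
        (1 / (4 * Real.pi) * Real.log (1 / (2304000000 * lam ^ 2 * l ^ 3)) + 6)) :
    -E ≤ v * lam ^ 2 / (2 * Real.pi) * l + 20 * lam ^ 2 := by
  have hl := h.l0
  have hl6 := h.l6
  have h0 := h.lam0
  have hpi := Real.pi_gt_three
  rw [h.p1] at hE
  obtain ⟨δ, hδ⟩ : ∃ δ : ℝ, δ = 1 / l := ⟨_, rfl⟩
  rw [← hδ] at hE
  have hδ0 : 0 < δ := by rw [hδ]; positivity
  have hδl : δ * l = 1 := by rw [hδ]; field_simp
  have hδ6 : δ ≤ 1 / 10 ^ 6 := by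
    rw [hδ]
    exact one_div_le_one_div_of_le (by norm_num) hl6
  have hexp : Real.exp (12 * δ) ≤ 1 + 24 * δ := by
    have h1 := Real.exp_bound' (show 0 ≤ 12 * δ by positivity) (show 12 * δ ≤ 1 by linarith)
      (show 0 < 2 by norm_num)
    simp [Finset.sum_range_succ] at h1
    nlinarith
  have hlog : Real.log (1 / (2304000000 * lam ^ 2 * l ^ 3)) ≤ 2 * l := by
    have h1 : 1 / (2304000000 * lam ^ 2 * l ^ 3) ≤ 1 / lam ^ 2 :=
      one_div_le_one_div_of_le (by positivity) h.kk.2.2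
    have h2 := Real.log_le_log (by have := h.kk.1; positivity) h1
    have h3 : Real.log (1 / lam ^ 2) = 2 * l := by
      have h4 : 1 / lam ^ 2 = Λ ^ 2 := by
        rw [h.hΛ]
        field_simp
      rw [h4, Real.log_pow, h.hl, Real.log_exp]
      norm_num
    linarith
  obtain ⟨g, hg⟩ : ∃ g : ℝ, g = l / (2 * Real.pi) := ⟨_, rfl⟩
  have hg0 : 0 < g := by rw [hg]; positivity
  have hgδ : g * δ ≤ 1 / 6 := by
    have : g * δ = 1 / (2 * Real.pi) := by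
      rw [hg, hδ]
      field_simp
    rw [this]
    exact one_div_le_one_div_of_le (by norm_num) (by linarith)
  have hR : lam ^ 2 * v * Real.exp (12 * δ) *
        (1 / (4 * Real.pi) * Real.log (1 / (2304000000 * lam ^ 2 * l ^ 3)) + 6) ≤
      lam ^ 2 * v * ((1 + 24 * δ) * (g + 6)) := by
    have h1 : 1 / (4 * Real.pi) * Real.log (1 / (2304000000 * lam ^ 2 * l ^ 3)) + 6 ≤ g + 6 := by
      have h2 : 1 / (4 * Real.pi) * Real.log (1 / (2304000000 * lam ^ 2 * l ^ 3)) ≤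
          1 / (4 * Real.pi) * (2 * l) := by gcongr
      have h3 : 1 / (4 * Real.pi) * (2 * l) = g := by
        rw [hg]
        field_simp
        norm_num
      linarith
    calc _ ≤ lam ^ 2 * v * Real.exp (12 * δ) * (g + 6) := by
          apply mul_le_mul_of_nonneg_left h1
          have := Real.exp_pos (12 * δ)
          positivity
      _ ≤ lam ^ 2 * v * (1 + 24 * δ) * (g + 6) := by gcongr
      _ = _ := by ring
  have h3 : (1 - 3 * δ) * (-E - 2 * lam * (2 * (1 / Λ ^ 10))) ≤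
      (1 - 3 * δ) * (lam ^ 2 * v * (g + 18)) := by
    refine hE.trans (hR.trans ?_)
    have h4 : (1 + 24 * δ) * (g + 6) ≤ (1 - 3 * δ) * (g + 18) := by
      nlinarith
    calc lam ^ 2 * v * ((1 + 24 * δ) * (g + 6)) ≤ lam ^ 2 * v * ((1 - 3 * δ) * (g + 18)) := by
          gcongr
      _ = _ := by ring
  have h5 := le_of_mul_le_mul_left h3 (by linarith)
  have h6 : 2 * lam * (2 * (1 / Λ ^ 10)) ≤ lam ^ 2 := by
    have h7 : 1 / Λ ^ 10 = lam ^ 10 := by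
      rw [h.hΛ]
      field_simp
    rw [h7]
    have h8 := h.lam_small
    have h9 : lam ^ 9 ≤ 1 / 10 ^ 37 := by
      calc lam ^ 9 ≤ lam ^ 1 := pow_le_pow_of_le_one h0.le (by linarith) (by norm_num)
        _ = lam := pow_one _
        _ ≤ _ := h8
    have e : 2 * lam * (2 * lam ^ 10) = 4 * lam ^ 9 * lam ^ 2 := by ring
    rw [e]
    have h10 : 4 * lam ^ 9 ≤ 1 := by linarith
    have := sq_nonneg lam
    nlinarith
  have h7 : lam ^ 2 * v * (g + 18) ≤ v * lam ^ 2 / (2 * Real.pi) * l + 18 * lam ^ 2 := by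
    have e : lam ^ 2 * v * (g + 18) = v * lam ^ 2 / (2 * Real.pi) * l + 18 * (lam ^ 2 * v) := by
      rw [hg]
      ring
    rw [e]
    have := sq_nonneg lam
    nlinarith
  linarith [sq_nonneg lam]

/-- widths and numbers of annuli -/
theorem win (κ : ℝ) (hκ : lam ^ 2 ≤ κ) (hκ1 : κ ≤ 1) : ∃ W M : ℕ, 1 ≤ W ∧
    ((M * W + 1 + 2 : ℕ) : ℝ) ≤ 200000 * l ^ 2 / Real.sqrt κ ∧ (M : ℝ) ≤ 101 * l ∧
    Real.exp (-(Real.sqrt (κ / 2 / (4 * (2 * (2 : ℕ)))) * (W - 1) / 4)) ≤ 1 / Λ ^ 50 ∧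
    Real.sqrt ((1 / 4) ^ M) ≤ 1 / Λ ^ 50 := by
  have hl := h.l0
  have hl6 := h.l6
  have h0 := h.lam0
  have hκ0 : 0 < κ := lt_of_lt_of_le (by positivity) hκ
  obtain ⟨s, hs⟩ : ∃ s : ℝ, s = Real.sqrt κ := ⟨_, rfl⟩
  have hs0 : 0 < s := by rw [hs]; exact Real.sqrt_pos.2 hκ0
  have hs1 : s ≤ 1 := by rw [hs]; exact Real.sqrt_le_one.2 hκ1
  have hls : 1 ≤ l / s := by
    rw [le_div_iff₀ hs0]
    linarith
  have h1 := Nat.le_ceil (1200 * l / s)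
  have h2 := (Nat.ceil_lt_add_one (show 0 ≤ 1200 * l / s by positivity)).le
  have h3 := Nat.le_ceil (100 * l)
  have h4 := (Nat.ceil_lt_add_one (show 0 ≤ 100 * l by positivity)).le
  have hM : (⌈100 * l⌉₊ : ℝ) ≤ 101 * l := by linarith
  have hexp : Real.exp (-(50 * l)) = 1 / Λ ^ 50 := by
    rw [Real.exp_neg, h.hl, ← Real.exp_nat_mul, one_div]
    norm_num
  refine ⟨⌈1200 * l / s⌉₊ + 1, ⌈100 * l⌉₊, by omega, ?_, hM, ?_, ?_⟩
  · rw [← hs]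
    have h5 : ((⌈1200 * l / s⌉₊ + 1 : ℕ) : ℝ) ≤ 1202 * (l / s) := by
      push_cast
      have : 1200 * l / s = 1200 * (l / s) := by ring
      linarith
    have h6 : ((⌈100 * l⌉₊ * (⌈1200 * l / s⌉₊ + 1) : ℕ) : ℝ) ≤ 101 * l * (1202 * (l / s)) := by
      rw [Nat.cast_mul]
      exact mul_le_mul hM h5 (by positivity) (by positivity)
    have h7 : ((⌈100 * l⌉₊ * (⌈1200 * l / s⌉₊ + 1) + 1 + 2 : ℕ) : ℝ) =
        ((⌈100 * l⌉₊ * (⌈1200 * l / s⌉₊ + 1) : ℕ) : ℝ) + 3 := by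
      push_cast
      ring
    rw [h7]
    have h8 : 200000 * l ^ 2 / s = 200000 * (l * (l / s)) := by ring
    have h9 : 1 ≤ l * (l / s) := by nlinarith
    rw [h8]
    nlinarith
  · rw [← hexp]
    apply Real.exp_le_exp.2
    apply neg_le_neg
    have e1 : Real.sqrt (κ / 2 / (4 * (2 * ((2 : ℕ) : ℝ)))) = s / Real.sqrt 32 := by
      rw [hs, ← Real.sqrt_div' _ (by norm_num)]
      congr 1
      push_cast
      ring
    have e2 : Real.sqrt 32 ≤ 6 := by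
      rw [Real.sqrt_le_left (by norm_num)]
      norm_num
    have e3 : 0 < Real.sqrt 32 := Real.sqrt_pos.2 (by norm_num)
    have e4 : s / 6 ≤ s / Real.sqrt 32 := div_le_div_of_nonneg_left hs0.le e3 e2
    rw [e1]
    have e5 : ((⌈1200 * l / s⌉₊ + 1 : ℕ) : ℝ) - 1 = ⌈1200 * l / s⌉₊ := by
      push_cast
      ring
    rw [e5]
    calc 50 * l = s / 6 * (1200 * l / s) / 4 := by
          field_simp
          ring
      _ ≤ s / Real.sqrt 32 * ⌈1200 * l / s⌉₊ / 4 := by gcongr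
  · have e1 : Real.sqrt ((1 / 4) ^ ⌈100 * l⌉₊) = (1 / 2) ^ ⌈100 * l⌉₊ := by
      have : ((1 : ℝ) / 4) ^ ⌈100 * l⌉₊ = ((1 / 2) ^ ⌈100 * l⌉₊) ^ 2 := by
        rw [show (1 : ℝ) / 4 = (1 / 2) ^ 2 by norm_num, ← pow_mul, ← pow_mul, Nat.mul_comm]
      rw [this, Real.sqrt_sq (by positivity)]
    rw [e1, ← hexp]
    have e2 : ((1 : ℝ) / 2) ^ ⌈100 * l⌉₊ = Real.exp ((⌈100 * l⌉₊ : ℝ) * Real.log (1 / 2)) := by
      rw [Real.exp_nat_mul, Real.exp_log (by norm_num)]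
    rw [e2]
    apply Real.exp_le_exp.2
    have e3 : Real.log (1 / 2) = -Real.log 2 := by rw [one_div, Real.log_inv]
    rw [e3]
    have e4 := Real.log_two_gt_d9
    nlinarith

theorem prob (r n L : ℕ) (hr : 1 ≤ r) (hr2 : Λ ≤ 2 * (r * (2304000000 * l ^ 2)))
    (hn : (n : ℝ) ≤ 38 * t) (hL : (L : ℝ) ≤ 200000 * l ^ 2 * Λ) :
    (2 * (L : ℝ) + 1) ^ 2 * (2 * (1 / Λ ^ 10)) +
      (n + 1) * (2 * L / r + 2) ^ 2 * (2 * (1 / l ^ 16)) ≤ 1 / 4 := by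
  have hl := h.l0
  have hl6 := h.l6
  have hΛ := h.Λ0
  have hΛb := h.Λ_big
  have hr0 : (0 : ℝ) < r := by exact_mod_cast hr
  have hbig := h.big
  have hl4 : l ^ 2 ≤ l ^ 4 := pow_le_pow_right₀ (by linarith) (by norm_num)
  have hl2 : 0 < l ^ 2 := by positivity
  have a1 : 2 * (L : ℝ) + 1 ≤ Λ ^ 2 := by
    have h1 : 400001 * l ^ 2 ≤ Λ := by linarith
    have h2 : 2 * (L : ℝ) + 1 ≤ 400001 * l ^ 2 * Λ := by
      have h3 : 1 ≤ l ^ 2 * Λ := by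
        have : 1 ≤ l ^ 2 := one_le_pow₀ (by linarith)
        nlinarith
      nlinarith
    calc 2 * (L : ℝ) + 1 ≤ 400001 * l ^ 2 * Λ := h2
      _ ≤ Λ * Λ := by gcongr
      _ = Λ ^ 2 := by ring
  have a2 : (2 * (L : ℝ) + 1) ^ 2 * (2 * (1 / Λ ^ 10)) ≤ 1 / 8 := by
    calc (2 * (L : ℝ) + 1) ^ 2 * (2 * (1 / Λ ^ 10)) ≤ (Λ ^ 2) ^ 2 * (2 * (1 / Λ ^ 10)) := by
          gcongr
      _ = 2 / Λ ^ 6 := by
          field_simp
      _ ≤ 2 / Λ := by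
          have : Λ ≤ Λ ^ 6 := by
            calc Λ = Λ ^ 1 := (pow_one Λ).symm
              _ ≤ Λ ^ 6 := pow_le_pow_right₀ (by linarith) (by norm_num)
          gcongr
      _ ≤ 1 / 8 := by
          rw [div_le_div_iff₀ hΛ (by norm_num)]
          linarith
  have b1 : 2 * (L : ℝ) / r ≤ 400000 * 4608000000 * l ^ 4 := by
    rw [div_le_iff₀ hr0]
    calc 2 * (L : ℝ) ≤ 2 * (200000 * l ^ 2 * Λ) := by gcongr
      _ ≤ 2 * (200000 * l ^ 2 * (2 * (r * (2304000000 * l ^ 2)))) := by gcongr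
      _ = 400000 * 4608000000 * l ^ 4 * r := by ring
  have b2 : 2 * (L : ℝ) / r + 2 ≤ 2 * 10 ^ 15 * l ^ 4 := by
    have : 1 ≤ l ^ 4 := one_le_pow₀ (by linarith)
    linarith
  have b3 : (n : ℝ) + 1 ≤ 39 * l := by
    have := h.tl
    have := h.t1
    linarith
  have a3 : ((n : ℝ) + 1) * (2 * L / r + 2) ^ 2 * (2 * (1 / l ^ 16)) ≤ 1 / 8 := by
    calc ((n : ℝ) + 1) * (2 * L / r + 2) ^ 2 * (2 * (1 / l ^ 16))
        ≤ 39 * l * (2 * 10 ^ 15 * l ^ 4) ^ 2 * (2 * (1 / l ^ 16)) := by gcongr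
      _ = 312 * 10 ^ 30 / l ^ 7 := by
          field_simp
          ring
      _ ≤ 312 * 10 ^ 30 / (10 ^ 6) ^ 7 := by gcongr
      _ ≤ 1 / 8 := by norm_num
  linarith

/-- all the losses -/
theorem loss (r n : ℕ) (hr : 1 ≤ r) (hr2 : Λ ≤ 2 * (r * (2304000000 * l ^ 2)))
    (hn : (n : ℝ) ≤ 38 * t) (hn2 : 2 * (2304000000 * l ^ 2) ≤ (2 : ℝ) ^ n) :
    2 * (4 * (4 * lam + 3 * (288 * lam * Real.sqrt t) * n) ^ 2 + 921600000 * lam ^ 2 +
      288 * lam * Real.sqrt t / ((r * 2 ^ n : ℕ) : ℝ)) + 20 * lam ^ 2 ≤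
      11000000000 * (lam ^ 2 * t ^ 3) := by
  have h0 := h.lam0
  have ht := h.t0
  have ht1 := h.t1
  have hΛ := h.Λ0
  have hr0 : (0 : ℝ) < r := by exact_mod_cast hr
  obtain ⟨s, hs⟩ : ∃ s : ℝ, s = Real.sqrt t := ⟨_, rfl⟩
  rw [← hs]
  have hs1 : 1 ≤ s := by rw [hs]; exact Real.one_le_sqrt.2 ht1
  have hss : s ^ 2 = t := by rw [hs]; exact Real.sq_sqrt ht.le
  have hs0 : 0 < s := by linarith
  have a1 : 4 * lam + 3 * (288 * lam * s) * n ≤ 32836 * lam * (t * s) := by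
    have h1 : 3 * (288 * lam * s) * n ≤ 3 * (288 * lam * s) * (38 * t) := by gcongr
    have h2 : 1 ≤ t * s := by nlinarith
    have h3 : lam ≤ lam * (t * s) := le_mul_of_one_le_right h0.le h2
    nlinarith
  have a2 : (4 * lam + 3 * (288 * lam * s) * n) ^ 2 ≤ 1078202896 * (lam ^ 2 * t ^ 3) := by
    calc (4 * lam + 3 * (288 * lam * s) * n) ^ 2 ≤ (32836 * lam * (t * s)) ^ 2 := by gcongr
      _ = 1078202896 * (lam ^ 2 * (t ^ 2 * s ^ 2)) := by ring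
      _ = _ := by rw [hss]; ring
  have ht3 : 1 ≤ t ^ 3 := one_le_pow₀ ht1
  have hl2 : 0 < lam ^ 2 := by positivity
  have a3 : lam ^ 2 ≤ lam ^ 2 * t ^ 3 := le_mul_of_one_le_right hl2.le ht3
  have a4 : 288 * lam * s / ((r * 2 ^ n : ℕ) : ℝ) ≤ 288 * (lam ^ 2 * t ^ 3) := by
    push_cast
    have hd : (0 : ℝ) < r * 2 ^ n := by positivity
    rw [div_le_iff₀ hd]
    have h1 : Λ ≤ r * 2 ^ n := by
      calc Λ ≤ 2 * (r * (2304000000 * l ^ 2)) := hr2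
        _ = r * (2 * (2304000000 * l ^ 2)) := by ring
        _ ≤ r * 2 ^ n := by gcongr
    have h2 : s ≤ t ^ 3 := by
      have h3 : s ≤ t := by nlinarith
      have h4 : t ≤ t ^ 3 := by
        calc t = t ^ 1 := (pow_one t).symm
          _ ≤ t ^ 3 := pow_le_pow_right₀ ht1 (by norm_num)
      linarith
    calc 288 * lam * s ≤ 288 * lam * t ^ 3 := by gcongr
      _ = 288 * (lam ^ 2 * t ^ 3) * Λ := by
          have e : 288 * (lam ^ 2 * t ^ 3) * Λ = 288 * lam * t ^ 3 * (lam * Λ) := by ring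
          rw [e, h.lΛ]
          ring
      _ ≤ 288 * (lam ^ 2 * t ^ 3) * (r * 2 ^ n) := by gcongr
  linarith

end St

end Pool.Agent.Y663.D2.Ar3
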