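import Pool.Agent.Y663.D2.En

/-! The deterministic energy of the logarithmic equation: expectation identities (helper663). -/

set_option autoImplicit false

open scoped BigOperators
open MeasureTheory

namespace Pool.Agent.Y663.D2.En

open Pool.Agent.H4R2
open Pool.Agent.H4R2.AE (T LapW IsSol beta)
open Pool.Agent.H4R2.AE.Good (W clamp)

theorem int5 {α ι : Type*} [Fintype ι] {mα : MeasurableSpace α} (ν : Measure α)
    (a b : ι → α → ℝ) (c e f : α → ℝ) (ha : ∀ i, Integrable (a i) ν)
    (hb : ∀ i, Integrable (b i) ν) (hc : Integrable c ν) (he : Integrable e ν)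
    (hf : Integrable f ν) :
    ∫ x, (∑ i, (a i x + b i x) + c x - e x + f x) ∂ν =
      ∑ i, ∫ x, (a i x + b i x) ∂ν + ∫ x, c x ∂ν - ∫ x, e x ∂ν + ∫ x, f x ∂ν := by
  have iAB : ∀ i, Integrable (fun x => a i x + b i x) ν := fun i => (ha i).add (hb i)
  have iS : Integrable (fun x => ∑ i, (a i x + b i x)) ν :=
    integrable_finsetSum _ fun i _ => iAB i
  have iSC : Integrable (fun x => ∑ i, (a i x + b i x) + c x) ν := iS.add hc
  have iSCE : Integrable (fun x => ∑ i, (a i x + b i x) + c x - e x) ν := iSC.sub he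
  rw [integral_add iSCE hf, integral_sub iSC he, integral_add iS hc,
    integral_finsetSum _ fun i _ => iAB i]

section prob

variable {d L : ℕ} [NeZero L]

theorem cont_clamp (z : T d L) : Continuous fun V : T d L → ℝ => clamp V z := by
  unfold AE.Good.clamp
  exact continuous_const.max (continuous_const.min (continuous_apply z))

theorem meas_upd : Measurable fun V : T d L → ℝ => Function.update V 0 (0 : ℝ) := by
  refine measurable_pi_iff.2 fun y => ?_
  by_cases hy : y = 0
  · subst hy
    simp only [Function.update_self]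
    exact measurable_const
  · simp only [Function.update_of_ne hy]
    exact measurable_pi_apply y

/-- integrability of continuous functions of the solution and the potential -/
theorem integ (μ : Measure ℝ) [IsProbabilityMeasure μ] (lam δ κ E : ℝ) (hlam : 0 < lam)
    (hδ : 0 < δ) (hκ : 0 < κ) (hE : |E| ≤ lam) (x y z : T d L) (F : ℝ × ℝ × ℝ → ℝ)
    (hF : Continuous F) :
    Integrable (fun V : T d L → ℝ => F (W lam δ κ E V x, W lam δ κ E V y, clamp V z))
      (Measure.pi fun _ : T d L => μ) := by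
  have hK : IsCompact (Set.Icc (-(2 * δ)) (2 * δ) ×ˢ (Set.Icc (-(2 * δ)) (2 * δ) ×ˢ
      Set.Icc (-1 : ℝ) 1)) := isCompact_Icc.prod (isCompact_Icc.prod isCompact_Icc)
  obtain ⟨C, hC⟩ := hK.exists_bound_of_continuousOn hF.continuousOn
  refine Integrable.of_bound (C := C) ?_ (Filter.Eventually.of_forall fun V => hC _ ?_)
  · have h : Continuous (fun V : T d L → ℝ => F (W lam δ κ E V x, W lam δ κ E V y, clamp V z)) :=
      hF.comp ((AE.Good.good_cont lam δ κ E hlam hδ hκ hE x).prodMk
        ((AE.Good.good_cont lam δ κ E hlam hδ hκ hE y).prodMk (cont_clamp z)))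
    exact h.measurable.aestronglyMeasurable
  · refine ⟨abs_le.1 (AE.Good.good_bound lam δ κ E hlam hδ hκ hE V x),
      abs_le.1 (AE.Good.good_bound lam δ κ E hlam hδ hκ hE V y),
      abs_le.1 (AE.Good.good_clamp_le V z)⟩

/-- stationarity -/
theorem stat (μ : Measure ℝ) [IsProbabilityMeasure μ] (lam δ κ E : ℝ) (hlam : 0 < lam)
    (hδ : 0 < δ) (hκ : 0 < κ) (hE : |E| ≤ lam) (x y a : T d L) (F : ℝ × ℝ → ℝ)
    (hF : Continuous F) :
    ∫ V, F (W lam δ κ E V x, W lam δ κ E V y) ∂(Measure.pi fun _ : T d L => μ) =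
      ∫ V, F (W lam δ κ E V (x + a), W lam δ κ E V (y + a)) ∂(Measure.pi fun _ : T d L => μ) := by
  have h1 : ∀ V : T d L → ℝ, F (W lam δ κ E V (x + a), W lam δ κ E V (y + a)) =
      (fun V' : T d L → ℝ => F (W lam δ κ E V' x, W lam δ κ E V' y)) (fun y => V (y + a)) := by
    intro V
    simp only
    rw [AE.Good.good_shift lam δ κ E hlam hδ hκ hE V a x,
      AE.Good.good_shift lam δ κ E hlam hδ hκ hE V a y]
  simp_rw [h1]
  have hmp := AE.Good.good_mp (L := L) μ a
  have hc : Continuous (fun V' : T d L → ℝ => F (W lam δ κ E V' x, W lam δ κ E V' y)) :=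
    hF.comp ((AE.Good.good_cont lam δ κ E hlam hδ hκ hE x).prodMk
      (AE.Good.good_cont lam δ κ E hlam hδ hκ hE y))
  have h2 := integral_map (μ := Measure.pi fun _ : T d L => μ) hmp.measurable.aemeasurable
    (f := fun V' : T d L → ℝ => F (W lam δ κ E V' x, W lam δ κ E V' y))
    hc.measurable.aestronglyMeasurable
  rw [hmp.map_eq] at h2
  exact h2

/-- one coordinate -/
theorem one_coord (μ : Measure ℝ) [IsProbabilityMeasure μ] (f : ℝ → ℝ) (hf : Continuous f)
    (z : T d L) : ∫ V, f (clamp V z) ∂(Measure.pi fun _ : T d L => μ) =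
      ∫ t, f (max (-1) (min 1 t)) ∂μ := by
  have hK : IsCompact (Set.Icc (-1 : ℝ) 1) := isCompact_Icc
  obtain ⟨C, hC⟩ := hK.exists_bound_of_continuousOn hf.continuousOn
  have h := AE.Ent.en_resample μ z (fun V : T d L → ℝ => f (clamp V z))
    (hf.comp (cont_clamp z)).measurable C
    (fun V => by
      have := hC (clamp V z) (abs_le.1 (AE.Good.good_clamp_le V z))
      rwa [Real.norm_eq_abs] at this)
  rw [h]
  have h2 : ∀ (V : T d L → ℝ) (t : ℝ), clamp (Function.update V z t) z = max (-1) (min 1 t) := by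
    intro V t
    unfold AE.Good.clamp
    rw [Function.update_self]
  simp only [h2]
  rw [integral_const, probReal_univ, one_smul]

/-- sharp lower bound for the deterministic energy -/
theorem energy (μ : Measure ℝ) [IsProbabilityMeasure μ] (σ2 : ℝ)
    (hm1 : ∫ t, max (-1) (min 1 t) ∂μ = 0) (hm2 : ∫ t, (max (-1) (min 1 t)) ^ 2 ∂μ = σ2)
    (lam δ κ E : ℝ) (hlam : 0 < lam)
    (hδ : 0 < δ) (hδ' : δ ≤ 1 / 8) (hκ : 0 < κ) (hE : |E| ≤ lam)
    (hE0 : ∫ V, W (d := d) (L := L) lam δ κ E V 0 ∂(Measure.pi fun _ : T d L => μ) = 0)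
    (g : T d L → ℝ)
    (hg : ∀ x, LapW (fun _ => 1) g x + κ * g x = if x = 0 then 1 else 0) :
    (1 - 3 * δ) * (-E - 2 * lam *
      (Measure.pi fun _ : T d L => μ).real {V | δ ≤ |W lam δ κ E V 0|}) ≤
      lam ^ 2 * σ2 * Real.exp (12 * δ) * g 0 := by
  set P := Measure.pi fun _ : T d L => μ with hP
  have hInt := fun x y z F hF => integ μ lam δ κ E hlam hδ hκ hE (d := d) (L := L) x y z F hF
  rw [← hP] at hInt
  -- the equation at the origin
  have heq : ∀ V : T d L → ℝ, ∑ i : Fin d,
      ((1 - Real.exp (W lam δ κ E V (0 + Pi.single i 1) - W lam δ κ E V 0)) +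
      (1 - Real.exp (W lam δ κ E V (0 - Pi.single i 1) - W lam δ κ E V 0))) +
      lam * clamp V 0 - E + beta lam δ κ (W lam δ κ E V 0) = 0 := fun V =>
    AE.Good.good_W lam δ κ E V hlam hδ hκ hE 0
  have hbc : Continuous (beta lam δ κ) := by
    unfold AE.beta
    fun_prop
  -- integrals
  set Q : Fin d → ℝ := fun i => ∫ V, (Real.exp (W lam δ κ E V (0 + Pi.single i 1) -
    W lam δ κ E V 0) + Real.exp (W lam δ κ E V 0 - W lam δ κ E V (0 + Pi.single i 1)) - 2) ∂P with hQ
  have iA : ∀ i : Fin d, Integrable (fun V : T d L → ℝ =>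
      1 - Real.exp (W lam δ κ E V (0 + Pi.single i 1) - W lam δ κ E V 0)) P := fun i =>
    hInt (0 + Pi.single i 1) 0 0 (fun p => 1 - Real.exp (p.1 - p.2.1)) (by fun_prop)
  have iB : ∀ i : Fin d, Integrable (fun V : T d L → ℝ =>
      1 - Real.exp (W lam δ κ E V (0 - Pi.single i 1) - W lam δ κ E V 0)) P := fun i =>
    hInt (0 - Pi.single i 1) 0 0 (fun p => 1 - Real.exp (p.1 - p.2.1)) (by fun_prop)
  have iB' : ∀ i : Fin d, Integrable (fun V : T d L → ℝ =>
      1 - Real.exp (W lam δ κ E V 0 - W lam δ κ E V (0 + Pi.single i 1))) P := fun i =>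
    hInt 0 (0 + Pi.single i 1) 0 (fun p => 1 - Real.exp (p.1 - p.2.1)) (by fun_prop)
  have iC : Integrable (fun V : T d L → ℝ => lam * clamp V 0) P :=
    hInt 0 0 0 (fun p => lam * p.2.2) (by fun_prop)
  have iD : Integrable (fun V : T d L → ℝ => beta lam δ κ (W lam δ κ E V 0)) P :=
    hInt 0 0 0 (fun p => beta lam δ κ p.1) (by fun_prop)
  have iW : Integrable (fun V : T d L → ℝ => W lam δ κ E V 0) P :=
    hInt 0 0 0 (fun p => p.1) (by fun_prop)
  have hshift : ∀ i : Fin d, (0 : T d L) - Pi.single i 1 + Pi.single i 1 = 0 := fun i => by abel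
  have hBB : ∀ i : Fin d, ∫ V, (1 - Real.exp (W lam δ κ E V (0 - Pi.single i 1) -
      W lam δ κ E V 0)) ∂P = ∫ V, (1 - Real.exp (W lam δ κ E V 0 -
      W lam δ κ E V (0 + Pi.single i 1))) ∂P := by
    intro i
    have h := stat μ lam δ κ E hlam hδ hκ hE (0 - Pi.single i 1) (0 : T d L) (Pi.single i 1)
      (fun p => 1 - Real.exp (p.1 - p.2)) (by fun_prop)
    rw [hshift i] at h
    exact h
  -- first identity
  have I1 : -∑ i, Q i - E + ∫ V, beta lam δ κ (W lam δ κ E V 0) ∂P = 0 := by
    have h0 : ∫ V, (∑ i : Fin d,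
      ((1 - Real.exp (W lam δ κ E V (0 + Pi.single i 1) - W lam δ κ E V 0)) +
      (1 - Real.exp (W lam δ κ E V (0 - Pi.single i 1) - W lam δ κ E V 0))) +
      lam * clamp V 0 - E + beta lam δ κ (W lam δ κ E V 0)) ∂P = 0 := by
      simp only [heq, integral_zero]
    have h0' := int5 P (fun (i : Fin d) (V : T d L → ℝ) =>
      1 - Real.exp (W lam δ κ E V (0 + Pi.single i 1) - W lam δ κ E V 0))
      (fun (i : Fin d) (V : T d L → ℝ) =>
      1 - Real.exp (W lam δ κ E V (0 - Pi.single i 1) - W lam δ κ E V 0))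
      (fun V => lam * clamp V 0) (fun _ => E) (fun V => beta lam δ κ (W lam δ κ E V 0))
      iA iB iC (integrable_const E) iD
    rw [h0', integral_const, probReal_univ, one_smul] at h0
    have h1 : ∫ V, lam * clamp V 0 ∂P = 0 := by
      have := one_coord (d := d) (L := L) μ (fun t => lam * t) (by fun_prop) 0
      rw [hP, this, integral_const_mul, hm1, mul_zero]
    have h2 : ∀ i : Fin d, ∫ V, ((1 - Real.exp (W lam δ κ E V (0 + Pi.single i 1) -
        W lam δ κ E V 0)) + (1 - Real.exp (W lam δ κ E V (0 - Pi.single i 1) -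
        W lam δ κ E V 0))) ∂P = -Q i := by
      intro i
      rw [integral_add (iA i) (iB i), hBB i, ← integral_add (iA i) (iB' i), hQ, ← integral_neg]
      congr 1
      funext V
      ring
    rw [Finset.sum_congr rfl fun i _ => h2 i, h1, Finset.sum_neg_distrib] at h0
    linarith
  have hbl : -(2 * lam * P.real {V | δ ≤ |W lam δ κ E V 0|}) ≤
      ∫ V, beta lam δ κ (W lam δ κ E V 0) ∂P := by
    have hms : MeasurableSet {V : T d L → ℝ | δ ≤ |W lam δ κ E V 0|} :=
      measurableSet_le measurable_const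
        (AE.Good.good_cont lam δ κ E hlam hδ hκ hE 0).abs.measurable
    have iI : Integrable (fun V : T d L → ℝ => (if δ ≤ |W lam δ κ E V 0| then (1 : ℝ) else 0)) P := by
      have : (fun V : T d L → ℝ => (if δ ≤ |W lam δ κ E V 0| then (1 : ℝ) else 0)) =
          Set.indicator {V : T d L → ℝ | δ ≤ |W lam δ κ E V 0|} 1 := by
        funext V
        simp [Set.indicator]
      rw [this]
      exact (integrable_const (1 : ℝ)).indicator hms
    have h1 : ∫ V, (κ * W lam δ κ E V 0 - 2 * lam * (if δ ≤ |W lam δ κ E V 0| then 1 else 0)) ∂P ≤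
        ∫ V, beta lam δ κ (W lam δ κ E V 0) ∂P := by
      refine integral_mono ((iW.const_mul κ).sub (iI.const_mul (2 * lam))) iD fun V => ?_
      exact beta_low lam δ κ _ hlam hδ (AE.Good.good_bound lam δ κ E hlam hδ hκ hE V 0)
    rw [integral_sub (iW.const_mul κ) (iI.const_mul (2 * lam)), integral_const_mul,
      integral_const_mul, hP, hE0, mul_zero, zero_sub, ← hP] at h1
    have h2 : ∫ V, (if δ ≤ |W lam δ κ E V 0| then (1 : ℝ) else 0) ∂P =
        P.real {V | δ ≤ |W lam δ κ E V 0|} := by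
      have : (fun V : T d L → ℝ => (if δ ≤ |W lam δ κ E V 0| then (1 : ℝ) else 0)) =
          Set.indicator {V : T d L → ℝ | δ ≤ |W lam δ κ E V 0|} 1 := by
        funext V
        simp [Set.indicator]
      rw [this, integral_indicator_one hms]
    rw [h2] at h1
    exact h1
  -- second identity
  have jA : ∀ i : Fin d, Integrable (fun V : T d L → ℝ => W lam δ κ E V 0 *
      (1 - Real.exp (W lam δ κ E V (0 + Pi.single i 1) - W lam δ κ E V 0))) P := fun i =>
    hInt (0 + Pi.single i 1) 0 0 (fun p => p.2.1 * (1 - Real.exp (p.1 - p.2.1))) (by fun_prop)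
  have jB : ∀ i : Fin d, Integrable (fun V : T d L → ℝ => W lam δ κ E V 0 *
      (1 - Real.exp (W lam δ κ E V (0 - Pi.single i 1) - W lam δ κ E V 0))) P := fun i =>
    hInt (0 - Pi.single i 1) 0 0 (fun p => p.2.1 * (1 - Real.exp (p.1 - p.2.1))) (by fun_prop)
  have jB' : ∀ i : Fin d, Integrable (fun V : T d L → ℝ => W lam δ κ E V (0 + Pi.single i 1) *
      (1 - Real.exp (W lam δ κ E V 0 - W lam δ κ E V (0 + Pi.single i 1)))) P := fun i =>
    hInt 0 (0 + Pi.single i 1) 0 (fun p => p.2.1 * (1 - Real.exp (p.1 - p.2.1))) (by fun_prop)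
  have jC : Integrable (fun V : T d L → ℝ => lam * (clamp V 0 * W lam δ κ E V 0)) P :=
    hInt 0 0 0 (fun p => lam * (p.2.2 * p.1)) (by fun_prop)
  have jE : Integrable (fun V : T d L → ℝ => E * W lam δ κ E V 0) P := iW.const_mul E
  have jD : Integrable (fun V : T d L → ℝ => beta lam δ κ (W lam δ κ E V 0) *
      W lam δ κ E V 0) P :=
    hInt 0 0 0 (fun p => beta lam δ κ p.1 * p.1) (by fun_prop)
  have kBB : ∀ i : Fin d, ∫ V, W lam δ κ E V 0 * (1 - Real.exp (W lam δ κ E V (0 - Pi.single i 1) -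
      W lam δ κ E V 0)) ∂P = ∫ V, W lam δ κ E V (0 + Pi.single i 1) *
      (1 - Real.exp (W lam δ κ E V 0 - W lam δ κ E V (0 + Pi.single i 1))) ∂P := by
    intro i
    have h := stat μ lam δ κ E hlam hδ hκ hE (0 - Pi.single i 1) (0 : T d L) (Pi.single i 1)
      (fun p => p.2 * (1 - Real.exp (p.1 - p.2))) (by fun_prop)
    rw [hshift i] at h
    exact h
  have I2 : (1 - 3 * δ) * ∑ i, Q i ≤ -(lam * ∫ V, clamp V 0 * W lam δ κ E V 0 ∂P) := by
    have h0 : ∫ V, (∑ i : Fin d, (W lam δ κ E V 0 *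
      (1 - Real.exp (W lam δ κ E V (0 + Pi.single i 1) - W lam δ κ E V 0)) + W lam δ κ E V 0 *
      (1 - Real.exp (W lam δ κ E V (0 - Pi.single i 1) - W lam δ κ E V 0))) +
      lam * (clamp V 0 * W lam δ κ E V 0) - E * W lam δ κ E V 0 +
      beta lam δ κ (W lam δ κ E V 0) * W lam δ κ E V 0) ∂P = 0 := by
      have : ∀ V : T d L → ℝ, (∑ i : Fin d, (W lam δ κ E V 0 *
        (1 - Real.exp (W lam δ κ E V (0 + Pi.single i 1) - W lam δ κ E V 0)) + W lam δ κ E V 0 *
        (1 - Real.exp (W lam δ κ E V (0 - Pi.single i 1) - W lam δ κ E V 0))) +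
        lam * (clamp V 0 * W lam δ κ E V 0) - E * W lam δ κ E V 0 +
        beta lam δ κ (W lam δ κ E V 0) * W lam δ κ E V 0) = 0 := by
        intro V
        have h1 := heq V
        have h2 : ∑ i : Fin d, (W lam δ κ E V 0 *
          (1 - Real.exp (W lam δ κ E V (0 + Pi.single i 1) - W lam δ κ E V 0)) + W lam δ κ E V 0 *
          (1 - Real.exp (W lam δ κ E V (0 - Pi.single i 1) - W lam δ κ E V 0))) =
          W lam δ κ E V 0 * ∑ i : Fin d,
          ((1 - Real.exp (W lam δ κ E V (0 + Pi.single i 1) - W lam δ κ E V 0)) +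
          (1 - Real.exp (W lam δ κ E V (0 - Pi.single i 1) - W lam δ κ E V 0))) := by
          rw [Finset.mul_sum]
          exact Finset.sum_congr rfl fun i _ => by ring
        rw [h2]
        linear_combination (W lam δ κ E V 0) * h1
      simp only [this, integral_zero]
    have h0' := int5 P (fun (i : Fin d) (V : T d L → ℝ) => W lam δ κ E V 0 *
      (1 - Real.exp (W lam δ κ E V (0 + Pi.single i 1) - W lam δ κ E V 0)))
      (fun (i : Fin d) (V : T d L → ℝ) => W lam δ κ E V 0 *
      (1 - Real.exp (W lam δ κ E V (0 - Pi.single i 1) - W lam δ κ E V 0)))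
      (fun V => lam * (clamp V 0 * W lam δ κ E V 0)) (fun V => E * W lam δ κ E V 0)
      (fun V => beta lam δ κ (W lam δ κ E V 0) * W lam δ κ E V 0)
      jA jB jC jE jD
    rw [h0', integral_const_mul, integral_const_mul] at h0
    have h1 : ∫ V, W lam δ κ E V 0 ∂P = 0 := hE0
    rw [h1, mul_zero, sub_zero] at h0
    have h2 : 0 ≤ ∫ V, beta lam δ κ (W lam δ κ E V 0) * W lam δ κ E V 0 ∂P :=
      integral_nonneg fun V => beta_mul lam δ κ _ hlam hδ hκ
    have h3 : (1 - 3 * δ) * ∑ i, Q i ≤ ∑ i : Fin d, ∫ V, (W lam δ κ E V 0 *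
      (1 - Real.exp (W lam δ κ E V (0 + Pi.single i 1) - W lam δ κ E V 0)) + W lam δ κ E V 0 *
      (1 - Real.exp (W lam δ κ E V (0 - Pi.single i 1) - W lam δ κ E V 0))) ∂P := by
      rw [Finset.mul_sum]
      refine Finset.sum_le_sum fun i _ => ?_
      rw [integral_add (jA i) (jB i), kBB i, ← integral_add (jA i) (jB' i), hQ,
        ← integral_const_mul]
      refine integral_mono ?_ ((jA i).add (jB' i)) fun V => ?_
      · exact hInt (0 + Pi.single i 1) 0 0 (fun p => (1 - 3 * δ) *
          (Real.exp (p.1 - p.2.1) + Real.exp (p.2.1 - p.1) - 2)) (by fun_prop)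
      · exact pw δ _ _ hδ hδ' (AE.Good.good_bound lam δ κ E hlam hδ hκ hE V 0)
          (AE.Good.good_bound lam δ κ E hlam hδ hκ hE V _)
    linarith
  -- third: covariance
  have I3 : -(∫ V, clamp V 0 * W lam δ κ E V 0 ∂P) ≤ lam * σ2 * Real.exp (12 * δ) * g 0 := by
    have hcu : ∀ V : T d L → ℝ, clamp (Function.update V 0 0) 0 = 0 := by
      intro V
      unfold AE.Good.clamp
      rw [Function.update_self]
      norm_num
    have hres : ∫ V, clamp V 0 * W lam δ κ E (Function.update V 0 0) 0 ∂P = 0 := by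
      have hmu : Measurable fun V : T d L → ℝ => W lam δ κ E (Function.update V 0 0) 0 :=
        (AE.Good.good_cont lam δ κ E hlam hδ hκ hE 0).measurable.comp meas_upd
      have h := AE.Ent.en_resample μ (0 : T d L)
        (fun V : T d L → ℝ => clamp V 0 * W lam δ κ E (Function.update V 0 0) 0)
        ((cont_clamp 0).measurable.mul hmu) (1 * (2 * δ)) (fun V => by
          rw [abs_mul]
          exact mul_le_mul (AE.Good.good_clamp_le V 0)
            (AE.Good.good_bound lam δ κ E hlam hδ hκ hE _ 0) (abs_nonneg _) (by norm_num))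
      rw [hP, h]
      have h2 : ∀ (V : T d L → ℝ) (t : ℝ), clamp (Function.update V 0 t) 0 *
          W lam δ κ E (Function.update (Function.update V 0 t) 0 0) 0 =
          max (-1) (min 1 t) * W lam δ κ E (Function.update V 0 0) 0 := by
        intro V t
        rw [Function.update_idem]
        congr 1
        unfold AE.Good.clamp
        rw [Function.update_self]
      simp only [h2]
      have h3 : ∀ V : T d L → ℝ, ∫ t, max (-1) (min 1 t) *
          W lam δ κ E (Function.update V 0 0) 0 ∂μ = 0 := by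
        intro V
        rw [integral_mul_const, hm1, zero_mul]
      simp only [h3, integral_zero]
    have hpt : ∀ V : T d L → ℝ, clamp V 0 * W lam δ κ E (Function.update V 0 0) 0 -
        clamp V 0 * W lam δ κ E V 0 ≤ lam * Real.exp (12 * δ) * g 0 * clamp V 0 ^ 2 := by
      intro V
      have hw := AE.Good.good_W lam δ κ E V hlam hδ hκ hE
      have hw' := AE.Good.good_W lam δ κ E (Function.update V 0 0) hlam hδ hκ hE
      have bw := AE.Good.good_bound lam δ κ E hlam hδ hκ hE V
      obtain ⟨Gr, hGr⟩ := AE.Lin.solve (fun y => Real.exp (W lam δ κ E V y))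
        (fun _ : T d L => κ * Real.exp (-(4 * δ))) (fun y => if y = 0 then (1 : ℝ) else 0)
        (fun y => Real.exp_pos _) (fun _ => by positivity)
      have hGr0 : ∀ y, 0 ≤ Gr y :=
        AE.Lin.nonneg (fun y => Real.exp (W lam δ κ E V y)) (fun _ => κ * Real.exp (-(4 * δ))) Gr
          (fun y => Real.exp_pos _) (fun _ => by positivity) (by
          intro y; rw [hGr y]; split_ifs <;> norm_num)
      have hc := claim lam δ κ E hlam hδ hκ hE (clamp V) _ (clamp (Function.update V 0 0)) _
        (AE.Good.good_clamp_le V) (AE.Good.good_clamp_le _) hw hw' 0 0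
        (fun y hy => by unfold AE.Good.clamp; rw [Function.update_of_ne hy]) Gr hGr hGr0
      have hcmp := gr_cmp (Real.exp (-(4 * δ))) κ (Real.exp_pos _) hκ
        (fun y => Real.exp (W lam δ κ E V y)) Gr g 0 (fun x i => by
          rw [← Real.exp_add]
          apply Real.exp_le_exp.2
          have h1 := (abs_le.1 (bw x)).1
          have h2 := (abs_le.1 (bw (x + Pi.single i 1))).1
          linarith) hGr hg
      have hGr1 : Gr 0 ≤ Real.exp (4 * δ) * g 0 := by
        have h1 := mul_le_mul_of_nonneg_left hcmp (Real.exp_pos (4 * δ)).le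
        rwa [← mul_assoc, ← Real.exp_add, add_neg_cancel, Real.exp_zero, one_mul] at h1
      rw [hcu, zero_sub, abs_neg] at hc
      have h12 : Real.exp (12 * δ) = Real.exp (8 * δ) * Real.exp (4 * δ) := by
        rw [← Real.exp_add]; congr 1; ring
      calc clamp V 0 * W lam δ κ E (Function.update V 0 0) 0 - clamp V 0 * W lam δ κ E V 0
          = clamp V 0 * (W lam δ κ E (Function.update V 0 0) 0 - W lam δ κ E V 0) := by ring
        _ ≤ |clamp V 0 * (W lam δ κ E (Function.update V 0 0) 0 - W lam δ κ E V 0)| :=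
            le_abs_self _
        _ = |clamp V 0| * |W lam δ κ E (Function.update V 0 0) 0 - W lam δ κ E V 0| := abs_mul _ _
        _ ≤ |clamp V 0| * (Real.exp (8 * δ) * (lam * |clamp V 0|) * Gr 0) :=
            mul_le_mul_of_nonneg_left hc (abs_nonneg _)
        _ = Real.exp (8 * δ) * lam * clamp V 0 ^ 2 * Gr 0 := by
            rw [← sq_abs]; ring
        _ ≤ Real.exp (8 * δ) * lam * clamp V 0 ^ 2 * (Real.exp (4 * δ) * g 0) := by
            gcongr
        _ = _ := by rw [h12]; ring
    have i1 : Integrable (fun V : T d L → ℝ => clamp V 0 *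
        W lam δ κ E (Function.update V 0 0) 0) P := by
      have hmu : Measurable fun V : T d L → ℝ => W lam δ κ E (Function.update V 0 0) 0 :=
        (AE.Good.good_cont lam δ κ E hlam hδ hκ hE 0).measurable.comp meas_upd
      refine Integrable.of_bound (C := 1 * (2 * δ))
        ((cont_clamp 0).measurable.mul hmu).aestronglyMeasurable
        (Filter.Eventually.of_forall fun V => ?_)
      rw [Real.norm_eq_abs, abs_mul]
      exact mul_le_mul (AE.Good.good_clamp_le V 0)
        (AE.Good.good_bound lam δ κ E hlam hδ hκ hE _ 0) (abs_nonneg _) (by norm_num)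
    have i2 : Integrable (fun V : T d L → ℝ => clamp V 0 * W lam δ κ E V 0) P :=
      hInt 0 0 0 (fun p => p.2.2 * p.1) (by fun_prop)
    have i3 : Integrable (fun V : T d L → ℝ => lam * Real.exp (12 * δ) * g 0 * clamp V 0 ^ 2) P :=
      hInt 0 0 0 (fun p => lam * Real.exp (12 * δ) * g 0 * p.2.2 ^ 2) (by fun_prop)
    have h1 := integral_mono (i1.sub i2) i3 hpt
    have h2 : ∫ V, (fun V : T d L → ℝ => clamp V 0 * W lam δ κ E (Function.update V 0 0) 0) V -
        (fun V : T d L → ℝ => clamp V 0 * W lam δ κ E V 0) V ∂P =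
        -(∫ V, clamp V 0 * W lam δ κ E V 0 ∂P) := by
      rw [integral_sub i1 i2, hres, zero_sub]
    have h3 : ∫ V, lam * Real.exp (12 * δ) * g 0 * clamp V 0 ^ 2 ∂P =
        lam * σ2 * Real.exp (12 * δ) * g 0 := by
      have := one_coord (d := d) (L := L) μ (fun t => t ^ 2) (by fun_prop) 0
      rw [integral_const_mul, hP, this, hm2]
      ring
    rw [h3] at h1
    refine le_trans (le_of_eq ?_) h1
    exact h2.symm
  -- conclusion
  have h3δ : 0 < 1 - 3 * δ := by linarith
  have hfin : -E - 2 * lam * P.real {V | δ ≤ |W lam δ κ E V 0|} ≤ ∑ i, Q i := by linarith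
  calc (1 - 3 * δ) * (-E - 2 * lam * P.real {V | δ ≤ |W lam δ κ E V 0|})
      ≤ (1 - 3 * δ) * ∑ i, Q i := mul_le_mul_of_nonneg_left hfin h3δ.le
    _ ≤ -(lam * ∫ V, clamp V 0 * W lam δ κ E V 0 ∂P) := I2
    _ = lam * -(∫ V, clamp V 0 * W lam δ κ E V 0 ∂P) := by ring
    _ ≤ lam * (lam * σ2 * Real.exp (12 * δ) * g 0) := mul_le_mul_of_nonneg_left I3 hlam.le
    _ = lam ^ 2 * σ2 * Real.exp (12 * δ) * g 0 := by ring

end prob

end Pool.Agent.Y663.D2.En
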