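import Pool.Agent.Y663.D2.Fb
import Pool.Agent.Y663.D2.En2

/-! Concentration of block sums of `W exp (2 W)` (helper663). -/

set_option autoImplicit false

open scoped BigOperators
open MeasureTheory

namespace Pool.Agent.Y663.D2.Bs2

open Pool.Agent.H4R2
open Pool.Agent.H4R2.AE (T LapW IsSol beta)
open Pool.Agent.H4R2.AE.Good (W clamp)

/-- the nonlinearity -/
noncomputable def phi (s : ℝ) : ℝ := s * Real.exp (2 * s)

theorem phi_cont : Continuous phi := by
  unfold phi
  fun_prop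

theorem phi_diff (s s' : ℝ) (h : s ≤ s') (hs : |s| ≤ 1 / 4) (hs' : |s'| ≤ 1 / 4) :
    0 ≤ phi s' - phi s ∧ phi s' - phi s ≤ 3 * (s' - s) := by
  unfold phi
  have a1 := abs_le.1 hs
  have a2 := abs_le.1 hs'
  obtain ⟨e, he⟩ : ∃ e : ℝ, e = Real.exp (2 * s') := ⟨_, rfl⟩
  have he0 : 0 < e := by rw [he]; exact Real.exp_pos _
  have he2 : e ≤ 2 := by
    have h2 : Real.exp (2 * s') ≤ Real.exp (1 / 2) := Real.exp_le_exp.2 (by linarith)
    have h3 : Real.exp (1 / 2) ^ 2 = Real.exp 1 := by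
      rw [← Real.exp_nat_mul]
      norm_num
    have h4 := Real.exp_one_lt_d9
    have h5 := Real.exp_pos (1 / 2 : ℝ)
    rw [he]
    nlinarith
  have h1 : e * (1 - 2 * (s' - s)) ≤ Real.exp (2 * s) := by
    have h2 : Real.exp (2 * s) = e * Real.exp (-(2 * (s' - s))) := by
      rw [he, ← Real.exp_add]
      congr 1
      ring
    rw [h2]
    have h3 := Real.add_one_le_exp (-(2 * (s' - s)))
    exact mul_le_mul_of_nonneg_left (by linarith) he0.le
  have h2 : Real.exp (2 * s) ≤ e := by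
    rw [he]
    exact Real.exp_le_exp.2 (by linarith)
  rw [← he]
  have hd : 0 ≤ s' - s := by linarith
  have hed : 0 ≤ e * (s' - s) := by positivity
  have key : s' * e - s * Real.exp (2 * s) = (s' - s) * e + s * (e - Real.exp (2 * s)) := by ring
  have h3 : |s * (e - Real.exp (2 * s))| ≤ 1 / 4 * (2 * (e * (s' - s))) := by
    rw [abs_mul]
    refine mul_le_mul hs ?_ (abs_nonneg _) (by norm_num)
    rw [abs_of_nonneg (by linarith)]
    linarith
  have h4 := abs_le.1 h3
  rw [key]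
  constructor
  · linarith [h4.1]
  · nlinarith [h4.2]

theorem phi_sub (s : ℝ) (hs : |s| ≤ 1 / 4) : |phi s - s| ≤ 4 * s ^ 2 := by
  unfold phi
  have a1 := abs_le.1 hs
  have h1 : s * Real.exp (2 * s) - s = s * (Real.exp (2 * s) - 1) := by ring
  have h2 : |Real.exp (2 * s) - 1| ≤ 4 * |s| := by
    have h3 := Real.add_one_le_exp (2 * s)
    have h4 : Real.exp (2 * s) * (1 - 2 * s) ≤ 1 := by
      have h5 := Real.add_one_le_exp (-(2 * s))
      have h6 : Real.exp (2 * s) * Real.exp (-(2 * s)) = 1 := by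
        rw [← Real.exp_add]; simp
      have h7 := Real.exp_pos (2 * s)
      nlinarith
    rw [abs_le]
    rcases le_total 0 s with h | h
    · rw [abs_of_nonneg h]
      have h7 := Real.exp_pos (2 * s)
      constructor
      · linarith
      · have h8 : Real.exp (2 * s) ≤ 2 := by nlinarith
        nlinarith
    · rw [abs_of_nonpos h]
      have h7 := Real.exp_pos (2 * s)
      constructor
      · linarith
      · have h8 : Real.exp (2 * s) ≤ 1 := by
          rw [← Real.exp_zero]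
          exact Real.exp_le_exp.2 (by linarith)
        linarith
  rw [h1, abs_mul]
  calc |s| * |Real.exp (2 * s) - 1| ≤ |s| * (4 * |s|) := by gcongr
    _ = 4 * s ^ 2 := by rw [← sq_abs s]; ring

/-- one sided tail from the entropy method -/
theorem tail1 {ι : Type} [Fintype ι] [DecidableEq ι] (μ : Measure ℝ) [IsProbabilityMeasure μ]
    (f : (ι → ℝ) → ℝ) (hf : Continuous f) (C : ℝ) (hb : ∀ V, |f V| ≤ C) (a : ℝ)
    (hmono : ∀ V z, f (Function.update V z a) ≤ f V) (R : ℝ) (hR : 0 < R)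
    (hs : ∀ V, ∑ z, (f V - f (Function.update V z a)) ^ 2 ≤ R) (s : ℝ) (hs0 : 0 < s) :
    (Measure.pi fun _ : ι => μ).real {V | s ≤ f V - ∫ V, f V ∂(Measure.pi fun _ : ι => μ)} ≤
      Real.exp (-(s ^ 2 / (4 * R))) := by
  set P := Measure.pi fun _ : ι => μ with hP
  set m := ∫ V, f V ∂P with hm
  set θ : ℝ := s / (2 * R) with hθ
  have hθ0 : 0 < θ := by positivity
  have h1 := AE.Ent.mgf μ f hf.measurable C hb a hmono 2 R (by norm_num) hR.le (by
      intro t ht V
      rw [Real.rpow_two]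
      calc _ ≤ ∑ z, (t * (f V - f (Function.update V z a))) ^ 2 :=
            Finset.sum_le_sum fun z _ => min_le_left _ _
        _ = t ^ 2 * ∑ z, (f V - f (Function.update V z a)) ^ 2 := by
            rw [Finset.mul_sum]
            exact Finset.sum_congr rfl fun x _ => by ring
        _ ≤ t ^ 2 * R := mul_le_mul_of_nonneg_left (hs V) (by positivity)
        _ = _ := by ring) θ hθ0
  rw [Real.rpow_two] at h1
  have hint : Integrable (fun V => Real.exp (θ * f V)) P := by
    refine Integrable.of_bound (C := Real.exp (θ * C))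
      ((Real.continuous_exp.comp (continuous_const.mul hf)).measurable.aestronglyMeasurable) ?_
    filter_upwards with V
    rw [Real.norm_eq_abs, abs_of_pos (Real.exp_pos _)]
    exact Real.exp_le_exp.2 (mul_le_mul_of_nonneg_left ((le_abs_self _).trans (hb V)) hθ0.le)
  have hmk := mul_meas_ge_le_integral_of_nonneg (μ := P)
    (f := fun V => Real.exp (θ * f V))
    (Filter.Eventually.of_forall fun V => (Real.exp_pos _).le) hint (Real.exp (θ * (m + s)))
  have hset : {V | Real.exp (θ * (m + s)) ≤ Real.exp (θ * f V)} = {V | s ≤ f V - m} := by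
    ext V
    simp only [Set.mem_ofPred_eq, Real.exp_le_exp]
    constructor
    · intro h
      have := le_of_mul_le_mul_left h hθ0
      linarith
    · intro h
      exact mul_le_mul_of_nonneg_left (by linarith) hθ0.le
  rw [hset] at hmk
  have h2 := hmk.trans h1
  have h6 : Real.exp (-(s ^ 2 / (4 * R))) =
      Real.exp (-(θ * (m + s))) * Real.exp (θ * m + R * θ ^ 2 / (2 - 1)) := by
    rw [← Real.exp_add]
    congr 1
    rw [hθ]
    field_simp
    ring
  rw [h6]
  calc P.real {V | s ≤ f V - m}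
      = Real.exp (-(θ * (m + s))) * (Real.exp (θ * (m + s)) * P.real {V | s ≤ f V - m}) := by
        rw [← mul_assoc, ← Real.exp_add]; simp
    _ ≤ _ := mul_le_mul_of_nonneg_left h2 (Real.exp_pos _).le

variable {d L : ℕ} [NeZero L]

/-- block sums -/
noncomputable def Sn (lam δ κ E : ℝ) (B : Finset (T d L)) (V : T d L → ℝ) : ℝ :=
  ∑ x ∈ B, phi (W lam δ κ E V x)

theorem Sn_cont (lam δ κ E : ℝ) (hlam : 0 < lam) (hδ : 0 < δ) (hκ : 0 < κ) (hE : |E| ≤ lam)
    (B : Finset (T d L)) : Continuous (Sn lam δ κ E B : (T d L → ℝ) → ℝ) := by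
  unfold Sn
  refine continuous_finsetSum _ fun x _ => ?_
  exact phi_cont.comp (AE.Good.good_cont lam δ κ E hlam hδ hκ hE x)

theorem W_bd (lam δ κ E : ℝ) (hlam : 0 < lam) (hδ : 0 < δ) (hδ' : δ ≤ 1 / 8) (hκ : 0 < κ)
    (hE : |E| ≤ lam) (V : T d L → ℝ) (x : T d L) : |W lam δ κ E V x| ≤ 1 / 4 :=
  (AE.Good.good_bound lam δ κ E hlam hδ hκ hE V x).trans (by linarith)

theorem phi_bd (s : ℝ) (hs : |s| ≤ 1 / 4) : |phi s| ≤ 1 := by
  have h1 := phi_sub s hs
  have a1 := abs_le.1 hs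
  have h2 := abs_le.1 h1
  have h3 : s ^ 2 ≤ 1 / 16 := by nlinarith
  rw [abs_le]
  constructor <;> linarith [h2.1, h2.2]

theorem Sn_bound (lam δ κ E : ℝ) (hlam : 0 < lam) (hδ : 0 < δ) (hδ' : δ ≤ 1 / 8) (hκ : 0 < κ)
    (hE : |E| ≤ lam) (B : Finset (T d L)) (V : T d L → ℝ) :
    |Sn lam δ κ E B V| ≤ B.card := by
  unfold Sn
  refine (Finset.abs_sum_le_sum_abs _ _).trans ?_
  calc ∑ x ∈ B, |phi (W lam δ κ E V x)| ≤ ∑ x ∈ B, (1 : ℝ) :=
        Finset.sum_le_sum fun x _ => phi_bd _ (W_bd lam δ κ E hlam hδ hδ' hκ hE V x)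
    _ = B.card := by simp

theorem Sn_anti (lam δ κ E : ℝ) (hlam : 0 < lam) (hδ : 0 < δ) (hδ' : δ ≤ 1 / 8) (hκ : 0 < κ)
    (hE : |E| ≤ lam) (B : Finset (T d L)) (V V' : T d L → ℝ)
    (h : ∀ x, W lam δ κ E V' x ≤ W lam δ κ E V x) :
    Sn lam δ κ E B V' ≤ Sn lam δ κ E B V := by
  unfold Sn
  refine Finset.sum_le_sum fun x _ => ?_
  have := (phi_diff _ _ (h x) (W_bd lam δ κ E hlam hδ hδ' hκ hE V' x)
    (W_bd lam δ κ E hlam hδ hδ' hκ hE V x)).1
  linarith

/-- total sensitivity of the block sum -/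
theorem Sn_sens (lam δ κ E : ℝ) (hlam : 0 < lam) (hδ : 0 < δ) (hδ' : δ ≤ 1 / 8) (hκ : 0 < κ)
    (hE : |E| ≤ lam) (B : Finset (T d L)) (V : T d L → ℝ) (a : ℝ) :
    ∑ z, (Sn lam δ κ E B V - Sn lam δ κ E B (Function.update V z a)) ^ 2 ≤
      1296 * lam ^ 2 * B.card / κ ^ 2 := by
  have hw := AE.Good.good_W lam δ κ E V hlam hδ hκ hE
  have hGex : ∀ x : T d L, ∃ Gr : T d L → ℝ, (∀ y, LapW (fun y => Real.exp (W lam δ κ E V y)) Gr y +
      κ * Real.exp (-(4 * δ)) * Gr y = if y = x then 1 else 0) ∧ ∀ y, 0 ≤ Gr y := by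
    intro x
    obtain ⟨Gr, hGr⟩ := AE.Lin.solve (fun y => Real.exp (W lam δ κ E V y))
      (fun _ : T d L => κ * Real.exp (-(4 * δ))) (fun y => if y = x then (1 : ℝ) else 0)
      (fun y => Real.exp_pos _) (fun _ => by positivity)
    refine ⟨Gr, hGr, ?_⟩
    exact AE.Lin.nonneg (fun y => Real.exp (W lam δ κ E V y)) (fun _ => κ * Real.exp (-(4 * δ))) Gr
      (fun y => Real.exp_pos _) (fun _ => by positivity) (by
      intro y; rw [hGr y]; split_ifs <;> norm_num)
  choose Gr hGr hGr0 using hGex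
  set α : T d L → ℝ := fun x => if x ∈ B then 1 else 0 with hα
  have hα1 : ∑ x, α x ^ 2 = B.card := by
    have h1 : ∀ x, α x ^ 2 = if x ∈ B then 1 else 0 := by
      intro x
      simp only [hα]
      split_ifs <;> norm_num
    simp only [h1]
    rw [Finset.sum_ite_mem, Finset.univ_inter]
    simp
  set g : T d L → ℝ := fun z => ∑ x, α x * Gr x z with hg
  have hgeq : ∀ z, LapW (fun y => Real.exp (W lam δ κ E V y)) g z +
      κ * Real.exp (-(4 * δ)) * g z = α z := by
    intro z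
    have h1 : LapW (fun y => Real.exp (W lam δ κ E V y)) g z =
        ∑ x, α x * LapW (fun y => Real.exp (W lam δ κ E V y)) (Gr x) z := by
      unfold LapW
      simp only [hg, Finset.mul_sum]
      rw [Finset.sum_comm]
      refine Finset.sum_congr rfl fun i _ => ?_
      rw [← Finset.sum_sub_distrib, ← Finset.sum_sub_distrib, Finset.mul_sum, Finset.mul_sum,
        ← Finset.sum_add_distrib]
      refine Finset.sum_congr rfl fun x _ => ?_
      ring
    rw [h1]
    simp only [hg]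
    rw [Finset.mul_sum, ← Finset.sum_add_distrib]
    have h2 : ∀ x, α x * LapW (fun y => Real.exp (W lam δ κ E V y)) (Gr x) z +
        κ * Real.exp (-(4 * δ)) * (α x * Gr x z) = α x * (if z = x then 1 else 0) := by
      intro x
      rw [← hGr x z]
      ring
    simp only [h2]
    simp
  have hgl2 := Fb.l2 _ g α _ (by positivity) (fun y => Real.exp_pos _) hgeq
  rw [hα1] at hgl2
  have he : Real.exp 1 ≤ 3 := by
    have := Real.exp_one_lt_d9; linarith
  have hDz : ∀ z, |Sn lam δ κ E B V - Sn lam δ κ E B (Function.update V z a)| ≤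
      18 * lam * g z := by
    intro z
    have e3 : ∀ x, |phi (W lam δ κ E V x) - phi (W lam δ κ E (Function.update V z a) x)| ≤
        18 * lam * Gr x z := by
      intro x
      have hc := AE.Sens.claim lam δ κ E hlam hδ hδ' hκ hE (clamp V) _
        (clamp (Function.update V z a)) _ (AE.Good.good_clamp_le V) (AE.Good.good_clamp_le _) hw
        (AE.Good.good_W lam δ κ E (Function.update V z a) hlam hδ hκ hE) z x
        (fun y hy => by unfold AE.Good.clamp; rw [Function.update_of_ne hy]) (Gr x) (hGr x) (hGr0 x)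
      obtain ⟨s, hs⟩ : ∃ s, s = W lam δ κ E V x := ⟨_, rfl⟩
      obtain ⟨s', hs'⟩ : ∃ s', s' = W lam δ κ E (Function.update V z a) x := ⟨_, rfl⟩
      have b1 := W_bd lam δ κ E hlam hδ hδ' hκ hE V x
      have b2 := W_bd lam δ κ E hlam hδ hδ' hκ hE (Function.update V z a) x
      rw [← hs] at b1 hc ⊢
      rw [← hs'] at b2 hc ⊢
      have h3 : 0 ≤ lam * Gr x z := mul_nonneg hlam.le (hGr0 x z)
      have h4 : |s' - s| ≤ 6 * lam * Gr x z := by nlinarith
      have h5 : |phi s - phi s'| ≤ 3 * |s' - s| := by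
        rcases le_total s s' with h | h
        · have := phi_diff s s' h b1 b2
          rw [abs_sub_comm, abs_of_nonneg this.1, abs_of_nonneg (by linarith)]
          exact this.2
        · have := phi_diff s' s h b2 b1
          rw [abs_of_nonneg this.1, abs_sub_comm, abs_of_nonneg (by linarith)]
          exact this.2
      linarith
    have e4 : Sn lam δ κ E B V - Sn lam δ κ E B (Function.update V z a) =
        ∑ x ∈ B, (phi (W lam δ κ E V x) - phi (W lam δ κ E (Function.update V z a) x)) := by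
      unfold Sn
      rw [← Finset.sum_sub_distrib]
    rw [e4]
    refine (Finset.abs_sum_le_sum_abs _ _).trans ?_
    calc ∑ x ∈ B, |phi (W lam δ κ E V x) - phi (W lam δ κ E (Function.update V z a) x)|
        ≤ ∑ x ∈ B, 18 * lam * Gr x z := Finset.sum_le_sum fun x _ => e3 x
      _ = 18 * lam * g z := by
          simp only [hg, hα]
          rw [Finset.mul_sum]
          simp only [ite_mul, one_mul, zero_mul, mul_ite, mul_zero]
          rw [Finset.sum_ite_mem, Finset.univ_inter]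
  have hexp : 1 / 2 ≤ Real.exp (-(4 * δ)) := by
    have h1 := Real.add_one_le_exp (-(4 * δ))
    linarith
  calc ∑ z, (Sn lam δ κ E B V - Sn lam δ κ E B (Function.update V z a)) ^ 2
      ≤ ∑ z, (18 * lam * g z) ^ 2 := by
        refine Finset.sum_le_sum fun z _ => ?_
        rw [← sq_abs]
        exact pow_le_pow_left₀ (abs_nonneg _) (hDz z) 2
    _ = 324 * lam ^ 2 * ∑ z, g z ^ 2 := by
        rw [Finset.mul_sum]
        exact Finset.sum_congr rfl fun x _ => by ring
    _ ≤ 324 * lam ^ 2 * (B.card / (κ * Real.exp (-(4 * δ))) ^ 2) :=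
        mul_le_mul_of_nonneg_left hgl2 (by positivity)
    _ ≤ 324 * lam ^ 2 * (B.card / (κ * (1 / 2)) ^ 2) := by
        gcongr
    _ = 1296 * lam ^ 2 * B.card / κ ^ 2 := by
        field_simp
        ring

/-- two sided tail of the block sum -/
theorem Sn_tail (μ : Measure ℝ) [IsProbabilityMeasure μ] (lam δ κ E : ℝ) (hlam : 0 < lam)
    (hδ : 0 < δ) (hδ' : δ ≤ 1 / 8) (hκ : 0 < κ) (hE : |E| ≤ lam) (B : Finset (T d L))
    (N : ℝ) (hN : 0 < N) (hB : (B.card : ℝ) ≤ N) (s : ℝ) (hs0 : 0 < s) :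
    (Measure.pi fun _ : T d L => μ).real {V | s ≤ |Sn lam δ κ E B V -
      ∫ V, Sn lam δ κ E B V ∂(Measure.pi fun _ : T d L => μ)|} ≤
      2 * Real.exp (-(s ^ 2 * κ ^ 2 / (5184 * lam ^ 2 * N))) := by
  set P := Measure.pi fun _ : T d L => μ with hP
  have hR : 0 < 1296 * lam ^ 2 * N / κ ^ 2 := by positivity
  have hRB : 1296 * lam ^ 2 * (B.card : ℝ) / κ ^ 2 ≤ 1296 * lam ^ 2 * N / κ ^ 2 := by gcongr
  have h1 := tail1 μ (Sn lam δ κ E B) (Sn_cont lam δ κ E hlam hδ hκ hE B) B.card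
    (Sn_bound lam δ κ E hlam hδ hδ' hκ hE B) 1
    (fun V z => Sn_anti lam δ κ E hlam hδ hδ' hκ hE B V _ fun x =>
      AE.Goodt.goodt_anti κ hκ lam δ hlam hδ E hE V _ (AE.Goodt.goodt_up V z) x) _ hR
    (fun V => (Sn_sens lam δ κ E hlam hδ hδ' hκ hE B V 1).trans hRB) s hs0
  have h2 := tail1 μ (fun V => -Sn lam δ κ E B V) (Sn_cont lam δ κ E hlam hδ hκ hE B).neg B.card
    (fun V => by rw [abs_neg]; exact Sn_bound lam δ κ E hlam hδ hδ' hκ hE B V) (-1)
    (fun V z => neg_le_neg (Sn_anti lam δ κ E hlam hδ hδ' hκ hE B _ V fun x =>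
      AE.Goodt.goodt_anti κ hκ lam δ hlam hδ E hE _ V (AE.Goodt.goodt_down V z) x)) _ hR
    (fun V => by
      refine le_trans (le_of_eq ?_)
        ((Sn_sens lam δ κ E hlam hδ hδ' hκ hE B V (-1)).trans hRB)
      refine Finset.sum_congr rfl fun z _ => ?_
      ring) s hs0
  rw [integral_neg] at h2
  have e : s ^ 2 / (4 * (1296 * lam ^ 2 * N / κ ^ 2)) = s ^ 2 * κ ^ 2 / (5184 * lam ^ 2 * N) := by
    field_simp
    ring
  rw [e] at h1 h2
  have hsub : {V | s ≤ |Sn lam δ κ E B V - ∫ V, Sn lam δ κ E B V ∂P|} ⊆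
      {V | s ≤ Sn lam δ κ E B V - ∫ V, Sn lam δ κ E B V ∂P} ∪
      {V | s ≤ -Sn lam δ κ E B V - -∫ V, Sn lam δ κ E B V ∂P} := by
    intro V hV
    have hV' : s ≤ |Sn lam δ κ E B V - ∫ V, Sn lam δ κ E B V ∂P| := hV
    rcases abs_cases (Sn lam δ κ E B V - ∫ V, Sn lam δ κ E B V ∂P) with h | h
    · left
      show s ≤ Sn lam δ κ E B V - ∫ V, Sn lam δ κ E B V ∂P
      linarith [h.1]
    · right
      show s ≤ -Sn lam δ κ E B V - -∫ V, Sn lam δ κ E B V ∂P
      linarith [h.1]
  refine (measureReal_mono hsub).trans ((measureReal_union_le _ _).trans ?_)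
  linarith

/-- the mean of the block sum -/
theorem Sn_mean (κ : ℝ) (hκ : 0 < κ) (R0 : ℝ) (hR0 : 0 < R0) (μ : Measure ℝ)
    [IsProbabilityMeasure μ] (lam δ : ℝ) (hlam : 0 < lam) (hδ : 0 < δ) (hδ' : δ ≤ 1 / 8)
    (hG : ∀ (u Gr : T d L → ℝ) (x0 : T d L), (∀ x, 1 / 2 ≤ u x) → (∀ x, 0 ≤ Gr x) →
      (∀ x, LapW u Gr x + κ * Real.exp (-(4 * δ)) * Gr x = if x = x0 then 1 else 0) →
      ∑ z, Gr z ^ 2 ≤ R0)
    (E : ℝ) (hE : |E| ≤ lam)
    (hE0 : ∫ V, W (d := d) (L := L) lam δ κ E V 0 ∂(Measure.pi fun _ : T d L => μ) = 0) :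
    ∃ m0 : ℝ, |m0| ≤ 576 * lam ^ 2 * R0 ∧ ∀ B : Finset (T d L),
      ∫ V, Sn lam δ κ E B V ∂(Measure.pi fun _ : T d L => μ) = B.card * m0 := by
  set P := Measure.pi fun _ : T d L => μ with hP
  have iP : ∀ (x : T d L) (F : ℝ → ℝ), Continuous F → Integrable (fun V => F (W lam δ κ E V x)) P := by
    intro x f hf
    have hK : IsCompact (Set.Icc (-(2 * δ)) (2 * δ)) := isCompact_Icc
    obtain ⟨C, hC⟩ := hK.exists_bound_of_continuousOn hf.continuousOn
    exact Integrable.of_bound (C := C)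
      (hf.comp (AE.Good.good_cont lam δ κ E hlam hδ hκ hE x)).measurable.aestronglyMeasurable
      (Filter.Eventually.of_forall fun V => hC _
        (abs_le.1 (AE.Good.good_bound lam δ κ E hlam hδ hκ hE V x)))
  refine ⟨∫ V, phi (W lam δ κ E V 0) ∂P, ?_, fun B => ?_⟩
  · have h1 : ∫ V, phi (W lam δ κ E V 0) ∂P =
        ∫ V, (phi (W lam δ κ E V 0) - W lam δ κ E V 0) ∂P := by
      rw [integral_sub (iP 0 phi phi_cont) (iP 0 (fun s => s) continuous_id), hE0, sub_zero]
    rw [h1]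
    calc |∫ V, (phi (W lam δ κ E V 0) - W lam δ κ E V 0) ∂P|
        ≤ ∫ V, |phi (W lam δ κ E V 0) - W lam δ κ E V 0| ∂P := abs_integral_le_integral_abs
      _ ≤ ∫ V, 4 * (W lam δ κ E V 0) ^ 2 ∂P := by
          refine integral_mono (iP 0 (fun s => |phi s - s|) (by
            have := phi_cont
            fun_prop)) (iP 0 (fun s => 4 * s ^ 2) (by fun_prop)) fun V => ?_
          exact phi_sub _ (W_bd lam δ κ E hlam hδ hδ' hκ hE V 0)
      _ = 4 * ∫ V, (W lam δ κ E V 0) ^ 2 ∂P := integral_const_mul _ _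
      _ ≤ 4 * (144 * lam ^ 2 * R0) := by
          have := Fb.w_sq κ hκ R0 hR0 μ lam δ hlam hδ hδ' hG E hE hE0 0
          linarith
      _ = 576 * lam ^ 2 * R0 := by ring
  · unfold Sn
    rw [integral_finsetSum _ fun x _ => iP x phi phi_cont]
    have h1 : ∀ x ∈ B, ∫ V, phi (W lam δ κ E V x) ∂P = ∫ V, phi (W lam δ κ E V 0) ∂P := by
      intro x _
      have h2 := En.stat μ lam δ κ E hlam hδ hκ hE 0 0 x (fun p => phi p.1)
        (phi_cont.comp continuous_fst)
      simp only [zero_add] at h2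
      exact h2.symm
    rw [Finset.sum_congr rfl h1, Finset.sum_const, nsmul_eq_mul]

end Pool.Agent.Y663.D2.Bs2
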