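import Pool.Agent.Y663.D2.An
import Pool.Agent.H4R2.HU.Low

/-! Decay of fractional moments and localization from the annuli estimate (helper663). -/

set_option autoImplicit false

open scoped BigOperators ENNReal
open MeasureTheory

namespace Pool.Agent.Y663.D2.De

open Pool.Agent.H4R2.LO
open Pool.Agent.H4R2.LO.Dec

theorem half_pow (a b : ℕ) (hb : 0 < b) :
    ((1 : ℝ) / 2) ^ (a / b) ≤ 2 * Real.exp (-(Real.log 2 / b * a)) := by
  have h1 : (a : ℝ) / b - 1 ≤ ((a / b : ℕ) : ℝ) := by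
    have h2 : a < b * (a / b + 1) := Nat.lt_mul_div_succ a hb
    have h3 : (a : ℝ) < b * ((a / b : ℕ) + 1) := by exact_mod_cast h2
    have hb' : (0 : ℝ) < b := by exact_mod_cast hb
    have h4 : (a : ℝ) / b < (a / b : ℕ) + 1 := by
      rw [div_lt_iff₀ hb']
      linarith
    linarith
  have hl : 0 < Real.log 2 := Real.log_pos (by norm_num)
  have e1 : ((1 : ℝ) / 2) ^ (a / b) = Real.exp (-(Real.log 2 * ((a / b : ℕ) : ℝ))) := by
    rw [Real.exp_neg, mul_comm, Real.exp_nat_mul, Real.exp_log (by norm_num), ← inv_pow]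
    norm_num
  have e2 : (2 : ℝ) * Real.exp (-(Real.log 2 / b * a)) =
      Real.exp (Real.log 2 - Real.log 2 / b * a) := by
    rw [sub_eq_add_neg, Real.exp_add, Real.exp_log (by norm_num)]
  rw [e1, e2]
  apply Real.exp_le_exp.2
  have h5 := mul_le_mul_of_nonneg_left h1 hl.le
  have h6 : Real.log 2 * ((a : ℝ) / b - 1) = Real.log 2 / b * a - Real.log 2 := by ring
  linarith

/-- exponential decay of fractional moments in all finite volumes -/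
theorem dec2 (d : ℕ) (hd : 1 ≤ d) (B : ℝ) (μ : Measure ℝ) [IsProbabilityMeasure μ]
    (hμ : Reg B μ) (lam : ℝ) (hlam : 0 < lam) (E1 κ p : ℝ) (hκ : 0 < κ) (hκ1 : κ ≤ 1)
    (hp0 : 0 ≤ p) (W M : ℕ) (hW : 1 ≤ W)
    (hLoc : ∀ (Λ : Finset (Zd d)) (Ω : Finset Λ) (x : Λ), (∀ z ∈ Ω, dd x.1 z.1 ≤ M * W + 1) →
      (Measure.pi fun _ : Λ => μ) {V | ¬ FB (AL Λ) Ω lam V (E1 - 2 * d)} ≤ ENNReal.ofReal p)
    (N : ℝ) (hN : N = (2 * ((M * W + 1 + 2 : ℕ) : ℝ) + 1) ^ d)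
    (hsmall : N ^ 4 * (2 * Real.sqrt (Real.sqrt (B / lam))) *
      (M * (N ^ 4 * (2 / κ * Real.exp (-(Real.sqrt (κ / (4 * (2 * d))) * (W - 1) / 4)) *
          (8 * Real.sqrt (B / lam)))) +
        Real.sqrt (p ^ M) * (2 * Real.sqrt (Real.sqrt (B / lam)))) ≤ 1 / 2)
    (Λ : Finset (Zd d)) (E : ℝ) (hE : E ≤ E1 - 2 * d - κ) (x y : Λ) :
      ∫⁻ V, ‖Gr (AL Λ) lam V E x y‖ₑ ^ (1 / 4 : ℝ) ∂(Measure.pi fun _ : Λ => μ) ≤
        ENNReal.ofReal (4 * Real.sqrt (Real.sqrt (B / lam)) *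
          Real.exp (-(Real.log 2 / ((M * W + 1 + 2 : ℕ) : ℝ) * dd x.1 y.1))) := by
  set L : ℕ := M * W + 1 with hL
  have hDg : (1 : ℝ) ≤ 2 * d := by
    have : (1 : ℝ) ≤ d := by exact_mod_cast hd
    linarith
  have hadj : ∀ i j : Λ, AL Λ i j ≠ 0 → dd i.1 j.1 ≤ 1 := fun i j h => Em.dd_adj i.1 j.1 h
  have hNn : ((((2 * (L + 2) + 1) ^ d : ℕ)) : ℝ) = N := by
    rw [hN]
    push_cast
    ring
  have hN0 : 0 ≤ N := by
    rw [← hNn]
    positivity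
  have hinit : ∀ (Ω : Finset Λ) (x u : Λ), x ∈ Ω → u ∈ Ω → (∀ z ∈ Ω, dd x.1 z.1 ≤ L) →
      dd x.1 u.1 = L →
      ∫⁻ V, ‖Gr (cut (AL Λ) Ω) lam V E x u‖ₑ ^ (1 / 4 : ℝ) ∂(Measure.pi fun _ : Λ => μ) ≤
        ENNReal.ofReal (M * (N ^ 4 *
          (2 / κ * Real.exp (-(Real.sqrt (κ / (4 * (2 * d))) * (W - 1) / 4)) *
          (8 * Real.sqrt (B / lam)))) +
        Real.sqrt (p ^ M) * (2 * Real.sqrt (Real.sqrt (B / lam)))) := by
    intro Ω x u hx hu hz hxu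
    have h3 := An.init2 μ B hμ (AL Λ) (Em.AL_symm Λ) (fun i => Em.adj_self i.1)
      (fun i j => Em.adj_abs i.1 j.1) (2 * d) hDg (Em.AL_row Λ) lam hlam E κ
      hκ hκ1 (fun i j : Λ => dd i.1 j.1) (fun i => Em.dd_self i.1)
      (fun i j => Em.dd_comm i.1 j.1) (fun i j k => Em.dd_tri i.1 j.1 k.1) hadj W M
      ((2 * (L + 2) + 1) ^ d) hW p hp0 Ω x u hx hu (by
        show M * W < dd x.1 u.1
        omega)
      ((Finset.card_le_card (by
        intro z hz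
        rw [Finset.mem_filter] at hz ⊢
        exact ⟨hz.1, by omega⟩)).trans (filt_card Λ x (L + 2))) (by
        intro k _
        refine le_trans (measure_mono ?_) (hLoc Λ (An.ann (fun i j : Λ => dd i.1 j.1) W Ω x k) x
          ?_)
        · intro V hV hV'
          exact hV (FB_mono _ _ _ _ _ _ (by linarith) hV')
        · intro z hz'
          unfold An.ann at hz'
          exact hz z (Finset.mem_filter.1 hz').1)
    rw [hNn] at h3
    exact h3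
  have hfm := Fm.fm μ B hμ (AL Λ) (Em.AL_symm Λ) (fun i => Em.adj_self i.1)
    (fun i j => Em.adj_abs i.1 j.1) lam hlam E (fun i j : Λ => dd i.1 j.1)
    (fun i => Em.dd_self i.1) (fun i j => Em.dd_comm i.1 j.1)
    (fun i j k => Em.dd_tri i.1 j.1 k.1) hadj L ((2 * (L + 2) + 1) ^ d)
    (fun i => filt_card Λ i (L + 2)) _ hinit (dd x.1 y.1 / (L + 2)) Finset.univ x y
    (Finset.mem_univ _) (Finset.mem_univ _) (Nat.div_mul_le_self _ _)
  rw [cut_univ] at hfm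
  refine hfm.trans ?_
  have hκ8 : 0 ≤ M * (N ^ 4 *
          (2 / κ * Real.exp (-(Real.sqrt (κ / (4 * (2 * d))) * (W - 1) / 4)) *
          (8 * Real.sqrt (B / lam)))) +
        Real.sqrt (p ^ M) * (2 * Real.sqrt (Real.sqrt (B / lam))) := by positivity
  have hθ : (((2 * (L + 2) + 1) ^ d : ℕ) : ℝ≥0∞) ^ 4 *
      ENNReal.ofReal (2 * Real.sqrt (Real.sqrt (B / lam))) *
      ENNReal.ofReal (M * (N ^ 4 *
          (2 / κ * Real.exp (-(Real.sqrt (κ / (4 * (2 * d))) * (W - 1) / 4)) *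
          (8 * Real.sqrt (B / lam)))) +
        Real.sqrt (p ^ M) * (2 * Real.sqrt (Real.sqrt (B / lam)))) ≤ ENNReal.ofReal (1 / 2) := by
    rw [← ENNReal.ofReal_natCast, hNn, ← ENNReal.ofReal_pow hN0,
      ← ENNReal.ofReal_mul (by positivity), ← ENNReal.ofReal_mul (by positivity)]
    exact ENNReal.ofReal_le_ofReal hsmall
  refine le_trans (mul_le_mul_left (pow_le_pow_left₀ zero_le hθ _) _) ?_
  rw [← ENNReal.ofReal_pow (by norm_num), ← ENNReal.ofReal_mul (by positivity)]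
  refine ENNReal.ofReal_le_ofReal ?_
  have h1 := half_pow (dd x.1 y.1) (L + 2) (by omega)
  have h2 := mul_le_mul_of_nonneg_right h1
    (by positivity : (0 : ℝ) ≤ 2 * Real.sqrt (Real.sqrt (B / lam)))
  refine h2.trans (le_of_eq ?_)
  ring

/-- localization below the edge -/
theorem below2 (d : ℕ) (hd : 1 ≤ d) (B : ℝ) (μ : Measure ℝ) [IsProbabilityMeasure μ]
    (hμ : Reg B μ) (lam : ℝ) (hlam : 0 < lam) (E1 κ p : ℝ) (hκ : 0 < κ) (hκ1 : κ ≤ 1)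
    (hp0 : 0 ≤ p) (W M : ℕ) (hW : 1 ≤ W)
    (hLoc : ∀ (Λ : Finset (Zd d)) (Ω : Finset Λ) (x : Λ), (∀ z ∈ Ω, dd x.1 z.1 ≤ M * W + 1) →
      (Measure.pi fun _ : Λ => μ) {V | ¬ FB (AL Λ) Ω lam V (E1 - 2 * d)} ≤ ENNReal.ofReal p)
    (N : ℝ) (hN : N = (2 * ((M * W + 1 + 2 : ℕ) : ℝ) + 1) ^ d)
    (hsmall : N ^ 4 * (2 * Real.sqrt (Real.sqrt (B / lam))) *
      (M * (N ^ 4 * (2 / κ * Real.exp (-(Real.sqrt (κ / (4 * (2 * d))) * (W - 1) / 4)) *
          (8 * Real.sqrt (B / lam)))) +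
        Real.sqrt (p ^ M) * (2 * Real.sqrt (Real.sqrt (B / lam)))) ≤ 1 / 2)
    (e m : ℝ) (he : e ≤ E1 - κ) (hm : m ≤ Real.log 2 / ((M * W + 1 + 2 : ℕ) : ℝ) / 50) :
    ∀ᵐ ω ∂(Measure.infinitePi fun _ : Zd d => μ),
      Main.Dec d (-1) (fun x => lam * ω x) (Set.Iic (e - 2 * d)) m := by
  set m0 : ℝ := Real.log 2 / ((M * W + 1 + 2 : ℕ) : ℝ) with hm0
  have hl : 0 < Real.log 2 := Real.log_pos (by norm_num)
  have hm0pos : 0 < m0 := by positivity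
  have h4 := Gef.gef d hd μ B hμ lam hlam (e - 2 * d) (4 * Real.sqrt (Real.sqrt (B / lam))) m0
    hm0pos (by
    intro Λ E hE x y
    exact dec2 d hd B μ hμ lam hlam E1 κ p hκ hκ1 hp0 W M hW hLoc N hN hsmall Λ E (by linarith)
      x y)
  filter_upwards [h4] with ω hω E hE ψ hψ hg
  obtain ⟨K, hK⟩ := hω E hE ψ hψ hg
  refine ⟨|K|, fun x => ?_⟩
  calc ‖ψ x‖ ≤ K * Real.exp (-(m0 / 50 * ‖x‖)) := hK x
    _ ≤ |K| * Real.exp (-(m0 / 50 * ‖x‖)) :=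
        mul_le_mul_of_nonneg_right (le_abs_self K) (Real.exp_pos _).le
    _ ≤ |K| * Real.exp (-(m * ‖x‖)) := by
        refine mul_le_mul_of_nonneg_left (Real.exp_le_exp.2 (neg_le_neg ?_)) (abs_nonneg _)
        exact mul_le_mul_of_nonneg_right hm (norm_nonneg _)

end Pool.Agent.Y663.D2.De
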