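import Pool.Agent.Y663.D2.Fo

/-! Dyadic block averages: a function with small block sums on all dyadic scales is small in the
form sense (helper663). -/

set_option autoImplicit false

open scoped BigOperators

namespace Pool.Agent.Y663.D2.Dy

open Pool.Agent.H4R2
open Pool.Agent.H4R2.AE (T)
open Pool.Agent.Y663.D2.Ps (TV tel)
open Pool.Agent.Y663.D2.Fo (q sum_mul sum_blocks q_add0 q_add1)

theorem TV_nonneg (r : ℕ) (h : ℕ → ℕ → ℝ) : 0 ≤ TV r h :=
  add_nonneg (Finset.sum_nonneg fun _ _ => Finset.sum_nonneg fun _ _ => abs_nonneg _)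
    (Finset.sum_nonneg fun _ _ => Finset.sum_nonneg fun _ _ => abs_nonneg _)

/-- comparison with the block average -/
theorem base (r : ℕ) (hr : 1 ≤ r) (h u : ℕ → ℕ → ℝ) (C : ℝ)
    (hC : ∀ i j, i < r → j < r → |h i j| ≤ C) :
    |∑ i ∈ Finset.range r, ∑ j ∈ Finset.range r, h i j * u i j -
      (∑ i ∈ Finset.range r, ∑ j ∈ Finset.range r, h i j) *
        (∑ i ∈ Finset.range r, ∑ j ∈ Finset.range r, u i j) / (r : ℝ) ^ 2| ≤ r * C * TV r u := by
  have hr0 : (0 : ℝ) < r := by exact_mod_cast hr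
  set Q := Finset.range r ×ˢ Finset.range r with hQ
  set H : ℕ × ℕ → ℝ := fun p => h p.1 p.2 with hH
  set U : ℕ × ℕ → ℝ := fun p => u p.1 p.2 with hU
  set R : ℕ → ℝ := fun j => ∑ i ∈ Finset.range (r - 1), |u (i + 1) j - u i j| with hR
  set Cc : ℕ → ℝ := fun i => ∑ j ∈ Finset.range (r - 1), |u i (j + 1) - u i j| with hCc
  set SR := ∑ j ∈ Finset.range r, R j with hSR
  set SC := ∑ i ∈ Finset.range r, Cc i with hSC
  have hTV : TV r u = SR + SC := rfl
  have hcard : (Q.card : ℝ) = (r : ℝ) ^ 2 := by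
    rw [hQ, Finset.card_product, Finset.card_range]
    push_cast
    ring
  have e1 : ∑ i ∈ Finset.range r, ∑ j ∈ Finset.range r, h i j * u i j = ∑ p ∈ Q, H p * U p := by
    rw [hQ, Finset.sum_product]
  have e2 : ∑ i ∈ Finset.range r, ∑ j ∈ Finset.range r, h i j = ∑ p ∈ Q, H p := by
    rw [hQ, Finset.sum_product]
  have e3 : ∑ i ∈ Finset.range r, ∑ j ∈ Finset.range r, u i j = ∑ p ∈ Q, U p := by
    rw [hQ, Finset.sum_product]
  have hC' : ∀ p ∈ Q, |H p| ≤ C := by
    intro p hp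
    rw [hQ, Finset.mem_product, Finset.mem_range, Finset.mem_range] at hp
    exact hC _ _ hp.1 hp.2
  have hdd : ∀ p ∈ Q, ∀ p' ∈ Q, |U p - U p'| ≤ R p.2 + Cc p'.1 := by
    intro p hp p' hp'
    rw [hQ, Finset.mem_product, Finset.mem_range, Finset.mem_range] at hp hp'
    have h1 := tel r (fun i => u i p.2) p.1 p'.1 hp.1 hp'.1
    have h2 := tel r (fun j => u p'.1 j) p.2 p'.2 hp.2 hp'.2
    have h3 : U p - U p' = (u p.1 p.2 - u p'.1 p.2) + (u p'.1 p.2 - u p'.1 p'.2) := by
      simp only [hU]; ring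
    rw [h3]
    exact (abs_add_le _ _).trans (add_le_add h1 h2)
  have key : ∑ p ∈ Q, H p * U p - (∑ p ∈ Q, H p) * (∑ p ∈ Q, U p) / (r : ℝ) ^ 2 =
      1 / (r : ℝ) ^ 2 * ∑ p ∈ Q, ∑ p' ∈ Q, H p * (U p - U p') := by
    have h1 : ∀ p ∈ Q, ∑ p' ∈ Q, H p * (U p - U p') =
        (r : ℝ) ^ 2 * (H p * U p) - H p * ∑ p' ∈ Q, U p' := by
      intro p _
      rw [← Finset.mul_sum, Finset.sum_sub_distrib, Finset.sum_const, nsmul_eq_mul, hcard]
      ring
    rw [Finset.sum_congr rfl h1, Finset.sum_sub_distrib, ← Finset.mul_sum, ← Finset.sum_mul]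
    field_simp
  rw [e1, e2, e3, key, abs_mul, abs_of_pos (by positivity : 0 < 1 / (r : ℝ) ^ 2)]
  have b1 : ∑ p ∈ Q, R p.2 = r * SR := by
    rw [hQ, Finset.sum_product]
    simp only
    rw [← hSR, Finset.sum_const, Finset.card_range, nsmul_eq_mul]
  have b2 : ∑ p ∈ Q, Cc p.1 = r * SC := by
    rw [hQ, Finset.sum_product]
    simp only [Finset.sum_const, Finset.card_range, nsmul_eq_mul]
    rw [← Finset.mul_sum]
  have hmain : |∑ p ∈ Q, ∑ p' ∈ Q, H p * (U p - U p')| ≤ C * ((r : ℝ) ^ 3 * (SR + SC)) := by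
    calc |∑ p ∈ Q, ∑ p' ∈ Q, H p * (U p - U p')|
        ≤ ∑ p ∈ Q, ∑ p' ∈ Q, |H p * (U p - U p')| :=
          (Finset.abs_sum_le_sum_abs _ _).trans
            (Finset.sum_le_sum fun p _ => Finset.abs_sum_le_sum_abs _ _)
      _ ≤ ∑ p ∈ Q, ∑ p' ∈ Q, C * (R p.2 + Cc p'.1) := by
          refine Finset.sum_le_sum fun p hp => Finset.sum_le_sum fun p' hp' => ?_
          rw [abs_mul]
          have hC0 : 0 ≤ C := (abs_nonneg _).trans (hC' p hp)
          exact mul_le_mul (hC' p hp) (hdd p hp p' hp') (abs_nonneg _) hC0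
      _ = C * ((r : ℝ) ^ 3 * (SR + SC)) := by
          have h1 : ∀ p ∈ Q, ∑ p' ∈ Q, C * (R p.2 + Cc p'.1) =
              C * ((r : ℝ) ^ 2 * R p.2) + C * (r * SC) := by
            intro p _
            rw [← Finset.mul_sum, Finset.sum_add_distrib, Finset.sum_const, nsmul_eq_mul, hcard, b2]
            ring
          rw [Finset.sum_congr rfl h1, Finset.sum_add_distrib, ← Finset.mul_sum, ← Finset.mul_sum,
            b1, Finset.sum_const, nsmul_eq_mul, hcard]
          ring
  rw [hTV]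
  calc 1 / (r : ℝ) ^ 2 * |∑ p ∈ Q, ∑ p' ∈ Q, H p * (U p - U p')|
      ≤ 1 / (r : ℝ) ^ 2 * (C * ((r : ℝ) ^ 3 * (SR + SC))) := by gcongr
    _ = r * C * (SR + SC) := by
        field_simp

/-- difference of the sums over two subblocks -/
theorem sub_diff (r : ℕ) (U : ℕ → ℕ → ℝ) (α β α' β' : ℕ) (hα : α < 2) (hβ : β < 2) (hα' : α' < 2)
    (hβ' : β' < 2) :
    |∑ i ∈ Finset.range r, ∑ j ∈ Finset.range r, U (r * α + i) (r * β + j) -
      ∑ i ∈ Finset.range r, ∑ j ∈ Finset.range r, U (r * α' + i) (r * β' + j)| ≤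
      r * TV (2 * r) U := by
  set R : ℕ → ℝ := fun j => ∑ i ∈ Finset.range (2 * r - 1), |U (i + 1) j - U i j| with hR
  set Cc : ℕ → ℝ := fun i => ∑ j ∈ Finset.range (2 * r - 1), |U i (j + 1) - U i j| with hCc
  have hR0 : ∀ j, 0 ≤ R j := fun j => Finset.sum_nonneg fun _ _ => abs_nonneg _
  have hC0 : ∀ j, 0 ≤ Cc j := fun j => Finset.sum_nonneg fun _ _ => abs_nonneg _
  have hTV : TV (2 * r) U = ∑ j ∈ Finset.range (2 * r), R j + ∑ i ∈ Finset.range (2 * r), Cc i := rfl
  have hlt : ∀ a i : ℕ, a < 2 → i < r → r * a + i < 2 * r := by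
    intro a i ha hi
    have : r * a ≤ r * 1 := Nat.mul_le_mul_left r (by omega)
    omega
  have hpart : ∀ (G : ℕ → ℝ), (∀ j, 0 ≤ G j) → ∀ a, a < 2 →
      ∑ j ∈ Finset.range r, G (r * a + j) ≤ ∑ j ∈ Finset.range (2 * r), G j := by
    intro G hG a ha
    have h1 : ∑ j ∈ Finset.range (r * 2), G j =
        ∑ a ∈ Finset.range 2, ∑ i ∈ Finset.range r, G (r * a + i) := sum_mul r 2 G
    rw [mul_comm 2 r, h1]
    exact Finset.single_le_sum (f := fun a => ∑ i ∈ Finset.range r, G (r * a + i))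
      (fun a _ => Finset.sum_nonneg fun _ _ => hG _) (Finset.mem_range.2 ha)
  rw [← Finset.sum_sub_distrib]
  calc |∑ i ∈ Finset.range r, (∑ j ∈ Finset.range r, U (r * α + i) (r * β + j) -
        ∑ j ∈ Finset.range r, U (r * α' + i) (r * β' + j))|
      ≤ ∑ i ∈ Finset.range r, ∑ j ∈ Finset.range r, (R (r * β + j) + Cc (r * α' + i)) := by
        refine (Finset.abs_sum_le_sum_abs _ _).trans (Finset.sum_le_sum fun i hi => ?_)
        rw [← Finset.sum_sub_distrib]
        refine (Finset.abs_sum_le_sum_abs _ _).trans (Finset.sum_le_sum fun j hj => ?_)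
        rw [Finset.mem_range] at hi hj
        have h1 := tel (2 * r) (fun k => U k (r * β + j)) (r * α + i) (r * α' + i) (hlt α i hα hi)
          (hlt α' i hα' hi)
        have h2 := tel (2 * r) (fun k => U (r * α' + i) k) (r * β + j) (r * β' + j) (hlt β j hβ hj)
          (hlt β' j hβ' hj)
        have h3 : U (r * α + i) (r * β + j) - U (r * α' + i) (r * β' + j) =
            (U (r * α + i) (r * β + j) - U (r * α' + i) (r * β + j)) +
            (U (r * α' + i) (r * β + j) - U (r * α' + i) (r * β' + j)) := by ring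
        rw [h3]
        exact (abs_add_le _ _).trans (add_le_add h1 h2)
    _ = r * (∑ j ∈ Finset.range r, R (r * β + j)) + r * ∑ i ∈ Finset.range r, Cc (r * α' + i) := by
        simp only [Finset.sum_add_distrib, Finset.sum_const, Finset.card_range, nsmul_eq_mul]
        rw [← Finset.mul_sum]
    _ ≤ r * (∑ j ∈ Finset.range (2 * r), R j) + r * ∑ i ∈ Finset.range (2 * r), Cc i := by
        gcongr
        · exact hpart R hR0 β hβ
        · exact hpart Cc hC0 α' hα'
    _ = r * TV (2 * r) U := by rw [hTV]; ring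

/-- covariance of four pairs -/
theorem four (s t : ℕ → ℕ → ℝ) (x a b : ℝ)
    (hs : ∀ α β, α < 2 → β < 2 → |s α β - x| ≤ a)
    (ht : ∀ α β α' β', α < 2 → β < 2 → α' < 2 → β' < 2 → |t α β - t α' β'| ≤ b) :
    |∑ α ∈ Finset.range 2, ∑ β ∈ Finset.range 2, s α β * t α β -
      (∑ α ∈ Finset.range 2, ∑ β ∈ Finset.range 2, s α β) *
        (∑ α ∈ Finset.range 2, ∑ β ∈ Finset.range 2, t α β) / 4| ≤ 3 * a * b := by
  have ha : 0 ≤ a := (abs_nonneg _).trans (hs 0 0 (by norm_num) (by norm_num))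
  have key : ∀ α β, α < 2 → β < 2 → |t α β -
      (∑ α ∈ Finset.range 2, ∑ β ∈ Finset.range 2, t α β) / 4| ≤ 3 / 4 * b := by
    intro α β hα hβ
    have h00 := ht α β 0 0 hα hβ (by norm_num) (by norm_num)
    have h01 := ht α β 0 1 hα hβ (by norm_num) (by norm_num)
    have h10 := ht α β 1 0 hα hβ (by norm_num) (by norm_num)
    have h11 := ht α β 1 1 hα hβ (by norm_num) (by norm_num)
    simp only [Finset.sum_range_succ, Finset.sum_range_zero, zero_add]
    rw [abs_le] at h00 h01 h10 h11 ⊢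
    interval_cases α <;> interval_cases β <;> constructor <;> linarith [h00.1, h00.2, h01.1,
      h01.2, h10.1, h10.2, h11.1, h11.2]
  obtain ⟨m, hm⟩ : ∃ m : ℝ, m = (∑ α ∈ Finset.range 2, ∑ β ∈ Finset.range 2, t α β) / 4 :=
    ⟨_, rfl⟩
  rw [← hm] at key
  have hprod : ∀ α β, α < 2 → β < 2 → |(s α β - x) * (t α β - m)| ≤ a * (3 / 4 * b) := by
    intro α β hα hβ
    rw [abs_mul]
    exact mul_le_mul (hs α β hα hβ) (key α β hα hβ) (abs_nonneg _) ha
  have e : ∑ α ∈ Finset.range 2, ∑ β ∈ Finset.range 2, s α β * t α β -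
      (∑ α ∈ Finset.range 2, ∑ β ∈ Finset.range 2, s α β) *
        (∑ α ∈ Finset.range 2, ∑ β ∈ Finset.range 2, t α β) / 4 =
      ∑ α ∈ Finset.range 2, ∑ β ∈ Finset.range 2, (s α β - x) * (t α β - m) := by
    rw [hm]
    simp only [Finset.sum_range_succ, Finset.sum_range_zero, zero_add]
    ring
  rw [e]
  calc |∑ α ∈ Finset.range 2, ∑ β ∈ Finset.range 2, (s α β - x) * (t α β - m)|
      ≤ ∑ α ∈ Finset.range 2, ∑ β ∈ Finset.range 2, a * (3 / 4 * b) := by
        refine (Finset.abs_sum_le_sum_abs _ _).trans (Finset.sum_le_sum fun α hα => ?_)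
        refine (Finset.abs_sum_le_sum_abs _ _).trans (Finset.sum_le_sum fun β hβ => ?_)
        exact hprod α β (Finset.mem_range.1 hα) (Finset.mem_range.1 hβ)
    _ = 3 * a * b := by
        simp only [Finset.sum_const, Finset.card_range, nsmul_eq_mul]
        push_cast
        ring

variable {L : ℕ}

/-- block sums -/
def bs (r : ℕ) (F : T 2 L → ℝ) (a b : ℕ) : ℝ :=
  ∑ i ∈ Finset.range r, ∑ j ∈ Finset.range r, F (q r L a b i j)

theorem q_two (r a b α β i j : ℕ) :
    q (2 * r) L a b (r * α + i) (r * β + j) = q r L (2 * a + α) (2 * b + β) i j := by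
  unfold q
  have h1 : 2 * r * a + (r * α + i) = r * (2 * a + α) + i := by ring
  have h2 : 2 * r * b + (r * β + j) = r * (2 * b + β) + j := by ring
  rw [h1, h2]

theorem bs_two (r : ℕ) (F : T 2 L → ℝ) (a b : ℕ) :
    bs (2 * r) F a b = ∑ α ∈ Finset.range 2, ∑ β ∈ Finset.range 2,
      bs r F (2 * a + α) (2 * b + β) := by
  unfold bs
  have h1 : ∑ i ∈ Finset.range (2 * r), ∑ j ∈ Finset.range (2 * r), F (q (2 * r) L a b i j) =
      ∑ α ∈ Finset.range 2, ∑ i ∈ Finset.range r, ∑ j ∈ Finset.range (2 * r),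
        F (q (2 * r) L a b (r * α + i) j) := by
    have := sum_mul r 2 (fun i => ∑ j ∈ Finset.range (2 * r), F (q (2 * r) L a b i j))
    rw [mul_comm r 2] at this
    exact this
  rw [h1]
  refine Finset.sum_congr rfl fun α _ => ?_
  rw [Finset.sum_comm (s := Finset.range 2)]
  refine Finset.sum_congr rfl fun i _ => ?_
  have h2 := sum_mul r 2 (fun j => F (q (2 * r) L a b (r * α + i) j))
  rw [mul_comm r 2] at h2
  rw [h2]
  refine Finset.sum_congr rfl fun β _ => Finset.sum_congr rfl fun j _ => ?_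
  rw [q_two]

/-- one dyadic step on one block -/
theorem step (r : ℕ) (hr : 1 ≤ r) (F u : T 2 L → ℝ) (a b : ℕ) (c θ : ℝ)
    (hs : ∀ α β, α < 2 → β < 2 → |bs r F (2 * a + α) (2 * b + β) - (r : ℝ) ^ 2 * c| ≤ r * θ) :
    |∑ α ∈ Finset.range 2, ∑ β ∈ Finset.range 2, bs r F (2 * a + α) (2 * b + β) *
        bs r u (2 * a + α) (2 * b + β) / (r : ℝ) ^ 2 -
      bs (2 * r) F a b * bs (2 * r) u a b / ((2 * r : ℕ) : ℝ) ^ 2| ≤
      3 * θ * TV (2 * r) (fun i j => u (q (2 * r) L a b i j)) := by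
  have hr0 : (0 : ℝ) < r := by exact_mod_cast hr
  have h4 := four (fun α β => bs r F (2 * a + α) (2 * b + β))
    (fun α β => bs r u (2 * a + α) (2 * b + β)) ((r : ℝ) ^ 2 * c) (r * θ)
    (r * TV (2 * r) (fun i j => u (q (2 * r) L a b i j))) hs (by
      intro α β α' β' hα hβ hα' hβ'
      have h := sub_diff r (fun i j => u (q (2 * r) L a b i j)) α β α' β' hα hβ hα' hβ'
      simp only [q_two] at h
      exact h)
  rw [bs_two, bs_two]
  have e : ∑ α ∈ Finset.range 2, ∑ β ∈ Finset.range 2, bs r F (2 * a + α) (2 * b + β) *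
        bs r u (2 * a + α) (2 * b + β) / (r : ℝ) ^ 2 -
      (∑ α ∈ Finset.range 2, ∑ β ∈ Finset.range 2, bs r F (2 * a + α) (2 * b + β)) *
        (∑ α ∈ Finset.range 2, ∑ β ∈ Finset.range 2, bs r u (2 * a + α) (2 * b + β)) /
          ((2 * r : ℕ) : ℝ) ^ 2 =
      1 / (r : ℝ) ^ 2 * (∑ α ∈ Finset.range 2, ∑ β ∈ Finset.range 2,
        bs r F (2 * a + α) (2 * b + β) * bs r u (2 * a + α) (2 * b + β) -
      (∑ α ∈ Finset.range 2, ∑ β ∈ Finset.range 2, bs r F (2 * a + α) (2 * b + β)) *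
        (∑ α ∈ Finset.range 2, ∑ β ∈ Finset.range 2, bs r u (2 * a + α) (2 * b + β)) / 4) := by
    simp only [← Finset.sum_div]
    push_cast
    field_simp
    ring
  rw [e, abs_mul, abs_of_pos (by positivity : 0 < 1 / (r : ℝ) ^ 2)]
  calc 1 / (r : ℝ) ^ 2 * _ ≤ 1 / (r : ℝ) ^ 2 *
        (3 * (r * θ) * (r * TV (2 * r) (fun i j => u (q (2 * r) L a b i j)))) := by
        gcongr
    _ = _ := by
        field_simp

/-- the total variation is superadditive -/
theorem kinTV [NeZero L] (r n : ℕ) (hL : L = r * n) (g : T 2 L → ℝ) :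
    ∑ a ∈ Finset.range n, ∑ b ∈ Finset.range n, TV r (fun i j => g (q r L a b i j)) ≤
      ∑ x, ∑ i : Fin 2, |g (x + Pi.single i 1) - g x| := by
  rw [sum_blocks r n hL]
  refine Finset.sum_le_sum fun a _ => Finset.sum_le_sum fun b _ => ?_
  unfold TV
  simp only [Fin.sum_univ_two, q_add0, q_add1, Finset.sum_add_distrib]
  refine add_le_add ?_ ?_
  · rw [Finset.sum_comm (s := Finset.range r) (t := Finset.range r)]
    refine Finset.sum_le_sum fun j _ => ?_
    exact Finset.sum_le_sum_of_subset_of_nonneg (Finset.range_mono (Nat.sub_le r 1))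
      fun _ _ _ => abs_nonneg _
  · refine Finset.sum_le_sum fun i _ => ?_
    exact Finset.sum_le_sum_of_subset_of_nonneg (Finset.range_mono (Nat.sub_le r 1))
      fun _ _ _ => abs_nonneg _

theorem q_val0 [NeZero L] (r n : ℕ) (hL : L = r * n) (a b i j : ℕ) (ha : a < n) (hi : i < r) :
    ((q r L a b i j) 0).val = r * a + i := by
  show ((r * a + i : ℕ) : ZMod L).val = r * a + i
  apply ZMod.val_cast_of_lt
  rw [hL]
  calc r * a + i < r * a + r := by omega
    _ = r * (a + 1) := by ring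
    _ ≤ r * n := Nat.mul_le_mul_left r ha

theorem q_val1 [NeZero L] (r n : ℕ) (hL : L = r * n) (a b i j : ℕ) (hb : b < n) (hj : j < r) :
    ((q r L a b i j) 1).val = r * b + j := by
  show ((r * b + j : ℕ) : ZMod L).val = r * b + j
  apply ZMod.val_cast_of_lt
  rw [hL]
  calc r * b + j < r * b + r := by omega
    _ = r * (b + 1) := by ring
    _ ≤ r * n := Nat.mul_le_mul_left r hb

/-- all dyadic scales -/
theorem scales [NeZero L] (m X : ℕ) (c θ : ℝ) (F u : T 2 L → ℝ) (hθ : 0 ≤ θ) (hu0 : ∀ x, 0 ≤ u x)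
    (hu : ∀ x, ¬ (∀ i, (x i).val ≤ X) → u x = 0) (n : ℕ) :
    ∀ r : ℕ, 1 ≤ r → L = r * (2 ^ n * m) →
    (∀ k ≤ n, ∀ a b : ℕ, a ≤ X / (r * 2 ^ k) + 1 → b ≤ X / (r * 2 ^ k) + 1 →
      |bs (r * 2 ^ k) F a b - ((r * 2 ^ k : ℕ) : ℝ) ^ 2 * c| ≤ ((r * 2 ^ k : ℕ) : ℝ) * θ) →
    |∑ a ∈ Finset.range (2 ^ n * m), ∑ b ∈ Finset.range (2 ^ n * m),
        bs r F a b * bs r u a b / (r : ℝ) ^ 2| ≤
      3 * θ * n * ∑ x, ∑ i : Fin 2, |u (x + Pi.single i 1) - u x| +
        (|c| + θ / ((r * 2 ^ n : ℕ) : ℝ)) * ∑ x, u x := by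
  induction n with
  | zero =>
    intro r hr hL H
    have hr0 : (0 : ℝ) < r := by exact_mod_cast hr
    rw [sum_blocks r (2 ^ 0 * m) hL u]
    simp only [pow_zero, one_mul, mul_one, Nat.cast_zero, mul_zero, zero_mul, zero_add] at H hL ⊢
    rw [Finset.mul_sum]
    refine (Finset.abs_sum_le_sum_abs _ _).trans (Finset.sum_le_sum fun a ha => ?_)
    rw [Finset.mul_sum]
    refine (Finset.abs_sum_le_sum_abs _ _).trans (Finset.sum_le_sum fun b hb => ?_)
    rw [Finset.mem_range] at ha hb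
    have hbu : 0 ≤ bs r u a b := Finset.sum_nonneg fun _ _ => Finset.sum_nonneg fun _ _ => hu0 _
    show |bs r F a b * bs r u a b / (r : ℝ) ^ 2| ≤ (|c| + θ / r) * bs r u a b
    by_cases hrel : r * a ≤ X ∧ r * b ≤ X
    · have h1 := H 0 le_rfl a b (by
        rw [pow_zero, mul_one]
        have : a ≤ X / r :=
          (Nat.le_div_iff_mul_le (by omega : 0 < r)).2 (by rw [mul_comm]; exact hrel.1)
        omega) (by
        rw [pow_zero, mul_one]
        have : b ≤ X / r :=
          (Nat.le_div_iff_mul_le (by omega : 0 < r)).2 (by rw [mul_comm]; exact hrel.2)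
        omega)
      rw [pow_zero, mul_one] at h1
      have h2 : |bs r F a b| ≤ (r : ℝ) ^ 2 * |c| + r * θ := by
        have h3 : bs r F a b = (bs r F a b - (r : ℝ) ^ 2 * c) + (r : ℝ) ^ 2 * c := by ring
        rw [h3]
        refine (abs_add_le _ _).trans ?_
        rw [abs_mul, abs_of_pos (by positivity : 0 < (r : ℝ) ^ 2)]
        linarith
      rw [abs_div, abs_mul, abs_of_nonneg hbu, abs_of_pos (by positivity : 0 < (r : ℝ) ^ 2),
        div_le_iff₀ (by positivity)]
      calc |bs r F a b| * bs r u a b ≤ ((r : ℝ) ^ 2 * |c| + r * θ) * bs r u a b := by gcongr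
        _ = (|c| + θ / r) * bs r u a b * (r : ℝ) ^ 2 := by
          field_simp
    · have h0 : bs r u a b = 0 := by
        refine Finset.sum_eq_zero fun i hi => Finset.sum_eq_zero fun j hj => ?_
        rw [Finset.mem_range] at hi hj
        apply hu
        intro hcon
        apply hrel
        have h1 := hcon 0
        have h2 := hcon 1
        rw [q_val0 r m hL a b i j ha hi] at h1
        rw [q_val1 r m hL a b i j hb hj] at h2
        constructor <;> omega
      rw [h0]
      simp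
  | succ n ih =>
    intro r hr hL H
    have hr0 : (0 : ℝ) < r := by exact_mod_cast hr
    have hL2 : L = (2 * r) * (2 ^ n * m) := by rw [hL]; ring
    have e2 : ∀ k, 2 * r * 2 ^ k = r * 2 ^ (k + 1) := fun k => by ring
    have h1 := ih (2 * r) (by omega) hL2 (by
      intro k hk a b ha hb
      have := H (k + 1) (by omega) a b
      rw [← e2 k] at this
      exact this ha hb)
    rw [e2 n] at h1
    set TT := ∑ x, ∑ i : Fin 2, |u (x + Pi.single i 1) - u x| with hTT
    have hsplit : ∑ a ∈ Finset.range (2 ^ (n + 1) * m), ∑ b ∈ Finset.range (2 ^ (n + 1) * m),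
        bs r F a b * bs r u a b / (r : ℝ) ^ 2 =
        ∑ a ∈ Finset.range (2 ^ n * m), ∑ b ∈ Finset.range (2 ^ n * m),
          ∑ α ∈ Finset.range 2, ∑ β ∈ Finset.range 2, bs r F (2 * a + α) (2 * b + β) *
            bs r u (2 * a + α) (2 * b + β) / (r : ℝ) ^ 2 := by
      have e3 : 2 ^ (n + 1) * m = 2 * (2 ^ n * m) := by ring
      rw [e3, sum_mul 2 (2 ^ n * m)]
      refine Finset.sum_congr rfl fun a _ => ?_
      rw [Finset.sum_comm (s := Finset.range (2 ^ n * m)) (t := Finset.range 2)]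
      refine Finset.sum_congr rfl fun α _ => ?_
      rw [sum_mul 2 (2 ^ n * m)]
    have hstep : |∑ a ∈ Finset.range (2 ^ (n + 1) * m), ∑ b ∈ Finset.range (2 ^ (n + 1) * m),
        bs r F a b * bs r u a b / (r : ℝ) ^ 2 -
        ∑ a ∈ Finset.range (2 ^ n * m), ∑ b ∈ Finset.range (2 ^ n * m),
          bs (2 * r) F a b * bs (2 * r) u a b / ((2 * r : ℕ) : ℝ) ^ 2| ≤ 3 * θ * TT := by
      rw [hsplit, ← Finset.sum_sub_distrib]
      have h2 : 3 * θ * ∑ a ∈ Finset.range (2 ^ n * m), ∑ b ∈ Finset.range (2 ^ n * m),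
          TV (2 * r) (fun i j => u (q (2 * r) L a b i j)) ≤ 3 * θ * TT :=
        mul_le_mul_of_nonneg_left (kinTV (2 * r) (2 ^ n * m) hL2 u) (by positivity)
      refine le_trans ?_ h2
      rw [Finset.mul_sum]
      refine (Finset.abs_sum_le_sum_abs _ _).trans (Finset.sum_le_sum fun a ha => ?_)
      rw [← Finset.sum_sub_distrib, Finset.mul_sum]
      refine (Finset.abs_sum_le_sum_abs _ _).trans (Finset.sum_le_sum fun b hb => ?_)
      rw [Finset.mem_range] at ha hb
      by_cases hrel : 2 * r * a ≤ X ∧ 2 * r * b ≤ X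
      · refine step r hr F u a b c θ fun α β hα hβ => ?_
        have h3 := H 0 (by omega) (2 * a + α) (2 * b + β)
        rw [pow_zero, mul_one] at h3
        refine h3 ?_ ?_
        · have h8 : 2 * a * r ≤ X := by
            rw [show 2 * a * r = 2 * r * a by ring]
            exact hrel.1
          have : 2 * a ≤ X / r := (Nat.le_div_iff_mul_le (by omega : 0 < r)).2 h8
          omega
        · have h8 : 2 * b * r ≤ X := by
            rw [show 2 * b * r = 2 * r * b by ring]
            exact hrel.2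
          have : 2 * b ≤ X / r := (Nat.le_div_iff_mul_le (by omega : 0 < r)).2 h8
          omega
      · have h0 : ∀ i j, i < 2 * r → j < 2 * r → u (q (2 * r) L a b i j) = 0 := by
          intro i j hi hj
          apply hu
          intro hcon
          apply hrel
          have h1 := hcon 0
          have h2 := hcon 1
          rw [q_val0 (2 * r) (2 ^ n * m) hL2 a b i j ha hi] at h1
          rw [q_val1 (2 * r) (2 ^ n * m) hL2 a b i j hb hj] at h2
          constructor <;> omega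
        have h3 : bs (2 * r) u a b = 0 := by
          refine Finset.sum_eq_zero fun i hi => Finset.sum_eq_zero fun j hj => ?_
          exact h0 i j (Finset.mem_range.1 hi) (Finset.mem_range.1 hj)
        have h4 : ∀ α β, α < 2 → β < 2 → bs r u (2 * a + α) (2 * b + β) = 0 := by
          intro α β hα hβ
          refine Finset.sum_eq_zero fun i hi => Finset.sum_eq_zero fun j hj => ?_
          rw [Finset.mem_range] at hi hj
          rw [← q_two]
          apply h0
          · have : r * α ≤ r * 1 := Nat.mul_le_mul_left r (by omega)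
            omega
          · have : r * β ≤ r * 1 := Nat.mul_le_mul_left r (by omega)
            omega
        have h5 : ∑ α ∈ Finset.range 2, ∑ β ∈ Finset.range 2, bs r F (2 * a + α) (2 * b + β) *
            bs r u (2 * a + α) (2 * b + β) / (r : ℝ) ^ 2 = 0 := by
          refine Finset.sum_eq_zero fun α hα => Finset.sum_eq_zero fun β hβ => ?_
          rw [h4 α β (Finset.mem_range.1 hα) (Finset.mem_range.1 hβ)]
          simp
        rw [h5, h3]
        simp only [mul_zero, zero_div, sub_zero, abs_zero]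
        have := TV_nonneg (2 * r) (fun i j => u (q (2 * r) L a b i j))
        positivity
    have h6 := abs_le.1 hstep
    have h7 := abs_le.1 h1
    push_cast at h6 h7 ⊢
    rw [abs_le]
    constructor <;> linarith [h6.1, h6.2, h7.1, h7.2]

end Pool.Agent.Y663.D2.Dy
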