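import Pool.Agent.H4R2.LO.Em

/-! From form bounds for functions supported in a part of the torus to the lattice (helper663). -/

set_option autoImplicit false

open scoped BigOperators ENNReal
open MeasureTheory

namespace Pool.Agent.Y663.D2.Em2

open Pool.Agent.H4R2.LO
open Pool.Agent.H4R2.LO.Em

theorem shift' {d L0 : ℕ} [NeZero L0] {x x' z z' : Zd d} {L : ℕ} (hL : 2 * L + 2 ≤ L0)
    (hz : dd x z ≤ L) (hz' : dd x z' ≤ L) (v : Zd d) (v' : T d L0)
    (hv : ∀ i, |v i| ≤ 1) (hvv : ∀ i, ((v i : ℤ) : ZMod L0) = v' i) :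
    em_e L0 x' z' = em_e L0 x' z + v' ↔ z' = z + v := by
  have h1 := em_shift (L0 := L0) (x := x) (z := z) (z' := z') hL hz hz' v v' hv hvv
  have h2 : ∀ y : Zd d, em_e L0 x' y = em_e L0 x y + em_e L0 x' x := by
    intro y
    funext i
    rw [Pi.add_apply]
    unfold em_e
    push_cast
    ring
  rw [← h1, h2 z', h2 z, add_right_comm]
  exact add_left_inj _

/-- the deterministic part: a form bound on a part of the torus gives a form bound on `Ω` -/
theorem em_det' (d L0 : ℕ) [NeZero L0] (lam E1 : ℝ) (Λ : Finset (Zd d)) (Ω : Finset Λ) (x : Λ)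
    (L : ℕ) (hL : 2 * L + 2 ≤ L0) (hΩ : ∀ z ∈ Ω, dd x.1 z.1 ≤ L) (x' : Zd d) (S : T d L0 → Prop)
    (hS : ∀ z ∈ Ω, S (em_e L0 x' z.1)) (V : T d L0 → ℝ)
    (hV : ∀ f : T d L0 → ℝ, (∀ t, ¬ S t → f t = 0) → E1 * ∑ x, f x ^ 2 ≤
      ∑ x, f x * (∑ i : Fin d, (2 * f x - f (x + Pi.single i 1) - f (x - Pi.single i 1)) +
        lam * V x * f x)) (f : Λ → ℝ) :
    (E1 - 2 * d) * ∑ z ∈ Ω, f z ^ 2 ≤
      ∑ z ∈ Ω, f z * ∑ z' ∈ Ω, adj z.1 z'.1 * f z' +
        lam * ∑ z ∈ Ω, V (em_e L0 x' z.1) * f z ^ 2 := by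
  classical
  set e : Λ → T d L0 := fun z => em_e L0 x' z.1 with he
  set F : T d L0 → ℝ := fun t => ∑ z ∈ Ω, if e z = t then f z else 0 with hF
  have hFS : ∀ t, ¬ S t → F t = 0 := by
    intro t ht
    simp only [hF]
    refine Finset.sum_eq_zero fun z hz => ?_
    rw [if_neg]
    rintro rfl
    exact ht (hS z hz)
  have hsum : ∀ g : T d L0 → ℝ, ∑ t, F t * g t = ∑ z ∈ Ω, f z * g (e z) := by
    intro g
    simp only [hF, Finset.sum_mul]
    rw [Finset.sum_comm]
    refine Finset.sum_congr rfl fun z _ => ?_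
    rw [Finset.sum_eq_single (e z)]
    · rw [if_pos rfl]
    · intro t _ ht
      rw [if_neg ht.symm, zero_mul]
    · intro h
      exact absurd (Finset.mem_univ _) h
  have hinj : ∀ z ∈ Ω, ∀ z' ∈ Ω, e z = e z' → z = z' := by
    intro z hz z' hz' h
    have h1 := (shift' (x' := x') hL (hΩ z' hz') (hΩ z hz) (0 : Zd d) (0 : T d L0)
      (fun i => by simp) (fun i => by simp)).1 (by rw [add_zero]; exact h)
    rw [add_zero] at h1
    exact Subtype.ext h1
  have hFe : ∀ z ∈ Ω, F (e z) = f z := by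
    intro z hz
    simp only [hF]
    rw [Finset.sum_eq_single z]
    · rw [if_pos rfl]
    · intro z' hz' hne
      rw [if_neg]
      intro h
      exact hne (hinj z' hz' z hz h)
    · intro h
      exact absurd hz h
  have hnb : ∀ z ∈ Ω, ∑ i : Fin d, (F (e z + Pi.single i 1) + F (e z - Pi.single i 1)) =
      -∑ z' ∈ Ω, adj z.1 z'.1 * f z' := by
    intro z hz
    simp only [hF]
    have h1 : ∀ i : Fin d, (∑ z' ∈ Ω, (if e z' = e z + Pi.single i 1 then f z' else 0)) +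
        (∑ z' ∈ Ω, (if e z' = e z - Pi.single i 1 then f z' else 0)) =
        ∑ z' ∈ Ω, (((if z'.1 = z.1 + Pi.single i 1 then (1 : ℝ) else 0) +
          (if z'.1 = z.1 - Pi.single i 1 then (1 : ℝ) else 0)) * f z') := by
      intro i
      rw [← Finset.sum_add_distrib]
      refine Finset.sum_congr rfl fun z' hz' => ?_
      have e1 : (e z' = e z + Pi.single i 1) ↔ z'.1 = z.1 + Pi.single i 1 :=
        shift' hL (hΩ z hz) (hΩ z' hz') (Pi.single i 1) (Pi.single i 1)
          (em_single_abs i) (em_single_cast i)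
      have e2 : (e z' = e z - Pi.single i 1) ↔ z'.1 = z.1 - Pi.single i 1 := by
        rw [sub_eq_add_neg, sub_eq_add_neg]
        exact shift' hL (hΩ z hz) (hΩ z' hz') (-Pi.single i 1) (-Pi.single i 1)
          (fun j => by rw [Pi.neg_apply, abs_neg]; exact em_single_abs i j)
          (fun j => by rw [Pi.neg_apply, Pi.neg_apply, ← em_single_cast]; push_cast; rfl)
      have i1 : (if e z' = e z + Pi.single i 1 then f z' else 0) =
          (if z'.1 = z.1 + Pi.single i 1 then (1 : ℝ) else 0) * f z' := by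
        by_cases hc : z'.1 = z.1 + Pi.single i 1
        · rw [if_pos hc, if_pos (e1.2 hc), one_mul]
        · rw [if_neg hc, if_neg (fun h => hc (e1.1 h)), zero_mul]
      have i2 : (if e z' = e z - Pi.single i 1 then f z' else 0) =
          (if z'.1 = z.1 - Pi.single i 1 then (1 : ℝ) else 0) * f z' := by
        by_cases hc : z'.1 = z.1 - Pi.single i 1
        · rw [if_pos hc, if_pos (e2.2 hc), one_mul]
        · rw [if_neg hc, if_neg (fun h => hc (e2.1 h)), zero_mul]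
      rw [i1, i2, add_mul]
    rw [Finset.sum_congr rfl fun i _ => h1 i, Finset.sum_comm, ← Finset.sum_neg_distrib]
    refine Finset.sum_congr rfl fun z' _ => ?_
    rw [← Finset.sum_mul, em_count z.1 z'.1]
    ring
  have h1 := hV F hFS
  have h2 : ∑ t, F t ^ 2 = ∑ z ∈ Ω, f z ^ 2 := by
    have h3 := hsum F
    rw [Finset.sum_congr rfl fun t _ => sq (F t), h3]
    refine Finset.sum_congr rfl fun z hz => ?_
    rw [hFe z hz, sq]
  have h3 := hsum (fun t => ∑ i : Fin d, (2 * F t - F (t + Pi.single i 1) -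
    F (t - Pi.single i 1)) + lam * V t * F t)
  rw [h2, h3] at h1
  have h4 : ∀ z ∈ Ω, f z * (∑ i : Fin d, (2 * F (e z) - F (e z + Pi.single i 1) -
      F (e z - Pi.single i 1)) + lam * V (e z) * F (e z)) =
      2 * d * f z ^ 2 + f z * ∑ z' ∈ Ω, adj z.1 z'.1 * f z' + lam * (V (e z) * f z ^ 2) := by
    intro z hz
    have h5 := hnb z hz
    have h6 : ∑ i : Fin d, (2 * F (e z) - F (e z + Pi.single i 1) - F (e z - Pi.single i 1)) =
        2 * d * F (e z) - ∑ i : Fin d, (F (e z + Pi.single i 1) + F (e z - Pi.single i 1)) := by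
      rw [Finset.sum_add_distrib, Finset.sum_sub_distrib, Finset.sum_sub_distrib, Finset.sum_const,
        Finset.card_univ, Fintype.card_fin, nsmul_eq_mul]
      ring
    rw [h6, h5, hFe z hz]
    ring
  rw [Finset.sum_congr rfl h4, Finset.sum_add_distrib, Finset.sum_add_distrib, ← Finset.mul_sum,
    ← Finset.mul_sum] at h1
  linarith

/-- from a part of the torus to finite subsets of the lattice -/
theorem em' (d L0 : ℕ) [NeZero L0] (μ : Measure ℝ) [IsProbabilityMeasure μ] (lam E1 : ℝ)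
    (ε0 : ℝ≥0∞) (Λ : Finset (Zd d)) (Ω : Finset Λ) (x : Λ) (L : ℕ)
    (hL : 2 * L + 2 ≤ L0) (hΩ : ∀ z ∈ Ω, dd x.1 z.1 ≤ L) (x' : Zd d) (S : T d L0 → Prop)
    (hS : ∀ z ∈ Ω, S (em_e L0 x' z.1)) (G : Set (T d L0 → ℝ))
    (hGp : (Measure.pi fun _ : T d L0 => μ) Gᶜ ≤ ε0)
    (hGf : ∀ V ∈ G, ∀ f : T d L0 → ℝ, (∀ t, ¬ S t → f t = 0) → E1 * ∑ x, f x ^ 2 ≤
      ∑ x, f x * (∑ i : Fin d, (2 * f x - f (x + Pi.single i 1) - f (x - Pi.single i 1)) +
        lam * V x * f x)) :
    (Measure.pi fun _ : Λ => μ) {V | ¬ FB (AL Λ) Ω lam V (E1 - 2 * d)} ≤ ε0 := by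
  classical
  -- the bad set on `Ω`
  set Sb : Set (Ω → ℝ) := {W | ¬ ∀ f : Λ → ℝ, (∀ i, i ∉ Ω → f i = 0) →
    (E1 - 2 * d) * ∑ z ∈ Ω, f z ^ 2 ≤
        ∑ z ∈ Ω, f z * ∑ z' ∈ Ω, (AL Λ) z z' * f z' + lam * ∑ z : Ω, W z * f z ^ 2} with hSb
  have hSm : MeasurableSet Sb := by
    rw [hSb, ← Set.compl_ofPred]
    refine (IsClosed.measurableSet ?_).compl
    rw [Set.ofPred_forall]
    refine isClosed_iInter fun f => ?_
    rw [Set.ofPred_forall]
    refine isClosed_iInter fun hf => ?_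
    refine isClosed_le continuous_const ?_
    refine continuous_const.add (continuous_const.mul ?_)
    exact continuous_finsetSum _ fun z _ => (continuous_apply z).mul continuous_const
  have hpre : ∀ V : Λ → ℝ, V ∈ {V | ¬ FB (AL Λ) Ω lam V (E1 - 2 * d)} ↔
      (fun z : Ω => V z.1) ∈ Sb := by
    intro V
    rw [hSb, Set.mem_ofPred_eq, Set.mem_ofPred_eq, em_FB_iff]
    have h1 : ∀ f : Λ → ℝ, ∑ z : Ω, V z.1 * f z.1 ^ 2 = ∑ z ∈ Ω, V z * f z ^ 2 := fun f =>
      Finset.sum_coe_sort Ω (fun z => V z * f z ^ 2)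
    simp only [h1]
  have e1 : (Measure.pi fun _ : Λ => μ) {V | ¬ FB (AL Λ) Ω lam V (E1 - 2 * d)} =
      (Measure.pi fun _ : Ω => μ) Sb := by
    rw [← em_pi_map μ (fun z : Ω => z.1) Subtype.val_injective,
      Measure.map_apply (measurable_pi_iff.2 fun a => measurable_pi_apply _) hSm]
    congr 1
    ext V
    rw [Set.mem_preimage]
    exact hpre V
  have hinj : Function.Injective (fun z : Ω => em_e L0 x' z.1.1) := by
    intro z z' hzz
    have h1 := (shift' (x' := x') hL (hΩ z'.1 z'.2) (hΩ z.1 z.2) (0 : Zd d) (0 : T d L0)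
      (fun i => by simp) (fun i => by simp)).1 (by rw [add_zero]; exact hzz)
    rw [add_zero] at h1
    exact Subtype.ext (Subtype.ext h1)
  have e2 : (Measure.pi fun _ : Ω => μ) Sb =
      (Measure.pi fun _ : T d L0 => μ) {V | (fun z : Ω => V (em_e L0 x' z.1.1)) ∈ Sb} := by
    rw [← em_pi_map μ (fun z : Ω => em_e L0 x' z.1.1) hinj,
      Measure.map_apply (measurable_pi_iff.2 fun a => measurable_pi_apply _) hSm]
    rfl
  have e3 : {V : T d L0 → ℝ | (fun z : Ω => V (em_e L0 x' z.1.1)) ∈ Sb} ⊆ Gᶜ := by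
    intro V hV hVG
    refine hV fun f hf => ?_
    have h1 := em_det' d L0 lam E1 Λ Ω x L hL hΩ x' S hS V (hGf V hVG) f
    have h2 : ∑ z : Ω, V (em_e L0 x' z.1.1) * f z.1 ^ 2 =
        ∑ z ∈ Ω, V (em_e L0 x' z.1) * f z ^ 2 :=
      Finset.sum_coe_sort Ω (fun z => V (em_e L0 x' z.1) * f z ^ 2)
    rw [h2]
    exact h1
  rw [e1, e2]
  exact (measure_mono e3).trans hGp

end Pool.Agent.Y663.D2.Em2
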