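import Pool.Agent.H4R2.AE.Good
import Pool.Agent.H4R2.AE.Ent

/-! The deterministic energy of the logarithmic equation: sharp lower bound (helper663). -/

set_option autoImplicit false

open scoped BigOperators
open MeasureTheory

namespace Pool.Agent.Y663.D2.En

open Pool.Agent.H4R2
open Pool.Agent.H4R2.AE (T LapW IsSol beta)
open Pool.Agent.H4R2.AE.Good (W clamp)

section det

variable {d L : ℕ} [NeZero L]

/-- sharp version of the sensitivity estimate -/
theorem claim (lam δ κ E : ℝ) (hlam : 0 < lam) (hδ : 0 < δ) (hκ : 0 < κ)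
    (hE : |E| ≤ lam)
    (V w V' w' : T d L → ℝ) (hV : ∀ x, |V x| ≤ 1) (hV' : ∀ x, |V' x| ≤ 1)
    (hw : IsSol lam δ κ V E w) (hw' : IsSol lam δ κ V' E w') (z x0 : T d L)
    (hVV' : ∀ y, y ≠ z → V' y = V y) (Gr : T d L → ℝ)
    (hGr : ∀ x, LapW (fun y => Real.exp (w y)) Gr x + κ * Real.exp (-(4 * δ)) * Gr x =
      if x = x0 then 1 else 0) (hGr0 : ∀ x, 0 ≤ Gr x) :
    |w' x0 - w x0| ≤ Real.exp (8 * δ) * (lam * |V' z - V z|) * Gr z := by
  have bw := AE.Cmp.bound lam δ κ E hlam hδ hκ hE V w hV hw
  have bw' := AE.Cmp.bound lam δ κ E hlam hδ hκ hE V' w' hV' hw'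
  have hprod : ∀ x, Real.exp (-(4 * δ)) ≤ Real.exp (w x + w' x) := by
    intro x
    apply Real.exp_le_exp.mpr
    have := abs_le.mp (bw x)
    have := abs_le.mp (bw' x)
    linarith
  have hprod' : ∀ x, Real.exp (w x + w' x) ≤ Real.exp (4 * δ) := by
    intro x
    apply Real.exp_le_exp.mpr
    have := abs_le.mp (bw x)
    have := abs_le.mp (bw' x)
    linarith
  have hGz := hGr0 z
  set D : ℝ := |V' z - V z| with hD
  have hD0 : 0 ≤ D := abs_nonneg _
  have h48 : Real.exp (8 * δ) = Real.exp (4 * δ) * Real.exp (4 * δ) := by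
    rw [← Real.exp_add]; congr 1; ring
  have hS : ∀ s : ℝ, 0 ≤ s → s ≤ D → ∀ x, lam * s * Real.exp (w x + w' x) ≤
      lam * D * Real.exp (4 * δ) := by
    intro s hs hs2 x
    exact mul_le_mul (mul_le_mul_of_nonneg_left hs2 hlam.le) (hprod' x) (Real.exp_pos _).le
      (by positivity)
  rcases le_total (V' z) (V z) with hz | hz
  · -- case A : w' ≥ w
    have hle : ∀ x, w x ≤ w' x := by
      have := AE.Cmp.compare lam δ κ hlam hδ hκ V' V E E w' w hw' hw 0 le_rfl (by
        intro x
        by_cases hx : x = z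
        · subst hx
          nlinarith
        · rw [hVV' x hx]; simp)
      intro x
      have := this x
      rw [zero_div] at this
      linarith
    have hmain := AE.Sens.green_bound (fun y => Real.exp (w y)) Gr
      (fun y => Real.exp (w' y - w y) - 1) (κ * Real.exp (-(4 * δ))) (lam * D * Real.exp (4 * δ))
      x0 z hGr hGr0 (by
        intro x
        have hk := AE.Sens.key lam δ κ E V V' w w' hw hw' x
        have hL : LapW (fun y => Real.exp (w y)) (fun y => Real.exp (w' y - w y) - 1) x =
            LapW (fun y => Real.exp (w y)) (fun y => Real.exp (w' y - w y)) x := by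
          unfold AE.LapW
          refine Finset.sum_congr rfl fun i _ => ?_
          simp only
          ring
        rw [hL, hk]
        have hb := AE.Cmp.beta_mono lam δ κ hlam hδ (w' x) (w x) (hle x)
        set t := w' x - w x with ht
        have ht0 : 0 ≤ t := by have := hle x; linarith
        have hu2 : Real.exp (w x + w' x) = Real.exp (2 * w x) * Real.exp t := by
          rw [← Real.exp_add]; congr 1; rw [ht]; ring
        have htt : Real.exp t - 1 ≤ t * Real.exp t := by
          have h1 : 1 - t ≤ Real.exp (-t) := by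
            have := Real.add_one_le_exp (-t); linarith
          have h2 : (1 - t) * Real.exp t ≤ Real.exp (-t) * Real.exp t :=
            mul_le_mul_of_nonneg_right h1 (Real.exp_pos _).le
          rw [← Real.exp_add] at h2
          simp at h2
          linarith
        have he0 : 0 ≤ Real.exp t - 1 := by
          have := Real.one_le_exp ht0; linarith
        have h2w : Real.exp (-(4 * δ)) ≤ Real.exp (2 * w x) := by
          apply Real.exp_le_exp.mpr
          have := abs_le.mp (bw x)
          linarith
        have h3 : κ * Real.exp (-(4 * δ)) * (Real.exp t - 1) ≤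
            (beta lam δ κ (w' x) - beta lam δ κ (w x)) * Real.exp (w x + w' x) := by
          calc κ * Real.exp (-(4 * δ)) * (Real.exp t - 1)
              ≤ κ * Real.exp (2 * w x) * (Real.exp t - 1) := by
                apply mul_le_mul_of_nonneg_right _ he0
                exact mul_le_mul_of_nonneg_left h2w hκ.le
            _ ≤ κ * Real.exp (2 * w x) * (t * Real.exp t) := by
                apply mul_le_mul_of_nonneg_left htt
                positivity
            _ = (κ * t) * Real.exp (w x + w' x) := by rw [hu2]; ring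
            _ ≤ _ := by
                apply mul_le_mul_of_nonneg_right _ (Real.exp_pos _).le
                exact hb
        by_cases hx : x = z
        · subst hx
          rw [if_pos rfl]
          have h4 := hS (V x - V' x) (by linarith) (by
            rw [hD, abs_sub_comm]
            exact le_abs_self _) x
          nlinarith
        · rw [if_neg hx, hVV' x hx]
          nlinarith)
    have h5 : w' x0 - w x0 ≤ Real.exp (w' x0 - w x0) - 1 := by
      have := Real.add_one_le_exp (w' x0 - w x0); linarith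
    rw [abs_of_nonneg (by have := hle x0; linarith)]
    have h6 : 1 ≤ Real.exp (4 * δ) := Real.one_le_exp (by linarith)
    have h7 : 0 ≤ lam * D * Real.exp (4 * δ) * Gr z := by positivity
    rw [h48]
    nlinarith
  · -- case B : w' ≤ w
    have hle : ∀ x, w' x ≤ w x := by
      have := AE.Cmp.compare lam δ κ hlam hδ hκ V V' E E w w' hw hw' 0 le_rfl (by
        intro x
        by_cases hx : x = z
        · subst hx
          nlinarith
        · rw [hVV' x hx]; simp)
      intro x
      have := this x
      rw [zero_div] at this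
      linarith
    have hmain := AE.Sens.green_bound (fun y => Real.exp (w y)) Gr
      (fun y => 1 - Real.exp (w' y - w y)) (κ * Real.exp (-(4 * δ))) (lam * D * Real.exp (4 * δ))
      x0 z hGr hGr0 (by
        intro x
        have hk := AE.Sens.key lam δ κ E V V' w w' hw hw' x
        have hL : LapW (fun y => Real.exp (w y)) (fun y => 1 - Real.exp (w' y - w y)) x =
            -LapW (fun y => Real.exp (w y)) (fun y => Real.exp (w' y - w y)) x := by
          unfold AE.LapW
          rw [← Finset.sum_neg_distrib]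
          refine Finset.sum_congr rfl fun i _ => ?_
          simp only
          ring
        rw [hL, hk]
        have hb := AE.Cmp.beta_mono lam δ κ hlam hδ (w x) (w' x) (hle x)
        set t := w' x - w x with ht
        have ht0 : t ≤ 0 := by have := hle x; linarith
        have he0 : 0 ≤ 1 - Real.exp t := by
          have := Real.exp_le_one_iff.mpr ht0; linarith
        have htt : 1 - Real.exp t ≤ -t := by
          have := Real.add_one_le_exp t; linarith
        have h3 : κ * Real.exp (-(4 * δ)) * (1 - Real.exp t) ≤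
            (beta lam δ κ (w x) - beta lam δ κ (w' x)) * Real.exp (w x + w' x) := by
          calc κ * Real.exp (-(4 * δ)) * (1 - Real.exp t)
              ≤ κ * Real.exp (w x + w' x) * (1 - Real.exp t) := by
                apply mul_le_mul_of_nonneg_right _ he0
                exact mul_le_mul_of_nonneg_left (hprod x) hκ.le
            _ ≤ κ * Real.exp (w x + w' x) * (-t) := by
                apply mul_le_mul_of_nonneg_left htt
                positivity
            _ = (κ * (w x - w' x)) * Real.exp (w x + w' x) := by rw [ht]; ring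
            _ ≤ _ := by
                apply mul_le_mul_of_nonneg_right _ (Real.exp_pos _).le
                exact hb
        by_cases hx : x = z
        · subst hx
          rw [if_pos rfl]
          have h4 := hS (V' x - V x) (by linarith) (le_abs_self _) x
          nlinarith
        · rw [if_neg hx, hVV' x hx]
          nlinarith)
    have h5 : w x0 - w' x0 ≤ Real.exp (4 * δ) * (1 - Real.exp (w' x0 - w x0)) := by
      set t := w' x0 - w x0 with ht
      have h1 : w x0 - w' x0 ≤ Real.exp (w x0 - w' x0) - 1 := by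
        have := Real.add_one_le_exp (w x0 - w' x0); linarith
      have h2 : Real.exp (w x0 - w' x0) - 1 = Real.exp (w x0 - w' x0) * (1 - Real.exp t) := by
        rw [mul_sub, mul_one, ← Real.exp_add, ht]
        have : w x0 - w' x0 + (w' x0 - w x0) = 0 := by ring
        rw [this, Real.exp_zero]
      have h3 : Real.exp (w x0 - w' x0) ≤ Real.exp (4 * δ) := by
        apply Real.exp_le_exp.mpr
        have := abs_le.mp (bw x0)
        have := abs_le.mp (bw' x0)
        linarith
      have h4 : 0 ≤ 1 - Real.exp t := by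
        have : t ≤ 0 := by have := hle x0; linarith
        have := Real.exp_le_one_iff.mpr this; linarith
      calc w x0 - w' x0 ≤ Real.exp (w x0 - w' x0) * (1 - Real.exp t) := by linarith
        _ ≤ _ := mul_le_mul_of_nonneg_right h3 h4
    rw [abs_of_nonpos (by have := hle x0; linarith)]
    have h6 : 0 < Real.exp (4 * δ) := Real.exp_pos _
    have h7 := mul_le_mul_of_nonneg_left hmain h6.le
    rw [h48]
    linarith

/-- comparison of Green functions at the pole -/
theorem gr_cmp (c κ : ℝ) (hc : 0 < c) (hκ : 0 < κ) (u h g : T d L → ℝ) (z : T d L)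
    (hu : ∀ x (i : Fin d), c ≤ u x * u (x + Pi.single i 1))
    (hh : ∀ x, LapW u h x + κ * c * h x = if x = z then 1 else 0)
    (hg : ∀ x, LapW (fun _ => 1) g x + κ * g x = if x = z then 1 else 0) :
    c * h z ≤ g z := by
  set a : ℝ := ∑ x, h x * LapW (fun _ => 1) h x + κ * ∑ x, h x ^ 2 with ha
  have e1 : h z = ∑ x, h x * LapW u h x + κ * c * ∑ x, h x ^ 2 := by
    have : h z = ∑ x, h x * (if x = z then (1 : ℝ) else 0) := by simp
    rw [this, Finset.mul_sum, ← Finset.sum_add_distrib]
    refine Finset.sum_congr rfl fun x _ => ?_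
    rw [← hh x]
    ring
  have e2 : c * ∑ x, h x * LapW (fun _ => 1) h x ≤ ∑ x, h x * LapW u h x := by
    rw [AE.Lin.bilin, AE.Lin.bilin, Finset.mul_sum]
    refine Finset.sum_le_sum fun x _ => ?_
    rw [Finset.mul_sum]
    refine Finset.sum_le_sum fun i _ => ?_
    rw [mul_one, one_mul]
    exact mul_le_mul_of_nonneg_right (hu x i) (mul_self_nonneg _)
  have e3 : c * a ≤ h z := by
    rw [e1, ha]
    nlinarith
  -- the quadratic form at `h - g / c`
  set t : ℝ := 1 / c with ht
  have htc : t * c = 1 := by rw [ht]; field_simp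
  have ht0 : 0 < t := by positivity
  have f1 : ∑ x, h x * LapW (fun _ => 1) g x + κ * ∑ x, h x * g x = h z := by
    have : h z = ∑ x, h x * (if x = z then (1 : ℝ) else 0) := by simp
    rw [this, Finset.mul_sum, ← Finset.sum_add_distrib]
    refine Finset.sum_congr rfl fun x _ => ?_
    rw [← hg x]
    ring
  have f2 : ∑ x, g x * LapW (fun _ => 1) g x + κ * ∑ x, g x ^ 2 = g z := by
    have : g z = ∑ x, g x * (if x = z then (1 : ℝ) else 0) := by simp
    rw [this, Finset.mul_sum, ← Finset.sum_add_distrib]
    refine Finset.sum_congr rfl fun x _ => ?_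
    rw [← hg x]
    ring
  have f3 : ∑ x, g x * LapW (fun _ => 1) h x = ∑ x, h x * LapW (fun _ => 1) g x :=
    AE.Lin.symm _ _ _
  have f4 : 0 ≤ ∑ x, (h x - t * g x) * LapW (fun _ => 1) (fun y => h y - t * g y) x +
      κ * ∑ x, (h x - t * g x) ^ 2 := by
    refine add_nonneg ?_ (mul_nonneg hκ.le (Finset.sum_nonneg fun x _ => sq_nonneg _))
    rw [AE.Lin.bilin]
    refine Finset.sum_nonneg fun x _ => Finset.sum_nonneg fun i _ => ?_
    rw [mul_one, one_mul]
    exact mul_self_nonneg _
  have f5 : ∀ x, LapW (fun _ => 1) (fun y => h y - t * g y) x =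
      LapW (fun _ => 1) h x - t * LapW (fun _ => 1) g x := by
    intro x
    have h1 := AE.Lin.lapW_add (fun _ => 1) h (fun y => -t * g y) x
    have h2 := AE.Lin.lapW_smul (fun _ => 1) g (-t) x
    rw [h2] at h1
    have h3 : (fun y => h y + -t * g y) = fun y => h y - t * g y := by
      funext y; ring
    rw [h3] at h1
    rw [h1]
    ring
  have f6 : ∑ x, (h x - t * g x) * LapW (fun _ => 1) (fun y => h y - t * g y) x =
      ∑ x, h x * LapW (fun _ => 1) h x - 2 * t * ∑ x, h x * LapW (fun _ => 1) g x +
        t ^ 2 * ∑ x, g x * LapW (fun _ => 1) g x := by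
    have : ∑ x, (h x - t * g x) * LapW (fun _ => 1) (fun y => h y - t * g y) x =
        ∑ x, h x * LapW (fun _ => 1) h x - t * ∑ x, h x * LapW (fun _ => 1) g x -
        t * ∑ x, g x * LapW (fun _ => 1) h x + t ^ 2 * ∑ x, g x * LapW (fun _ => 1) g x := by
      rw [Finset.mul_sum, Finset.mul_sum, Finset.mul_sum, ← Finset.sum_sub_distrib,
        ← Finset.sum_sub_distrib, ← Finset.sum_add_distrib]
      refine Finset.sum_congr rfl fun x _ => ?_
      rw [f5]
      ring
    rw [this, f3]
    ring
  have f7 : ∑ x, (h x - t * g x) ^ 2 = ∑ x, h x ^ 2 - 2 * t * ∑ x, h x * g x +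
      t ^ 2 * ∑ x, g x ^ 2 := by
    rw [Finset.mul_sum, Finset.mul_sum, ← Finset.sum_sub_distrib, ← Finset.sum_add_distrib]
    refine Finset.sum_congr rfl fun x _ => ?_
    ring
  rw [f6, f7] at f4
  have f8 : 0 ≤ a - 2 * t * h z + t ^ 2 * g z := by
    rw [← f1, ← f2, ha]
    nlinarith
  -- multiply by `c ^ 2`
  have f9 : 0 ≤ c ^ 2 * (a - 2 * t * h z + t ^ 2 * g z) := mul_nonneg (by positivity) f8
  have f10 : c ^ 2 * (a - 2 * t * h z + t ^ 2 * g z) = c * (c * a) - 2 * (t * c) * (c * h z) +
      (t * c) ^ 2 * g z := by ring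
  rw [f10, htc] at f9
  nlinarith

/-- pointwise inequality -/
theorem pw (δ w w' : ℝ) (hδ : 0 < δ) (hδ' : δ ≤ 1 / 8) (hw : |w| ≤ 2 * δ) (hw' : |w'| ≤ 2 * δ) :
    (1 - 3 * δ) * (Real.exp (w' - w) + Real.exp (w - w') - 2) ≤
      w * (1 - Real.exp (w' - w)) + w' * (1 - Real.exp (w - w')) := by
  set s := w' - w with hs
  have hneg : w - w' = -s := by rw [hs]; ring
  rw [hneg]
  have hw2 : w' = w + s := by rw [hs]; ring
  have h1 := abs_le.1 hw
  have h2 := abs_le.1 hw'
  have hs4 : |s| ≤ 4 * δ := by
    rw [abs_le, hs]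
    constructor <;> linarith
  have hQ : Real.exp s + Real.exp (-s) - 2 = 2 * (Real.cosh s - 1) := by
    rw [Real.cosh_eq]; ring
  have hsh : Real.exp s - Real.exp (-s) = 2 * Real.sinh s := by
    rw [Real.sinh_eq]; ring
  set Q := Real.exp s + Real.exp (-s) - 2 with hQd
  have hQ0 : 0 ≤ Q := by
    rw [hQ]
    have := Real.one_le_cosh s
    linarith
  have hss : s ^ 2 ≤ s * Real.sinh s := by
    rcases le_total 0 s with h | h
    · have := Real.self_le_sinh_iff.2 h
      nlinarith
    · have := Real.sinh_le_self_iff.2 h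
      nlinarith
  have hQs : Q ≤ s ^ 2 * Real.exp (s ^ 2 / 2) := by
    rw [hQ]
    have h3 := Real.cosh_le_exp_half_sq s
    have h4 : Real.exp (s ^ 2 / 2) - 1 ≤ s ^ 2 / 2 * Real.exp (s ^ 2 / 2) := by
      have h5 := Real.add_one_le_exp (-(s ^ 2 / 2))
      have h6 : (1 - s ^ 2 / 2) * Real.exp (s ^ 2 / 2) ≤
          Real.exp (-(s ^ 2 / 2)) * Real.exp (s ^ 2 / 2) :=
        mul_le_mul_of_nonneg_right (by linarith) (Real.exp_pos _).le
      rw [← Real.exp_add] at h6
      simp only [neg_add_cancel, Real.exp_zero] at h6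
      linarith
    linarith
  have hss2 : s ^ 2 ≤ 16 * δ ^ 2 := by
    have := sq_le_sq' (by linarith [(abs_le.1 hs4).1] : -(4 * δ) ≤ s) (abs_le.1 hs4).2
    nlinarith
  have hlow : (1 - δ) * Q ≤ s ^ 2 := by
    have h3 : 1 - s ^ 2 / 2 ≤ Real.exp (-(s ^ 2 / 2)) := by
      have := Real.add_one_le_exp (-(s ^ 2 / 2)); linarith
    have h4 : 1 - δ ≤ Real.exp (-(s ^ 2 / 2)) := by nlinarith
    have h5 : Real.exp (-(s ^ 2 / 2)) * Q ≤ s ^ 2 := by
      calc Real.exp (-(s ^ 2 / 2)) * Q ≤ Real.exp (-(s ^ 2 / 2)) * (s ^ 2 * Real.exp (s ^ 2 / 2)) :=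
            mul_le_mul_of_nonneg_left hQs (Real.exp_pos _).le
        _ = s ^ 2 * (Real.exp (-(s ^ 2 / 2)) * Real.exp (s ^ 2 / 2)) := by ring
        _ = s ^ 2 := by rw [← Real.exp_add]; simp
    exact (mul_le_mul_of_nonneg_right h4 hQ0).trans h5
  have hid : w * (1 - Real.exp s) + w' * (1 - Real.exp (-s)) =
      s * Real.sinh s - (w + w') / 2 * Q := by
    have e1 : Real.sinh s = (Real.exp s - Real.exp (-s)) / 2 := Real.sinh_eq s
    rw [e1, hQd, hw2]
    ring
  rw [hid]
  have h3 : (w + w') / 2 * Q ≤ 2 * δ * Q := by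
    apply mul_le_mul_of_nonneg_right _ hQ0
    linarith
  nlinarith

/-- the penalty is bounded below -/
theorem beta_low (lam δ κ s : ℝ) (hlam : 0 < lam) (hδ : 0 < δ) (hs : |s| ≤ 2 * δ) :
    κ * s - 2 * lam * (if δ ≤ |s| then 1 else 0) ≤ beta lam δ κ s := by
  unfold AE.beta
  obtain ⟨h1, h2⟩ := abs_le.1 hs
  have h3 : 0 ≤ max (s - δ) 0 := le_max_right _ _
  have h0 : 0 < 2 * lam / δ := by positivity
  split_ifs with h
  · have h4 : max (-s - δ) 0 ≤ δ := max_le (by linarith) hδ.le
    have h5 : -δ ≤ max (s - δ) 0 - max (-s - δ) 0 := by linarith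
    have h6 : 2 * lam / δ * -δ ≤ 2 * lam / δ * (max (s - δ) 0 - max (-s - δ) 0) :=
      mul_le_mul_of_nonneg_left h5 h0.le
    have h7 : 2 * lam / δ * -δ = -(2 * lam) := by field_simp
    linarith
  · push Not at h
    obtain ⟨h4, h5⟩ := abs_lt.1 h
    rw [max_eq_right (by linarith : s - δ ≤ 0), max_eq_right (by linarith : -s - δ ≤ 0)]
    simp

theorem beta_mul (lam δ κ s : ℝ) (hlam : 0 < lam) (hδ : 0 < δ) (hκ : 0 < κ) :
    0 ≤ beta lam δ κ s * s := by
  have h0 := AE.Cmp.beta_zero lam δ κ hδ
  rcases le_total 0 s with h | h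
  · have h1 := AE.Cmp.beta_mono lam δ κ hlam hδ s 0 h
    rw [h0] at h1
    have : 0 ≤ κ * (s - 0) := by rw [sub_zero]; positivity
    nlinarith
  · have h1 := AE.Cmp.beta_mono lam δ κ hlam hδ 0 s h
    rw [h0] at h1
    have : 0 ≤ κ * (0 - s) := mul_nonneg hκ.le (by linarith)
    nlinarith

end det

end Pool.Agent.Y663.D2.En
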