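import Pool.Agent.H4R2.AE.Goodt

/-! Concentration of block norms of the solution of the logarithmic equation (helper663). -/

set_option autoImplicit false

open scoped BigOperators
open MeasureTheory

namespace Pool.Agent.Y663.D2.Fb

open Pool.Agent.H4R2
open Pool.Agent.H4R2.AE (T LapW IsSol beta)
open Pool.Agent.H4R2.AE.Good (W clamp)

set_option linter.unusedSectionVars false

section det

variable {d L : ℕ} [NeZero L]

/-- `ℓ²` bound for the massive resolvent -/
theorem l2 (u g α : T d L → ℝ) (k : ℝ) (hk : 0 < k) (hu : ∀ x, 0 < u x)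
    (h : ∀ x, LapW u g x + k * g x = α x) : ∑ x, g x ^ 2 ≤ (∑ x, α x ^ 2) / k ^ 2 := by
  have h1 := AE.Lin.energy u (fun _ => k) g
  have h2 : 0 ≤ ∑ x, ∑ i : Fin d, u x * u (x + Pi.single i 1) * (g x - g (x + Pi.single i 1)) ^ 2 :=
    Finset.sum_nonneg fun x _ => Finset.sum_nonneg fun i _ =>
      mul_nonneg (mul_pos (hu _) (hu _)).le (sq_nonneg _)
  have h3 : ∑ x, g x * (LapW u g x + k * g x) = ∑ x, g x * α x :=
    Finset.sum_congr rfl fun x _ => by rw [h x]
  have h4 : ∑ x, g x * α x ≤ ∑ x, (k / 2 * g x ^ 2 + 1 / (2 * k) * α x ^ 2) := by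
    refine Finset.sum_le_sum fun x _ => ?_
    have h5 : 0 ≤ 1 / (2 * k) * (k * g x - α x) ^ 2 := by positivity
    have h6 : 1 / (2 * k) * (k * g x - α x) ^ 2 = k / 2 * g x ^ 2 + 1 / (2 * k) * α x ^ 2 -
        g x * α x := by
      field_simp
      ring
    linarith
  rw [Finset.sum_add_distrib, ← Finset.mul_sum, ← Finset.mul_sum] at h4
  have h5 : ∑ x, k * g x ^ 2 = k * ∑ x, g x ^ 2 := by rw [Finset.mul_sum]
  have h6 : k / 2 * ∑ x, g x ^ 2 ≤ 1 / (2 * k) * ∑ x, α x ^ 2 := by linarith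
  rw [le_div_iff₀ (by positivity)]
  have h7 := mul_le_mul_of_nonneg_left h6 (by positivity : (0 : ℝ) ≤ 2 * k)
  have h8 : 2 * k * (k / 2 * ∑ x, g x ^ 2) = (∑ x, g x ^ 2) * k ^ 2 := by ring
  have h9 : 2 * k * (1 / (2 * k) * ∑ x, α x ^ 2) = ∑ x, α x ^ 2 := by field_simp
  linarith

/-- `ℓ²` norm over a block of the positive part of the solution -/
noncomputable def Fn (lam δ κ E : ℝ) (B : Finset (T d L)) (V : T d L → ℝ) : ℝ :=
  Real.sqrt (∑ x ∈ B, (max (W lam δ κ E V x) 0) ^ 2)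

theorem Fn_nonneg (lam δ κ E : ℝ) (B : Finset (T d L)) (V : T d L → ℝ) :
    0 ≤ Fn lam δ κ E B V := Real.sqrt_nonneg _

theorem Fn_cont (lam δ κ E : ℝ) (hlam : 0 < lam) (hδ : 0 < δ) (hκ : 0 < κ) (hE : |E| ≤ lam)
    (B : Finset (T d L)) : Continuous (Fn lam δ κ E B : (T d L → ℝ) → ℝ) := by
  unfold Fn
  refine Real.continuous_sqrt.comp (continuous_finsetSum _ fun x _ => ?_)
  exact ((AE.Good.good_cont lam δ κ E hlam hδ hκ hE x).max continuous_const).pow 2

theorem Fn_bound (lam δ κ E : ℝ) (hlam : 0 < lam) (hδ : 0 < δ) (hκ : 0 < κ) (hE : |E| ≤ lam)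
    (B : Finset (T d L)) (V : T d L → ℝ) :
    |Fn lam δ κ E B V| ≤ Real.sqrt (∑ _x ∈ B, (2 * δ) ^ 2) := by
  rw [abs_of_nonneg (Fn_nonneg _ _ _ _ _ _)]
  unfold Fn
  refine Real.sqrt_le_sqrt (Finset.sum_le_sum fun x _ => ?_)
  refine pow_le_pow_left₀ (le_max_right _ _) ?_ 2
  have := (abs_le.1 (AE.Good.good_bound lam δ κ E hlam hδ hκ hE V x)).2
  exact max_le this (by positivity)

theorem Fn_mono (lam δ κ E : ℝ) (hlam : 0 < lam) (hδ : 0 < δ) (hκ : 0 < κ) (hE : |E| ≤ lam)
    (B : Finset (T d L)) (V : T d L → ℝ) (z : T d L) :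
    Fn lam δ κ E B (Function.update V z 1) ≤ Fn lam δ κ E B V := by
  unfold Fn
  refine Real.sqrt_le_sqrt (Finset.sum_le_sum fun x _ => ?_)
  refine pow_le_pow_left₀ (le_max_right _ _) (max_le_max ?_ le_rfl) 2
  exact AE.Goodt.goodt_anti κ hκ lam δ hlam hδ E hE V _ (AE.Goodt.goodt_up V z) x

/-- total sensitivity of the block norm -/
theorem Fn_sens (lam δ κ E : ℝ) (hlam : 0 < lam) (hδ : 0 < δ) (hδ' : δ ≤ 1 / 8) (hκ : 0 < κ)
    (hE : |E| ≤ lam) (B : Finset (T d L)) (V : T d L → ℝ) :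
    ∑ z, (Fn lam δ κ E B V - Fn lam δ κ E B (Function.update V z 1)) ^ 2 ≤
      144 * lam ^ 2 / κ ^ 2 := by
  set F := Fn lam δ κ E B V with hF
  have hF0 : 0 ≤ F := Fn_nonneg _ _ _ _ _ _
  have hD0 : ∀ z, 0 ≤ F - Fn lam δ κ E B (Function.update V z 1) := fun z =>
    sub_nonneg.2 (Fn_mono lam δ κ E hlam hδ hκ hE B V z)
  rcases eq_or_lt_of_le hF0 with h0 | hpos
  · have hz : ∀ z, F - Fn lam δ κ E B (Function.update V z 1) = 0 := fun z => by
      have h1 := hD0 z
      have h2 : 0 ≤ Fn lam δ κ E B (Function.update V z 1) := Fn_nonneg _ _ _ _ _ _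
      linarith
    have : ∑ z, (F - Fn lam δ κ E B (Function.update V z 1)) ^ 2 = 0 :=
      Finset.sum_eq_zero fun z _ => by rw [hz z]; norm_num
    rw [this]
    positivity
  have hw := AE.Good.good_W lam δ κ E V hlam hδ hκ hE
  have bw := AE.Good.good_bound lam δ κ E hlam hδ hκ hE V
  -- Green functions
  have hGex : ∀ x : T d L, ∃ Gr : T d L → ℝ, (∀ y, LapW (fun y => Real.exp (W lam δ κ E V y)) Gr y +
      κ * Real.exp (-(4 * δ)) * Gr y = if y = x then 1 else 0) ∧ ∀ y, 0 ≤ Gr y := by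
    intro x
    obtain ⟨Gr, hGr⟩ := AE.Lin.solve (fun y => Real.exp (W lam δ κ E V y))
      (fun _ : T d L => κ * Real.exp (-(4 * δ))) (fun y => if y = x then (1 : ℝ) else 0)
      (fun y => Real.exp_pos _) (fun _ => by positivity)
    refine ⟨Gr, hGr, ?_⟩
    exact AE.Lin.nonneg (fun y => Real.exp (W lam δ κ E V y)) (fun _ => κ * Real.exp (-(4 * δ))) Gr
      (fun y => Real.exp_pos _) (fun _ => by positivity) (by
      intro y; rw [hGr y]; split_ifs <;> norm_num)
  choose Gr hGr hGr0 using hGex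
  set α : T d L → ℝ := fun x => if x ∈ B then max (W lam δ κ E V x) 0 / F else 0 with hα
  have hα0 : ∀ x, 0 ≤ α x := by
    intro x
    simp only [hα]
    split_ifs
    · exact div_nonneg (le_max_right _ _) hF0
    · exact le_rfl
  have hFsq : F ^ 2 = ∑ x ∈ B, (max (W lam δ κ E V x) 0) ^ 2 := by
    rw [hF]
    unfold Fn
    rw [Real.sq_sqrt (Finset.sum_nonneg fun x _ => sq_nonneg _)]
  have hα1 : ∑ x, α x ^ 2 = 1 := by
    have h1 : ∀ x, α x ^ 2 = if x ∈ B then (max (W lam δ κ E V x) 0) ^ 2 / F ^ 2 else 0 := by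
      intro x
      simp only [hα]
      split_ifs
      · rw [div_pow]
      · norm_num
    simp only [h1]
    rw [Finset.sum_ite_mem, Finset.univ_inter, ← Finset.sum_div, ← hFsq]
    exact div_self (by positivity)
  have hα1B : ∑ x ∈ B, α x ^ 2 = 1 := by
    rw [← hα1]
    refine Finset.sum_subset (Finset.subset_univ B) fun x _ hx => ?_
    simp only [hα, if_neg hx]
    norm_num
  set g : T d L → ℝ := fun z => ∑ x, α x * Gr x z with hg
  have hgeq : ∀ z, LapW (fun y => Real.exp (W lam δ κ E V y)) g z +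
      κ * Real.exp (-(4 * δ)) * g z = α z := by
    intro z
    have h1 : LapW (fun y => Real.exp (W lam δ κ E V y)) g z =
        ∑ x, α x * LapW (fun y => Real.exp (W lam δ κ E V y)) (Gr x) z := by
      unfold LapW
      simp only [hg, Finset.mul_sum]
      rw [Finset.sum_comm]
      refine Finset.sum_congr rfl fun i _ => ?_
      rw [← Finset.sum_sub_distrib, ← Finset.sum_sub_distrib, Finset.mul_sum, Finset.mul_sum,
        ← Finset.sum_add_distrib]
      refine Finset.sum_congr rfl fun x _ => ?_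
      ring
    rw [h1]
    simp only [hg]
    rw [Finset.mul_sum, ← Finset.sum_add_distrib]
    have h2 : ∀ x, α x * LapW (fun y => Real.exp (W lam δ κ E V y)) (Gr x) z +
        κ * Real.exp (-(4 * δ)) * (α x * Gr x z) = α x * (if z = x then 1 else 0) := by
      intro x
      rw [← hGr x z]
      ring
    simp only [h2]
    simp
  have hgl2 := l2 _ g α _ (by positivity) (fun y => Real.exp_pos _) hgeq
  rw [hα1] at hgl2
  have he : Real.exp 1 ≤ 3 := by
    have := Real.exp_one_lt_d9; linarith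
  have hDz : ∀ z, F - Fn lam δ κ E B (Function.update V z 1) ≤ 6 * lam * g z := by
    intro z
    set F' := Fn lam δ κ E B (Function.update V z 1) with hF'
    have hF'0 : 0 ≤ F' := Fn_nonneg _ _ _ _ _ _
    have hF'sq : F' ^ 2 = ∑ x ∈ B, (max (W lam δ κ E (Function.update V z 1) x) 0) ^ 2 := by
      rw [hF']
      unfold Fn
      rw [Real.sq_sqrt (Finset.sum_nonneg fun x _ => sq_nonneg _)]
    have e1 : F = ∑ x ∈ B, α x * max (W lam δ κ E V x) 0 := by
      have h1 : ∀ x ∈ B, α x * max (W lam δ κ E V x) 0 = (max (W lam δ κ E V x) 0) ^ 2 / F := by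
        intro x hx
        simp only [hα, if_pos hx]
        ring
      rw [Finset.sum_congr rfl h1, ← Finset.sum_div, ← hFsq]
      field_simp
    have e2 : ∑ x ∈ B, α x * max (W lam δ κ E (Function.update V z 1) x) 0 ≤ F' := by
      have h1 := Finset.sum_mul_sq_le_sq_mul_sq B α
        (fun x => max (W lam δ κ E (Function.update V z 1) x) 0)
      rw [hα1B, one_mul, ← hF'sq] at h1
      exact le_of_sq_le_sq h1 hF'0
    have e3 : ∀ x, max (W lam δ κ E V x) 0 - max (W lam δ κ E (Function.update V z 1) x) 0 ≤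
        6 * lam * Gr x z := by
      intro x
      have hanti := AE.Goodt.goodt_anti κ hκ lam δ hlam hδ E hE V _ (AE.Goodt.goodt_up V z) x
      have hc := AE.Sens.claim lam δ κ E hlam hδ hδ' hκ hE (clamp V) _
        (clamp (Function.update V z 1)) _ (AE.Good.good_clamp_le V) (AE.Good.good_clamp_le _) hw
        (AE.Good.good_W lam δ κ E (Function.update V z 1) hlam hδ hκ hE) z x
        (fun y hy => by unfold AE.Good.clamp; rw [Function.update_of_ne hy]) (Gr x) (hGr x) (hGr0 x)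
      have h1 : max (W lam δ κ E V x) 0 - max (W lam δ κ E (Function.update V z 1) x) 0 ≤
          W lam δ κ E V x - W lam δ κ E (Function.update V z 1) x := by
        rcases le_total (W lam δ κ E V x) 0 with h | h
        · rw [max_eq_right h]
          have : 0 ≤ max (W lam δ κ E (Function.update V z 1) x) 0 := le_max_right _ _
          linarith
        · rw [max_eq_left h]
          have : W lam δ κ E (Function.update V z 1) x ≤
            max (W lam δ κ E (Function.update V z 1) x) 0 := le_max_left _ _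
          linarith
      have h2 : W lam δ κ E V x - W lam δ κ E (Function.update V z 1) x ≤
          2 * Real.exp 1 * lam * Gr x z := by
        refine le_trans ?_ hc
        rw [abs_sub_comm]
        exact le_abs_self _
      have h3 : 0 ≤ lam * Gr x z := mul_nonneg hlam.le (hGr0 x z)
      nlinarith
    calc F - F' ≤ ∑ x ∈ B, α x * max (W lam δ κ E V x) 0 -
          ∑ x ∈ B, α x * max (W lam δ κ E (Function.update V z 1) x) 0 := by linarith
      _ = ∑ x ∈ B, α x * (max (W lam δ κ E V x) 0 -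
          max (W lam δ κ E (Function.update V z 1) x) 0) := by
          rw [← Finset.sum_sub_distrib]
          exact Finset.sum_congr rfl fun x _ => by ring
      _ ≤ ∑ x ∈ B, α x * (6 * lam * Gr x z) :=
          Finset.sum_le_sum fun x _ => mul_le_mul_of_nonneg_left (e3 x) (hα0 x)
      _ ≤ ∑ x, α x * (6 * lam * Gr x z) :=
          Finset.sum_le_sum_of_subset_of_nonneg (Finset.subset_univ B) fun x _ _ =>
            mul_nonneg (hα0 x) (mul_nonneg (by positivity) (hGr0 x z))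
      _ = 6 * lam * g z := by
          simp only [hg]
          rw [Finset.mul_sum]
          exact Finset.sum_congr rfl fun x _ => by ring
  have hexp : 1 / 2 ≤ Real.exp (-(4 * δ)) := by
    have h1 := Real.add_one_le_exp (-(4 * δ))
    linarith
  calc ∑ z, (F - Fn lam δ κ E B (Function.update V z 1)) ^ 2
      ≤ ∑ z, (6 * lam * g z) ^ 2 :=
        Finset.sum_le_sum fun z _ => pow_le_pow_left₀ (hD0 z) (hDz z) 2
    _ = 36 * lam ^ 2 * ∑ z, g z ^ 2 := by
        rw [Finset.mul_sum]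
        exact Finset.sum_congr rfl fun x _ => by ring
    _ ≤ 36 * lam ^ 2 * (1 / (κ * Real.exp (-(4 * δ))) ^ 2) :=
        mul_le_mul_of_nonneg_left hgl2 (by positivity)
    _ ≤ 36 * lam ^ 2 * (1 / (κ * (1 / 2)) ^ 2) := by
        gcongr
    _ = 144 * lam ^ 2 / κ ^ 2 := by
        field_simp
        norm_num

end det

section prob

variable {d L : ℕ} [NeZero L]

/-- Green function `ℓ²` hypothesis in the form used by the entropy method -/
theorem hG2 (κ δ R0 : ℝ)
    (hG : ∀ (u Gr : T d L → ℝ) (x0 : T d L), (∀ x, 1 / 2 ≤ u x) → (∀ x, 0 ≤ Gr x) →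
      (∀ x, LapW u Gr x + κ * Real.exp (-(4 * δ)) * Gr x = if x = x0 then 1 else 0) →
      ∑ z, Gr z ^ 2 ≤ R0) :
    ∀ (u Gr : T d L → ℝ) (x0 : T d L), (∀ x, 1 / 2 ≤ u x) → (∀ x, 0 ≤ Gr x) →
      (∀ x, LapW u Gr x + κ * Real.exp (-(4 * δ)) * Gr x = if x = x0 then 1 else 0) →
      ∀ θ : ℝ, 0 < θ → ∑ z, min ((θ * Gr z) ^ 2) (θ * Gr z) ≤ R0 * θ ^ (2 : ℝ) := by
  intro u Gr x0 hu hGr0 hGr θ hθ
  have h1 := hG u Gr x0 hu hGr0 hGr
  rw [Real.rpow_two]
  calc ∑ z, min ((θ * Gr z) ^ 2) (θ * Gr z) ≤ ∑ z, (θ * Gr z) ^ 2 :=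
        Finset.sum_le_sum fun z _ => min_le_left _ _
    _ = θ ^ 2 * ∑ z, Gr z ^ 2 := by
        rw [Finset.mul_sum]
        exact Finset.sum_congr rfl fun x _ => by ring
    _ ≤ θ ^ 2 * R0 := mul_le_mul_of_nonneg_left h1 (by positivity)
    _ = R0 * θ ^ 2 := by ring

/-- second moment of the solution -/
theorem w_sq (κ : ℝ) (hκ : 0 < κ) (R0 : ℝ) (hR0 : 0 < R0) (μ : Measure ℝ)
    [IsProbabilityMeasure μ] (lam δ : ℝ) (hlam : 0 < lam) (hδ : 0 < δ) (hδ' : δ ≤ 1 / 8)
    (hG : ∀ (u Gr : T d L → ℝ) (x0 : T d L), (∀ x, 1 / 2 ≤ u x) → (∀ x, 0 ≤ Gr x) →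
      (∀ x, LapW u Gr x + κ * Real.exp (-(4 * δ)) * Gr x = if x = x0 then 1 else 0) →
      ∑ z, Gr z ^ 2 ≤ R0)
    (E : ℝ) (hE : |E| ≤ lam)
    (hE0 : ∫ V, W (d := d) (L := L) lam δ κ E V 0 ∂(Measure.pi fun _ : T d L => μ) = 0)
    (x : T d L) :
    ∫ V, (W lam δ κ E V x) ^ 2 ∂(Measure.pi fun _ : T d L => μ) ≤ 144 * lam ^ 2 * R0 := by
  have hmean : ∫ V, W lam δ κ E V x ∂(Measure.pi fun _ : T d L => μ) = 0 := by
    rw [AE.Good.good_mean lam δ κ E hlam hδ hκ hE μ x]; exact hE0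
  have hmeas := (AE.Good.good_cont lam δ κ E hlam hδ hκ hE x).measurable
  set a : ℝ := 36 * lam ^ 2 * R0 with ha
  have ha0 : 0 < a := by positivity
  set θ : ℝ := 1 / Real.sqrt a with hθ
  have hsa : 0 < Real.sqrt a := Real.sqrt_pos.2 ha0
  have hθ0 : 0 < θ := by positivity
  have haθ : a * θ ^ 2 = 1 := by
    rw [hθ, div_pow, one_pow, Real.sq_sqrt ha0.le]
    field_simp
  have hR2 : ∀ t : ℝ, R0 * (6 * lam) ^ 2 * t ^ (2 : ℝ) / (2 - 1) = a * t ^ 2 := by
    intro t
    rw [Real.rpow_two, ha]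
    ring
  have hup : ∫ V, Real.exp (θ * W lam δ κ E V x) ∂(Measure.pi fun _ : T d L => μ) ≤
      Real.exp 1 := by
    have h := AE.Ent.mgf μ (fun V : T d L → ℝ => W lam δ κ E V x) hmeas (2 * δ)
      (fun V => AE.Good.good_bound lam δ κ E hlam hδ hκ hE V x) 1
      (fun V z => AE.Goodt.goodt_anti κ hκ lam δ hlam hδ E hE V _ (AE.Goodt.goodt_up V z) x)
      2 (R0 * (6 * lam) ^ 2) (by norm_num) (by positivity) (by
        intro t ht V
        refine (AE.Goodt.goodt_sens κ hκ 2 R0 lam δ hlam hδ hδ' (hG2 κ δ R0 hG) E hE V x 1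
          (fun z => W lam δ κ E V x - W lam δ κ E (Function.update V z 1) x) ?_ ?_ t ht).trans ?_
        · intro z
          exact sub_nonneg.2 (AE.Goodt.goodt_anti κ hκ lam δ hlam hδ E hE V _
            (AE.Goodt.goodt_up V z) x)
        · intro z
          rw [abs_sub_comm]
          exact le_abs_self _
        · rw [Real.rpow_two, Real.rpow_two]
          apply le_of_eq
          ring) θ hθ0
    rw [hmean, mul_zero, zero_add, hR2, haθ] at h
    exact h
  have hdn : ∫ V, Real.exp (θ * -W lam δ κ E V x) ∂(Measure.pi fun _ : T d L => μ) ≤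
      Real.exp 1 := by
    have h := AE.Ent.mgf μ (fun V : T d L → ℝ => -W lam δ κ E V x) hmeas.neg (2 * δ)
      (fun V => by rw [abs_neg]; exact AE.Good.good_bound lam δ κ E hlam hδ hκ hE V x) (-1)
      (fun V z => neg_le_neg
        (AE.Goodt.goodt_anti κ hκ lam δ hlam hδ E hE _ V (AE.Goodt.goodt_down V z) x))
      2 (R0 * (6 * lam) ^ 2) (by norm_num) (by positivity) (by
        intro t ht V
        refine (AE.Goodt.goodt_sens κ hκ 2 R0 lam δ hlam hδ hδ' (hG2 κ δ R0 hG) E hE V x (-1)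
          (fun z => -W lam δ κ E V x - -W lam δ κ E (Function.update V z (-1)) x) ?_ ?_ t ht).trans
            ?_
        · intro z
          have := AE.Goodt.goodt_anti κ hκ lam δ hlam hδ E hE _ V (AE.Goodt.goodt_down V z) x
          linarith
        · intro z
          refine le_trans (le_of_eq ?_) (le_abs_self _)
          ring
        · rw [Real.rpow_two, Real.rpow_two]
          apply le_of_eq
          ring) θ hθ0
    rw [integral_neg, hmean, neg_zero, mul_zero, zero_add, hR2, haθ] at h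
    exact h
  -- pointwise
  have hpt : ∀ s : ℝ, s ^ 2 ≤ Real.exp s + Real.exp (-s) - 2 := by
    intro s
    have h1 : |s / 2| ≤ |Real.sinh (s / 2)| := by
      rw [Real.abs_sinh]
      exact Real.self_le_sinh_iff.2 (abs_nonneg _)
    have h2 := sq_le_sq.2 h1
    rw [Real.sinh_eq] at h2
    have e1 : Real.exp s = Real.exp (s / 2) ^ 2 := by
      rw [← Real.exp_nat_mul]; congr 1; push_cast; ring
    have e2 : Real.exp (-s) = Real.exp (-(s / 2)) ^ 2 := by
      rw [← Real.exp_nat_mul]; congr 1; push_cast; ring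
    have e3 : Real.exp (s / 2) * Real.exp (-(s / 2)) = 1 := by
      rw [← Real.exp_add]; simp
    rw [e1, e2]
    nlinarith
  have hc := AE.Good.good_cont lam δ κ E hlam hδ hκ hE x
  have ibd : ∀ f : ℝ → ℝ, Continuous f → Integrable (fun V : T d L → ℝ => f (W lam δ κ E V x))
      (Measure.pi fun _ : T d L => μ) := by
    intro f hf
    have hK : IsCompact (Set.Icc (-(2 * δ)) (2 * δ)) := isCompact_Icc
    obtain ⟨C, hC⟩ := hK.exists_bound_of_continuousOn hf.continuousOn
    exact Integrable.of_bound (C := C) (hf.comp hc).measurable.aestronglyMeasurable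
      (Filter.Eventually.of_forall fun V => hC _
        (abs_le.1 (AE.Good.good_bound lam δ κ E hlam hδ hκ hE V x)))
  have i1 := ibd (fun s => Real.exp (θ * s)) (by fun_prop)
  have i2 := ibd (fun s => Real.exp (θ * -s)) (by fun_prop)
  have i3 := ibd (fun s => s ^ 2) (by fun_prop)
  have hint : ∫ V, (θ * W lam δ κ E V x) ^ 2 ∂(Measure.pi fun _ : T d L => μ) ≤
      ∫ V, (Real.exp (θ * W lam δ κ E V x) + Real.exp (θ * -W lam δ κ E V x) - 2)
        ∂(Measure.pi fun _ : T d L => μ) := by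
    refine integral_mono ?_ ?_ fun V => ?_
    · exact ibd (fun s => (θ * s) ^ 2) (by fun_prop)
    · exact ibd (fun s => Real.exp (θ * s) + Real.exp (θ * -s) - 2) (by fun_prop)
    · have := hpt (θ * W lam δ κ E V x)
      rw [mul_neg]
      exact this
  have i12 : Integrable (fun V : T d L → ℝ => Real.exp (θ * W lam δ κ E V x) +
      Real.exp (θ * -W lam δ κ E V x)) (Measure.pi fun _ : T d L => μ) := i1.add i2
  rw [integral_sub i12 (integrable_const _), integral_add i1 i2, integral_const, probReal_univ,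
    one_smul] at hint
  have hl : ∫ V, (θ * W lam δ κ E V x) ^ 2 ∂(Measure.pi fun _ : T d L => μ) =
      θ ^ 2 * ∫ V, (W lam δ κ E V x) ^ 2 ∂(Measure.pi fun _ : T d L => μ) := by
    rw [← integral_const_mul]
    congr 1
    funext V
    ring
  rw [hl] at hint
  have he : Real.exp 1 ≤ 3 := by
    have := Real.exp_one_lt_d9; linarith
  have h4 : θ ^ 2 * ∫ V, (W lam δ κ E V x) ^ 2 ∂(Measure.pi fun _ : T d L => μ) ≤ 4 := by linarith
  have h5 := mul_le_mul_of_nonneg_left h4 ha0.le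
  rw [← mul_assoc, haθ, one_mul] at h5
  rw [ha] at h5
  linarith

/-- mean of the block norm -/
theorem Fn_mean (κ : ℝ) (hκ : 0 < κ) (R0 : ℝ) (hR0 : 0 < R0) (μ : Measure ℝ)
    [IsProbabilityMeasure μ] (lam δ : ℝ) (hlam : 0 < lam) (hδ : 0 < δ) (hδ' : δ ≤ 1 / 8)
    (hG : ∀ (u Gr : T d L → ℝ) (x0 : T d L), (∀ x, 1 / 2 ≤ u x) → (∀ x, 0 ≤ Gr x) →
      (∀ x, LapW u Gr x + κ * Real.exp (-(4 * δ)) * Gr x = if x = x0 then 1 else 0) →
      ∑ z, Gr z ^ 2 ≤ R0)
    (E : ℝ) (hE : |E| ≤ lam)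
    (hE0 : ∫ V, W (d := d) (L := L) lam δ κ E V 0 ∂(Measure.pi fun _ : T d L => μ) = 0)
    (B : Finset (T d L)) :
    ∫ V, Fn lam δ κ E B V ∂(Measure.pi fun _ : T d L => μ) ≤
      12 * lam * Real.sqrt (B.card * R0) := by
  set P := Measure.pi fun _ : T d L => μ with hP
  have hFc := Fn_cont lam δ κ E hlam hδ hκ hE B
  have hFb := Fn_bound lam δ κ E hlam hδ hκ hE B
  set C := Real.sqrt (∑ _x ∈ B, (2 * δ) ^ 2) with hC
  have iF : Integrable (fun V => Fn lam δ κ E B V) P :=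
    Integrable.of_bound (C := C) hFc.measurable.aestronglyMeasurable
      (Filter.Eventually.of_forall fun V => hFb V)
  have iF2 : Integrable (fun V => (Fn lam δ κ E B V) ^ 2) P := by
    refine Integrable.of_bound (C := C ^ 2) (hFc.pow 2).measurable.aestronglyMeasurable
      (Filter.Eventually.of_forall fun V => ?_)
    rw [Real.norm_eq_abs, abs_pow]
    exact pow_le_pow_left₀ (abs_nonneg _) (hFb V) 2
  set m := ∫ V, Fn lam δ κ E B V ∂P with hm
  have h1 : 0 ≤ ∫ V, (Fn lam δ κ E B V - m) ^ 2 ∂P := integral_nonneg fun V => sq_nonneg _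
  have h2 : ∫ V, (Fn lam δ κ E B V - m) ^ 2 ∂P = ∫ V, (Fn lam δ κ E B V) ^ 2 ∂P - m ^ 2 := by
    have e1 : ∀ V, (Fn lam δ κ E B V - m) ^ 2 = (Fn lam δ κ E B V) ^ 2 -
        2 * m * Fn lam δ κ E B V + m ^ 2 := fun V => by ring
    simp only [e1]
    have i1 : Integrable (fun V => 2 * m * Fn lam δ κ E B V) P := iF.const_mul _
    have i2 : Integrable (fun V => (Fn lam δ κ E B V) ^ 2 - 2 * m * Fn lam δ κ E B V) P :=
      iF2.sub i1
    rw [integral_add i2 (integrable_const _), integral_sub iF2 i1, integral_const_mul,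
      integral_const, probReal_univ, one_smul, ← hm]
    ring
  have h3 : ∫ V, (Fn lam δ κ E B V) ^ 2 ∂P ≤ B.card * (144 * lam ^ 2 * R0) := by
    have e1 : ∀ V, (Fn lam δ κ E B V) ^ 2 ≤ ∑ x ∈ B, (W lam δ κ E V x) ^ 2 := by
      intro V
      unfold Fn
      rw [Real.sq_sqrt (Finset.sum_nonneg fun x _ => sq_nonneg _)]
      refine Finset.sum_le_sum fun x _ => ?_
      rcases le_total (W lam δ κ E V x) 0 with h | h
      · rw [max_eq_right h]
        nlinarith [sq_nonneg (W lam δ κ E V x)]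
      · rw [max_eq_left h]
    have iW : ∀ x : T d L, Integrable (fun V : T d L → ℝ => (W lam δ κ E V x) ^ 2) P := by
      intro x
      refine Integrable.of_bound (C := (2 * δ) ^ 2)
        ((AE.Good.good_cont lam δ κ E hlam hδ hκ hE x).pow 2).measurable.aestronglyMeasurable
        (Filter.Eventually.of_forall fun V => ?_)
      rw [Real.norm_eq_abs, abs_pow]
      exact pow_le_pow_left₀ (abs_nonneg _) (AE.Good.good_bound lam δ κ E hlam hδ hκ hE V x) 2
    calc ∫ V, (Fn lam δ κ E B V) ^ 2 ∂P ≤ ∫ V, ∑ x ∈ B, (W lam δ κ E V x) ^ 2 ∂P :=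
          integral_mono iF2 (integrable_finsetSum _ fun x _ => iW x) e1
      _ = ∑ x ∈ B, ∫ V, (W lam δ κ E V x) ^ 2 ∂P := integral_finsetSum _ fun x _ => iW x
      _ ≤ ∑ x ∈ B, 144 * lam ^ 2 * R0 := Finset.sum_le_sum fun x _ =>
          w_sq κ hκ R0 hR0 μ lam δ hlam hδ hδ' hG E hE hE0 x
      _ = B.card * (144 * lam ^ 2 * R0) := by rw [Finset.sum_const, nsmul_eq_mul]
  have h4 : m ^ 2 ≤ (12 * lam * Real.sqrt (B.card * R0)) ^ 2 := by
    rw [mul_pow, Real.sq_sqrt (by positivity)]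
    have : B.card * (144 * lam ^ 2 * R0) = (12 * lam) ^ 2 * (B.card * R0) := by ring
    linarith
  exact le_of_sq_le_sq h4 (by positivity)

/-- tail of the block norm -/
theorem Fn_tail (κ : ℝ) (hκ : 0 < κ) (R0 : ℝ) (hR0 : 0 < R0) (μ : Measure ℝ)
    [IsProbabilityMeasure μ] (lam δ : ℝ) (hlam : 0 < lam) (hδ : 0 < δ) (hδ' : δ ≤ 1 / 8)
    (hG : ∀ (u Gr : T d L → ℝ) (x0 : T d L), (∀ x, 1 / 2 ≤ u x) → (∀ x, 0 ≤ Gr x) →
      (∀ x, LapW u Gr x + κ * Real.exp (-(4 * δ)) * Gr x = if x = x0 then 1 else 0) →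
      ∑ z, Gr z ^ 2 ≤ R0)
    (E : ℝ) (hE : |E| ≤ lam)
    (hE0 : ∫ V, W (d := d) (L := L) lam δ κ E V 0 ∂(Measure.pi fun _ : T d L => μ) = 0)
    (B : Finset (T d L)) (s : ℝ) (hs : 0 < s) (hs2 : 24 * lam * Real.sqrt (B.card * R0) ≤ s) :
    (Measure.pi fun _ : T d L => μ).real {V | s ≤ Fn lam δ κ E B V} ≤
      Real.exp (-(s ^ 2 * κ ^ 2 / (2304 * lam ^ 2))) := by
  set P := Measure.pi fun _ : T d L => μ with hP
  have hFc := Fn_cont lam δ κ E hlam hδ hκ hE B
  have hFb := Fn_bound lam δ κ E hlam hδ hκ hE B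
  set C := Real.sqrt (∑ _x ∈ B, (2 * δ) ^ 2) with hC
  set θ : ℝ := s * κ ^ 2 / (576 * lam ^ 2) with hθ
  have hθ0 : 0 < θ := by positivity
  have hm := AE.Ent.mgf μ (Fn lam δ κ E B) hFc.measurable C hFb 1
    (fun V z => Fn_mono lam δ κ E hlam hδ hκ hE B V z) 2 (144 * lam ^ 2 / κ ^ 2) (by norm_num)
    (by positivity) (by
      intro t ht V
      rw [Real.rpow_two]
      calc _ ≤ ∑ z, (t * (Fn lam δ κ E B V - Fn lam δ κ E B (Function.update V z 1))) ^ 2 :=
            Finset.sum_le_sum fun z _ => min_le_left _ _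
        _ = t ^ 2 * ∑ z, (Fn lam δ κ E B V - Fn lam δ κ E B (Function.update V z 1)) ^ 2 := by
            rw [Finset.mul_sum]
            exact Finset.sum_congr rfl fun x _ => by ring
        _ ≤ t ^ 2 * (144 * lam ^ 2 / κ ^ 2) :=
            mul_le_mul_of_nonneg_left (Fn_sens lam δ κ E hlam hδ hδ' hκ hE B V) (by positivity)
        _ = _ := by ring) θ hθ0
  rw [Real.rpow_two] at hm
  have hmean := Fn_mean κ hκ R0 hR0 μ lam δ hlam hδ hδ' hG E hE hE0 B
  have hint : Integrable (fun V => Real.exp (θ * Fn lam δ κ E B V)) P := by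
    refine Integrable.of_bound (C := Real.exp (θ * C))
      ((Real.continuous_exp.comp (continuous_const.mul hFc)).measurable.aestronglyMeasurable) ?_
    filter_upwards with V
    rw [Real.norm_eq_abs, abs_of_pos (Real.exp_pos _)]
    exact Real.exp_le_exp.2 (mul_le_mul_of_nonneg_left ((le_abs_self _).trans (hFb V)) hθ0.le)
  have hmk := mul_meas_ge_le_integral_of_nonneg (μ := P)
    (f := fun V => Real.exp (θ * Fn lam δ κ E B V))
    (Filter.Eventually.of_forall fun V => (Real.exp_pos _).le) hint (Real.exp (θ * s))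
  have hset : {V | Real.exp (θ * s) ≤ Real.exp (θ * Fn lam δ κ E B V)} =
      {V | s ≤ Fn lam δ κ E B V} := by
    ext V
    simp only [Set.mem_ofPred_eq, Real.exp_le_exp]
    exact ⟨fun h => le_of_mul_le_mul_left h hθ0, fun h => mul_le_mul_of_nonneg_left h hθ0.le⟩
  rw [hset] at hmk
  have h2 := hmk.trans hm
  have h3 : θ * ∫ V, Fn lam δ κ E B V ∂P ≤ θ * (s / 2) := by
    apply mul_le_mul_of_nonneg_left _ hθ0.le
    linarith
  have h4 : Real.exp (θ * ∫ V, Fn lam δ κ E B V ∂P + 144 * lam ^ 2 / κ ^ 2 * θ ^ 2 / (2 - 1)) ≤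
      Real.exp (θ * (s / 2) + 144 * lam ^ 2 / κ ^ 2 * θ ^ 2) := by
    apply Real.exp_le_exp.2
    have : 144 * lam ^ 2 / κ ^ 2 * θ ^ 2 / (2 - 1) = 144 * lam ^ 2 / κ ^ 2 * θ ^ 2 := by ring
    rw [this]
    linarith
  have h5 := h2.trans h4
  have h6 : Real.exp (-(s ^ 2 * κ ^ 2 / (2304 * lam ^ 2))) =
      Real.exp (-(θ * s)) * Real.exp (θ * (s / 2) + 144 * lam ^ 2 / κ ^ 2 * θ ^ 2) := by
    rw [← Real.exp_add]
    congr 1
    rw [hθ]
    field_simp
    ring
  rw [h6]
  calc P.real {V | s ≤ Fn lam δ κ E B V}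
      = Real.exp (-(θ * s)) * (Real.exp (θ * s) * P.real {V | s ≤ Fn lam δ κ E B V}) := by
        rw [← mul_assoc, ← Real.exp_add]; simp
    _ ≤ _ := mul_le_mul_of_nonneg_left h5 (Real.exp_pos _).le

end prob

end Pool.Agent.Y663.D2.Fb
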