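import Pool.Agent.H4R2.AE.Lin

/-! The free massive Green function at the origin of the two dimensional torus, with the sharp
constant `1 / (4 π)` (helper663). -/

set_option autoImplicit false

open scoped BigOperators Nat

namespace Pool.Agent.Y663.D2.Free

open Pool.Agent.H4R2
open Pool.Agent.H4R2.AE (T LapW)

/-- Wallis bound for the central binomial coefficient -/
theorem choose_sq (k : ℕ) (hk : 1 ≤ k) :
    (((2 * k).choose k : ℕ) : ℝ) ^ 2 ≤ 16 ^ k / (Real.pi * k) := by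
  have hW := Real.Wallis.W_eq_factorial_ratio k
  have hW2 := Real.Wallis.le_W k
  have hk0 : (0 : ℝ) < k := by exact_mod_cast hk
  have hc : (((2 * k).choose k : ℕ) : ℝ) * (k ! : ℝ) * (k ! : ℝ) = ((2 * k)! : ℝ) := by
    have h := Nat.choose_mul_factorial_mul_factorial (n := 2 * k) (k := k) (by omega)
    have h2 : 2 * k - k = k := by omega
    rw [h2] at h
    exact_mod_cast h
  have hf : (0 : ℝ) < (k ! : ℝ) := by exact_mod_cast Nat.factorial_pos k
  set b : ℝ := (((2 * k).choose k : ℕ) : ℝ) with hb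
  have hb0 : 0 < b := by
    have : 0 < (2 * k).choose k := Nat.choose_pos (by omega)
    rw [hb]
    exact_mod_cast this
  rw [← hc] at hW
  have hW3 : Real.Wallis.W k = 16 ^ k / (b ^ 2 * (2 * k + 1)) := by
    rw [hW, pow_mul]
    have : (2 : ℝ) ^ 4 = 16 := by norm_num
    rw [this]
    field_simp
  rw [hW3, le_div_iff₀ (by positivity)] at hW2
  rw [le_div_iff₀ (by positivity)]
  have hpi := Real.pi_pos
  have h16 : (0 : ℝ) < 16 ^ k := by positivity
  have h4 : b ^ 2 * (Real.pi * k) * (4 * (k + 1)) ≤ 16 ^ k * (4 * (k + 1)) := by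
    have h5 : (2 * (k : ℝ) + 1) / (2 * k + 2) * (Real.pi / 2) * (b ^ 2 * (2 * k + 1)) * (4 * (k + 1)) =
        b ^ 2 * Real.pi * (2 * k + 1) ^ 2 := by
      field_simp
      ring
    have h6 : (2 * (k : ℝ) + 1) / (2 * k + 2) * (Real.pi / 2) * (b ^ 2 * (2 * k + 1)) * (4 * (k + 1)) ≤
        16 ^ k * (4 * (k + 1)) := mul_le_mul_of_nonneg_right hW2 (by positivity)
    rw [h5] at h6
    have h7 : b ^ 2 * (Real.pi * k) * (4 * (k + 1)) ≤ b ^ 2 * Real.pi * (2 * k + 1) ^ 2 := by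
      have h8 : 0 < b ^ 2 * Real.pi := by positivity
      nlinarith
    linarith
  exact le_of_mul_le_mul_right h4 (by positivity)

section

variable {L : ℕ}

/-- translation -/
noncomputable def Sh (a : T 2 L) : Module.End ℝ (T 2 L → ℝ) :=
  LinearMap.funLeft ℝ ℝ (fun x => x + a)

theorem Sh_apply (a : T 2 L) (f : T 2 L → ℝ) (x : T 2 L) : Sh a f x = f (x + a) := rfl

theorem Sh_mul (a b : T 2 L) : Sh a * Sh b = Sh (a + b) := by
  refine LinearMap.ext fun f => funext fun x => ?_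
  show f (x + a + b) = f (x + (a + b))
  rw [add_assoc]

theorem Sh_zero : Sh (0 : T 2 L) = 1 := by
  refine LinearMap.ext fun f => funext fun x => ?_
  show f (x + 0) = f x
  rw [add_zero]

theorem Sh_pow (a : T 2 L) (n : ℕ) : Sh a ^ n = Sh (n • a) := by
  induction n with
  | zero => rw [pow_zero, zero_smul, Sh_zero]
  | succ n ih => rw [pow_succ, ih, Sh_mul, succ_nsmul]

theorem Sh_comm (a b : T 2 L) : Commute (Sh a) (Sh b) := by
  show Sh a * Sh b = Sh b * Sh a
  rw [Sh_mul, Sh_mul, add_comm]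

/-- sum over the neighbours -/
noncomputable def Nb : Module.End ℝ (T 2 L → ℝ) :=
  ∑ i : Fin 2, (Sh (Pi.single i 1) + Sh (-Pi.single i 1))

theorem Nb_apply (f : T 2 L → ℝ) (x : T 2 L) :
    Nb f x = ∑ i : Fin 2, (f (x + Pi.single i 1) + f (x - Pi.single i 1)) := by
  unfold Nb
  rw [Fin.sum_univ_two, Fin.sum_univ_two]
  simp only [LinearMap.add_apply, Pi.add_apply, Sh_apply, sub_eq_add_neg]

/-- the factorisation -/
theorem Nb_eq : (Nb : Module.End ℝ (T 2 L → ℝ)) =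
    Sh (-Pi.single 0 1) * (Sh (Pi.single 0 1 + Pi.single 1 1) + 1) *
      (Sh (Pi.single 0 1 - Pi.single 1 1) + 1) := by
  unfold Nb
  rw [Fin.sum_univ_two]
  simp only [mul_add, add_mul, mul_one, Sh_mul]
  have e1 : -Pi.single 0 1 + (Pi.single 0 1 + Pi.single 1 1) + (Pi.single 0 1 - Pi.single 1 1) =
      (Pi.single 0 1 : T 2 L) := by abel
  have e2 : -Pi.single 0 1 + (Pi.single 0 1 + Pi.single 1 1) = (Pi.single 1 1 : T 2 L) := by abel
  have e3 : -Pi.single 0 1 + (Pi.single 0 1 - Pi.single 1 1) = -(Pi.single 1 1 : T 2 L) := by abel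
  rw [e1, e2, e3]
  abel

theorem Nb_pow (n : ℕ) : (Nb : Module.End ℝ (T 2 L → ℝ)) ^ n =
    ∑ i ∈ Finset.range (n + 1), ∑ j ∈ Finset.range (n + 1),
      ((n.choose i : ℝ) * (n.choose j : ℝ)) • Sh (n • (-Pi.single 0 1 : T 2 L) +
        (i • (Pi.single 0 1 + Pi.single 1 1) + j • (Pi.single 0 1 - Pi.single 1 1))) := by
  have hc : ∀ a : T 2 L, ∀ m : ℕ, (Sh a + 1) ^ m =
      ∑ i ∈ Finset.range (m + 1), (m.choose i : ℝ) • Sh (i • a) := by
    intro a m
    rw [(Commute.one_right (Sh a)).add_pow]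
    refine Finset.sum_congr rfl fun i _ => ?_
    rw [Sh_pow, one_pow, mul_one, ← nsmul_eq_mul', ← Nat.cast_smul_eq_nsmul ℝ]
  rw [Nb_eq]
  have h1 : Commute (Sh (-Pi.single 0 1 : T 2 L)) (Sh (Pi.single 0 1 + Pi.single 1 1) + 1) :=
    (Sh_comm _ _).add_right (Commute.one_right _)
  have h2 : Commute (Sh (-Pi.single 0 1 : T 2 L) * (Sh (Pi.single 0 1 + Pi.single 1 1) + 1))
      (Sh (Pi.single 0 1 - Pi.single 1 1) + 1) := by
    refine Commute.add_right ?_ (Commute.one_right _)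
    exact ((Sh_comm _ _).mul_left ((Sh_comm _ _).add_left (Commute.one_left _)))
  rw [h2.mul_pow, h1.mul_pow, hc, hc, Sh_pow, mul_assoc, Finset.sum_mul_sum, Finset.mul_sum]
  refine Finset.sum_congr rfl fun i _ => ?_
  rw [Finset.mul_sum]
  refine Finset.sum_congr rfl fun j _ => ?_
  rw [smul_mul_smul_comm, mul_smul_comm, Sh_mul, Sh_mul]

/-- point mass at the origin -/
noncomputable def dl (x : T 2 L) : ℝ := if x = 0 then 1 else 0

theorem coord (n i j : ℕ) (hn : n < L) (hi : i ≤ n) (hj : j ≤ n) :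
    (n • (-Pi.single 0 1 : T 2 L) +
        (i • (Pi.single 0 1 + Pi.single 1 1) + j • (Pi.single 0 1 - Pi.single 1 1)) = 0) ↔
      (i = j ∧ 2 * i = n) := by
  have hcast : ∀ a b : ℤ, ((a : ZMod L) = (b : ZMod L)) → |a - b| < L → a = b := by
    intro a b h h2
    have h3 : ((a - b : ℤ) : ZMod L) = 0 := by
      push_cast
      rw [h, sub_self]
    have h4 := Int.eq_zero_of_abs_lt_dvd ((ZMod.intCast_zmod_eq_zero_iff_dvd (a - b) L).1 h3) h2
    omega
  constructor
  · intro h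
    have h0 := congrFun h 0
    have h1 := congrFun h 1
    simp only [Pi.add_apply, Pi.smul_apply, Pi.neg_apply, Pi.sub_apply, Pi.zero_apply,
      Pi.single_eq_same] at h0 h1
    rw [Pi.single_eq_of_ne (by decide : (0 : Fin 2) ≠ 1)] at h0
    rw [Pi.single_eq_of_ne (by decide : (1 : Fin 2) ≠ 0)] at h1
    simp only [nsmul_eq_mul] at h0 h1
    have e1 : ((i : ℤ) : ZMod L) = ((j : ℤ) : ZMod L) := by
      push_cast
      linear_combination h1
    have hij : (i : ℤ) = j := hcast _ _ e1 (by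
      rw [abs_lt]
      omega)
    have hij' : i = j := by exact_mod_cast hij
    have e2 : ((2 * i : ℤ) : ZMod L) = ((n : ℤ) : ZMod L) := by
      rw [← hij'] at h0
      push_cast
      linear_combination h0
    have h3 : (2 * i : ℤ) = n := hcast _ _ e2 (by
      rw [abs_lt]
      omega)
    exact ⟨hij', by exact_mod_cast h3⟩
  · rintro ⟨rfl, h2⟩
    have e : ((n : ℕ) : ZMod L) = 2 * ((i : ℕ) : ZMod L) := by
      rw [← h2]
      push_cast
      ring
    funext k
    simp only [Pi.add_apply, Pi.smul_apply, Pi.neg_apply, Pi.sub_apply, Pi.zero_apply]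
    simp only [nsmul_eq_mul]
    rw [e]
    ring

/-- the number of closed walks -/
theorem walks (n : ℕ) (hn : n < L) :
    ((Nb : Module.End ℝ (T 2 L → ℝ)) ^ n) dl 0 =
      ∑ i ∈ Finset.range (n + 1), (if 2 * i = n then ((n.choose i : ℕ) : ℝ) ^ 2 else 0) := by
  rw [Nb_pow]
  simp only [LinearMap.sum_apply, LinearMap.smul_apply, Finset.sum_apply, Pi.smul_apply,
    Sh_apply, smul_eq_mul, zero_add]
  refine Finset.sum_congr rfl fun i hi => ?_
  rw [Finset.mem_range] at hi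
  rw [Finset.sum_eq_single i]
  · unfold dl
    by_cases h : 2 * i = n
    · rw [if_pos h, if_pos ((coord n i i hn (by omega) (by omega)).2 ⟨rfl, h⟩)]
      ring
    · rw [if_neg h, if_neg (fun hc => h ((coord n i i hn (by omega) (by omega)).1 hc).2), mul_zero]
  · intro j hj hji
    rw [Finset.mem_range] at hj
    unfold dl
    rw [if_neg (fun hc => hji ((coord n i j hn (by omega) (by omega)).1 hc).1.symm), mul_zero]
  · intro h
    exact absurd (Finset.mem_range.2 hi) h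

theorem walks_even (k : ℕ) (hk : 2 * k < L) :
    ((Nb : Module.End ℝ (T 2 L → ℝ)) ^ (2 * k)) dl 0 = (((2 * k).choose k : ℕ) : ℝ) ^ 2 := by
  rw [walks _ hk, Finset.sum_eq_single k]
  · rw [if_pos rfl]
  · intro j _ hj
    rw [if_neg (by omega)]
  · intro h
    exact absurd (Finset.mem_range.2 (by omega)) h

theorem walks_odd (k : ℕ) (hk : 2 * k + 1 < L) :
    ((Nb : Module.End ℝ (T 2 L → ℝ)) ^ (2 * k + 1)) dl 0 = 0 := by
  rw [walks _ hk]
  refine Finset.sum_eq_zero fun i _ => ?_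
  rw [if_neg (by omega)]

theorem Nb_pow_le (f : T 2 L → ℝ) (B : ℝ) (hf : ∀ x, f x ≤ B) (m : ℕ) :
    ∀ x, ((Nb : Module.End ℝ (T 2 L → ℝ)) ^ m) f x ≤ 4 ^ m * B := by
  induction m with
  | zero => intro x; simpa using hf x
  | succ m ih =>
    intro x
    rw [pow_succ']
    show Nb (((Nb : Module.End ℝ (T 2 L → ℝ)) ^ m) f) x ≤ _
    rw [Nb_apply, Fin.sum_univ_two, pow_succ]
    have h1 := ih (x + Pi.single 0 1)
    have h2 := ih (x - Pi.single 0 1)
    have h3 := ih (x + Pi.single 1 1)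
    have h4 := ih (x - Pi.single 1 1)
    linarith

/-- Neumann series -/
theorem neumann (κ : ℝ) (hκ : 0 < κ) (h : T 2 L → ℝ)
    (he : ∀ x, LapW (fun _ => 1) h x + κ * h x = if x = 0 then 1 else 0) (m : ℕ) :
    h = ∑ n ∈ Finset.range m, ((4 + κ)⁻¹ ^ (n + 1)) • ((Nb : Module.End ℝ (T 2 L → ℝ)) ^ n) dl +
      ((4 + κ)⁻¹ ^ m) • ((Nb : Module.End ℝ (T 2 L → ℝ)) ^ m) h := by
  have h4 : (0 : ℝ) < 4 + κ := by linarith
  have h1 : h = (4 + κ)⁻¹ • (dl + Nb h) := by
    funext x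
    have h2 := he x
    have h3 : LapW (fun _ => 1) h x = 4 * h x - Nb h x := by
      rw [Nb_apply]
      unfold AE.LapW
      rw [Fin.sum_univ_two, Fin.sum_univ_two]
      ring
    rw [h3] at h2
    show h x = (4 + κ)⁻¹ * (dl x + Nb h x)
    unfold dl
    rw [← h2]
    field_simp
    ring
  induction m with
  | zero => simp
  | succ m ih =>
    rw [Finset.sum_range_succ, add_assoc]
    have h5 : ((4 + κ)⁻¹ ^ m) • ((Nb : Module.End ℝ (T 2 L → ℝ)) ^ m) h =
        ((4 + κ)⁻¹ ^ (m + 1)) • ((Nb : Module.End ℝ (T 2 L → ℝ)) ^ m) dl +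
        ((4 + κ)⁻¹ ^ (m + 1)) • ((Nb : Module.End ℝ (T 2 L → ℝ)) ^ (m + 1)) h := by
      conv_lhs => rw [h1]
      rw [map_smul, map_add, smul_smul, ← pow_succ, smul_add]
      congr 1
    rw [← h5]
    exact ih

theorem sum_two (F : ℕ → ℝ) (m : ℕ) : ∑ n ∈ Finset.range (2 * m), F n =
    ∑ k ∈ Finset.range m, (F (2 * k) + F (2 * k + 1)) := by
  induction m with
  | zero => simp
  | succ m ih =>
    rw [show 2 * (m + 1) = 2 * m + 1 + 1 by ring, Finset.sum_range_succ, Finset.sum_range_succ, ih,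
      Finset.sum_range_succ]
    ring

/-- the free Green function at the origin -/
theorem free (κ : ℝ) (hκ : 0 < κ) (hκ1 : κ ≤ 1) [NeZero L] (m : ℕ) (hm : 2 * m ≤ L) (hm0 : 1 ≤ m)
    (hmκ : 1 ≤ 2 * m * κ ^ 2)
    (h : T 2 L → ℝ) (hh : ∀ x, 0 ≤ h x)
    (he : ∀ x, LapW (fun _ => 1) h x + κ * h x = if x = 0 then 1 else 0) :
    h 0 ≤ 1 / (4 * Real.pi) * Real.log (1 / κ) + 6 := by
  have h4 : (0 : ℝ) < 4 + κ := by linarith
  have hpi := Real.pi_pos
  have hpi3 := Real.pi_gt_three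
  have hsum : ∑ x, h x = 1 / κ := by
    have h3 : ∑ x, (LapW (fun _ => 1) h x + κ * h x) = 1 := by
      rw [Finset.sum_congr rfl fun x _ => he x]
      simp
    rw [Finset.sum_add_distrib, AE.Lin.sum_lapW, zero_add, ← Finset.mul_sum] at h3
    rw [eq_div_iff hκ.ne', mul_comm]
    exact h3
  have hB : ∀ x, h x ≤ 1 / κ := fun x => by
    rw [← hsum]
    exact Finset.single_le_sum (fun y _ => hh y) (Finset.mem_univ x)
  have hN := congrFun (neumann κ hκ h he (2 * m)) 0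
  rw [Pi.add_apply, Finset.sum_apply, sum_two] at hN
  simp only [Pi.smul_apply, smul_eq_mul] at hN
  -- the tail
  have htail : (4 + κ)⁻¹ ^ (2 * m) * ((Nb : Module.End ℝ (T 2 L → ℝ)) ^ (2 * m)) h 0 ≤ 4 := by
    have h5 := Nb_pow_le h (1 / κ) hB (2 * m) 0
    have h6 : (4 + κ)⁻¹ ^ (2 * m) * ((Nb : Module.End ℝ (T 2 L → ℝ)) ^ (2 * m)) h 0 ≤
        (4 + κ)⁻¹ ^ (2 * m) * (4 ^ (2 * m) * (1 / κ)) :=
      mul_le_mul_of_nonneg_left h5 (by positivity)
    refine h6.trans ?_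
    have h7 : (4 + κ)⁻¹ ^ (2 * m) * (4 ^ (2 * m) * (1 / κ)) = ((1 + κ / 4) ^ (2 * m))⁻¹ * (1 / κ) := by
      rw [← mul_assoc, ← mul_pow, ← inv_pow]
      congr 2
      field_simp
    rw [h7]
    have h8 := one_add_mul_le_pow (a := κ / 4) (by linarith) (2 * m)
    push_cast at h8
    have h9 : 2 * (m : ℝ) * κ / 4 ≤ (1 + κ / 4) ^ (2 * m) := by linarith
    have hm0' : (0 : ℝ) < m := by exact_mod_cast hm0
    have h10 : ((1 + κ / 4) ^ (2 * m))⁻¹ ≤ (2 * (m : ℝ) * κ / 4)⁻¹ :=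
      inv_anti₀ (by positivity) h9
    calc ((1 + κ / 4) ^ (2 * m))⁻¹ * (1 / κ) ≤ (2 * (m : ℝ) * κ / 4)⁻¹ * (1 / κ) := by gcongr
      _ = 4 / (2 * m * κ ^ 2) := by field_simp
      _ ≤ 4 / 1 := by gcongr
      _ = 4 := by norm_num
  -- the main term
  set q : ℝ := (4 / (4 + κ)) ^ 2 with hq
  have hq0 : 0 ≤ q := by positivity
  have hq1 : 1 - q = κ * (8 + κ) / (4 + κ) ^ 2 := by
    rw [hq]
    field_simp
    ring
  have hq2 : κ * (8 / 25) ≤ 1 - q := by
    rw [hq1, le_div_iff₀ (by positivity)]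
    have : 8 / 25 * (4 + κ) ^ 2 ≤ 8 + κ := by nlinarith
    nlinarith
  have hqlt : q < 1 := by nlinarith
  have hmain : ∑ k ∈ Finset.range m, ((4 + κ)⁻¹ ^ (2 * k + 1) *
        ((Nb : Module.End ℝ (T 2 L → ℝ)) ^ (2 * k)) dl 0 +
      (4 + κ)⁻¹ ^ (2 * k + 1 + 1) * ((Nb : Module.End ℝ (T 2 L → ℝ)) ^ (2 * k + 1)) dl 0) ≤
      1 / 4 + 1 / (4 * Real.pi) * -Real.log (1 - q) := by
    have e1 : ∀ k ∈ Finset.range m, ((4 + κ)⁻¹ ^ (2 * k + 1) *
        ((Nb : Module.End ℝ (T 2 L → ℝ)) ^ (2 * k)) dl 0 +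
      (4 + κ)⁻¹ ^ (2 * k + 1 + 1) * ((Nb : Module.End ℝ (T 2 L → ℝ)) ^ (2 * k + 1)) dl 0) =
      (4 + κ)⁻¹ ^ (2 * k + 1) * (((2 * k).choose k : ℕ) : ℝ) ^ 2 := by
      intro k hk
      rw [Finset.mem_range] at hk
      rw [walks_even k (by omega), walks_odd k (by omega), mul_zero, add_zero]
    rw [Finset.sum_congr rfl e1]
    obtain ⟨m', rfl⟩ : ∃ m', m = m' + 1 := ⟨m - 1, by omega⟩
    rw [Finset.sum_range_succ']
    have e2 : (4 + κ)⁻¹ ^ (2 * 0 + 1) * (((2 * 0).choose 0 : ℕ) : ℝ) ^ 2 ≤ 1 / 4 := by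
      simp only [mul_zero, zero_add, pow_one, Nat.choose_self, Nat.cast_one, one_pow, mul_one]
      rw [one_div]
      exact inv_anti₀ (by norm_num) (by linarith)
    have e3 : ∀ k ∈ Finset.range m', (4 + κ)⁻¹ ^ (2 * (k + 1) + 1) *
        (((2 * (k + 1)).choose (k + 1) : ℕ) : ℝ) ^ 2 ≤
        1 / (4 * Real.pi) * (q ^ (k + 1) / ((k : ℝ) + 1)) := by
      intro k _
      have f1 := choose_sq (k + 1) (by omega)
      calc (4 + κ)⁻¹ ^ (2 * (k + 1) + 1) * (((2 * (k + 1)).choose (k + 1) : ℕ) : ℝ) ^ 2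
          ≤ (4 + κ)⁻¹ ^ (2 * (k + 1) + 1) * (16 ^ (k + 1) / (Real.pi * ((k + 1 : ℕ) : ℝ))) := by
            gcongr
        _ = (4 + κ)⁻¹ * (1 / Real.pi) * (q ^ (k + 1) / ((k : ℝ) + 1)) := by
            have f2 : q ^ (k + 1) = (4 + κ)⁻¹ ^ (2 * (k + 1)) * 16 ^ (k + 1) := by
              rw [hq, ← pow_mul, pow_mul, pow_mul, ← mul_pow]
              congr 1
              field_simp
              norm_num
            rw [f2, pow_succ]
            push_cast
            field_simp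
        _ ≤ 1 / 4 * (1 / Real.pi) * (q ^ (k + 1) / ((k : ℝ) + 1)) := by
            have f3 : (4 + κ)⁻¹ ≤ 1 / 4 := by
              rw [one_div]
              exact inv_anti₀ (by norm_num) (by linarith)
            gcongr
        _ = _ := by
            rw [one_div_mul_one_div]
    have e4 := Finset.sum_le_sum e3
    rw [← Finset.mul_sum] at e4
    have e5 : ∑ k ∈ Finset.range m', q ^ (k + 1) / ((k : ℝ) + 1) ≤ -Real.log (1 - q) := by
      have f1 := Real.hasSum_pow_div_log_of_abs_lt_one (x := q) (by rw [abs_of_nonneg hq0]; exact hqlt)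
      exact sum_le_hasSum _ (fun k _ => by positivity) f1
    have e6 : 1 / (4 * Real.pi) * ∑ k ∈ Finset.range m', q ^ (k + 1) / ((k : ℝ) + 1) ≤
        1 / (4 * Real.pi) * -Real.log (1 - q) := mul_le_mul_of_nonneg_left e5 (by positivity)
    linarith
  have hlog : -Real.log (1 - q) ≤ Real.log (1 / κ) + 2 := by
    have e1 : Real.log (κ * (8 / 25)) ≤ Real.log (1 - q) := Real.log_le_log (by positivity) hq2
    rw [Real.log_mul hκ.ne' (by norm_num)] at e1
    rw [one_div, Real.log_inv]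
    have e2 : -2 ≤ Real.log (8 / 25) := by
      rw [Real.le_log_iff_exp_le (by norm_num)]
      have e3 : Real.exp (-2) = (Real.exp 1 * Real.exp 1)⁻¹ := by
        rw [← Real.exp_add, ← Real.exp_neg]
        norm_num
      rw [e3]
      have e4 := Real.exp_one_gt_d9
      rw [inv_le_comm₀ (by positivity) (by norm_num)]
      nlinarith
    linarith
  have hfin : 1 / (4 * Real.pi) * -Real.log (1 - q) ≤ 1 / (4 * Real.pi) * Real.log (1 / κ) + 1 := by
    have e1 : 1 / (4 * Real.pi) * -Real.log (1 - q) ≤ 1 / (4 * Real.pi) * (Real.log (1 / κ) + 2) :=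
      mul_le_mul_of_nonneg_left hlog (by positivity)
    have e2 : 1 / (4 * Real.pi) * 2 ≤ 1 := by
      rw [div_mul_eq_mul_div, div_le_one (by positivity)]
      linarith
    linarith
  rw [hN]
  linarith

end

end Pool.Agent.Y663.D2.Free
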