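import Pool.Agent.H4R2.AE.Lin
import Pool.Agent.H4R2.AE.Sob

/-! Massive Green functions on the two dimensional torus: square summability (helper663). -/

set_option autoImplicit false

open scoped BigOperators

namespace Pool.Agent.Y663.D2.Gr

open Pool.Agent.H4R2
open Pool.Agent.H4R2.AE (T LapW)

/-- truncation -/
noncomputable def tr (t s a : ℝ) : ℝ := min (max (a - t) 0) s

theorem tr_nonneg (t s a : ℝ) (hs : 0 ≤ s) : 0 ≤ tr t s a := le_min (le_max_right _ _) hs

theorem tr_le (t s a : ℝ) : tr t s a ≤ s := min_le_right _ _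

theorem tr_le' (t s a : ℝ) (ht : 0 ≤ t) (ha : 0 ≤ a) : tr t s a ≤ a :=
  (min_le_left _ _).trans (max_le (by linarith) ha)

theorem tr_zero (t s a : ℝ) (hs : 0 ≤ s) (h : ¬ t < a) : tr t s a = 0 := by
  unfold tr
  push Not at h
  rw [max_eq_right (by linarith), min_eq_left hs]

theorem tr_top (t s a : ℝ) (h : t + s < a) (hs : 0 ≤ s) : tr t s a = s := by
  unfold tr
  rw [max_eq_left (by linarith), min_eq_right (by linarith)]

theorem tr_mono (t s a b : ℝ) (h : a ≤ b) : tr t s a ≤ tr t s b :=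
  min_le_min_right _ (max_le_max_right _ (by linarith))

theorem tr_lip (t s a b : ℝ) (h : a ≤ b) : tr t s b - tr t s a ≤ b - a := by
  unfold tr
  rcases le_total (max (a - t) 0) s with h1 | h1
  · rw [min_eq_left h1]
    have h2 : min (max (b - t) 0) s ≤ max (b - t) 0 := min_le_left _ _
    have h3 : max (b - t) 0 ≤ max (a - t) 0 + (b - a) := by
      apply max_le
      · have := le_max_left (a - t) 0
        linarith
      · have := le_max_right (a - t) 0
        linarith
    linarith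
  · rw [min_eq_right h1]
    have := min_le_right (max (b - t) 0) s
    linarith

theorem tr_contr (t s a b : ℝ) :
    (tr t s b - tr t s a) ^ 2 ≤ (tr t s a - tr t s b) * (a - b) := by
  rcases le_total a b with hab | hab
  · have h1 := tr_mono t s a b hab
    have h2 := tr_lip t s a b hab
    nlinarith
  · have h1 := tr_mono t s b a hab
    have h2 := tr_lip t s b a hab
    nlinarith

section

variable {L : ℕ} [NeZero L]

/-- number of sites above level `t` -/
noncomputable def NN (h : T 2 L → ℝ) (t : ℝ) : ℝ :=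
  ((Finset.univ.filter fun x => t < h x).card : ℝ)

theorem NN_sum (h : T 2 L → ℝ) (t : ℝ) : NN h t = ∑ x, (if t < h x then (1 : ℝ) else 0) := by
  unfold NN
  rw [Finset.card_filter]
  push_cast
  rfl

theorem NN_nonneg (h : T 2 L → ℝ) (t : ℝ) : 0 ≤ NN h t := Nat.cast_nonneg _

theorem level (k : ℝ) (u h : T 2 L → ℝ) (z : T 2 L) (hu : ∀ x, 1 / 2 ≤ u x)
    (hk : 1 / (8 * (L : ℝ) ^ 2) ≤ k) (hh : ∀ x, 0 ≤ h x)
    (he : ∀ x, LapW u h x + k * h x = if x = z then 1 else 0) (t s : ℝ) (ht : 0 ≤ t)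
    (hs : 0 < s) : s * NN h (t + s) ≤ 128 * NN h t := by
  have hL : (0 : ℝ) < L := by
    have := NeZero.pos L
    exact_mod_cast this
  have hk0 : 0 < k := lt_of_lt_of_le (by positivity) hk
  set v : T 2 L → ℝ := fun x => tr t s (h x) with hv
  have hv0 : ∀ x, 0 ≤ v x := fun x => tr_nonneg _ _ _ hs.le
  set χ : T 2 L → ℝ := fun x => if t < h x then (1 : ℝ) else 0 with hχ
  have hχ0 : ∀ x, 0 ≤ χ x := fun x => by simp only [hχ]; split_ifs <;> norm_num
  have hχ1 : ∀ x, χ x ≤ 1 := fun x => by simp only [hχ]; split_ifs <;> norm_num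
  have hχN : ∑ x, χ x = NN h t := (NN_sum h t).symm
  have hvχ : ∀ x, v x = v x * χ x := by
    intro x
    by_cases hx : t < h x
    · simp only [hχ, if_pos hx, mul_one]
    · have : v x = 0 := tr_zero _ _ _ hs.le hx
      rw [this, zero_mul]
  set E := ∑ x, ∑ i : Fin 2, (v (x + Pi.single i 1) - v x) ^ 2 with hE
  have h1 : ∑ x, v x * LapW u h x + ∑ x, v x * (k * h x) ≤ s := by
    rw [← Finset.sum_add_distrib]
    have e1 : ∑ x, (v x * LapW u h x + v x * (k * h x)) = v z := by
      have : ∀ x, v x * LapW u h x + v x * (k * h x) = v x * (if x = z then 1 else 0) := by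
        intro x
        rw [← he x]; ring
      simp only [this]
      simp
    rw [e1]
    exact tr_le _ _ _
  have h2 : 1 / 4 * E ≤ ∑ x, v x * LapW u h x := by
    rw [AE.Lin.bilin, hE, Finset.mul_sum]
    refine Finset.sum_le_sum fun x _ => ?_
    rw [Finset.mul_sum]
    refine Finset.sum_le_sum fun i _ => ?_
    have a1 : 1 / 4 ≤ u x * u (x + Pi.single i 1) := by
      have := hu x
      have := hu (x + Pi.single i 1)
      nlinarith
    have a2 : (v (x + Pi.single i 1) - v x) ^ 2 ≤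
        (v x - v (x + Pi.single i 1)) * (h x - h (x + Pi.single i 1)) := tr_contr _ _ _ _
    calc 1 / 4 * (v (x + Pi.single i 1) - v x) ^ 2 ≤
          (u x * u (x + Pi.single i 1)) * (v (x + Pi.single i 1) - v x) ^ 2 :=
          mul_le_mul_of_nonneg_right a1 (sq_nonneg _)
      _ ≤ _ := mul_le_mul_of_nonneg_left a2 (by linarith)
  have h3 : k * ∑ x, v x ^ 2 ≤ ∑ x, v x * (k * h x) := by
    rw [Finset.mul_sum]
    refine Finset.sum_le_sum fun x _ => ?_
    have h4 : v x ≤ h x := tr_le' _ _ _ ht (hh x)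
    calc k * v x ^ 2 = v x * (k * v x) := by ring
      _ ≤ v x * (k * h x) := mul_le_mul_of_nonneg_left (mul_le_mul_of_nonneg_left h4 hk0.le) (hv0 x)
  have hE0 : 0 ≤ E := Finset.sum_nonneg fun _ _ => Finset.sum_nonneg fun _ _ => sq_nonneg _
  have hV0 : 0 ≤ ∑ x, v x ^ 2 := Finset.sum_nonneg fun _ _ => sq_nonneg _
  have hE4 : E ≤ 4 * s := by
    have : 0 ≤ k * ∑ x, v x ^ 2 := mul_nonneg hk0.le hV0
    linarith
  have hV4 : k * ∑ x, v x ^ 2 ≤ s := by linarith
  set N := NN h t with hN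
  have hN0 : 0 ≤ N := NN_nonneg h t
  -- gradient
  have hgrad : (∑ i : Fin 2, ∑ x, |v (x + Pi.single i 1) - v x|) ^ 2 ≤ 32 * s * N := by
    have e1 : ∑ i : Fin 2, ∑ x, |v (x + Pi.single i 1) - v x| =
        ∑ p : T 2 L × Fin 2, |v (p.1 + Pi.single p.2 1) - v p.1| := by
      rw [Fintype.sum_prod_type, Finset.sum_comm]
    have e2 : ∀ p : T 2 L × Fin 2, |v (p.1 + Pi.single p.2 1) - v p.1| ≤
        |v (p.1 + Pi.single p.2 1) - v p.1| * (χ p.1 + χ (p.1 + Pi.single p.2 1)) := by
      intro p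
      by_cases ha : t < h p.1
      · have : χ p.1 = 1 := if_pos ha
        rw [this]
        have := hχ0 (p.1 + Pi.single p.2 1)
        have := abs_nonneg (v (p.1 + Pi.single p.2 1) - v p.1)
        nlinarith
      · by_cases hb : t < h (p.1 + Pi.single p.2 1)
        · have : χ (p.1 + Pi.single p.2 1) = 1 := if_pos hb
          rw [this]
          have := hχ0 p.1
          have := abs_nonneg (v (p.1 + Pi.single p.2 1) - v p.1)
          nlinarith
        · have z1 : v p.1 = 0 := tr_zero _ _ _ hs.le ha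
          have z2 : v (p.1 + Pi.single p.2 1) = 0 := tr_zero _ _ _ hs.le hb
          rw [z1, z2]
          simp
    have e3 : ∑ p : T 2 L × Fin 2, |v (p.1 + Pi.single p.2 1) - v p.1| ≤
        ∑ p : T 2 L × Fin 2, |v (p.1 + Pi.single p.2 1) - v p.1| *
          (χ p.1 + χ (p.1 + Pi.single p.2 1)) := Finset.sum_le_sum fun p _ => e2 p
    have e0 : 0 ≤ ∑ p : T 2 L × Fin 2, |v (p.1 + Pi.single p.2 1) - v p.1| :=
      Finset.sum_nonneg fun _ _ => abs_nonneg _
    have e4 := Finset.sum_mul_sq_le_sq_mul_sq (Finset.univ : Finset (T 2 L × Fin 2))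
      (fun p => |v (p.1 + Pi.single p.2 1) - v p.1|) (fun p => χ p.1 + χ (p.1 + Pi.single p.2 1))
    have e5 : ∑ p : T 2 L × Fin 2, |v (p.1 + Pi.single p.2 1) - v p.1| ^ 2 = E := by
      rw [Fintype.sum_prod_type, hE]
      simp only [sq_abs]
    have e6 : ∑ p : T 2 L × Fin 2, (χ p.1 + χ (p.1 + Pi.single p.2 1)) ^ 2 ≤ 8 * N := by
      have f1 : ∀ p : T 2 L × Fin 2, (χ p.1 + χ (p.1 + Pi.single p.2 1)) ^ 2 ≤
          2 * (χ p.1 + χ (p.1 + Pi.single p.2 1)) := by
        intro p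
        have := hχ0 p.1
        have := hχ1 p.1
        have := hχ0 (p.1 + Pi.single p.2 1)
        have := hχ1 (p.1 + Pi.single p.2 1)
        nlinarith
      refine (Finset.sum_le_sum fun p _ => f1 p).trans ?_
      rw [← Finset.mul_sum, Fintype.sum_prod_type, Finset.sum_comm]
      have f2 : ∀ i : Fin 2, ∑ x, (χ x + χ (x + Pi.single i 1)) = 2 * N := by
        intro i
        rw [Finset.sum_add_distrib]
        have : ∑ x, χ (x + Pi.single i 1) = ∑ x, χ x :=
          Fintype.sum_equiv (Equiv.addRight (Pi.single i 1)) _ _ fun _ => rfl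
        rw [this, hχN]
        ring
      simp only [f2]
      rw [Finset.sum_const, Finset.card_univ, Fintype.card_fin]
      norm_num
      linarith
    rw [e1]
    calc (∑ p : T 2 L × Fin 2, |v (p.1 + Pi.single p.2 1) - v p.1|) ^ 2
        ≤ (∑ p : T 2 L × Fin 2, |v (p.1 + Pi.single p.2 1) - v p.1| *
          (χ p.1 + χ (p.1 + Pi.single p.2 1))) ^ 2 := pow_le_pow_left₀ e0 e3 2
      _ ≤ _ := e4
      _ ≤ (4 * s) * (8 * N) := by
          rw [e5]
          exact mul_le_mul hE4 e6 (Finset.sum_nonneg fun _ _ => sq_nonneg _) (by positivity)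
      _ = 32 * s * N := by ring
  have hmean : (2 / (L : ℝ) * ∑ x, v x) ^ 2 ≤ 32 * s * N := by
    have e1 : (∑ x, v x) ^ 2 ≤ (∑ x, v x ^ 2) * N := by
      have e4 := Finset.sum_mul_sq_le_sq_mul_sq (Finset.univ : Finset (T 2 L)) v χ
      have e5 : ∑ x, v x * χ x = ∑ x, v x := Finset.sum_congr rfl fun x _ => (hvχ x).symm
      have e6 : ∑ x, χ x ^ 2 = N := by
        rw [← hχN]
        refine Finset.sum_congr rfl fun x _ => ?_
        simp only [hχ]
        split_ifs <;> norm_num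
      rw [e5, e6] at e4
      exact e4
    have e2 : ∑ x, v x ^ 2 ≤ 8 * (L : ℝ) ^ 2 * s := by
      have e3 : 1 / (8 * (L : ℝ) ^ 2) * ∑ x, v x ^ 2 ≤ s :=
        (mul_le_mul_of_nonneg_right hk hV0).trans hV4
      rw [div_mul_eq_mul_div, one_mul, div_le_iff₀ (by positivity)] at e3
      linarith
    calc (2 / (L : ℝ) * ∑ x, v x) ^ 2 = 4 / (L : ℝ) ^ 2 * (∑ x, v x) ^ 2 := by
          field_simp
          ring
      _ ≤ 4 / (L : ℝ) ^ 2 * ((8 * (L : ℝ) ^ 2 * s) * N) := by
          gcongr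
          exact e1.trans (mul_le_mul_of_nonneg_right e2 hN0)
      _ = 32 * s * N := by
          field_simp
          ring
  have hsob := AE.Sob.sobolev 2 L le_rfl v hv0
  have hq : (((2 : ℕ) : ℝ) / (((2 : ℕ) : ℝ) - 1)) = 2 := by norm_num
  have hq2 : ((((2 : ℕ) : ℝ) - 1) / ((2 : ℕ) : ℝ)) = 1 / 2 := by norm_num
  rw [hq, hq2, ← Real.sqrt_eq_rpow] at hsob
  have hsq2 : ∑ x, v x ^ (2 : ℝ) = ∑ x, v x ^ 2 :=
    Finset.sum_congr rfl fun x _ => Real.rpow_two _
  rw [hsq2] at hsob
  have hc2 : ((2 : ℕ) : ℝ) = 2 := by norm_num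
  rw [hc2] at hsob
  set A1 := ∑ i : Fin 2, ∑ x, |v (x + Pi.single i 1) - v x| with hA1
  set A2 := 2 / (L : ℝ) * ∑ x, v x with hA2
  have hfin : ∑ x, v x ^ 2 ≤ 128 * (s * N) := by
    have e1 : Real.sqrt (∑ x, v x ^ 2) ^ 2 ≤ (A1 + A2) ^ 2 :=
      pow_le_pow_left₀ (Real.sqrt_nonneg _) hsob 2
    rw [Real.sq_sqrt hV0] at e1
    nlinarith [sq_nonneg (A1 - A2)]
  have hlow : s ^ 2 * NN h (t + s) ≤ ∑ x, v x ^ 2 := by
    rw [NN_sum, Finset.mul_sum]
    refine Finset.sum_le_sum fun x _ => ?_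
    by_cases hx : t + s < h x
    · rw [if_pos hx, mul_one]
      have : v x = s := tr_top _ _ _ hx hs.le
      rw [this]
    · rw [if_neg hx, mul_zero]
      positivity
  have h5 : s * (s * NN h (t + s)) ≤ s * (128 * N) := by nlinarith
  exact le_of_mul_le_mul_left h5 hs

theorem series (M : ℕ) : ∑ j ∈ Finset.range M, (1 + (j : ℝ)) ^ 2 * (1 / 4) ^ j =
    80 / 27 - (4 / 3 * (M : ℝ) ^ 2 + 32 / 9 * M + 80 / 27) * (1 / 4) ^ M := by
  induction M with
  | zero => norm_num
  | succ M ih =>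
    rw [Finset.sum_range_succ, ih, pow_succ]
    push_cast
    ring

/-- `ℓ²` bound for massive Green functions in dimension two -/
theorem green2 (k : ℝ) (u h : T 2 L → ℝ) (z : T 2 L) (hu : ∀ x, 1 / 2 ≤ u x)
    (hk : 1 / (8 * (L : ℝ) ^ 2) ≤ k) (hh : ∀ x, 0 ≤ h x)
    (he : ∀ x, LapW u h x + k * h x = if x = z then 1 else 0) :
    ∑ x, h x ^ 2 ≤ 800000 / k := by
  have hL : (0 : ℝ) < L := by
    have := NeZero.pos L
    exact_mod_cast this
  have hk0 : 0 < k := lt_of_lt_of_le (by positivity) hk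
  have hsum : ∑ x, h x = 1 / k := by
    have h3 : ∑ x, (LapW u h x + k * h x) = 1 := by
      rw [Finset.sum_congr rfl fun x _ => he x]
      simp
    rw [Finset.sum_add_distrib, AE.Lin.sum_lapW, zero_add, ← Finset.mul_sum] at h3
    rw [eq_div_iff hk0.ne', mul_comm]
    exact h3
  have hN1 : NN h 1 ≤ 1 / k := by
    rw [NN_sum, ← hsum]
    refine Finset.sum_le_sum fun x _ => ?_
    split_ifs with hx
    · exact hx.le
    · exact hh x
  have hNj : ∀ j : ℕ, NN h (1 + 512 * j) ≤ 1 / k * (1 / 4) ^ j := by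
    intro j
    induction j with
    | zero => simpa using hN1
    | succ j ih =>
      have h1 := level k u h z hu hk hh he (1 + 512 * j) 512 (by positivity) (by norm_num)
      have h2 : (1 + 512 * (j : ℝ)) + 512 = 1 + 512 * ((j + 1 : ℕ) : ℝ) := by
        push_cast
        ring
      rw [h2] at h1
      rw [pow_succ]
      linarith
  obtain ⟨M, hM⟩ : ∃ M : ℕ, ∀ x, h x ≤ 1 + 512 * M := by
    obtain ⟨x0, hx0⟩ := Finite.exists_max h
    refine ⟨⌈h x0⌉₊, fun x => (hx0 x).trans ?_⟩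
    have := Nat.le_ceil (h x0)
    linarith
  have hpt : ∀ x, h x ^ 2 ≤ h x + ∑ j ∈ Finset.range M,
      (513 + 512 * (j : ℝ)) ^ 2 * (if 1 + 512 * (j : ℝ) < h x then (1 : ℝ) else 0) := by
    intro x
    have hnn : 0 ≤ ∑ j ∈ Finset.range M,
      (513 + 512 * (j : ℝ)) ^ 2 * (if 1 + 512 * (j : ℝ) < h x then (1 : ℝ) else 0) :=
      Finset.sum_nonneg fun j _ => mul_nonneg (sq_nonneg _) (by split_ifs <;> norm_num)
    have h0 := hh x
    by_cases hx : h x ≤ 1
    · nlinarith
    · push Not at hx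
      set j : ℕ := ⌈(h x - 1) / 512⌉₊ - 1 with hj
      have hpos : 0 < (h x - 1) / 512 := by
        apply div_pos _ (by norm_num)
        linarith
      have hc1 : 1 ≤ ⌈(h x - 1) / 512⌉₊ := Nat.one_le_iff_ne_zero.2 (Nat.ceil_pos.2 hpos).ne'
      have hjc : ((⌈(h x - 1) / 512⌉₊ : ℕ) : ℝ) = j + 1 := by
        have : ⌈(h x - 1) / 512⌉₊ = j + 1 := by omega
        rw [this]
        push_cast
        ring
      have hlt := Nat.ceil_lt_add_one hpos.le
      have hle := Nat.le_ceil ((h x - 1) / 512)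
      rw [hjc] at hlt hle
      have h1 : 1 + 512 * (j : ℝ) < h x := by
        have : (j : ℝ) < (h x - 1) / 512 := by linarith
        rw [lt_div_iff₀ (by norm_num)] at this
        linarith
      have h2 : h x ≤ 513 + 512 * (j : ℝ) := by
        rw [div_le_iff₀ (by norm_num)] at hle
        linarith
      have hjM : j ∈ Finset.range M := by
        rw [Finset.mem_range]
        have h3 := hM x
        have h4 : (j : ℝ) < M := by linarith
        exact_mod_cast h4
      have h3 := Finset.single_le_sum (f := fun j : ℕ =>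
        (513 + 512 * (j : ℝ)) ^ 2 * (if 1 + 512 * (j : ℝ) < h x then (1 : ℝ) else 0))
        (fun j _ => mul_nonneg (sq_nonneg _) (by split_ifs <;> norm_num)) hjM
      simp only [if_pos h1, mul_one] at h3
      have h4 : h x ^ 2 ≤ (513 + 512 * (j : ℝ)) ^ 2 := pow_le_pow_left₀ h0 h2 2
      linarith
  calc ∑ x, h x ^ 2 ≤ ∑ x, (h x + ∑ j ∈ Finset.range M,
      (513 + 512 * (j : ℝ)) ^ 2 * (if 1 + 512 * (j : ℝ) < h x then (1 : ℝ) else 0)) :=
        Finset.sum_le_sum fun x _ => hpt x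
    _ = 1 / k + ∑ j ∈ Finset.range M, (513 + 512 * (j : ℝ)) ^ 2 * NN h (1 + 512 * j) := by
        rw [Finset.sum_add_distrib, hsum, Finset.sum_comm]
        congr 1
        refine Finset.sum_congr rfl fun j _ => ?_
        rw [NN_sum, Finset.mul_sum]
    _ ≤ 1 / k + ∑ j ∈ Finset.range M, (513 ^ 2 * (1 + (j : ℝ)) ^ 2) * (1 / k * (1 / 4) ^ j) := by
        refine add_le_add le_rfl (Finset.sum_le_sum fun j _ => ?_)
        have h1 : (0 : ℝ) ≤ j := Nat.cast_nonneg j
        refine mul_le_mul ?_ (hNj j) (NN_nonneg h _) (by positivity)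
        rw [← mul_pow]
        apply pow_le_pow_left₀ (by positivity)
        linarith
    _ = 1 / k + 513 ^ 2 * (1 / k) * ∑ j ∈ Finset.range M, (1 + (j : ℝ)) ^ 2 * (1 / 4) ^ j := by
        rw [Finset.mul_sum]
        congr 1
        refine Finset.sum_congr rfl fun j _ => ?_
        ring
    _ ≤ 1 / k + 513 ^ 2 * (1 / k) * (80 / 27) := by
        have h1 : 0 ≤ (4 / 3 * (M : ℝ) ^ 2 + 32 / 9 * M + 80 / 27) * (1 / 4) ^ M := by positivity
        have h2 := series M
        gcongr
        linarith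
    _ ≤ 800000 / k := by
        have : 800000 / k = 800000 * (1 / k) := by ring
        rw [this]
        have : 0 < 1 / k := by positivity
        nlinarith

end

end Pool.Agent.Y663.D2.Gr
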