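import Pool.Agent.Y663.D2.Lb
import Pool.Agent.Y663.D2.En2
import Pool.Agent.Y663.D2.Free
import Pool.Agent.Y663.D2.Gr

/-! Torus level statement: deterministic energy and local form bound (helper663). -/

set_option autoImplicit false

open scoped BigOperators ENNReal
open MeasureTheory

namespace Pool.Agent.Y663.D2.Pa

open Pool.Agent.H4R2
open Pool.Agent.H4R2.AE (T LapW Hop IsSol beta)
open Pool.Agent.H4R2.AE.Good (W clamp)
open Pool.Agent.H4R2.LO (Zd dd AL FB)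
open Pool.Agent.Y663.D2.Fb (Fn)

theorem exp4 (δ : ℝ) (hδ' : δ ≤ 1 / 8) : 1 / 2 ≤ Real.exp (-(4 * δ)) := by
  have h1 := Real.add_one_le_exp (-(4 * δ))
  linarith

/-- deterministic energy and local form bounds -/
theorem torus_all (μ : Measure ℝ) [IsProbabilityMeasure μ] (hμ : μ (Set.Icc (-1) 1)ᶜ = 0)
    (σ2 : ℝ) (hσ2 : 0 ≤ σ2)
    (hm1 : ∫ t, max (-1) (min 1 t) ∂μ = 0) (hm2 : ∫ t, (max (-1) (min 1 t)) ^ 2 ∂μ = σ2)
    (lam δ κ t : ℝ) (hlam : 0 < lam) (hδ : 0 < δ) (hδ' : δ ≤ 1 / 8) (hκ : 0 < κ) (hκ1 : κ ≤ 1)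
    (ht : 0 < t) (ht' : t ≤ 1 / 5) (htκ : 921600000 * lam ^ 2 ≤ t ^ 2 * κ) (L : ℕ) :
    ∃ E : ℝ, |E| ≤ lam ∧
      (1 - 3 * δ) * (-E - 2 * lam * (2 * Real.exp (-(δ ^ 2 * κ / (230400000 * lam ^ 2))))) ≤
        lam ^ 2 * σ2 * Real.exp (12 * δ) * (1 / (4 * Real.pi) * Real.log (1 / κ) + 6) ∧
      ∀ (Λ : Finset (Zd 2)) (Ω : Finset Λ) (x : Λ), (∀ z ∈ Ω, dd x.1 z.1 ≤ L) →
        (Measure.pi fun _ : Λ => μ) {V | ¬ FB (AL Λ) Ω lam V (E - 9 * κ * t - 4)} ≤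
          ENNReal.ofReal ((2 * L + 1) ^ 2 *
              (2 * Real.exp (-(δ ^ 2 * κ / (230400000 * lam ^ 2)))) +
            (2 * L * Real.sqrt κ + 1) ^ 2 * Real.exp (-(t ^ 2 * κ / (2304 * lam ^ 2)))) := by
  have hsκ : 0 < Real.sqrt κ := Real.sqrt_pos.2 hκ
  have hsκ1 : Real.sqrt κ ≤ 1 := Real.sqrt_le_one.2 hκ1
  set r : ℕ := ⌈1 / Real.sqrt κ⌉₊ with hr
  have hr1 : 1 / Real.sqrt κ ≤ r := Nat.le_ceil _
  have hr2 : (r : ℝ) < 1 / Real.sqrt κ + 1 := Nat.ceil_lt_add_one (by positivity)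
  have hone : 1 ≤ 1 / Real.sqrt κ := by
    rw [le_div_iff₀ hsκ, one_mul]
    exact hsκ1
  have hr0 : 1 ≤ r := by
    have : (1 : ℝ) ≤ r := hone.trans hr1
    exact_mod_cast this
  have hsq : Real.sqrt κ ^ 2 = κ := Real.sq_sqrt hκ.le
  have hrκ : 1 ≤ κ * (r : ℝ) ^ 2 := by
    have h1 : 1 ≤ Real.sqrt κ * r := by
      have := mul_le_mul_of_nonneg_left hr1 hsκ.le
      rwa [mul_one_div_cancel hsκ.ne'] at this
    rw [← hsq, ← mul_pow]
    exact one_le_pow₀ h1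
  have hκr : κ * (r : ℝ) ^ 2 ≤ 4 := by
    have h1 : Real.sqrt κ * r ≤ 2 := by
      have h2 : (r : ℝ) ≤ 2 * (1 / Real.sqrt κ) := by linarith
      have := mul_le_mul_of_nonneg_left h2 hsκ.le
      have h3 : Real.sqrt κ * (2 * (1 / Real.sqrt κ)) = 2 := by field_simp
      linarith
    have h0 : 0 ≤ Real.sqrt κ * r := by positivity
    rw [← hsq, ← mul_pow]
    nlinarith
  set m : ℕ := ⌈1 / κ ^ 2⌉₊ with hm
  have hm1' : 1 / κ ^ 2 ≤ m := Nat.le_ceil _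
  have hκ2 : 1 ≤ 1 / κ ^ 2 := by
    rw [le_div_iff₀ (by positivity), one_mul]
    exact pow_le_one₀ hκ.le hκ1
  have hm0 : 1 ≤ m := by
    have : (1 : ℝ) ≤ m := hκ2.trans hm1'
    exact_mod_cast this
  have hmκ : 1 ≤ (m : ℝ) * κ ^ 2 := by
    have := mul_le_mul_of_nonneg_right hm1' (by positivity : (0 : ℝ) ≤ κ ^ 2)
    rwa [one_div_mul_cancel (by positivity)] at this
  set n : ℕ := 2 * L + 2 + 2 * m with hn
  set L0 : ℕ := r * n with hL0
  have hL0n : n ≤ L0 := by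
    rw [hL0]
    exact Nat.le_mul_of_pos_left n (by omega)
  have hL0pos : 0 < L0 := by omega
  have : NeZero L0 := ⟨by omega⟩
  have hL0r : (0 : ℝ) < L0 := by exact_mod_cast hL0pos
  -- the Green function bound
  have hk : 1 / (8 * (L0 : ℝ) ^ 2) ≤ κ * Real.exp (-(4 * δ)) := by
    have h1 : (2 * m : ℝ) ≤ L0 := by
      have : 2 * m ≤ L0 := by omega
      exact_mod_cast this
    have h2 : (1 : ℝ) ≤ m := by exact_mod_cast hm0
    have h3 : 1 ≤ (L0 : ℝ) ^ 2 * κ := by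
      have h4 : (m : ℝ) ≤ (L0 : ℝ) ^ 2 := by nlinarith
      have h5 : (m : ℝ) * κ ^ 2 ≤ (L0 : ℝ) ^ 2 * κ := by
        apply mul_le_mul h4 _ (by positivity) (by positivity)
        nlinarith
      linarith
    have h4 := exp4 δ hδ'
    rw [div_le_iff₀ (by positivity)]
    have h5 : 1 ≤ 8 * ((L0 : ℝ) ^ 2 * κ) * Real.exp (-(4 * δ)) := by nlinarith
    linarith
  have hκe : 0 < κ * Real.exp (-(4 * δ)) := by positivity
  have hG : ∀ (u Gr : T 2 L0 → ℝ) (x0 : T 2 L0), (∀ x, 1 / 2 ≤ u x) → (∀ x, 0 ≤ Gr x) →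
      (∀ x, LapW u Gr x + κ * Real.exp (-(4 * δ)) * Gr x = if x = x0 then 1 else 0) →
      ∑ z, Gr z ^ 2 ≤ 1600000 / κ := by
    intro u G x0 hu hGr0 hGr
    refine (Pool.Agent.Y663.D2.Gr.green2 (κ * Real.exp (-(4 * δ))) u G x0 hu hk hGr0 hGr).trans ?_
    rw [div_le_div_iff₀ hκe hκ]
    have h4 := exp4 δ hδ'
    nlinarith
  have hR0 : 0 < 1600000 / κ := by positivity
  obtain ⟨E, hE, hE0⟩ := AE.Good.good_E (d := 2) (L := L0) lam δ κ hlam hδ hκ μ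
  have hp1 : ∀ x : T 2 L0, (Measure.pi fun _ : T 2 L0 => μ).real {V | δ ≤ |W lam δ κ E V x|} ≤
      2 * Real.exp (-(δ ^ 2 * κ / (230400000 * lam ^ 2))) := by
    intro x
    have h1 := AE.Goodt.goodt_tail κ hκ 2 (1600000 / κ) (by norm_num) hR0.le μ lam δ hlam hδ hδ'
      (Fb.hG2 κ δ _ hG) (δ * κ / (115200000 * lam ^ 2)) (by positivity) E hE hE0 x
    refine h1.trans ?_
    rw [Real.rpow_two]
    refine mul_le_mul_of_nonneg_left (Real.exp_le_exp.2 (le_of_eq ?_)) (by norm_num)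
    field_simp
    ring
  have hp2 : ∀ B : Finset (T 2 L0), B.card ≤ r ^ 2 →
      (Measure.pi fun _ : T 2 L0 => μ).real {V | t * r ≤ Fn lam δ κ E B V} ≤
      Real.exp (-(t ^ 2 * κ / (2304 * lam ^ 2))) := by
    intro B hB
    have hrr : (0 : ℝ) < r := by exact_mod_cast (by omega : 0 < r)
    have hBr : (B.card : ℝ) ≤ (r : ℝ) ^ 2 := by exact_mod_cast hB
    have h1 := Fb.Fn_tail κ hκ (1600000 / κ) hR0 μ lam δ hlam hδ hδ' hG E hE hE0 B (t * r)
      (by positivity) (by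
        refine le_of_sq_le_sq ?_ (by positivity)
        rw [mul_pow, Real.sq_sqrt (by positivity)]
        have h2 : (24 * lam) ^ 2 * (B.card * (1600000 / κ)) ≤
            (24 * lam) ^ 2 * ((r : ℝ) ^ 2 * (1600000 / κ)) := by
          gcongr
        refine h2.trans ?_
        have h3 : (24 * lam) ^ 2 * ((r : ℝ) ^ 2 * (1600000 / κ)) =
            921600000 * lam ^ 2 / κ * (r : ℝ) ^ 2 := by ring
        rw [h3, mul_pow]
        refine mul_le_mul_of_nonneg_right ?_ (by positivity)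
        rw [div_le_iff₀ hκ]
        exact htκ)
    refine h1.trans (Real.exp_le_exp.2 (neg_le_neg ?_))
    have h2 : (t * r) ^ 2 * κ ^ 2 / (2304 * lam ^ 2) =
        t ^ 2 * κ / (2304 * lam ^ 2) * (κ * (r : ℝ) ^ 2) := by ring
    rw [h2]
    exact le_mul_of_one_le_right (by positivity) hrκ
  refine ⟨E, hE, ?_, ?_⟩
  · obtain ⟨g, hg⟩ := AE.Lin.solve (fun _ : T 2 L0 => (1 : ℝ)) (fun _ : T 2 L0 => κ)
      (fun y => if y = 0 then (1 : ℝ) else 0) (fun y => one_pos) (fun _ => hκ)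
    have hg0 : ∀ y, 0 ≤ g y :=
      AE.Lin.nonneg (fun _ : T 2 L0 => (1 : ℝ)) (fun _ => κ) g
        (fun y => one_pos) (fun _ => hκ) (by
        intro y; rw [hg y]; split_ifs <;> norm_num)
    have hfree := Free.free κ hκ hκ1 m (by omega) hm0 (by linarith) g hg0 hg
    have hen := En.energy μ σ2 hm1 hm2 lam δ κ E hlam hδ hδ' hκ hE hE0 g hg
    have h3δ : 0 ≤ 1 - 3 * δ := by linarith
    have h1 : (1 - 3 * δ) * (-E - 2 * lam *
        (2 * Real.exp (-(δ ^ 2 * κ / (230400000 * lam ^ 2))))) ≤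
        (1 - 3 * δ) * (-E - 2 * lam *
        (Measure.pi fun _ : T 2 L0 => μ).real {V | δ ≤ |W lam δ κ E V 0|}) := by
      refine mul_le_mul_of_nonneg_left ?_ h3δ
      have := mul_le_mul_of_nonneg_left (hp1 0) (by positivity : (0 : ℝ) ≤ 2 * lam)
      linarith
    refine h1.trans (hen.trans ?_)
    exact mul_le_mul_of_nonneg_left hfree (by positivity)
  · intro Λ Ω x hΩ
    have h1 := Lb.locb r n L0 hr0 hL0 μ hμ lam δ κ E t hlam hδ hδ' hκ hκr ht.le ht' hE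
      (2 * Real.exp (-(δ ^ 2 * κ / (230400000 * lam ^ 2))))
      (Real.exp (-(t ^ 2 * κ / (2304 * lam ^ 2)))) (by positivity) (by positivity) hp1 hp2 Λ Ω x L
      (by omega) hΩ
    have h2 : E - 9 * κ * t - 2 * ((2 : ℕ) : ℝ) = E - 9 * κ * t - 4 := by
      push_cast
      ring
    rw [h2] at h1
    refine h1.trans (ENNReal.ofReal_le_ofReal ?_)
    have h3 : ((2 * L / r : ℕ) : ℝ) ≤ 2 * L * Real.sqrt κ := by
      refine Nat.cast_div_le.trans ?_
      push_cast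
      have hrr : (0 : ℝ) < r := by exact_mod_cast (by omega : 0 < r)
      rw [div_le_iff₀ hrr]
      have h4 : 1 ≤ Real.sqrt κ * r := by
        have := mul_le_mul_of_nonneg_left hr1 hsκ.le
        rwa [mul_one_div_cancel hsκ.ne'] at this
      have h5 : (0 : ℝ) ≤ 2 * L := by positivity
      nlinarith
    gcongr

end Pool.Agent.Y663.D2.Pa
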