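import Pool.Agent.Y663.D2.Ar2
import Pool.Agent.Y663.D2.Pa
import Pool.Agent.Y663.D2.De
import Pool.Agent.Y663.Tr
import Pool.Agent.H4R2.HU.UL

/-! The two-dimensional edge theorem (helper663). -/

set_option autoImplicit false

open scoped BigOperators ENNReal
open MeasureTheory

namespace Pool.Agent.Y663.D2.Fin2

open Pool.Agent.Y663.Tr
open Pool.Agent.Y663.D2.Ar

theorem unif_m1 : ∫ t, max (-1) (min 1 t) ∂(unif 1) = 0 :=
  (Pool.Agent.H4R2.HU.UL.UL 1 one_pos).2.1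

theorem unif_m2 : ∫ t, (max (-1) (min 1 t)) ^ 2 ∂(unif 1) = 1 / 3 := by
  have h := (Pool.Agent.H4R2.HU.UL.UL 1 one_pos).2.2.1
  have e : (1 : ℝ) ^ 2 / 3 = 1 / 3 := by norm_num
  rw [← e]
  exact h

/-- localization for the normalised potential -/
theorem norm_loc (lam l η y : ℝ) (h : Std lam l η y) (m : ℝ)
    (hm : m ≤ 1 / 10 ^ 33 * η ^ 5 * lam / Real.sqrt l) :
    ∀ᵐ ω ∂(Measure.infinitePi fun _ : Fin 2 → ℤ => unif 1),
      Pool.Agent.H4R2.LO.Main.Dec 2 (-1) (fun x => lam * ω x)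
        (Set.Iic (-((1 + η) * (lam ^ 2 / (6 * Real.pi)) * l) - 2 * (2 : ℕ))) m := by
  have hP1 : IsProbabilityMeasure (unif 1) := unif_prob 1 one_pos
  have h0 := h.lam0
  have hη := h.hη
  have hη1 := h.hη1
  obtain ⟨E, _, hE2, hE3⟩ := Pa.torus_all (unif 1) unif_supp (1 / 3) (by norm_num) unif_m1 unif_m2
    lam (η / 100) (kk lam l η) (η ^ 3 / 10 ^ 17) h0 (by positivity) (by linarith) h.kk0 h.kk_le
    (by positivity) (by
      have : η ^ 3 ≤ 1 := pow_le_one₀ hη.le hη1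
      have e : η ^ 3 / 10 ^ 17 ≤ 1 / 10 ^ 17 := div_le_div_of_nonneg_right this (by norm_num)
      refine e.trans ?_
      norm_num) h.tk (MM η * WW lam l η + 1)
  have hen := h.energy E hE2
  refine De.below2 2 (by norm_num) (1 + 4 * 1 ^ 2) (unif 1) unif_reg lam h0
    (E - 9 * kk lam l η * (η ^ 3 / 10 ^ 17)) (kp lam l η) (Real.exp (-(y / 10 ^ 24))) h.kp0
    h.kp_le (Real.exp_pos _).le (WW lam l η) (MM η) h.W1 ?_ _ rfl (h.small _ rfl) _ m hen
    (hm.trans h.rate)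
  intro Λ Ω x hΩ
  have h1 := hE3 Λ Ω x hΩ
  have e4 : E - 9 * kk lam l η * (η ^ 3 / 10 ^ 17) - 2 * ((2 : ℕ) : ℝ) =
      E - 9 * kk lam l η * (η ^ 3 / 10 ^ 17) - 4 := by
    push_cast
    ring
  rw [e4]
  exact h1.trans (ENNReal.ofReal_le_ofReal h.prob)

/-- **Theorem.** -/
theorem main : ∃ k : ℝ, 0 < k ∧ ∀ c : ℝ, 0 < c → c ≤ k → ∀ η : ℝ, 0 < η → η ≤ 1 →
    1 ≤ η ^ 5 * Real.log (1 / c) →
    ∀ᵐ ω ∂(Measure.infinitePi fun _ : Fin 2 → ℤ => unif c),
      Localized (H ω) {E | E ≤ -((1 + η) * (c ^ 2 / (6 * Real.pi)) * Real.log (1 / c)) ∨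
        8 + (1 + η) * (c ^ 2 / (6 * Real.pi)) * Real.log (1 / c) ≤ E}
        (k * η ^ 5 * c / Real.sqrt (Real.log (1 / c))) := by
  obtain ⟨Y1, _, hY1⟩ := big 22 (2 * 10 ^ 75) (3 / 10 ^ 24) (by norm_num)
  obtain ⟨Y2, _, hY2⟩ := big 8 (10 ^ 31) 1 one_pos
  set Y : ℝ := max (10 ^ 29) (max Y1 Y2) with hY
  have hYpos : 0 < Y := lt_of_lt_of_le (by norm_num) (le_max_left _ _)
  refine ⟨min (1 / 10 ^ 33) (Real.exp (-(Y ^ 5))), by positivity, ?_⟩
  intro c hc hck η hη hη1 h5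
  set k := min (1 / 10 ^ 33) (Real.exp (-(Y ^ 5))) with hk
  have hk0 : 0 < k := by positivity
  set l := Real.log (1 / c) with hl
  have hl1 : Y ^ 5 ≤ l := by
    have h1 : c ≤ Real.exp (-(Y ^ 5)) := hck.trans (min_le_right _ _)
    have h2 := Real.log_le_log hc h1
    rw [Real.log_exp] at h2
    rw [hl, one_div, Real.log_inv]
    linarith
  have hl0 : 0 < l := lt_of_lt_of_le (by positivity) hl1
  set y := η ^ 4 * l with hy
  have hy0 : 0 < y := by positivity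
  have hyl : l ≤ y ^ 5 := by
    have h1 : y ^ 5 = (η ^ 5 * l) ^ 4 * l := by
      rw [hy]; ring
    rw [h1]
    have h2 : 1 ≤ (η ^ 5 * l) ^ 4 := one_le_pow₀ h5
    nlinarith
  have hYy : Y ≤ y := by
    by_contra hcon
    push Not at hcon
    have := pow_lt_pow_left₀ hcon hy0.le (by norm_num : (5 : ℕ) ≠ 0)
    linarith
  have hstd : Std c l η y := by
    refine ⟨hη, hη1, hl0, ?_, hy, h5, ?_, ?_, ?_⟩
    · rw [hl, one_div, Real.log_inv, neg_neg, Real.exp_log hc]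
    · exact (le_max_left _ _).trans hYy
    · exact hY1 y ((le_max_left _ _).trans ((le_max_right _ _).trans hYy))
    · exact hY2 y ((le_max_right _ _).trans ((le_max_right _ _).trans hYy))
  have hsl : 0 < Real.sqrt l := Real.sqrt_pos.2 hl0
  have hloc := norm_loc c l η y hstd (k * η ^ 5 * c / Real.sqrt l) (by
    have : k ≤ 1 / 10 ^ 33 := min_le_left _ _
    gcongr)
  have htr := transport 2 c hc (-((1 + η) * (c ^ 2 / (6 * Real.pi)) * l))
    (k * η ^ 5 * c / Real.sqrt l) (by positivity) hloc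
  filter_upwards [htr] with ω hω
  have hset : {E : ℝ | E ≤ -((1 + η) * (c ^ 2 / (6 * Real.pi)) * l) ∨
      4 * ((2 : ℕ) : ℝ) - -((1 + η) * (c ^ 2 / (6 * Real.pi)) * l) ≤ E} =
      {E : ℝ | E ≤ -((1 + η) * (c ^ 2 / (6 * Real.pi)) * l) ∨
        8 + (1 + η) * (c ^ 2 / (6 * Real.pi)) * l ≤ E} := by
    ext E
    have e : 4 * ((2 : ℕ) : ℝ) - -((1 + η) * (c ^ 2 / (6 * Real.pi)) * l) =
        8 + (1 + η) * (c ^ 2 / (6 * Real.pi)) * l := by
      push_cast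
      ring
    simp only [Set.mem_ofPred_eq, e]
  rw [hset] at hω
  exact hω

end Pool.Agent.Y663.D2.Fin2
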