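import Pool.Agent.Y663.D2.Ps
import Pool.Agent.H4R2.LO.El

/-! Form bound on the two-dimensional torus from block control of the solution (helper663). -/

set_option autoImplicit false

open scoped BigOperators

namespace Pool.Agent.Y663.D2.Fo

open Pool.Agent.H4R2
open Pool.Agent.H4R2.AE (T LapW Hop)
open Pool.Agent.Y663.D2.Ps

/-- the point `(i, j)` of the block `(a, b)` of side `r` -/
def q (r L a b i j : ℕ) : T 2 L := ![((r * a + i : ℕ) : ZMod L), ((r * b + j : ℕ) : ZMod L)]

theorem sum_zmod {L : ℕ} [NeZero L] (G : ZMod L → ℝ) :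
    ∑ u, G u = ∑ k ∈ Finset.range L, G (k : ZMod L) := by
  refine Finset.sum_nbij' (fun u => u.val) (fun k => (k : ZMod L)) ?_ ?_ ?_ ?_ ?_
  · intro u _
    exact Finset.mem_range.2 (ZMod.val_lt u)
  · intro k _
    exact Finset.mem_univ _
  · intro u _
    exact ZMod.natCast_rightInverse u
  · intro k hk
    exact ZMod.val_cast_of_lt (Finset.mem_range.1 hk)
  · intro u _
    rw [ZMod.natCast_rightInverse u]

theorem sum_mul (r n : ℕ) (G : ℕ → ℝ) :
    ∑ k ∈ Finset.range (r * n), G k = ∑ a ∈ Finset.range n, ∑ i ∈ Finset.range r, G (r * a + i) := by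
  induction n with
  | zero => simp
  | succ n ih =>
    rw [Finset.sum_range_succ, ← ih, Nat.mul_succ, Finset.sum_range_add]

theorem sum_torus {L : ℕ} [NeZero L] (F : T 2 L → ℝ) :
    ∑ x, F x = ∑ k ∈ Finset.range L, ∑ l ∈ Finset.range L, F ![(k : ZMod L), (l : ZMod L)] := by
  have h1 : ∑ x, F x = ∑ p : ZMod L × ZMod L, F ![p.1, p.2] := by
    refine Fintype.sum_equiv (finTwoArrowEquiv (ZMod L)) _ _ fun x => ?_
    congr 1
    funext i
    fin_cases i <;> rfl
  rw [h1, Fintype.sum_prod_type, sum_zmod]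
  refine Finset.sum_congr rfl fun k _ => ?_
  exact sum_zmod (fun v => F ![(k : ZMod L), v])

theorem sum_blocks {L : ℕ} [NeZero L] (r n : ℕ) (hL : L = r * n) (F : T 2 L → ℝ) :
    ∑ x, F x = ∑ a ∈ Finset.range n, ∑ b ∈ Finset.range n, ∑ i ∈ Finset.range r,
      ∑ j ∈ Finset.range r, F (q r L a b i j) := by
  rw [sum_torus]
  have h1 : ∑ k ∈ Finset.range L, ∑ l ∈ Finset.range L, F ![(k : ZMod L), (l : ZMod L)] =
      ∑ a ∈ Finset.range n, ∑ i ∈ Finset.range r, ∑ l ∈ Finset.range L,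
        F ![((r * a + i : ℕ) : ZMod L), (l : ZMod L)] := by
    have := sum_mul r n (fun k => ∑ l ∈ Finset.range L, F ![(k : ZMod L), (l : ZMod L)])
    rw [← hL] at this
    exact this
  rw [h1]
  refine Finset.sum_congr rfl fun a _ => ?_
  rw [Finset.sum_comm (s := Finset.range n)]
  refine Finset.sum_congr rfl fun i _ => ?_
  have := sum_mul r n (fun l => F ![((r * a + i : ℕ) : ZMod L), (l : ZMod L)])
  rw [← hL] at this
  exact this

theorem q_add0 (r L a b i j : ℕ) :
    q r L a b i j + Pi.single (0 : Fin 2) 1 = q r L a b (i + 1) j := by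
  funext k
  fin_cases k
  · simp only [q, Pi.add_apply]
    show ((r * a + i : ℕ) : ZMod L) + (Pi.single (0 : Fin 2) (1 : ZMod L) : T 2 L) 0 =
      ((r * a + (i + 1) : ℕ) : ZMod L)
    rw [Pi.single_eq_same]
    push_cast
    ring
  · simp only [q, Pi.add_apply]
    show ((r * b + j : ℕ) : ZMod L) + (Pi.single (0 : Fin 2) (1 : ZMod L) : T 2 L) 1 =
      ((r * b + j : ℕ) : ZMod L)
    rw [Pi.single_eq_of_ne (by decide), add_zero]

theorem q_add1 (r L a b i j : ℕ) :
    q r L a b i j + Pi.single (1 : Fin 2) 1 = q r L a b i (j + 1) := by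
  funext k
  fin_cases k
  · simp only [q, Pi.add_apply]
    show ((r * a + i : ℕ) : ZMod L) + (Pi.single (1 : Fin 2) (1 : ZMod L) : T 2 L) 0 =
      ((r * a + i : ℕ) : ZMod L)
    rw [Pi.single_eq_of_ne (by decide), add_zero]
  · simp only [q, Pi.add_apply]
    show ((r * b + j : ℕ) : ZMod L) + (Pi.single (1 : Fin 2) (1 : ZMod L) : T 2 L) 1 =
      ((r * b + (j + 1) : ℕ) : ZMod L)
    rw [Pi.single_eq_same]
    push_cast
    ring

theorem kin {L : ℕ} [NeZero L] (r n : ℕ) (hL : L = r * n) (g : T 2 L → ℝ) :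
    ∑ a ∈ Finset.range n, ∑ b ∈ Finset.range n, En r (fun i j => g (q r L a b i j)) ≤
      ∑ x, ∑ i : Fin 2, (g x - g (x + Pi.single i 1)) ^ 2 := by
  rw [sum_blocks r n hL]
  refine Finset.sum_le_sum fun a _ => Finset.sum_le_sum fun b _ => ?_
  unfold En
  simp only [Fin.sum_univ_two, q_add0, q_add1, Finset.sum_add_distrib]
  refine add_le_add ?_ ?_
  · rw [Finset.sum_comm (s := Finset.range r) (t := Finset.range r)]
    refine Finset.sum_le_sum fun j _ => ?_
    have h1 : ∑ i ∈ Finset.range (r - 1), (g (q r L a b (i + 1) j) - g (q r L a b i j)) ^ 2 =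
        ∑ i ∈ Finset.range (r - 1), (g (q r L a b i j) - g (q r L a b (i + 1) j)) ^ 2 :=
      Finset.sum_congr rfl fun i _ => by ring
    rw [h1]
    exact Finset.sum_le_sum_of_subset_of_nonneg (Finset.range_mono (Nat.sub_le r 1))
      fun _ _ _ => sq_nonneg _
  · refine Finset.sum_le_sum fun i _ => ?_
    have h1 : ∑ j ∈ Finset.range (r - 1), (g (q r L a b i (j + 1)) - g (q r L a b i j)) ^ 2 =
        ∑ j ∈ Finset.range (r - 1), (g (q r L a b i j) - g (q r L a b i (j + 1))) ^ 2 :=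
      Finset.sum_congr rfl fun j _ => by ring
    rw [h1]
    exact Finset.sum_le_sum_of_subset_of_nonneg (Finset.range_mono (Nat.sub_le r 1))
      fun _ _ _ => sq_nonneg _

/-- the form bound -/
theorem form {L : ℕ} [NeZero L] (r n : ℕ) (hr : 1 ≤ r) (hL : L = r * n) (lam δ κ E t : ℝ)
    (hlam : 0 < lam) (hδ : 0 < δ) (hδ' : δ ≤ 1 / 8) (hκ : 0 < κ) (hκr : κ * (r : ℝ) ^ 2 ≤ 4)
    (ht : 0 ≤ t) (ht' : t ≤ 1 / 5) (V w : T 2 L → ℝ) (S : T 2 L → Prop)
    (hw : ∀ x, S x → ∑ i : Fin 2, ((1 - Real.exp (w (x + Pi.single i 1) - w x)) +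
      (1 - Real.exp (w (x - Pi.single i 1) - w x))) + lam * V x - E + κ * w x = 0)
    (hb : ∀ x, |w x| ≤ 2 * δ) (hbS : ∀ x, S x → |w x| ≤ δ)
    (hF : ∀ a b, a < n → b < n → (∃ i j, i < r ∧ j < r ∧ S (q r L a b i j)) →
      ∑ i ∈ Finset.range r, ∑ j ∈ Finset.range r, (max (w (q r L a b i j)) 0) ^ 2 ≤ (t * r) ^ 2)
    (f : T 2 L → ℝ) (hf : ∀ x, ¬ S x → f x = 0) :
    (E - 9 * κ * t) * ∑ x, f x ^ 2 ≤ ∑ x, f x * Hop lam V f x := by
  classical
  set ψ : T 2 L → ℝ := fun x => Real.exp (w x) with hψ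
  set g : T 2 L → ℝ := fun x => f x / ψ x with hg
  have hψ0 : ∀ x, 0 < ψ x := fun x => Real.exp_pos _
  have hfg : ∀ x, ψ x * g x = f x := fun x => by
    have := (hψ0 x).ne'
    simp only [hg]
    field_simp
  set V' : T 2 L → ℝ := fun x => (E - ∑ i : Fin 2, ((1 - Real.exp (w (x + Pi.single i 1) - w x)) +
      (1 - Real.exp (w (x - Pi.single i 1) - w x)))) / lam with hV'
  have hHop : ∀ x, Hop lam V' ψ x = E * ψ x := by
    intro x
    unfold AE.Hop
    have h1 : lam * V' x = E - ∑ i : Fin 2, ((1 - Real.exp (w (x + Pi.single i 1) - w x)) +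
      (1 - Real.exp (w (x - Pi.single i 1) - w x))) := by
      simp only [hV']
      field_simp
    have h2 : ∀ y, ψ y = ψ x * Real.exp (w y - w x) := fun y => by
      simp only [hψ]
      rw [← Real.exp_add]
      congr 1
      ring
    rw [h1, sub_mul, Finset.sum_mul]
    have h3 : ∀ i : Fin 2, 2 * ψ x - ψ (x + Pi.single i 1) - ψ (x - Pi.single i 1) =
        ((1 - Real.exp (w (x + Pi.single i 1) - w x)) +
      (1 - Real.exp (w (x - Pi.single i 1) - w x))) * ψ x := by
      intro i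
      rw [h2 (x + Pi.single i 1), h2 (x - Pi.single i 1)]
      ring
    rw [Finset.sum_congr rfl fun i _ => h3 i]
    ring
  have hvf := LO.El.vf lam E V' ψ g hHop
  simp only [hfg] at hvf
  -- change of the potential
  have hVV : ∑ x, f x * Hop lam V f x = ∑ x, f x * Hop lam V' f x - κ * ∑ x, w x * f x ^ 2 := by
    rw [Finset.mul_sum, ← Finset.sum_sub_distrib]
    refine Finset.sum_congr rfl fun x _ => ?_
    unfold AE.Hop
    by_cases hx : S x
    · have h1 := hw x hx
      have h2 : lam * V' x = E - ∑ i : Fin 2, ((1 - Real.exp (w (x + Pi.single i 1) - w x)) +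
        (1 - Real.exp (w (x - Pi.single i 1) - w x))) := by
        simp only [hV']
        field_simp
      have h3 : lam * V x = lam * V' x - κ * w x := by linarith
      rw [h3]
      ring
    · rw [hf x hx]
      ring
  -- kinetic term
  have hkin : Real.exp (-(4 * δ)) * ∑ x, ∑ i : Fin 2, (g x - g (x + Pi.single i 1)) ^ 2 ≤
      ∑ x, ∑ i : Fin 2, ψ x * ψ (x + Pi.single i 1) * (g x - g (x + Pi.single i 1)) ^ 2 := by
    rw [Finset.mul_sum]
    refine Finset.sum_le_sum fun x _ => ?_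
    rw [Finset.mul_sum]
    refine Finset.sum_le_sum fun i _ => ?_
    refine mul_le_mul_of_nonneg_right ?_ (sq_nonneg _)
    simp only [hψ]
    rw [← Real.exp_add]
    apply Real.exp_le_exp.2
    have h1 := (abs_le.1 (hb x)).1
    have h2 := (abs_le.1 (hb (x + Pi.single i 1))).1
    linarith
  have hk2 := kin r n hL g
  -- potential term
  have hpot : ∑ x, w x * f x ^ 2 ≤ Real.exp (2 * δ) *
      ∑ x, (if S x then max (w x) 0 else 0) * g x ^ 2 := by
    rw [Finset.mul_sum]
    refine Finset.sum_le_sum fun x _ => ?_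
    by_cases hx : S x
    · rw [if_pos hx, ← hfg x, mul_pow]
      have h1 : ψ x ^ 2 ≤ Real.exp (2 * δ) := by
        simp only [hψ]
        rw [← Real.exp_nat_mul]
        apply Real.exp_le_exp.2
        push_cast
        have := (abs_le.1 (hbS x hx)).2
        linarith
      have h2 : w x ≤ max (w x) 0 := le_max_left _ _
      have h3 : 0 ≤ max (w x) 0 := le_max_right _ _
      calc w x * (ψ x ^ 2 * g x ^ 2) ≤ max (w x) 0 * (ψ x ^ 2 * g x ^ 2) :=
            mul_le_mul_of_nonneg_right h2 (by positivity)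
        _ ≤ max (w x) 0 * (Real.exp (2 * δ) * g x ^ 2) := by
            gcongr
        _ = _ := by ring
    · rw [if_neg hx, hf x hx]
      simp
  have hblk : ∑ x, (if S x then max (w x) 0 else 0) * g x ^ 2 ≤
      t * ((r : ℝ) ^ 2 / 2 * ∑ x, ∑ i : Fin 2, (g x - g (x + Pi.single i 1)) ^ 2 +
        5 * ∑ x, g x ^ 2) := by
    have h1 : ∑ x, (if S x then max (w x) 0 else 0) * g x ^ 2 ≤
        ∑ a ∈ Finset.range n, ∑ b ∈ Finset.range n,
          t * ((r : ℝ) ^ 2 / 2 * En r (fun i j => g (q r L a b i j)) +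
          5 * ∑ i ∈ Finset.range r, ∑ j ∈ Finset.range r, g (q r L a b i j) ^ 2) := by
      rw [sum_blocks r n hL]
      refine Finset.sum_le_sum fun a ha => Finset.sum_le_sum fun b hb' => ?_
      rw [Finset.mem_range] at ha hb'
      by_cases hS : ∃ i j, i < r ∧ j < r ∧ S (q r L a b i j)
      · have h2 := block r hr (fun i j => if S (q r L a b i j) then max (w (q r L a b i j)) 0 else 0)
          (fun i j => g (q r L a b i j)) t ht (by
            refine le_trans ?_ (hF a b ha hb' hS)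
            refine Finset.sum_le_sum fun i _ => Finset.sum_le_sum fun j _ => ?_
            split_ifs
            · exact le_rfl
            · rw [zero_pow two_ne_zero]
              exact sq_nonneg _)
        exact h2
      · have h3 : ∑ i ∈ Finset.range r, ∑ j ∈ Finset.range r,
            (if S (q r L a b i j) then max (w (q r L a b i j)) 0 else 0) *
              g (q r L a b i j) ^ 2 = 0 := by
          refine Finset.sum_eq_zero fun i hi => Finset.sum_eq_zero fun j hj => ?_
          rw [Finset.mem_range] at hi hj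
          rw [if_neg (fun h => hS ⟨i, j, hi, hj, h⟩), zero_mul]
        rw [h3]
        have h4 := En_nonneg r (fun i j => g (q r L a b i j))
        have h5 : 0 ≤ ∑ i ∈ Finset.range r, ∑ j ∈ Finset.range r, g (q r L a b i j) ^ 2 :=
          Finset.sum_nonneg fun _ _ => Finset.sum_nonneg fun _ _ => sq_nonneg _
        positivity
    refine h1.trans ?_
    simp only [← Finset.mul_sum, Finset.sum_add_distrib]
    refine mul_le_mul_of_nonneg_left (add_le_add ?_ ?_) ht
    · exact mul_le_mul_of_nonneg_left hk2 (by positivity)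
    · rw [sum_blocks r n hL (fun x => g x ^ 2)]
  have hgf : ∑ x, g x ^ 2 ≤ Real.exp (2 * δ) * ∑ x, f x ^ 2 := by
    rw [Finset.mul_sum]
    refine Finset.sum_le_sum fun x _ => ?_
    by_cases hx : S x
    · rw [← hfg x, mul_pow, ← mul_assoc]
      have h1 : 1 ≤ Real.exp (2 * δ) * ψ x ^ 2 := by
        simp only [hψ]
        rw [← Real.exp_nat_mul, ← Real.exp_add]
        apply Real.one_le_exp
        push_cast
        have := (abs_le.1 (hbS x hx)).1
        linarith
      nlinarith [sq_nonneg (g x)]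
    · simp only [hg, hf x hx, zero_div]
      simp
  -- numerics
  set D := ∑ x, ∑ i : Fin 2, (g x - g (x + Pi.single i 1)) ^ 2 with hD
  have hD0 : 0 ≤ D := Finset.sum_nonneg fun _ _ => Finset.sum_nonneg fun _ _ => sq_nonneg _
  set F2 := ∑ x, f x ^ 2 with hF2
  have hF20 : 0 ≤ F2 := Finset.sum_nonneg fun _ _ => sq_nonneg _
  have e2 : Real.exp (2 * δ) ≤ 1.2841 := by
    have h1 : Real.exp (2 * δ) ≤ Real.exp (1 / 4) := Real.exp_le_exp.2 (by linarith)
    have h2 : Real.exp (1 / 4) ^ 4 = Real.exp 1 := by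
      rw [← Real.exp_nat_mul]
      norm_num
    have h3 := Real.exp_one_lt_d9
    by_contra hcon
    push Not at hcon
    have h4 : (1.2841 : ℝ) < Real.exp (1 / 4) := lt_of_lt_of_le hcon h1
    have h5 : (1.2841 : ℝ) ^ 4 < Real.exp (1 / 4) ^ 4 := pow_lt_pow_left₀ h4 (by norm_num) (by norm_num)
    rw [h2] at h5
    norm_num at h5
    linarith
  have e4 : 0.6 ≤ Real.exp (-(4 * δ)) := by
    have h1 : Real.exp (-(1 / 2)) ≤ Real.exp (-(4 * δ)) := Real.exp_le_exp.2 (by linarith)
    have h2 : Real.exp (-(1 / 2)) ^ 2 * Real.exp 1 = 1 := by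
      rw [← Real.exp_nat_mul, ← Real.exp_add]
      norm_num
    have h3 := Real.exp_one_lt_d9
    have h0 := Real.exp_pos (-(1 / 2 : ℝ))
    by_contra hcon
    push Not at hcon
    have h4 : Real.exp (-(1 / 2)) < 0.6 := lt_of_le_of_lt h1 hcon
    have h5 : Real.exp (-(1 / 2)) ^ 2 < 0.6 ^ 2 := pow_lt_pow_left₀ h4 h0.le (by norm_num)
    have h6 := Real.exp_pos (1 : ℝ)
    nlinarith
  have h1 : κ * ∑ x, w x * f x ^ 2 ≤ κ * (Real.exp (2 * δ) *
      (t * ((r : ℝ) ^ 2 / 2 * D + 5 * (Real.exp (2 * δ) * F2)))) := by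
    refine mul_le_mul_of_nonneg_left (hpot.trans (mul_le_mul_of_nonneg_left (hblk.trans ?_)
      (Real.exp_pos _).le)) hκ.le
    refine mul_le_mul_of_nonneg_left (add_le_add le_rfl ?_) ht
    exact mul_le_mul_of_nonneg_left hgf (by norm_num)
  have h2 : κ * (Real.exp (2 * δ) * (t * ((r : ℝ) ^ 2 / 2 * D + 5 * (Real.exp (2 * δ) * F2)))) ≤
      0.6 * D + 9 * κ * t * F2 := by
    have a1 : κ * (Real.exp (2 * δ) * (t * ((r : ℝ) ^ 2 / 2 * D + 5 * (Real.exp (2 * δ) * F2)))) =
      (κ * (r : ℝ) ^ 2) * (Real.exp (2 * δ) * t / 2) * D +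
        (Real.exp (2 * δ)) ^ 2 * (5 * κ * t) * F2 := by ring
    rw [a1]
    refine add_le_add ?_ ?_
    · refine mul_le_mul_of_nonneg_right ?_ hD0
      have b1 : Real.exp (2 * δ) * t / 2 ≤ 0.12841 := by
        have := Real.exp_pos (2 * δ)
        nlinarith
      have b2 : 0 ≤ Real.exp (2 * δ) * t / 2 := by positivity
      have b3 : 0 ≤ κ * (r : ℝ) ^ 2 := by positivity
      calc κ * (r : ℝ) ^ 2 * (Real.exp (2 * δ) * t / 2) ≤ 4 * 0.12841 :=
            mul_le_mul hκr b1 b2 (by norm_num)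
        _ ≤ 0.6 := by norm_num
    · refine mul_le_mul_of_nonneg_right ?_ hF20
      have b1 : (Real.exp (2 * δ)) ^ 2 ≤ 9 / 5 := by
        have := Real.exp_pos (2 * δ)
        nlinarith
      have b2 : 0 ≤ 5 * κ * t := by positivity
      nlinarith
  have h3 : 0.6 * D ≤ Real.exp (-(4 * δ)) * D := mul_le_mul_of_nonneg_right e4 hD0
  linarith

end Pool.Agent.Y663.D2.Fo
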