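import Pool.Agent.Y663.D2.Dy

/-! Form bound on the two-dimensional torus from the control of all dyadic block sums
(helper663). -/

set_option autoImplicit false

open scoped BigOperators

namespace Pool.Agent.Y663.D2.Fo2

open Pool.Agent.H4R2
open Pool.Agent.H4R2.AE (T LapW Hop)
open Pool.Agent.Y663.D2.Ps (TV)
open Pool.Agent.Y663.D2.Fo (q sum_blocks)
open Pool.Agent.Y663.D2.Dy (bs)

variable {L : ℕ} [NeZero L]

/-- `∑ F u` from block sums of `F` -/
theorem pot (m X r n : ℕ) (hr : 1 ≤ r) (hL : L = r * (2 ^ n * m)) (c θ C : ℝ) (F u : T 2 L → ℝ)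
    (hθ : 0 ≤ θ) (hC : ∀ x, |F x| ≤ C) (hu0 : ∀ x, 0 ≤ u x)
    (hu : ∀ x, ¬ (∀ i, (x i).val ≤ X) → u x = 0)
    (H : ∀ k ≤ n, ∀ a b : ℕ, a ≤ X / (r * 2 ^ k) + 1 → b ≤ X / (r * 2 ^ k) + 1 →
      |bs (r * 2 ^ k) F a b - ((r * 2 ^ k : ℕ) : ℝ) ^ 2 * c| ≤ ((r * 2 ^ k : ℕ) : ℝ) * θ) :
    |∑ x, F x * u x| ≤
      (r * C + 3 * θ * n) * ∑ x, ∑ i : Fin 2, |u (x + Pi.single i 1) - u x| +
        (|c| + θ / ((r * 2 ^ n : ℕ) : ℝ)) * ∑ x, u x := by
  have h1 := Dy.scales m X c θ F u hθ hu0 hu n r hr hL H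
  set TT := ∑ x, ∑ i : Fin 2, |u (x + Pi.single i 1) - u x| with hTT
  have hC0 : 0 ≤ C := (abs_nonneg _).trans (hC 0)
  have h2 : |∑ x, F x * u x - ∑ a ∈ Finset.range (2 ^ n * m), ∑ b ∈ Finset.range (2 ^ n * m),
        bs r F a b * bs r u a b / (r : ℝ) ^ 2| ≤ r * C * TT := by
    rw [sum_blocks r (2 ^ n * m) hL (fun x => F x * u x), ← Finset.sum_sub_distrib]
    refine le_trans ?_ (mul_le_mul_of_nonneg_left (Dy.kinTV r (2 ^ n * m) hL u) (by positivity))
    rw [Finset.mul_sum]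
    refine (Finset.abs_sum_le_sum_abs _ _).trans (Finset.sum_le_sum fun a _ => ?_)
    rw [← Finset.sum_sub_distrib, Finset.mul_sum]
    refine (Finset.abs_sum_le_sum_abs _ _).trans (Finset.sum_le_sum fun b _ => ?_)
    exact Dy.base r hr (fun i j => F (q r L a b i j)) (fun i j => u (q r L a b i j)) C
      fun i j _ _ => hC _
  have h3 := abs_le.1 h1
  have h4 := abs_le.1 h2
  rw [abs_le]
  constructor <;> linarith [h3.1, h3.2, h4.1, h4.2]

/-- total variation of a square -/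
theorem tv_sq (g : T 2 L → ℝ) (a : ℝ) (ha : 0 < a) :
    ∑ x, ∑ i : Fin 2, |g (x + Pi.single i 1) ^ 2 - g x ^ 2| ≤
      a * ∑ x, ∑ i : Fin 2, (g x - g (x + Pi.single i 1)) ^ 2 + 2 / a * ∑ x, g x ^ 2 := by
  have h1 : ∀ x, ∀ i : Fin 2, |g (x + Pi.single i 1) ^ 2 - g x ^ 2| ≤
      a * (g x - g (x + Pi.single i 1)) ^ 2 +
        (1 / (2 * a) * g (x + Pi.single i 1) ^ 2 + 1 / (2 * a) * g x ^ 2) := by
    intro x i
    obtain ⟨s, hs⟩ : ∃ s, s = g x := ⟨_, rfl⟩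
    obtain ⟨s', hs'⟩ : ∃ s', s' = g (x + Pi.single i 1) := ⟨_, rfl⟩
    rw [← hs, ← hs']
    have h2 : ∀ y z : ℝ, y * z ≤ a * y ^ 2 + 1 / (4 * a) * z ^ 2 := by
      intro y z
      have h3 : 0 ≤ 1 / (4 * a) * (2 * a * y - z) ^ 2 := by positivity
      have h4 : 1 / (4 * a) * (2 * a * y - z) ^ 2 = a * y ^ 2 + 1 / (4 * a) * z ^ 2 - y * z := by
        field_simp
        ring
      linarith
    have h5 : 1 / (4 * a) * (s' + s) ^ 2 ≤ 1 / (2 * a) * s' ^ 2 + 1 / (2 * a) * s ^ 2 := by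
      have h6 : 0 ≤ 1 / (4 * a) * (s' - s) ^ 2 := by positivity
      have h7 : 1 / (2 * a) * s' ^ 2 + 1 / (2 * a) * s ^ 2 - 1 / (4 * a) * (s' + s) ^ 2 =
          1 / (4 * a) * (s' - s) ^ 2 := by
        field_simp
        ring
      linarith
    rw [abs_le]
    have h8 := h2 (s' - s) (s' + s)
    have h9 := h2 (s - s') (s' + s)
    have e1 : (s' - s) ^ 2 = (s - s') ^ 2 := by ring
    rw [e1] at h8
    constructor <;> nlinarith
  have hsh : ∀ i : Fin 2, ∑ x : T 2 L, g (x + Pi.single i 1) ^ 2 = ∑ x, g x ^ 2 := fun i =>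
    Equiv.sum_comp (Equiv.addRight (Pi.single i 1)) fun x => g x ^ 2
  calc ∑ x, ∑ i : Fin 2, |g (x + Pi.single i 1) ^ 2 - g x ^ 2|
      ≤ ∑ x, ∑ i : Fin 2, (a * (g x - g (x + Pi.single i 1)) ^ 2 +
        (1 / (2 * a) * g (x + Pi.single i 1) ^ 2 + 1 / (2 * a) * g x ^ 2)) :=
        Finset.sum_le_sum fun x _ => Finset.sum_le_sum fun i _ => h1 x i
    _ = a * ∑ x, ∑ i : Fin 2, (g x - g (x + Pi.single i 1)) ^ 2 + 2 / a * ∑ x, g x ^ 2 := by
        simp only [Finset.sum_add_distrib, ← Finset.mul_sum]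
        congr 1
        rw [Finset.sum_comm, Finset.sum_congr rfl fun i _ => hsh i]
        simp only [Finset.sum_const, Finset.card_univ, Fintype.card_fin, nsmul_eq_mul]
        rw [← Finset.mul_sum]
        push_cast
        field_simp
        ring

/-- the form bound -/
theorem form2 (m X r n : ℕ) (hr : 1 ≤ r) (hL : L = r * (2 ^ n * m)) (lam δ κ E c θ Θ : ℝ)
    (hlam : 0 < lam) (hδ : 0 < δ) (hδ' : δ ≤ 1 / 8) (hκ : 0 < κ) (hθ : 0 ≤ θ) (hΘ : 0 < Θ)
    (hΘ' : r * (4 * κ * δ) + 3 * θ * n ≤ Θ) (V w : T 2 L → ℝ)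
    (hw : ∀ x : T 2 L, (∀ i, (x i).val ≤ X) →
      ∑ i : Fin 2, ((1 - Real.exp (w (x + Pi.single i 1) - w x)) +
        (1 - Real.exp (w (x - Pi.single i 1) - w x))) + lam * V x - E + κ * w x = 0)
    (hb : ∀ x, |w x| ≤ 2 * δ) (hbS : ∀ x : T 2 L, (∀ i, (x i).val ≤ X) → |w x| ≤ δ)
    (H : ∀ k ≤ n, ∀ a b : ℕ, a ≤ X / (r * 2 ^ k) + 1 → b ≤ X / (r * 2 ^ k) + 1 →
      |bs (r * 2 ^ k) (fun x => κ * (w x * Real.exp (2 * w x))) a b -
        ((r * 2 ^ k : ℕ) : ℝ) ^ 2 * c| ≤ ((r * 2 ^ k : ℕ) : ℝ) * θ)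
    (f : T 2 L → ℝ) (hf : ∀ x : T 2 L, ¬ (∀ i, (x i).val ≤ X) → f x = 0) :
    (E - 2 * (4 * Θ ^ 2 + |c| + θ / ((r * 2 ^ n : ℕ) : ℝ))) * ∑ x, f x ^ 2 ≤
      ∑ x, f x * Hop lam V f x := by
  classical
  set ψ : T 2 L → ℝ := fun x => Real.exp (w x) with hψ
  set g : T 2 L → ℝ := fun x => f x / ψ x with hg
  have hψ0 : ∀ x, 0 < ψ x := fun x => Real.exp_pos _
  have hfg : ∀ x, ψ x * g x = f x := fun x => by
    have := (hψ0 x).ne'
    simp only [hg]
    field_simp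
  set V' : T 2 L → ℝ := fun x => (E - ∑ i : Fin 2, ((1 - Real.exp (w (x + Pi.single i 1) - w x)) +
      (1 - Real.exp (w (x - Pi.single i 1) - w x)))) / lam with hV'
  have hHop : ∀ x, Hop lam V' ψ x = E * ψ x := by
    intro x
    unfold AE.Hop
    have h1 : lam * V' x = E - ∑ i : Fin 2, ((1 - Real.exp (w (x + Pi.single i 1) - w x)) +
      (1 - Real.exp (w (x - Pi.single i 1) - w x))) := by
      simp only [hV']
      field_simp
    have h2 : ∀ y, ψ y = ψ x * Real.exp (w y - w x) := fun y => by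
      simp only [hψ]
      rw [← Real.exp_add]
      congr 1
      ring
    rw [h1, sub_mul, Finset.sum_mul]
    have h3 : ∀ i : Fin 2, 2 * ψ x - ψ (x + Pi.single i 1) - ψ (x - Pi.single i 1) =
        ((1 - Real.exp (w (x + Pi.single i 1) - w x)) +
      (1 - Real.exp (w (x - Pi.single i 1) - w x))) * ψ x := by
      intro i
      rw [h2 (x + Pi.single i 1), h2 (x - Pi.single i 1)]
      ring
    rw [Finset.sum_congr rfl fun i _ => h3 i]
    ring
  have hvf := LO.El.vf lam E V' ψ g hHop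
  simp only [hfg] at hvf
  -- change of the potential
  have hVV : ∑ x, f x * Hop lam V f x = ∑ x, f x * Hop lam V' f x -
      ∑ x, κ * (w x * Real.exp (2 * w x)) * g x ^ 2 := by
    rw [← Finset.sum_sub_distrib]
    refine Finset.sum_congr rfl fun x _ => ?_
    by_cases hx : ∀ i, (x i).val ≤ X
    · have h1 := hw x hx
      have h2 : lam * V' x = E - ∑ i : Fin 2, ((1 - Real.exp (w (x + Pi.single i 1) - w x)) +
        (1 - Real.exp (w (x - Pi.single i 1) - w x))) := by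
        simp only [hV']
        field_simp
      have h3 : lam * V x = lam * V' x - κ * w x := by linarith
      have h4 : Real.exp (2 * w x) * g x ^ 2 = f x ^ 2 := by
        rw [← hfg x, mul_pow]
        simp only [hψ]
        rw [← Real.exp_nat_mul]
        push_cast
        ring
      have h5 : κ * (w x * Real.exp (2 * w x)) * g x ^ 2 = κ * w x * f x ^ 2 := by
        rw [← h4]
        ring
      unfold AE.Hop
      rw [h5, h3]
      ring
    · have h0 : g x = 0 := by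
        simp only [hg, hf x hx, zero_div]
      rw [hf x hx, h0]
      ring
  -- kinetic term
  have hkin : Real.exp (-(4 * δ)) * ∑ x, ∑ i : Fin 2, (g x - g (x + Pi.single i 1)) ^ 2 ≤
      ∑ x, ∑ i : Fin 2, ψ x * ψ (x + Pi.single i 1) * (g x - g (x + Pi.single i 1)) ^ 2 := by
    rw [Finset.mul_sum]
    refine Finset.sum_le_sum fun x _ => ?_
    rw [Finset.mul_sum]
    refine Finset.sum_le_sum fun i _ => ?_
    refine mul_le_mul_of_nonneg_right ?_ (sq_nonneg _)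
    simp only [hψ]
    rw [← Real.exp_add]
    apply Real.exp_le_exp.2
    have h1 := (abs_le.1 (hb x)).1
    have h2 := (abs_le.1 (hb (x + Pi.single i 1))).1
    linarith
  have hC : ∀ x, |κ * (w x * Real.exp (2 * w x))| ≤ 4 * κ * δ := by
    intro x
    rw [abs_mul, abs_mul, abs_of_pos hκ, abs_of_pos (Real.exp_pos _)]
    have h1 : Real.exp (2 * w x) ≤ 2 := by
      have h2 : Real.exp (2 * w x) ≤ Real.exp (1 / 2) := by
        apply Real.exp_le_exp.2
        have := (abs_le.1 (hb x)).2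
        linarith
      have h3 : Real.exp (1 / 2) ^ 2 = Real.exp 1 := by
        rw [← Real.exp_nat_mul]
        norm_num
      have h4 := Real.exp_one_lt_d9
      have h5 := Real.exp_pos (1 / 2 : ℝ)
      nlinarith
    calc κ * (|w x| * Real.exp (2 * w x)) ≤ κ * (2 * δ * 2) := by
          gcongr
          exact hb x
      _ = 4 * κ * δ := by ring
  have hpot := pot m X r n hr hL c θ (4 * κ * δ) (fun x => κ * (w x * Real.exp (2 * w x)))
    (fun x => g x ^ 2) hθ hC (fun x => sq_nonneg _) (fun x hx => by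
      simp only [hg, hf x hx, zero_div]
      norm_num) H
  have htv := tv_sq g (1 / (2 * Θ)) (by positivity)
  set D := ∑ x, ∑ i : Fin 2, (g x - g (x + Pi.single i 1)) ^ 2 with hD
  have hD0 : 0 ≤ D := Finset.sum_nonneg fun _ _ => Finset.sum_nonneg fun _ _ => sq_nonneg _
  set F2 := ∑ x, f x ^ 2 with hF2
  have hF20 : 0 ≤ F2 := Finset.sum_nonneg fun _ _ => sq_nonneg _
  set G2 := ∑ x, g x ^ 2 with hG2
  have hG20 : 0 ≤ G2 := Finset.sum_nonneg fun _ _ => sq_nonneg _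
  set TT := ∑ x, ∑ i : Fin 2, |g (x + Pi.single i 1) ^ 2 - g x ^ 2| with hTT
  have hTT0 : 0 ≤ TT := Finset.sum_nonneg fun _ _ => Finset.sum_nonneg fun _ _ => abs_nonneg _
  have hgf : G2 ≤ 2 * F2 := by
    rw [hG2, hF2, Finset.mul_sum]
    refine Finset.sum_le_sum fun x _ => ?_
    by_cases hx : ∀ i, (x i).val ≤ X
    · rw [← hfg x, mul_pow, ← mul_assoc]
      have h1 : 1 ≤ 2 * ψ x ^ 2 := by
        simp only [hψ]
        rw [← Real.exp_nat_mul]
        have h2 := (abs_le.1 (hbS x hx)).1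
        have h3 := Real.add_one_le_exp (((2 : ℕ) : ℝ) * w x)
        push_cast at h3 ⊢
        linarith
      nlinarith [sq_nonneg (g x)]
    · simp only [hg, hf x hx, zero_div]
      simp
  have e4 : 1 / 2 ≤ Real.exp (-(4 * δ)) := by
    have h1 := Real.add_one_le_exp (-(4 * δ))
    linarith
  have h1 : (r * (4 * κ * δ) + 3 * θ * n) * TT ≤ Θ * TT :=
    mul_le_mul_of_nonneg_right hΘ' hTT0
  have h2 : Θ * TT ≤ 1 / 2 * D + 4 * Θ ^ 2 * G2 := by
    have h3 := mul_le_mul_of_nonneg_left htv hΘ.le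
    have h4 : Θ * (1 / (2 * Θ) * D + 2 / (1 / (2 * Θ)) * G2) = 1 / 2 * D + 4 * Θ ^ 2 * G2 := by
      field_simp
      ring
    linarith
  have h3 : 1 / 2 * D ≤ Real.exp (-(4 * δ)) * D := mul_le_mul_of_nonneg_right e4 hD0
  have h4 := (abs_le.1 hpot).2
  set Z := 4 * Θ ^ 2 + |c| + θ / ((r * 2 ^ n : ℕ) : ℝ) with hZ
  have hZ0 : 0 ≤ Z := by positivity
  have h5 : ∑ x, κ * (w x * Real.exp (2 * w x)) * g x ^ 2 ≤ 1 / 2 * D + Z * G2 := by
    have : Z * G2 = 4 * Θ ^ 2 * G2 + (|c| + θ / ((r * 2 ^ n : ℕ) : ℝ)) * G2 := by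
      rw [hZ]; ring
    linarith
  have h6 : Z * G2 ≤ Z * (2 * F2) := mul_le_mul_of_nonneg_left hgf hZ0
  have h7 : (E - 2 * Z) * F2 = E * F2 - Z * (2 * F2) := by ring
  linarith

end Pool.Agent.Y663.D2.Fo2
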