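import Pool.Agent.Y663.D2.Fo
import Pool.Agent.Y663.D2.Fb
import Pool.Agent.Y663.D2.Em2

/-! Local form bound on the lattice with polynomially small failure probability (helper663). -/

set_option autoImplicit false

open scoped BigOperators ENNReal
open MeasureTheory

namespace Pool.Agent.Y663.D2.Lb

open Pool.Agent.H4R2
open Pool.Agent.H4R2.AE (T LapW Hop IsSol beta)
open Pool.Agent.H4R2.AE.Good (W clamp)
open Pool.Agent.H4R2.LO (Zd dd AL FB)
open Pool.Agent.Y663.D2.Fo (q)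
open Pool.Agent.Y663.D2.Fb (Fn)

/-- a block -/
def blk (r L0 a b : ℕ) : Finset (T 2 L0) :=
  (Finset.range r ×ˢ Finset.range r).image fun p => q r L0 a b p.1 p.2

theorem q_inj (r n L0 : ℕ) (hL0 : L0 = r * n) (a b : ℕ) (ha : a < n) (hb : b < n)
    (p p' : ℕ × ℕ) (hp : p ∈ Finset.range r ×ˢ Finset.range r)
    (hp' : p' ∈ Finset.range r ×ˢ Finset.range r)
    (h : q r L0 a b p.1 p.2 = q r L0 a b p'.1 p'.2) : p = p' := by
  rw [Finset.mem_product, Finset.mem_range, Finset.mem_range] at hp hp'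
  have hlt : ∀ c i : ℕ, c < n → i < r → r * c + i < L0 := by
    intro c i hc hi
    rw [hL0]
    calc r * c + i < r * c + r := by omega
      _ = r * (c + 1) := by ring
      _ ≤ r * n := Nat.mul_le_mul_left r hc
  have h0 := congrFun h 0
  have h1 := congrFun h 1
  simp only [q, Matrix.cons_val_zero, Matrix.cons_val_one] at h0 h1
  have e0 := congrArg ZMod.val h0
  have e1 := congrArg ZMod.val h1
  rw [ZMod.val_cast_of_lt (hlt _ _ ha hp.1), ZMod.val_cast_of_lt (hlt _ _ ha hp'.1)] at e0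
  rw [ZMod.val_cast_of_lt (hlt _ _ hb hp.2), ZMod.val_cast_of_lt (hlt _ _ hb hp'.2)] at e1
  apply Prod.ext <;> omega

theorem blk_card (r L0 a b : ℕ) : (blk r L0 a b).card ≤ r ^ 2 := by
  refine Finset.card_image_le.trans ?_
  rw [Finset.card_product, Finset.card_range, sq]

theorem blk_sum (r n L0 : ℕ) (hL0 : L0 = r * n) (a b : ℕ) (ha : a < n) (hb : b < n)
    (F : T 2 L0 → ℝ) : ∑ x ∈ blk r L0 a b, F x =
      ∑ i ∈ Finset.range r, ∑ j ∈ Finset.range r, F (q r L0 a b i j) := by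
  unfold blk
  rw [Finset.sum_image, Finset.sum_product]
  intro p hp p' hp' h
  exact q_inj r n L0 hL0 a b ha hb p p' hp hp' h

theorem one_site (d L0 : ℕ) [NeZero L0] (μ : Measure ℝ) [IsProbabilityMeasure μ]
    (hμ : μ (Set.Icc (-1) 1)ᶜ = 0) :
    (Measure.pi fun _ : T d L0 => μ) {V | ∃ x, ¬ |V x| ≤ 1} = 0 := by
  have h1 : {V : T d L0 → ℝ | ∃ x, ¬ |V x| ≤ 1} = ⋃ x, {V : T d L0 → ℝ | ¬ |V x| ≤ 1} := by
    ext V; simp
  rw [h1]
  refine measure_iUnion_null fun x => ?_
  have h2 : {V : T d L0 → ℝ | ¬ |V x| ≤ 1} = (fun V : T d L0 → ℝ => V x) ⁻¹' (Set.Icc (-1) 1)ᶜ := by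
    ext V
    rw [Set.mem_preimage, Set.mem_compl_iff, Set.mem_Icc, ← abs_le]
    rfl
  rw [h2]
  have h3 := (measurePreserving_eval (fun _ : T d L0 => μ) x).measure_preimage
    (s := (Set.Icc (-1) 1)ᶜ) measurableSet_Icc.compl.nullMeasurableSet
  exact h3.trans hμ

theorem locb (r n L0 : ℕ) [NeZero L0] (hr : 1 ≤ r) (hL0 : L0 = r * n) (μ : Measure ℝ)
    [IsProbabilityMeasure μ] (hμ : μ (Set.Icc (-1) 1)ᶜ = 0) (lam δ κ E t : ℝ)
    (hlam : 0 < lam) (hδ : 0 < δ) (hδ' : δ ≤ 1 / 8) (hκ : 0 < κ) (hκr : κ * (r : ℝ) ^ 2 ≤ 4)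
    (ht : 0 ≤ t) (ht' : t ≤ 1 / 5) (hE : |E| ≤ lam) (p1 p2 : ℝ) (hp1 : 0 ≤ p1) (hp2 : 0 ≤ p2)
    (h1 : ∀ x : T 2 L0, (Measure.pi fun _ : T 2 L0 => μ).real {V | δ ≤ |W lam δ κ E V x|} ≤ p1)
    (h2 : ∀ B : Finset (T 2 L0), B.card ≤ r ^ 2 →
      (Measure.pi fun _ : T 2 L0 => μ).real {V | t * r ≤ Fn lam δ κ E B V} ≤ p2)
    (Λ : Finset (Zd 2)) (Ω : Finset Λ) (x : Λ) (L : ℕ) (hL : 2 * L + 2 ≤ L0)
    (hΩ : ∀ z ∈ Ω, dd x.1 z.1 ≤ L) :
    (Measure.pi fun _ : Λ => μ) {V | ¬ FB (AL Λ) Ω lam V (E - 9 * κ * t - 2 * (2 : ℕ))} ≤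
      ENNReal.ofReal ((2 * L + 1) ^ 2 * p1 + ((2 * L / r : ℕ) + 1) ^ 2 * p2) := by
  set m := 2 * L / r with hm
  set P := Measure.pi fun _ : T 2 L0 => μ with hP
  set pt : ℕ × ℕ → T 2 L0 := fun p => ![(p.1 : ZMod L0), (p.2 : ZMod L0)] with hpt
  set G : Set (T 2 L0 → ℝ) := {V | (∀ x, |V x| ≤ 1) ∧
    (∀ p ∈ Finset.range (2 * L + 1) ×ˢ Finset.range (2 * L + 1), |W lam δ κ E V (pt p)| < δ) ∧
    ∀ c ∈ Finset.range (m + 1) ×ˢ Finset.range (m + 1),
      Fn lam δ κ E (blk r L0 c.1 c.2) V < t * r} with hG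
  have hGp : P Gᶜ ≤ ENNReal.ofReal ((2 * L + 1) ^ 2 * p1 + ((m : ℕ) + 1) ^ 2 * p2) := by
    have hsub : Gᶜ ⊆ {V : T 2 L0 → ℝ | ∃ x, ¬ |V x| ≤ 1} ∪
        ((⋃ p ∈ Finset.range (2 * L + 1) ×ˢ Finset.range (2 * L + 1),
          {V | δ ≤ |W lam δ κ E V (pt p)|}) ∪
        (⋃ c ∈ Finset.range (m + 1) ×ˢ Finset.range (m + 1),
          {V | t * r ≤ Fn lam δ κ E (blk r L0 c.1 c.2) V})) := by
      intro V hV
      by_contra hcon
      simp only [Set.mem_union, not_or, Set.mem_iUnion, not_exists, Set.mem_ofPred_eq,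
        not_le] at hcon
      exact hV ⟨fun x => not_lt.1 (hcon.1 x), hcon.2.1, hcon.2.2⟩
    refine (measure_mono hsub).trans ((measure_union_le _ _).trans ?_)
    rw [one_site 2 L0 μ hμ, zero_add]
    refine (measure_union_le _ _).trans ?_
    rw [ENNReal.ofReal_add (by positivity) (by positivity)]
    refine add_le_add ?_ ?_
    · refine (measure_biUnion_finset_le _ _).trans ?_
      calc ∑ p ∈ Finset.range (2 * L + 1) ×ˢ Finset.range (2 * L + 1),
            P {V | δ ≤ |W lam δ κ E V (pt p)|}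
          ≤ ∑ p ∈ Finset.range (2 * L + 1) ×ˢ Finset.range (2 * L + 1), ENNReal.ofReal p1 :=
            Finset.sum_le_sum fun p _ =>
              (ENNReal.le_ofReal_iff_toReal_le (measure_ne_top _ _) hp1).2 (h1 _)
        _ = _ := by
            rw [Finset.sum_const, Finset.card_product, Finset.card_range, nsmul_eq_mul,
              ENNReal.ofReal_mul (by positivity)]
            congr 1
            rw [← ENNReal.ofReal_natCast]
            congr 1
            push_cast
            ring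
    · refine (measure_biUnion_finset_le _ _).trans ?_
      calc ∑ c ∈ Finset.range (m + 1) ×ˢ Finset.range (m + 1),
            P {V | t * r ≤ Fn lam δ κ E (blk r L0 c.1 c.2) V}
          ≤ ∑ c ∈ Finset.range (m + 1) ×ˢ Finset.range (m + 1), ENNReal.ofReal p2 :=
            Finset.sum_le_sum fun c _ =>
              (ENNReal.le_ofReal_iff_toReal_le (measure_ne_top _ _) hp2).2
                (h2 _ (blk_card r L0 c.1 c.2))
        _ = _ := by
            rw [Finset.sum_const, Finset.card_product, Finset.card_range, nsmul_eq_mul,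
              ENNReal.ofReal_mul (by positivity)]
            congr 1
            rw [← ENNReal.ofReal_natCast]
            congr 1
            push_cast
            ring
  refine Em2.em' 2 L0 μ lam (E - 9 * κ * t) _ Λ Ω x L hL hΩ (fun i => x.1 i - L)
    (fun t => ∀ i, (t i).val ≤ 2 * L) ?_ G hGp ?_
  · intro z hz i
    have h3 := LO.Em.em_dd (hΩ z hz) i
    rw [abs_le] at h3
    obtain ⟨k, hk⟩ : ∃ k : ℕ, (k : ℤ) = z.1 i - (x.1 i - L) :=
      ⟨(z.1 i - (x.1 i - L)).toNat, Int.toNat_of_nonneg (by omega)⟩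
    have hk2 : k ≤ 2 * L := by omega
    show ((z.1 i - (x.1 i - L) : ℤ) : ZMod L0).val ≤ 2 * L
    rw [← hk, Int.cast_natCast, ZMod.val_cast_of_lt (by omega)]
    exact hk2
  · intro V hV f hf
    obtain ⟨g1, g2, g3⟩ := hV
    have hw := AE.Good.good_W lam δ κ E V hlam hδ hκ hE
    have hS : ∀ x : T 2 L0, (∀ i, (x i).val ≤ 2 * L) → |W lam δ κ E V x| < δ := by
      intro x hx
      have h3 := g2 ((x 0).val, (x 1).val) (by
        rw [Finset.mem_product, Finset.mem_range, Finset.mem_range]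
        exact ⟨Nat.lt_succ_of_le (hx 0), Nat.lt_succ_of_le (hx 1)⟩)
      have h4 : pt ((x 0).val, (x 1).val) = x := by
        funext i
        fin_cases i
        · show (((x 0).val : ℕ) : ZMod L0) = x 0
          exact ZMod.natCast_rightInverse (x 0)
        · show (((x 1).val : ℕ) : ZMod L0) = x 1
          exact ZMod.natCast_rightInverse (x 1)
      rwa [h4] at h3
    have hform := Fo.form r n hr hL0 lam δ κ E t hlam hδ hδ' hκ hκr ht ht' V (W lam δ κ E V)
      (fun x => ∀ i, (x i).val ≤ 2 * L) (by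
        intro x hx
        have h3 := hw x
        rw [AE.Good.good_clamp_eq V g1, AE.Good.good_beta lam δ κ _ (hS x hx).le] at h3
        exact h3) (fun x => AE.Good.good_bound lam δ κ E hlam hδ hκ hE V x)
      (fun x hx => (hS x hx).le) (by
        rintro a b ha hb ⟨i, j, hi, hj, hS'⟩
        have hlt : ∀ c i : ℕ, c < n → i < r → r * c + i < L0 := by
          intro c i hc hi
          rw [hL0]
          calc r * c + i < r * c + r := by omega
            _ = r * (c + 1) := by ring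
            _ ≤ r * n := Nat.mul_le_mul_left r hc
        have ha2 : a ≤ m := by
          have h3 := hS' 0
          simp only [q, Matrix.cons_val_zero] at h3
          rw [ZMod.val_cast_of_lt (hlt _ _ ha hi)] at h3
          rw [hm, Nat.le_div_iff_mul_le (by omega)]
          nlinarith
        have hb2 : b ≤ m := by
          have h3 : ((r * b + j : ℕ) : ZMod L0).val ≤ 2 * L := hS' 1
          rw [ZMod.val_cast_of_lt (hlt _ _ hb hj)] at h3
          rw [hm, Nat.le_div_iff_mul_le (by omega)]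
          nlinarith
        have h3 := g3 (a, b) (by
          rw [Finset.mem_product, Finset.mem_range, Finset.mem_range]
          exact ⟨Nat.lt_succ_of_le ha2, Nat.lt_succ_of_le hb2⟩)
        simp only at h3
        unfold Fb.Fn at h3
        rw [← blk_sum r n L0 hL0 a b ha hb (fun x => (max (W lam δ κ E V x) 0) ^ 2)]
        have h4 : (0 : ℝ) ≤ ∑ x ∈ blk r L0 a b, (max (W lam δ κ E V x) 0) ^ 2 :=
          Finset.sum_nonneg fun _ _ => sq_nonneg _
        rw [← Real.sq_sqrt h4]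
        exact pow_le_pow_left₀ (Real.sqrt_nonneg _) h3.le 2) f hf
    exact hform

end Pool.Agent.Y663.D2.Lb
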