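import Pool.Agent.Y663.D2.Fo2
import Pool.Agent.Y663.D2.Bs2
import Pool.Agent.Y663.D2.Lb
import Pool.Agent.Y663.D2.Pa

/-! Local form bound on the lattice, dyadic version (helper663). -/

set_option autoImplicit false

open scoped BigOperators ENNReal
open MeasureTheory

namespace Pool.Agent.Y663.D2.Lb2

open Pool.Agent.H4R2
open Pool.Agent.H4R2.AE (T LapW Hop IsSol beta)
open Pool.Agent.H4R2.AE.Good (W clamp)
open Pool.Agent.H4R2.LO (Zd dd AL FB)
open Pool.Agent.Y663.D2.Fo (q)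
open Pool.Agent.Y663.D2.Lb (blk blk_sum q_inj one_site)
open Pool.Agent.Y663.D2.Dy (bs)
open Pool.Agent.Y663.D2.Bs2 (phi Sn)

theorem blk_card_eq (r n L0 : ℕ) (hL0 : L0 = r * n) (a b : ℕ) (ha : a < n) (hb : b < n) :
    (blk r L0 a b).card = r ^ 2 := by
  unfold blk
  rw [Finset.card_image_of_injOn, Finset.card_product, Finset.card_range, sq]
  intro p hp p' hp' h
  exact q_inj r n L0 hL0 a b ha hb p p' (Finset.mem_coe.1 hp) (Finset.mem_coe.1 hp') h

/-- the function whose block sums are controlled -/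
noncomputable def FV {L0 : ℕ} [NeZero L0] (lam δ κ E : ℝ) (V : T 2 L0 → ℝ) (x : T 2 L0) : ℝ :=
  κ * (W lam δ κ E V x * Real.exp (2 * W lam δ κ E V x))

theorem bs_eq {L0 : ℕ} [NeZero L0] (r n : ℕ) (hL0 : L0 = r * n) (lam δ κ E : ℝ)
    (V : T 2 L0 → ℝ) (a b : ℕ) (ha : a < n) (hb : b < n) :
    bs r (FV lam δ κ E V) a b = κ * Sn lam δ κ E (blk r L0 a b) V := by
  unfold Dy.bs
  rw [← blk_sum r n L0 hL0 a b ha hb (FV lam δ κ E V)]
  unfold FV Bs2.Sn Bs2.phi
  rw [Finset.mul_sum]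

theorem locb2 (m r n L0 : ℕ) [NeZero L0] (hr : 1 ≤ r) (hL0 : L0 = r * (2 ^ n * m)) (μ : Measure ℝ)
    [IsProbabilityMeasure μ] (hμ : μ (Set.Icc (-1) 1)ᶜ = 0) (lam δ κ E c θ Θ : ℝ)
    (hlam : 0 < lam) (hδ : 0 < δ) (hδ' : δ ≤ 1 / 8) (hκ : 0 < κ) (hθ : 0 ≤ θ) (hΘ : 0 < Θ)
    (hΘ' : r * (4 * κ * δ) + 3 * θ * n ≤ Θ) (hE : |E| ≤ lam) (p1 p2 : ℝ) (hp1 : 0 ≤ p1)
    (hp2 : 0 ≤ p2) (L : ℕ) (hm : 2 * L + 2 ≤ m)
    (h1 : ∀ x : T 2 L0, (Measure.pi fun _ : T 2 L0 => μ).real {V | δ ≤ |W lam δ κ E V x|} ≤ p1)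
    (h2 : ∀ k ≤ n, ∀ a b : ℕ, a < 2 ^ (n - k) * m → b < 2 ^ (n - k) * m →
      (Measure.pi fun _ : T 2 L0 => μ).real {V | ((r * 2 ^ k : ℕ) : ℝ) * θ ≤
        |bs (r * 2 ^ k) (FV lam δ κ E V) a b - ((r * 2 ^ k : ℕ) : ℝ) ^ 2 * c|} ≤ p2)
    (Λ : Finset (Zd 2)) (Ω : Finset Λ) (x : Λ) (hΩ : ∀ z ∈ Ω, dd x.1 z.1 ≤ L) :
    (Measure.pi fun _ : Λ => μ) {V | ¬ FB (AL Λ) Ω lam V
      (E - 2 * (4 * Θ ^ 2 + |c| + θ / ((r * 2 ^ n : ℕ) : ℝ)) - 2 * (2 : ℕ))} ≤
      ENNReal.ofReal ((2 * L + 1) ^ 2 * p1 + (n + 1) * ((2 * L / r : ℕ) + 2) ^ 2 * p2) := by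
  have hmpos : 1 ≤ m := by omega
  have hL0m : m ≤ L0 := by
    rw [hL0]
    calc m = 1 * (1 * m) := by ring
      _ ≤ r * (2 ^ n * m) := Nat.mul_le_mul hr (Nat.mul_le_mul_right m Nat.one_le_two_pow)
  have hL : 2 * L + 2 ≤ L0 := hm.trans hL0m
  set P := Measure.pi fun _ : T 2 L0 => μ with hP
  set pt : ℕ × ℕ → T 2 L0 := fun p => ![(p.1 : ZMod L0), (p.2 : ZMod L0)] with hpt
  set M := 2 * L / r + 2 with hM
  set G : Set (T 2 L0 → ℝ) := {V | (∀ x, |V x| ≤ 1) ∧
    (∀ p ∈ Finset.range (2 * L + 1) ×ˢ Finset.range (2 * L + 1), |W lam δ κ E V (pt p)| < δ) ∧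
    ∀ k ∈ Finset.range (n + 1), ∀ s ∈ Finset.range (2 * L / (r * 2 ^ k) + 2) ×ˢ
      Finset.range (2 * L / (r * 2 ^ k) + 2),
      |bs (r * 2 ^ k) (FV lam δ κ E V) s.1 s.2 - ((r * 2 ^ k : ℕ) : ℝ) ^ 2 * c| <
        ((r * 2 ^ k : ℕ) : ℝ) * θ} with hG
  have hcount : ∀ k, 2 * L / (r * 2 ^ k) + 2 ≤ M := by
    intro k
    have : 2 * L / (r * 2 ^ k) ≤ 2 * L / r :=
      Nat.div_le_div_left (Nat.le_mul_of_pos_right r (by positivity)) (by omega)
    omega
  have hlt : ∀ k ≤ n, ∀ a, a < 2 * L / (r * 2 ^ k) + 2 → a < 2 ^ (n - k) * m := by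
    intro k _ a ha
    have h3 : 2 * L / (r * 2 ^ k) ≤ 2 * L := Nat.div_le_self _ _
    have h4 : m ≤ 2 ^ (n - k) * m := Nat.le_mul_of_pos_left m (by positivity)
    omega
  have hGp : P Gᶜ ≤ ENNReal.ofReal ((2 * L + 1) ^ 2 * p1 + (n + 1) * ((2 * L / r : ℕ) + 2) ^ 2 * p2) := by
    have hsub : Gᶜ ⊆ {V : T 2 L0 → ℝ | ∃ x, ¬ |V x| ≤ 1} ∪
        ((⋃ p ∈ Finset.range (2 * L + 1) ×ˢ Finset.range (2 * L + 1),
          {V | δ ≤ |W lam δ κ E V (pt p)|}) ∪
        (⋃ k ∈ Finset.range (n + 1), ⋃ s ∈ Finset.range (2 * L / (r * 2 ^ k) + 2) ×ˢ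
          Finset.range (2 * L / (r * 2 ^ k) + 2),
          {V | ((r * 2 ^ k : ℕ) : ℝ) * θ ≤
            |bs (r * 2 ^ k) (FV lam δ κ E V) s.1 s.2 - ((r * 2 ^ k : ℕ) : ℝ) ^ 2 * c|})) := by
      intro V hV
      by_contra hcon
      simp only [Set.mem_union, not_or, Set.mem_iUnion, not_exists, Set.mem_ofPred_eq,
        not_le] at hcon
      exact hV ⟨fun x => not_lt.1 (hcon.1 x), hcon.2.1, hcon.2.2⟩
    refine (measure_mono hsub).trans ((measure_union_le _ _).trans ?_)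
    rw [one_site 2 L0 μ hμ, zero_add]
    refine (measure_union_le _ _).trans ?_
    rw [ENNReal.ofReal_add (by positivity) (by positivity)]
    refine add_le_add ?_ ?_
    · refine (measure_biUnion_finset_le _ _).trans ?_
      calc ∑ p ∈ Finset.range (2 * L + 1) ×ˢ Finset.range (2 * L + 1),
            P {V | δ ≤ |W lam δ κ E V (pt p)|}
          ≤ ∑ p ∈ Finset.range (2 * L + 1) ×ˢ Finset.range (2 * L + 1), ENNReal.ofReal p1 :=
            Finset.sum_le_sum fun p _ =>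
              (ENNReal.le_ofReal_iff_toReal_le (measure_ne_top _ _) hp1).2 (h1 _)
        _ = _ := by
            rw [Finset.sum_const, Finset.card_product, Finset.card_range, nsmul_eq_mul,
              ENNReal.ofReal_mul (by positivity)]
            congr 1
            rw [← ENNReal.ofReal_natCast]
            congr 1
            push_cast
            ring
    · refine (measure_biUnion_finset_le _ _).trans ?_
      have hk : ∀ k ∈ Finset.range (n + 1), P (⋃ s ∈ Finset.range (2 * L / (r * 2 ^ k) + 2) ×ˢ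
          Finset.range (2 * L / (r * 2 ^ k) + 2),
          {V | ((r * 2 ^ k : ℕ) : ℝ) * θ ≤
            |bs (r * 2 ^ k) (FV lam δ κ E V) s.1 s.2 - ((r * 2 ^ k : ℕ) : ℝ) ^ 2 * c|}) ≤
          ENNReal.ofReal (((2 * L / r : ℕ) + 2) ^ 2 * p2) := by
        intro k hk
        rw [Finset.mem_range] at hk
        refine (measure_biUnion_finset_le _ _).trans ?_
        calc ∑ s ∈ Finset.range (2 * L / (r * 2 ^ k) + 2) ×ˢ
              Finset.range (2 * L / (r * 2 ^ k) + 2), P {V | ((r * 2 ^ k : ℕ) : ℝ) * θ ≤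
            |bs (r * 2 ^ k) (FV lam δ κ E V) s.1 s.2 - ((r * 2 ^ k : ℕ) : ℝ) ^ 2 * c|}
            ≤ ∑ s ∈ Finset.range (2 * L / (r * 2 ^ k) + 2) ×ˢ
              Finset.range (2 * L / (r * 2 ^ k) + 2), ENNReal.ofReal p2 := by
              refine Finset.sum_le_sum fun s hs => ?_
              rw [Finset.mem_product, Finset.mem_range, Finset.mem_range] at hs
              exact (ENNReal.le_ofReal_iff_toReal_le (measure_ne_top _ _) hp2).2
                (h2 k (by omega) s.1 s.2 (hlt k (by omega) _ hs.1) (hlt k (by omega) _ hs.2))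
          _ ≤ _ := by
              rw [Finset.sum_const, Finset.card_product, Finset.card_range, nsmul_eq_mul,
                ENNReal.ofReal_mul (by positivity)]
              refine mul_le_mul_left ?_ _
              rw [← ENNReal.ofReal_natCast]
              apply ENNReal.ofReal_le_ofReal
              have h3 : ((2 * L / (r * 2 ^ k) + 2 : ℕ) : ℝ) ≤ ((M : ℕ) : ℝ) := by
                exact_mod_cast hcount k
              have h4 : ((M : ℕ) : ℝ) = ((2 * L / r : ℕ) : ℝ) + 2 := by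
                rw [hM]
                push_cast
                ring
              rw [← h4, Nat.cast_mul, sq]
              exact mul_le_mul h3 h3 (by positivity) (by positivity)
      calc _ ≤ ∑ k ∈ Finset.range (n + 1), ENNReal.ofReal (((2 * L / r : ℕ) + 2) ^ 2 * p2) :=
            Finset.sum_le_sum fun k hk' => hk k hk'
        _ = _ := by
            rw [Finset.sum_const, Finset.card_range, nsmul_eq_mul, ← ENNReal.ofReal_natCast,
              ← ENNReal.ofReal_mul (by positivity)]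
            congr 1
            push_cast
            ring
  refine Em2.em' 2 L0 μ lam (E - 2 * (4 * Θ ^ 2 + |c| + θ / ((r * 2 ^ n : ℕ) : ℝ))) _ Λ Ω x L hL hΩ
    (fun i => x.1 i - L) (fun t => ∀ i, (t i).val ≤ 2 * L) ?_ G hGp ?_
  · intro z hz i
    have h3 := LO.Em.em_dd (hΩ z hz) i
    rw [abs_le] at h3
    obtain ⟨k, hk⟩ : ∃ k : ℕ, (k : ℤ) = z.1 i - (x.1 i - L) :=
      ⟨(z.1 i - (x.1 i - L)).toNat, Int.toNat_of_nonneg (by omega)⟩
    have hk2 : k ≤ 2 * L := by omega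
    show ((z.1 i - (x.1 i - L) : ℤ) : ZMod L0).val ≤ 2 * L
    rw [← hk, Int.cast_natCast, ZMod.val_cast_of_lt (by omega)]
    exact hk2
  · intro V hV f hf
    obtain ⟨g1, g2, g3⟩ := hV
    have hw := AE.Good.good_W lam δ κ E V hlam hδ hκ hE
    have hS : ∀ x : T 2 L0, (∀ i, (x i).val ≤ 2 * L) → |W lam δ κ E V x| < δ := by
      intro x hx
      have h3 := g2 ((x 0).val, (x 1).val) (by
        rw [Finset.mem_product, Finset.mem_range, Finset.mem_range]
        exact ⟨Nat.lt_succ_of_le (hx 0), Nat.lt_succ_of_le (hx 1)⟩)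
      have h4 : pt ((x 0).val, (x 1).val) = x := by
        funext i
        fin_cases i
        · show (((x 0).val : ℕ) : ZMod L0) = x 0
          exact ZMod.natCast_rightInverse (x 0)
        · show (((x 1).val : ℕ) : ZMod L0) = x 1
          exact ZMod.natCast_rightInverse (x 1)
      rwa [h4] at h3
    exact Fo2.form2 m (2 * L) r n hr hL0 lam δ κ E c θ Θ hlam hδ hδ' hκ hθ hΘ hΘ' V
      (W lam δ κ E V) (by
        intro x hx
        have h3 := hw x
        rw [AE.Good.good_clamp_eq V g1, AE.Good.good_beta lam δ κ _ (hS x hx).le] at h3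
        exact h3) (fun x => AE.Good.good_bound lam δ κ E hlam hδ hκ hE V x)
      (fun x hx => (hS x hx).le) (by
        intro k hk a b ha hb
        refine (g3 k (Finset.mem_range.2 (by omega)) (a, b) ?_).le
        rw [Finset.mem_product, Finset.mem_range, Finset.mem_range]
        constructor <;> simp only <;> omega) f hf

end Pool.Agent.Y663.D2.Lb2
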