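import Pool.Agent.Y663.D2.Lb2
import Pool.Agent.H4R2.LO.Dec

/-! Torus level statement, dyadic version (helper663). -/

set_option autoImplicit false

open scoped BigOperators ENNReal
open MeasureTheory

namespace Pool.Agent.Y663.D2.Pa2

open Pool.Agent.H4R2
open Pool.Agent.H4R2.AE (T LapW Hop IsSol beta)
open Pool.Agent.H4R2.AE.Good (W clamp)
open Pool.Agent.H4R2.LO (Zd dd AL FB)
open Pool.Agent.Y663.D2.Dy (bs)
open Pool.Agent.Y663.D2.Pa (exp4)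
open Pool.Agent.Y663.D2.Lb (blk)
open Pool.Agent.Y663.D2.Lb2 (FV)

/-- deterministic energy and local form bounds -/
theorem torus_all2 (μ : Measure ℝ) [IsProbabilityMeasure μ] (hμ : μ (Set.Icc (-1) 1)ᶜ = 0)
    (σ2 : ℝ) (hσ2 : 0 ≤ σ2)
    (hm1 : ∫ t, max (-1) (min 1 t) ∂μ = 0) (hm2 : ∫ t, (max (-1) (min 1 t)) ^ 2 ∂μ = σ2)
    (lam δ κ θ Θ : ℝ) (hlam : 0 < lam) (hδ : 0 < δ) (hδ' : δ ≤ 1 / 8) (hκ : 0 < κ) (hκ1 : κ ≤ 1)
    (hθ : 0 < θ) (hΘ : 0 < Θ) (r n : ℕ) (hr : 1 ≤ r)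
    (hΘ' : r * (4 * κ * δ) + 3 * θ * n ≤ Θ) (L : ℕ) :
    ∃ E : ℝ, |E| ≤ lam ∧
      (1 - 3 * δ) * (-E - 2 * lam * (2 * Real.exp (-(δ ^ 2 * κ / (230400000 * lam ^ 2))))) ≤
        lam ^ 2 * σ2 * Real.exp (12 * δ) * (1 / (4 * Real.pi) * Real.log (1 / κ) + 6) ∧
      ∀ (Λ : Finset (Zd 2)) (Ω : Finset Λ) (x : Λ), (∀ z ∈ Ω, dd x.1 z.1 ≤ L) →
        (Measure.pi fun _ : Λ => μ) {V | ¬ FB (AL Λ) Ω lam V
          (E - 2 * (4 * Θ ^ 2 + 921600000 * lam ^ 2 + θ / ((r * 2 ^ n : ℕ) : ℝ)) - 4)} ≤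
          ENNReal.ofReal ((2 * L + 1) ^ 2 *
              (2 * Real.exp (-(δ ^ 2 * κ / (230400000 * lam ^ 2)))) +
            (n + 1) * (2 * L / r + 2) ^ 2 * (2 * Real.exp (-(θ ^ 2 / (5184 * lam ^ 2))))) := by
  set m : ℕ := ⌈1 / κ ^ 2⌉₊ with hm
  have hm1' : 1 / κ ^ 2 ≤ m := Nat.le_ceil _
  have hκ2 : 1 ≤ 1 / κ ^ 2 := by
    rw [le_div_iff₀ (by positivity), one_mul]
    exact pow_le_one₀ hκ.le hκ1
  have hm0 : 1 ≤ m := by
    have : (1 : ℝ) ≤ m := hκ2.trans hm1'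
    exact_mod_cast this
  have hmκ : 1 ≤ (m : ℝ) * κ ^ 2 := by
    have := mul_le_mul_of_nonneg_right hm1' (by positivity : (0 : ℝ) ≤ κ ^ 2)
    rwa [one_div_mul_cancel (by positivity)] at this
  set mm : ℕ := 2 * L + 2 + 2 * m with hmm
  set L0 : ℕ := r * (2 ^ n * mm) with hL0
  have hL0n : mm ≤ L0 := by
    rw [hL0]
    calc mm = 1 * (1 * mm) := by ring
      _ ≤ r * (2 ^ n * mm) := Nat.mul_le_mul hr (Nat.mul_le_mul_right mm Nat.one_le_two_pow)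
  have hL0pos : 0 < L0 := by omega
  have : NeZero L0 := ⟨by omega⟩
  have hL0r : (0 : ℝ) < L0 := by exact_mod_cast hL0pos
  -- the Green function bound
  have hk : 1 / (8 * (L0 : ℝ) ^ 2) ≤ κ * Real.exp (-(4 * δ)) := by
    have h1 : (2 * m : ℝ) ≤ L0 := by
      have : 2 * m ≤ L0 := by omega
      exact_mod_cast this
    have h2 : (1 : ℝ) ≤ m := by exact_mod_cast hm0
    have h3 : 1 ≤ (L0 : ℝ) ^ 2 * κ := by
      have h4 : (m : ℝ) ≤ (L0 : ℝ) ^ 2 := by nlinarith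
      have h5 : (m : ℝ) * κ ^ 2 ≤ (L0 : ℝ) ^ 2 * κ := by
        apply mul_le_mul h4 _ (by positivity) (by positivity)
        nlinarith
      linarith
    have h4 := exp4 δ hδ'
    rw [div_le_iff₀ (by positivity)]
    have h5 : 1 ≤ 8 * ((L0 : ℝ) ^ 2 * κ) * Real.exp (-(4 * δ)) := by nlinarith
    linarith
  have hκe : 0 < κ * Real.exp (-(4 * δ)) := by positivity
  have hG : ∀ (u Gr : T 2 L0 → ℝ) (x0 : T 2 L0), (∀ x, 1 / 2 ≤ u x) → (∀ x, 0 ≤ Gr x) →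
      (∀ x, LapW u Gr x + κ * Real.exp (-(4 * δ)) * Gr x = if x = x0 then 1 else 0) →
      ∑ z, Gr z ^ 2 ≤ 1600000 / κ := by
    intro u G x0 hu hGr0 hGr
    refine (Pool.Agent.Y663.D2.Gr.green2 (κ * Real.exp (-(4 * δ))) u G x0 hu hk hGr0 hGr).trans ?_
    rw [div_le_div_iff₀ hκe hκ]
    have h4 := exp4 δ hδ'
    nlinarith
  have hR0 : 0 < 1600000 / κ := by positivity
  obtain ⟨E, hE, hE0⟩ := AE.Good.good_E (d := 2) (L := L0) lam δ κ hlam hδ hκ μ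
  have hp1 : ∀ x : T 2 L0, (Measure.pi fun _ : T 2 L0 => μ).real {V | δ ≤ |W lam δ κ E V x|} ≤
      2 * Real.exp (-(δ ^ 2 * κ / (230400000 * lam ^ 2))) := by
    intro x
    have h1 := AE.Goodt.goodt_tail κ hκ 2 (1600000 / κ) (by norm_num) hR0.le μ lam δ hlam hδ hδ'
      (Fb.hG2 κ δ _ hG) (δ * κ / (115200000 * lam ^ 2)) (by positivity) E hE hE0 x
    refine h1.trans ?_
    rw [Real.rpow_two]
    refine mul_le_mul_of_nonneg_left (Real.exp_le_exp.2 (le_of_eq ?_)) (by norm_num)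
    field_simp
    ring
  obtain ⟨m0, hm0', hmean⟩ := Bs2.Sn_mean κ hκ (1600000 / κ) hR0 μ lam δ hlam hδ hδ' hG E hE hE0
  refine ⟨E, hE, ?_, ?_⟩
  · obtain ⟨g, hg⟩ := AE.Lin.solve (fun _ : T 2 L0 => (1 : ℝ)) (fun _ : T 2 L0 => κ)
      (fun y => if y = 0 then (1 : ℝ) else 0) (fun y => one_pos) (fun _ => hκ)
    have hg0 : ∀ y, 0 ≤ g y :=
      AE.Lin.nonneg (fun _ : T 2 L0 => (1 : ℝ)) (fun _ => κ) g
        (fun y => one_pos) (fun _ => hκ) (by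
        intro y; rw [hg y]; split_ifs <;> norm_num)
    have hfree := Free.free κ hκ hκ1 m (by omega) hm0 (by linarith) g hg0 hg
    have hen := En.energy μ σ2 hm1 hm2 lam δ κ E hlam hδ hδ' hκ hE hE0 g hg
    have h3δ : 0 ≤ 1 - 3 * δ := by linarith
    have h1 : (1 - 3 * δ) * (-E - 2 * lam *
        (2 * Real.exp (-(δ ^ 2 * κ / (230400000 * lam ^ 2))))) ≤
        (1 - 3 * δ) * (-E - 2 * lam *
        (Measure.pi fun _ : T 2 L0 => μ).real {V | δ ≤ |W lam δ κ E V 0|}) := by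
      refine mul_le_mul_of_nonneg_left ?_ h3δ
      have := mul_le_mul_of_nonneg_left (hp1 0) (by positivity : (0 : ℝ) ≤ 2 * lam)
      linarith
    refine h1.trans (hen.trans ?_)
    exact mul_le_mul_of_nonneg_left hfree (by positivity)
  · intro Λ Ω x hΩ
    obtain ⟨c, hc⟩ : ∃ c : ℝ, c = κ * m0 := ⟨_, rfl⟩
    have hcb : |c| ≤ 921600000 * lam ^ 2 := by
      rw [hc, abs_mul, abs_of_pos hκ]
      calc κ * |m0| ≤ κ * (576 * lam ^ 2 * (1600000 / κ)) := by gcongr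
        _ = 921600000 * lam ^ 2 := by
          field_simp
          norm_num
    have h1 := Lb2.locb2 mm r n L0 hr hL0 μ hμ lam δ κ E c θ Θ hlam hδ hδ' hκ hθ.le hΘ hΘ' hE
      (2 * Real.exp (-(δ ^ 2 * κ / (230400000 * lam ^ 2))))
      (2 * Real.exp (-(θ ^ 2 / (5184 * lam ^ 2)))) (by positivity) (by positivity) L (by omega)
      hp1 (by
        intro k hk a b ha hb
        have hLk : L0 = (r * 2 ^ k) * (2 ^ (n - k) * mm) := by
          rw [hL0]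
          have : 2 ^ n = 2 ^ k * 2 ^ (n - k) := by
            rw [← pow_add]
            congr 1
            omega
          rw [this]
          ring
        have hρ : 1 ≤ r * 2 ^ k := Nat.le_trans hr (Nat.le_mul_of_pos_right r (by positivity))
        obtain ⟨ρ, hρd⟩ : ∃ ρ : ℕ, ρ = r * 2 ^ k := ⟨_, rfl⟩
        rw [← hρd] at hLk hρ ⊢
        have hρ0 : (0 : ℝ) < ρ := by exact_mod_cast hρ
        have hcard := Lb2.blk_card_eq ρ _ L0 hLk a b ha hb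
        have hcard' : ((blk ρ L0 a b).card : ℝ) = (ρ : ℝ) ^ 2 := by
          rw [hcard]
          push_cast
          ring
        have h2 := Bs2.Sn_tail μ lam δ κ E hlam hδ hδ' hκ hE (blk ρ L0 a b) ((ρ : ℝ) ^ 2)
          (by positivity) hcard'.le (ρ * θ / κ) (by positivity)
        have e1 : (ρ * θ / κ) ^ 2 * κ ^ 2 / (5184 * lam ^ 2 * (ρ : ℝ) ^ 2) =
            θ ^ 2 / (5184 * lam ^ 2) := by
          field_simp
        rw [e1] at h2
        refine le_trans (le_of_eq ?_) h2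
        congr 1
        ext V
        show (ρ : ℝ) * θ ≤ |bs ρ (FV lam δ κ E V) a b - (ρ : ℝ) ^ 2 * c| ↔
          ρ * θ / κ ≤ |Bs2.Sn lam δ κ E (blk ρ L0 a b) V -
            ∫ V, Bs2.Sn lam δ κ E (blk ρ L0 a b) V ∂(Measure.pi fun _ : T 2 L0 => μ)|
        rw [Lb2.bs_eq ρ _ hLk lam δ κ E V a b ha hb, hmean, hcard', hc]
        have e2 : κ * Bs2.Sn lam δ κ E (blk ρ L0 a b) V - (ρ : ℝ) ^ 2 * (κ * m0) =
            κ * (Bs2.Sn lam δ κ E (blk ρ L0 a b) V - (ρ : ℝ) ^ 2 * m0) := by ring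
        rw [e2, abs_mul, abs_of_pos hκ, div_le_iff₀ hκ, mul_comm κ])
      Λ Ω x hΩ
    refine le_trans (measure_mono ?_) (h1.trans (ENNReal.ofReal_le_ofReal ?_))
    · intro V hV hV'
      refine hV (LO.Dec.FB_mono _ _ _ _ _ _ ?_ hV')
      push_cast
      linarith
    · have h3 : ((2 * L / r : ℕ) : ℝ) ≤ 2 * L / r := by
        refine Nat.cast_div_le.trans ?_
        push_cast
        exact le_rfl
      gcongr

end Pool.Agent.Y663.D2.Pa2
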