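import Mathlib

/-! A discrete Poincare-Sobolev inequality on squares (helper663). -/

set_option autoImplicit false

open scoped BigOperators

namespace Pool.Agent.Y663.D2.Ps

/-- total variation on the square `[0,r)²` -/
noncomputable def TV (r : ℕ) (h : ℕ → ℕ → ℝ) : ℝ :=
  ∑ j ∈ Finset.range r, ∑ i ∈ Finset.range (r - 1), |h (i + 1) j - h i j| +
    ∑ i ∈ Finset.range r, ∑ j ∈ Finset.range (r - 1), |h i (j + 1) - h i j|

theorem tel (r : ℕ) (f : ℕ → ℝ) (i i' : ℕ) (hi : i < r) (hi' : i' < r) :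
    |f i - f i'| ≤ ∑ k ∈ Finset.range (r - 1), |f (k + 1) - f k| := by
  have key : ∀ a b : ℕ, a ≤ b → b < r →
      |f a - f b| ≤ ∑ k ∈ Finset.range (r - 1), |f (k + 1) - f k| := by
    intro a b hab hb
    have h1 := dist_le_Ico_sum_dist f hab
    simp only [Real.dist_eq] at h1
    refine h1.trans ?_
    have h2 : ∑ i ∈ Finset.Ico a b, |f i - f (i + 1)| = ∑ i ∈ Finset.Ico a b, |f (i + 1) - f i| :=
      Finset.sum_congr rfl fun k _ => abs_sub_comm _ _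
    rw [h2]
    refine Finset.sum_le_sum_of_subset_of_nonneg ?_ fun k _ _ => abs_nonneg _
    intro k hk
    rw [Finset.mem_Ico] at hk
    rw [Finset.mem_range]
    omega
  rcases le_total i i' with h | h
  · exact key i i' h hi'
  · rw [abs_sub_comm]
    exact key i' i h hi

theorem ps (r : ℕ) (h : ℕ → ℕ → ℝ) :
    (r : ℝ) ^ 2 * ∑ i ∈ Finset.range r, ∑ j ∈ Finset.range r, h i j ^ 2 ≤
      (r : ℝ) ^ 2 / 2 * TV r h ^ 2 +
        (∑ i ∈ Finset.range r, ∑ j ∈ Finset.range r, h i j) ^ 2 := by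
  set Q := Finset.range r ×ˢ Finset.range r with hQ
  set H : ℕ × ℕ → ℝ := fun p => h p.1 p.2 with hH
  set R : ℕ → ℝ := fun j => ∑ i ∈ Finset.range (r - 1), |h (i + 1) j - h i j| with hR
  set C : ℕ → ℝ := fun i => ∑ j ∈ Finset.range (r - 1), |h i (j + 1) - h i j| with hC
  have hTV : TV r h = ∑ j ∈ Finset.range r, R j + ∑ i ∈ Finset.range r, C i := rfl
  set SR := ∑ j ∈ Finset.range r, R j with hSR
  set SC := ∑ i ∈ Finset.range r, C i with hSC
  have hR0 : ∀ j, 0 ≤ R j := fun j => Finset.sum_nonneg fun _ _ => abs_nonneg _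
  have hC0 : ∀ j, 0 ≤ C j := fun j => Finset.sum_nonneg fun _ _ => abs_nonneg _
  have hcard : (Q.card : ℝ) = (r : ℝ) ^ 2 := by
    rw [hQ, Finset.card_product, Finset.card_range]
    push_cast
    ring
  have e1 : ∑ i ∈ Finset.range r, ∑ j ∈ Finset.range r, h i j ^ 2 = ∑ p ∈ Q, H p ^ 2 := by
    rw [hQ, Finset.sum_product]
  have e2 : ∑ i ∈ Finset.range r, ∑ j ∈ Finset.range r, h i j = ∑ p ∈ Q, H p := by
    rw [hQ, Finset.sum_product]
  have e3 : ∑ p ∈ Q, ∑ q ∈ Q, (H p - H q) ^ 2 =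
      2 * (r : ℝ) ^ 2 * ∑ p ∈ Q, H p ^ 2 - 2 * (∑ p ∈ Q, H p) ^ 2 := by
    have h1 : ∀ p ∈ Q, ∑ q ∈ Q, (H p - H q) ^ 2 =
        (r : ℝ) ^ 2 * H p ^ 2 - 2 * (H p * ∑ q ∈ Q, H q) + ∑ q ∈ Q, H q ^ 2 := by
      intro p _
      have h2 : ∀ q ∈ Q, (H p - H q) ^ 2 = H p ^ 2 - 2 * (H p * H q) + H q ^ 2 :=
        fun q _ => by ring
      rw [Finset.sum_congr rfl h2, Finset.sum_add_distrib, Finset.sum_sub_distrib,
        Finset.sum_const, nsmul_eq_mul, hcard, ← Finset.mul_sum, ← Finset.mul_sum]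
    rw [Finset.sum_congr rfl h1, Finset.sum_add_distrib, Finset.sum_sub_distrib,
      Finset.sum_const, nsmul_eq_mul, hcard, ← Finset.mul_sum, ← Finset.mul_sum,
      ← Finset.sum_mul]
    ring
  have e4 : ∀ p ∈ Q, ∀ q ∈ Q, (H p - H q) ^ 2 ≤ (R p.2 + C q.1) * (C p.1 + R q.2) := by
    intro p hp q hq
    rw [hQ, Finset.mem_product, Finset.mem_range, Finset.mem_range] at hp hq
    have a1 : |H p - H q| ≤ R p.2 + C q.1 := by
      have h1 := tel r (fun i => h i p.2) p.1 q.1 hp.1 hq.1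
      have h2 := tel r (fun j => h q.1 j) p.2 q.2 hp.2 hq.2
      have h3 : H p - H q = (h p.1 p.2 - h q.1 p.2) + (h q.1 p.2 - h q.1 q.2) := by
        simp only [hH]; ring
      rw [h3]
      exact (abs_add_le _ _).trans (add_le_add h1 h2)
    have a2 : |H p - H q| ≤ C p.1 + R q.2 := by
      have h1 := tel r (fun j => h p.1 j) p.2 q.2 hp.2 hq.2
      have h2 := tel r (fun i => h i q.2) p.1 q.1 hp.1 hq.1
      have h3 : H p - H q = (h p.1 p.2 - h p.1 q.2) + (h p.1 q.2 - h q.1 q.2) := by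
        simp only [hH]; ring
      rw [h3]
      exact (abs_add_le _ _).trans (add_le_add h1 h2)
    rw [← sq_abs, sq]
    exact mul_le_mul a1 a2 (abs_nonneg _) (add_nonneg (hR0 _) (hC0 _))
  have e5 : ∑ p ∈ Q, ∑ q ∈ Q, (R p.2 + C q.1) * (C p.1 + R q.2) =
      (r : ℝ) ^ 2 * (SR + SC) ^ 2 := by
    have b1 : ∑ p ∈ Q, R p.2 = r * SR := by
      rw [hQ, Finset.sum_product]
      simp only
      rw [← hSR, Finset.sum_const, Finset.card_range, nsmul_eq_mul]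
    have b2 : ∑ p ∈ Q, C p.1 = r * SC := by
      rw [hQ, Finset.sum_product]
      simp only [Finset.sum_const, Finset.card_range, nsmul_eq_mul]
      rw [← Finset.mul_sum]
    have b3 : ∑ p ∈ Q, R p.2 * C p.1 = SR * SC := by
      rw [hQ, Finset.sum_product]
      have : ∀ x ∈ Finset.range r, ∑ y ∈ Finset.range r, R (x, y).2 * C (x, y).1 = SR * C x := by
        intro x _
        rw [hSR, Finset.sum_mul]
      rw [Finset.sum_congr rfl this, ← Finset.mul_sum]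
    have h1 : ∀ p ∈ Q, ∑ q ∈ Q, (R p.2 + C q.1) * (C p.1 + R q.2) =
        (r : ℝ) ^ 2 * (R p.2 * C p.1) + R p.2 * (r * SR) + C p.1 * (r * SC) + SR * SC := by
      intro p _
      have h2 : ∀ q ∈ Q, (R p.2 + C q.1) * (C p.1 + R q.2) =
          R p.2 * C p.1 + R p.2 * R q.2 + C p.1 * C q.1 + R q.2 * C q.1 := fun q _ => by ring
      rw [Finset.sum_congr rfl h2, Finset.sum_add_distrib, Finset.sum_add_distrib,
        Finset.sum_add_distrib, Finset.sum_const, nsmul_eq_mul, hcard, ← Finset.mul_sum,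
        ← Finset.mul_sum, b1, b2, b3]
    rw [Finset.sum_congr rfl h1, Finset.sum_add_distrib, Finset.sum_add_distrib,
      Finset.sum_add_distrib, Finset.sum_const, nsmul_eq_mul, hcard, ← Finset.mul_sum,
      ← Finset.sum_mul, ← Finset.sum_mul, b1, b2, b3]
    ring
  have e6 : ∑ p ∈ Q, ∑ q ∈ Q, (H p - H q) ^ 2 ≤ (r : ℝ) ^ 2 * (SR + SC) ^ 2 := by
    rw [← e5]
    exact Finset.sum_le_sum fun p hp => Finset.sum_le_sum fun q hq => e4 p hp q hq
  rw [e1, e2, hTV]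
  rw [e3] at e6
  linarith

/-- the Dirichlet form on the square -/
noncomputable def En (r : ℕ) (g : ℕ → ℕ → ℝ) : ℝ :=
  ∑ j ∈ Finset.range r, ∑ i ∈ Finset.range (r - 1), (g (i + 1) j - g i j) ^ 2 +
    ∑ i ∈ Finset.range r, ∑ j ∈ Finset.range (r - 1), (g i (j + 1) - g i j) ^ 2

theorem En_nonneg (r : ℕ) (g : ℕ → ℕ → ℝ) : 0 ≤ En r g :=
  add_nonneg (Finset.sum_nonneg fun _ _ => Finset.sum_nonneg fun _ _ => sq_nonneg _)
    (Finset.sum_nonneg fun _ _ => Finset.sum_nonneg fun _ _ => sq_nonneg _)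

/-- one row -/
theorem row (r : ℕ) (f : ℕ → ℝ) (c : ℝ) (hc : 0 < c) :
    ∑ k ∈ Finset.range (r - 1), |f (k + 1) ^ 2 - f k ^ 2| ≤
      c / 2 * ∑ k ∈ Finset.range (r - 1), (f (k + 1) - f k) ^ 2 +
        2 / c * ∑ k ∈ Finset.range r, f k ^ 2 := by
  have h1 : ∀ k ∈ Finset.range (r - 1), |f (k + 1) ^ 2 - f k ^ 2| ≤
      c / 2 * (f (k + 1) - f k) ^ 2 + 1 / c * (f (k + 1) ^ 2 + f k ^ 2) := by
    intro k _
    have e1 : f (k + 1) ^ 2 - f k ^ 2 = (f (k + 1) - f k) * (f (k + 1) + f k) := by ring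
    rw [e1, abs_mul]
    have e2 : 0 ≤ (c * |f (k + 1) - f k| - |f (k + 1) + f k|) ^ 2 / (2 * c) := by positivity
    have e3 : (c * |f (k + 1) - f k| - |f (k + 1) + f k|) ^ 2 / (2 * c) =
        c / 2 * |f (k + 1) - f k| ^ 2 + 1 / (2 * c) * |f (k + 1) + f k| ^ 2 -
          |f (k + 1) - f k| * |f (k + 1) + f k| := by
      field_simp
      ring
    rw [sq_abs, sq_abs] at e3
    have e4 : 1 / (2 * c) * (f (k + 1) + f k) ^ 2 ≤ 1 / c * (f (k + 1) ^ 2 + f k ^ 2) := by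
      have e5 : 1 / c * (f (k + 1) ^ 2 + f k ^ 2) = 1 / (2 * c) * (2 * (f (k + 1) ^ 2 + f k ^ 2)) := by
        field_simp
      rw [e5]
      apply mul_le_mul_of_nonneg_left _ (by positivity)
      nlinarith [sq_nonneg (f (k + 1) - f k)]
    linarith
  refine (Finset.sum_le_sum h1).trans ?_
  rw [Finset.sum_add_distrib, ← Finset.mul_sum, ← Finset.mul_sum]
  have h2 : ∑ k ∈ Finset.range (r - 1), (f (k + 1) ^ 2 + f k ^ 2) ≤
      2 * ∑ k ∈ Finset.range r, f k ^ 2 := by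
    rw [Finset.sum_add_distrib]
    have a1 : ∑ k ∈ Finset.range (r - 1), f k ^ 2 ≤ ∑ k ∈ Finset.range r, f k ^ 2 :=
      Finset.sum_le_sum_of_subset_of_nonneg (Finset.range_mono (Nat.sub_le r 1))
        fun _ _ _ => sq_nonneg _
    have a2 : ∑ k ∈ Finset.range (r - 1), f (k + 1) ^ 2 ≤ ∑ k ∈ Finset.range r, f k ^ 2 := by
      rcases Nat.eq_zero_or_pos r with h0 | hpos
      · subst h0; simp
      · obtain ⟨s, rfl⟩ : ∃ s, r = s + 1 := ⟨r - 1, by omega⟩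
        rw [Nat.add_sub_cancel, Finset.sum_range_succ' (fun k => f k ^ 2)]
        have := sq_nonneg (f 0)
        linarith
    linarith
  have h3 := mul_le_mul_of_nonneg_left h2 (by positivity : (0 : ℝ) ≤ 1 / c)
  have h4 : 1 / c * (2 * ∑ k ∈ Finset.range r, f k ^ 2) = 2 / c * ∑ k ∈ Finset.range r, f k ^ 2 := by
    ring
  linarith

theorem tv_sq (r : ℕ) (g : ℕ → ℕ → ℝ) (c : ℝ) (hc : 0 < c) :
    TV r (fun i j => g i j ^ 2) ≤ c / 2 * En r g +
      4 / c * ∑ i ∈ Finset.range r, ∑ j ∈ Finset.range r, g i j ^ 2 := by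
  unfold TV En
  have h1 : ∑ j ∈ Finset.range r, ∑ i ∈ Finset.range (r - 1), |g (i + 1) j ^ 2 - g i j ^ 2| ≤
      c / 2 * ∑ j ∈ Finset.range r, ∑ i ∈ Finset.range (r - 1), (g (i + 1) j - g i j) ^ 2 +
      2 / c * ∑ j ∈ Finset.range r, ∑ i ∈ Finset.range r, g i j ^ 2 := by
    rw [Finset.mul_sum, Finset.mul_sum, ← Finset.sum_add_distrib]
    exact Finset.sum_le_sum fun j _ => row r (fun i => g i j) c hc
  have h2 : ∑ i ∈ Finset.range r, ∑ j ∈ Finset.range (r - 1), |g i (j + 1) ^ 2 - g i j ^ 2| ≤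
      c / 2 * ∑ i ∈ Finset.range r, ∑ j ∈ Finset.range (r - 1), (g i (j + 1) - g i j) ^ 2 +
      2 / c * ∑ i ∈ Finset.range r, ∑ j ∈ Finset.range r, g i j ^ 2 := by
    rw [Finset.mul_sum, Finset.mul_sum, ← Finset.sum_add_distrib]
    exact Finset.sum_le_sum fun i _ => row r (fun j => g i j) c hc
  rw [Finset.sum_comm (s := Finset.range r) (t := Finset.range r)] at h1
  have h3 : 4 / c * ∑ i ∈ Finset.range r, ∑ j ∈ Finset.range r, g i j ^ 2 =
      2 / c * ∑ i ∈ Finset.range r, ∑ j ∈ Finset.range r, g i j ^ 2 +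
      2 / c * ∑ i ∈ Finset.range r, ∑ j ∈ Finset.range r, g i j ^ 2 := by ring
  linarith

/-- the block estimate -/
theorem block (r : ℕ) (hr : 1 ≤ r) (p g : ℕ → ℕ → ℝ) (t : ℝ) (ht : 0 ≤ t)
    (hp : ∑ i ∈ Finset.range r, ∑ j ∈ Finset.range r, p i j ^ 2 ≤ (t * r) ^ 2) :
    ∑ i ∈ Finset.range r, ∑ j ∈ Finset.range r, p i j * g i j ^ 2 ≤
      t * ((r : ℝ) ^ 2 / 2 * En r g +
        5 * ∑ i ∈ Finset.range r, ∑ j ∈ Finset.range r, g i j ^ 2) := by
  have hr0 : (0 : ℝ) < r := by exact_mod_cast hr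
  have h1 := ps r (fun i j => g i j ^ 2)
  have h2 := tv_sq r g r hr0
  set S := ∑ i ∈ Finset.range r, ∑ j ∈ Finset.range r, g i j ^ 2 with hS
  have hS0 : 0 ≤ S := Finset.sum_nonneg fun _ _ => Finset.sum_nonneg fun _ _ => sq_nonneg _
  have hE0 := En_nonneg r g
  set T := TV r (fun i j => g i j ^ 2) with hT
  have hT0 : 0 ≤ T := add_nonneg
    (Finset.sum_nonneg fun _ _ => Finset.sum_nonneg fun _ _ => abs_nonneg _)
    (Finset.sum_nonneg fun _ _ => Finset.sum_nonneg fun _ _ => abs_nonneg _)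
  set F := ∑ i ∈ Finset.range r, ∑ j ∈ Finset.range r, (g i j ^ 2) ^ 2 with hF
  -- `r² F ≤ (r T + S)²`
  have h3 : (r : ℝ) ^ 2 * F ≤ (r * T + S) ^ 2 := by
    have : 0 ≤ r * T * S := by positivity
    have h4 : 0 ≤ (r : ℝ) ^ 2 * T ^ 2 := by positivity
    nlinarith
  -- Cauchy-Schwarz
  have h4 : (∑ i ∈ Finset.range r, ∑ j ∈ Finset.range r, p i j * g i j ^ 2) ^ 2 ≤
      (t * r) ^ 2 * F := by
    have a1 := Finset.sum_mul_sq_le_sq_mul_sq (Finset.range r ×ˢ Finset.range r)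
      (fun q => p q.1 q.2) (fun q => g q.1 q.2 ^ 2)
    rw [Finset.sum_product, Finset.sum_product, Finset.sum_product] at a1
    refine a1.trans ?_
    have hF0 : 0 ≤ F := Finset.sum_nonneg fun _ _ => Finset.sum_nonneg fun _ _ => sq_nonneg _
    exact mul_le_mul_of_nonneg_right hp hF0
  have h5 : (∑ i ∈ Finset.range r, ∑ j ∈ Finset.range r, p i j * g i j ^ 2) ^ 2 ≤
      (t * (r * T + S)) ^ 2 := by
    calc _ ≤ (t * r) ^ 2 * F := h4
      _ = t ^ 2 * ((r : ℝ) ^ 2 * F) := by ring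
      _ ≤ t ^ 2 * (r * T + S) ^ 2 := mul_le_mul_of_nonneg_left h3 (by positivity)
      _ = _ := by ring
  have h6 := le_of_sq_le_sq h5 (by positivity)
  refine h6.trans (mul_le_mul_of_nonneg_left ?_ ht)
  have h7 := mul_le_mul_of_nonneg_left h2 hr0.le
  have h8 : (r : ℝ) * (r / 2 * En r g + 4 / r * S) = (r : ℝ) ^ 2 / 2 * En r g + 4 * S := by
    field_simp
  linarith

end Pool.Agent.Y663.D2.Ps
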