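import Pool.Agent.Y663.D2.Ar3
import Pool.Agent.Y663.D2.Pa2
import Pool.Agent.Y663.D2.De
import Pool.Agent.Results.MP_28b024_mp.MobilityEdgeScale

/-! The sharp two-dimensional edge (helper663). -/

set_option autoImplicit false

open scoped BigOperators ENNReal
open MeasureTheory

namespace Pool.Agent.Y663.D2.Sh

open Pool.Agent.H4R2.LO (Reg)
open Pool.Agent.Y663.D2.Ar3

/-- localization for the normalised potential -/
theorem norm_loc2 (B : ℝ) (μ : Measure ℝ) [IsProbabilityMeasure μ]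
    (hμ : μ (Set.Icc (-1) 1)ᶜ = 0) (hreg : Reg B μ) (v : ℝ) (hv0 : 0 ≤ v) (hv1 : v ≤ 1)
    (hm1 : ∫ t, max (-1) (min 1 t) ∂μ = 0) (hm2 : ∫ t, (max (-1) (min 1 t)) ^ 2 ∂μ = v)
    (lam Λ l t : ℝ) (h : St B lam Λ l t) (κw : ℝ)
    (hκ : 30000000000 * (lam ^ 2 * t ^ 3) ≤ κw) (hκ1 : κw ≤ 1) (m : ℝ)
    (hm : m ≤ 1 / 10 ^ 8 * Real.sqrt κw / l ^ 2) :
    ∀ᵐ ω ∂(Measure.infinitePi fun _ : Fin 2 → ℤ => μ),
      Pool.Agent.H4R2.LO.Main.Dec 2 (-1) (fun x => lam * ω x)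
        (Set.Iic (-(v * lam ^ 2 / (2 * Real.pi) * l) - κw - 2 * (2 : ℕ))) m := by
  have h0 := h.lam0
  have hl := h.l0
  have ht := h.t0
  have ht1 := h.t1
  have hl6 := h.l6
  have hΛ := h.Λ0
  have ht3 : 1 ≤ t ^ 3 := one_le_pow₀ ht1
  have hl2 : 0 < lam ^ 2 := by positivity
  have hlt : lam ^ 2 ≤ lam ^ 2 * t ^ 3 := le_mul_of_one_le_right hl2.le ht3
  have hκl : lam ^ 2 ≤ κw := by linarith
  have hκ0 : 0 < κw := by linarith
  obtain ⟨r, hr, hr1, hr2⟩ := h.rr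
  obtain ⟨n, hn, hn2⟩ := h.nn
  obtain ⟨W, M, hW, hMW, hM, hexp, hpM⟩ := h.win κw hκl hκ1
  have hsq : 0 < Real.sqrt κw := Real.sqrt_pos.2 hκ0
  have hsl : lam ≤ Real.sqrt κw := by
    rw [Real.le_sqrt h0.le hκ0.le]
    exact hκl
  have hMW2 : ((M * W + 1 + 2 : ℕ) : ℝ) ≤ 200000 * l ^ 2 * Λ := by
    refine hMW.trans ?_
    rw [div_le_iff₀ hsq]
    calc 200000 * l ^ 2 = 200000 * l ^ 2 * (lam * Λ) := by rw [h.lΛ, mul_one]
      _ ≤ 200000 * l ^ 2 * (Real.sqrt κw * Λ) := by gcongr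
      _ = _ := by ring
  obtain ⟨hk0, hk1, -⟩ := h.kk
  have hδ8 : 1 / l ≤ 1 / 8 := one_div_le_one_div_of_le (by norm_num) (by linarith)
  have hst : 0 < Real.sqrt t := Real.sqrt_pos.2 ht
  have hθ0 : 0 < 288 * lam * Real.sqrt t := by positivity
  obtain ⟨E, _, hE2, hE3⟩ := Pa2.torus_all2 μ hμ v hv0 hm1 hm2 lam (1 / l)
    (2304000000 * lam ^ 2 * l ^ 3) (288 * lam * Real.sqrt t)
    (4 * lam + 3 * (288 * lam * Real.sqrt t) * n) h0 (by positivity) hδ8 hk0 hk1 hθ0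
    (by positivity) r n hr (by
      have e1 : (r : ℝ) * (4 * (2304000000 * lam ^ 2 * l ^ 3) * (1 / l)) =
          4 * lam ^ 2 * (r * (2304000000 * l ^ 2)) := by
        field_simp
      have e2 : 4 * lam ^ 2 * (r * (2304000000 * l ^ 2)) ≤ 4 * lam ^ 2 * Λ := by gcongr
      have e3 : 4 * lam ^ 2 * Λ = 4 * lam * (lam * Λ) := by ring
      rw [e1]
      rw [e3, h.lΛ, mul_one] at e2
      linarith) (M * W + 1)
  have hen := h.energy v E hv0 hv1 hE2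
  have hloss := h.loss r n hr hr2 hn hn2
  obtain ⟨X, hX⟩ : ∃ X : ℝ, X = 4 * (4 * lam + 3 * (288 * lam * Real.sqrt t) * n) ^ 2 +
      921600000 * lam ^ 2 + 288 * lam * Real.sqrt t / ((r * 2 ^ n : ℕ) : ℝ) := ⟨_, rfl⟩
  rw [← hX] at hE3 hloss
  refine De.below2 2 (by norm_num) B μ hreg lam h0 (E - 2 * X) (κw / 2) (1 / 4) (by positivity)
    (by linarith) (by norm_num) W M hW ?_ _ rfl ?_ _ m ?_ ?_
  · intro Λ' Ω x hΩ
    have h1 := hE3 Λ' Ω x hΩ
    have e4 : E - 2 * X - 2 * ((2 : ℕ) : ℝ) = E - 2 * X - 4 := by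
      push_cast
      ring
    rw [e4]
    refine h1.trans (ENNReal.ofReal_le_ofReal ?_)
    rw [h.p1, h.p2]
    refine h.prob r n (M * W + 1) hr hr2 hn ?_
    refine le_trans ?_ hMW2
    push_cast
    linarith
  · have hN : (2 * ((M * W + 1 + 2 : ℕ) : ℝ) + 1) ^ 2 ≤ Λ ^ 3 := by
      have hbig := h.big
      have h1 : 2 * ((M * W + 1 + 2 : ℕ) : ℝ) + 1 ≤ 400001 * l ^ 2 * Λ := by
        have h3 : 1 ≤ l ^ 2 * Λ := by
          have h4 : 1 ≤ l ^ 2 := one_le_pow₀ (by linarith)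
          have h5 := h.Λ_big
          nlinarith
        linarith
      calc (2 * ((M * W + 1 + 2 : ℕ) : ℝ) + 1) ^ 2 ≤ (400001 * l ^ 2 * Λ) ^ 2 := by gcongr
        _ = (160000800001 * l ^ 4) * Λ ^ 2 := by ring
        _ ≤ Λ * Λ ^ 2 := by
            have : 0 < l ^ 4 := by positivity
            gcongr
            linarith
        _ = Λ ^ 3 := by ring
    have hBs : Real.sqrt (B / lam) ≤ Λ := by
      rw [Real.sqrt_le_left hΛ.le, div_le_iff₀ h0]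
      have e : Λ ^ 2 * lam = Λ * (lam * Λ) := by ring
      rw [e, h.lΛ, mul_one]
      exact h.hB
    have hΛ1 : 1 ≤ Λ := by linarith [h.Λ_big]
    have hBs2 : Real.sqrt (Real.sqrt (B / lam)) ≤ Λ := by
      rw [Real.sqrt_le_left hΛ.le]
      nlinarith
    refine sm Λ _ M (2 / (κw / 2)) _ _ _ _ (by linarith [h.Λ_big]) (by positivity) hN
      (by positivity) ?_ (by positivity) ?_ (Real.exp_pos _).le hexp (Real.sqrt_nonneg _) hpM
      (Real.sqrt_nonneg _) hBs (Real.sqrt_nonneg _) hBs2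
    · have hbig := h.big
      have h3 : l ≤ l ^ 4 := by
        calc l = l ^ 1 := (pow_one l).symm
          _ ≤ l ^ 4 := pow_le_pow_right₀ (by linarith) (by norm_num)
      linarith
    · rw [div_le_iff₀ (by positivity)]
      have e : 4 * Λ ^ 2 * (κw / 2) = 2 * (Λ ^ 2 * κw) := by ring
      rw [e]
      have h3 : 1 ≤ Λ ^ 2 * κw := by
        calc (1 : ℝ) = (lam * Λ) ^ 2 := by rw [h.lΛ]; norm_num
          _ = Λ ^ 2 * lam ^ 2 := by ring
          _ ≤ Λ ^ 2 * κw := by gcongr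
      linarith
  · linarith
  · refine hm.trans ?_
    have h2 := Real.log_two_gt_d9
    have h3 : (0 : ℝ) < ((M * W + 1 + 2 : ℕ) : ℝ) := by positivity
    rw [div_div, div_le_div_iff₀ (by positivity) (by positivity)]
    have h4 : ((M * W + 1 + 2 : ℕ) : ℝ) * Real.sqrt κw ≤ 200000 * l ^ 2 := by
      rw [← le_div_iff₀ hsq]
      exact hMW
    calc 1 / 10 ^ 8 * Real.sqrt κw * (((M * W + 1 + 2 : ℕ) : ℝ) * 50)
        = 50 / 10 ^ 8 * (((M * W + 1 + 2 : ℕ) : ℝ) * Real.sqrt κw) := by ring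
      _ ≤ 50 / 10 ^ 8 * (200000 * l ^ 2) := by gcongr
      _ ≤ Real.log 2 * l ^ 2 := by
          have : 0 < l ^ 2 := by positivity
          nlinarith

end Pool.Agent.Y663.D2.Sh
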